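import Pool.Agent.H73.HVN.Parab

/-!
# Module Two: two descents; Deodhar's lemma; descent propagation

PLAN.
* `two_descents`: `i ≠ j` right descents of `x`. Write `x = u d`, `d ∈ W_{i,j}`, `u` without right
  descents in `{i, j}` (`exists_min`, `L = {i, j}`). By `length_mul_of_min` (for `d` and `d s_i`, `d s_j`)
  `i` and `j` are right descents of `d`. `d ≠ 1`, so `d = d' s_i` with `ℓ(d') = ℓ(d) - 1`. Reduced words of
  `d` in the letters `i, j` alternate (a reduced word has no two equal adjacent letters), so `d` has a
  reduced word `alternatingWord j i n` (the one that ends in `i`) and a reduced word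
  `alternatingWord i j n` (the one that ends in `j`), `n = ℓ(d) ≥ 1` (CHECK the Mathlib convention: 
  `alternatingWord i i' m` ends in `i'`). Equality of the two products gives `(s_i s_j)^n = 1`
  (`prod_alternatingWord_eq_mul_pow`, cases `n` even or odd; or directly: the product of one with the
  inverse of the other is `(s_i s_j)^{±n}`), so `M i j ≠ 0` by `pow_ne_one_of_eq_zero`. If `n = 1`,
  `s_i = s_j`: contradiction with `simple_injective`. So `n ≥ 2`, and the reduced word ending in `i`
  reads `… j i`, so `j` is a right descent of `d s_i`, and of `x s_i` by `length_mul_of_min` again.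
* `two_left_descents`: inverses.
* `deodhar_left`: `v` has no left descent in `L`. Suppose `v s_c` has a left descent `i ∈ L`. Then
  `ℓ(s_i v) = ℓ(v) + 1`. If `ℓ(v s_c) < ℓ(v)`, then
  `ℓ(s_i v s_c) ≥ ℓ(s_i v) - 1 = ℓ(v) = ℓ(v s_c) + 1`: contradiction. So `c` is not a right descent of `v`
  and `ℓ(s_i v s_c) < ℓ(v s_c) = ℓ(v) + 1`: `simple_mul_eq_mul_simple` gives `s_i v = v s_c`.
* `desc_of_mul`: induction on `ℓ(l)`. If `l ≠ 1` it has a right descent `k ∈ L`, `k` is a right descent of
  `u l`, `k ≠ j`, so by `two_descents` `j` is a right descent of `u (l s_k)`.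
-/

set_option autoImplicit false

namespace Pool.Agent.H73.HVN

universe u v

variable {B : Type v} {W : Type u} [Group W] {M : CoxeterMatrix B} (cs : CoxeterSystem M W)

private theorem mul_pow_mul_aux (a b : W) (n : ℕ) : a * (b * a) ^ n * b = (a * b) ^ (n + 1) := by
  induction n with
  | zero => simp
  | succ n ih =>
    rw [pow_succ, pow_succ (a * b) (n + 1), ← ih]
    group

/-- alternating product of `n` factors, the last one is `s_j` -/
private def tp (cs : CoxeterSystem M W) : ℕ → B → B → W
  | 0, _, _ => 1
  | n + 1, i, j => tp cs n j i * cs.simple j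

private theorem tp_zero (i j : B) : tp cs 0 i j = 1 := rfl

private theorem tp_succ (n : ℕ) (i j : B) : tp cs (n + 1) i j = tp cs n j i * cs.simple j := rfl

private theorem tp_inv_mul (n : ℕ) (i j : B) :
    (tp cs n i j)⁻¹ * tp cs n j i = (cs.simple j * cs.simple i) ^ n := by
  induction n generalizing i j with
  | zero => simp [tp_zero]
  | succ n ih =>
    rw [tp_succ, tp_succ, ← mul_pow_mul_aux, ← ih j i, mul_inv_rev, cs.inv_simple]
    group

private theorem length_tp_le (n : ℕ) (i j : B) : cs.length (tp cs n i j) ≤ n := by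
  induction n generalizing i j with
  | zero => simp [tp_zero]
  | succ n ih =>
    rw [tp_succ]
    have h1 := cs.length_mul_le (tp cs n j i) (cs.simple j)
    have h2 := ih j i
    rw [cs.length_simple] at h1
    omega

private theorem eq_tp (n : ℕ) {i j : B} (hij : i ≠ j) {d : W} (hn : cs.length d = n)
    (hd : d ∈ WP cs ({i, j} : Set B)) (hj : cs.IsRightDescent d j) : d = tp cs n i j := by
  induction n generalizing i j d with
  | zero =>
    rw [cs.length_eq_zero_iff] at hn
    rw [hn] at hj
    exact absurd hj (cs.not_isRightDescent_one j)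
  | succ n ih =>
    have h1 := cs.isRightDescent_iff.1 hj
    have h2 : d = d * cs.simple j * cs.simple j := by
      rw [cs.simple_mul_simple_cancel_right]
    have h3 : d * cs.simple j ∈ WP cs ({i, j} : Set B) :=
      mul_mem hd ((simple_mem_WP_iff cs).2 (by simp))
    rw [tp_succ]
    by_cases h4 : d * cs.simple j = 1
    · have h5 : cs.length d = 1 := by
        rw [h4, cs.length_one] at h1
        omega
      have h6 : n = 0 := by omega
      subst h6
      rw [tp_zero, one_mul, h2, h4, one_mul]
    · obtain ⟨k, hk⟩ := cs.exists_rightDescent_of_ne_one h4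
      have hkm := right_descent_mem cs h3 hk
      have hkj : k ≠ j := by
        rintro rfl
        have h7 : cs.length (d * cs.simple k * cs.simple k) < cs.length (d * cs.simple k) := hk
        rw [← h2] at h7
        omega
      have hki : k = i := by
        rcases hkm with h | h
        · exact h
        · exact absurd h hkj
      subst hki
      have h8 := ih (i := j) (j := k) hij.symm (d := d * cs.simple j) (by omega)
        (by rw [Set.pair_comm]; exact h3) hk
      rw [← h8]
      exact h2

private theorem two_aux {d : W} {i j : B} (hij : i ≠ j) (hd : d ∈ WP cs ({i, j} : Set B))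
    (hi : cs.IsRightDescent d i) (hj : cs.IsRightDescent d j) :
    M i j ≠ 0 ∧ cs.IsRightDescent (d * cs.simple i) j := by
  have h1 : d = tp cs (cs.length d) i j := eq_tp cs _ hij rfl hd hj
  have h2 : d = tp cs (cs.length d) j i := eq_tp cs _ hij.symm rfl (by rw [Set.pair_comm]; exact hd) hi
  have h3 : (cs.simple j * cs.simple i) ^ cs.length d = 1 := by
    rw [← tp_inv_mul, ← h1, ← h2, inv_mul_cancel]
  have h4 : cs.length d ≠ 0 := by
    intro h
    rw [cs.length_eq_zero_iff] at h
    rw [h] at hi
    exact cs.not_isRightDescent_one i hi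
  refine ⟨?_, ?_⟩
  · intro h
    rw [M.symmetric] at h
    exact pow_ne_one_of_eq_zero cs h h4 h3
  · have h5 := cs.isRightDescent_iff.1 hi
    rcases hn : cs.length d with _ | _ | m
    · exact absurd hn h4
    · rw [hn] at h1 h2
      rw [tp_succ, tp_zero, one_mul] at h1 h2
      exact absurd (simple_injective cs (h2.symm.trans h1)) hij
    · rw [hn] at h2
      have h6 : d * cs.simple i = tp cs m j i * cs.simple j := by
        rw [← tp_succ]
        conv_lhs => rw [h2, tp_succ]
        rw [cs.simple_mul_simple_cancel_right]
      have h7 : d * cs.simple i * cs.simple j = tp cs m j i := by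
        rw [h6, cs.simple_mul_simple_cancel_right]
      have h8 := length_tp_le cs m j i
      change cs.length (d * cs.simple i * cs.simple j) < cs.length (d * cs.simple i)
      rw [h7]
      omega

theorem two_descents {x : W} {i j : B} (hij : i ≠ j) (hi : cs.IsRightDescent x i)
    (hj : cs.IsRightDescent x j) : M i j ≠ 0 ∧ cs.IsRightDescent (x * cs.simple i) j := by
  obtain ⟨u, d, hu, hd, rfl⟩ := exists_min cs ({i, j} : Set B) x
  have hsi : cs.simple i ∈ WP cs ({i, j} : Set B) := (simple_mem_WP_iff cs).2 (by simp)
  have hsj : cs.simple j ∈ WP cs ({i, j} : Set B) := (simple_mem_WP_iff cs).2 (by simp)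
  have l0 := length_mul_of_min cs hu hd
  have li := length_mul_of_min cs hu (mul_mem hd hsi)
  have lj := length_mul_of_min cs hu (mul_mem hd hsj)
  have lij := length_mul_of_min cs hu (mul_mem (mul_mem hd hsi) hsj)
  have hi' : cs.length (u * d * cs.simple i) < cs.length (u * d) := hi
  have hj' : cs.length (u * d * cs.simple j) < cs.length (u * d) := hj
  rw [mul_assoc, li, l0] at hi'
  rw [mul_assoc, lj, l0] at hj'
  obtain ⟨h1, h2⟩ := two_aux cs hij hd (show cs.length (d * cs.simple i) < cs.length d by omega)
    (show cs.length (d * cs.simple j) < cs.length d by omega)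
  refine ⟨h1, ?_⟩
  have h2' : cs.length (d * cs.simple i * cs.simple j) < cs.length (d * cs.simple i) := h2
  change cs.length (u * d * cs.simple i * cs.simple j) < cs.length (u * d * cs.simple i)
  have e1 : u * d * cs.simple i = u * (d * cs.simple i) := mul_assoc _ _ _
  rw [e1, mul_assoc u, lij, li]
  omega

theorem two_left_descents {x : W} {i j : B} (hij : i ≠ j) (hi : cs.IsLeftDescent x i)
    (hj : cs.IsLeftDescent x j) : M i j ≠ 0 ∧ cs.IsLeftDescent (cs.simple i * x) j := by
  obtain ⟨h1, h2⟩ := two_descents cs hij (cs.isRightDescent_inv_iff.2 hi)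
    (cs.isRightDescent_inv_iff.2 hj)
  refine ⟨h1, ?_⟩
  rw [← cs.isRightDescent_inv_iff, mul_inv_rev, cs.inv_simple]
  exact h2

/-- Deodhar's lemma -/
theorem deodhar_left {L : Set B} {v : W} (hv : ∀ i ∈ L, ¬ cs.IsLeftDescent v i) (c : B) :
    (∀ i ∈ L, ¬ cs.IsLeftDescent (v * cs.simple c) i) ∨
      ∃ i ∈ L, v * cs.simple c = cs.simple i * v := by
  by_cases h : ∀ i ∈ L, ¬ cs.IsLeftDescent (v * cs.simple c) i
  · exact Or.inl h
  · push Not at h
    obtain ⟨i, hi, hd⟩ := h
    refine Or.inr ⟨i, hi, ?_⟩
    have h1 := cs.not_isLeftDescent_iff.1 (hv i hi)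
    have h2 := cs.isLeftDescent_iff.1 hd
    have h3 : cs.simple i * (v * cs.simple c) = cs.simple i * v * cs.simple c :=
      (mul_assoc _ _ _).symm
    have h4 := cs.length_mul_simple (cs.simple i * v) c
    have h5 := cs.length_mul_simple v c
    rw [h3] at h2
    have h6 : ¬ cs.IsRightDescent v c := by
      intro h7
      have h8 := cs.isRightDescent_iff.1 h7
      omega
    have h9 := cs.not_isRightDescent_iff.1 h6
    exact (simple_mul_eq_mul_simple cs (hv i hi) h6 (by omega)).symm

theorem desc_of_mul {L : Set B} {u l : W} (hu : ∀ i ∈ L, ¬ cs.IsRightDescent u i)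
    (hl : l ∈ WP cs L) {j : B} (hj : j ∉ L) (h : cs.IsRightDescent (u * l) j) :
    cs.IsRightDescent u j := by
  induction hn : cs.length l generalizing l with
  | zero =>
    rw [cs.length_eq_zero_iff] at hn
    rw [hn, mul_one] at h
    exact h
  | succ n ih =>
    have hl1 : l ≠ 1 := by
      rintro rfl
      rw [cs.length_one] at hn
      omega
    obtain ⟨k, hk⟩ := cs.exists_rightDescent_of_ne_one hl1
    have hkL := right_descent_mem cs hl hk
    have hk' := cs.isRightDescent_iff.1 hk
    have hsk : cs.simple k ∈ WP cs L := (simple_mem_WP_iff cs).2 hkL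
    have hlk : l * cs.simple k ∈ WP cs L := mul_mem hl hsk
    have l0 := length_mul_of_min cs hu hl
    have l1 := length_mul_of_min cs hu hlk
    have hkj : k ≠ j := by
      rintro rfl
      exact hj hkL
    have hd : cs.IsRightDescent (u * l) k := by
      change cs.length (u * l * cs.simple k) < cs.length (u * l)
      rw [mul_assoc, l0, l1]
      omega
    have h2 := (two_descents cs hkj hd h).2
    rw [mul_assoc] at h2
    exact ih hlk h2 (by omega)

end Pool.Agent.H73.HVN
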