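import Pool.Agent.H73.HVN.Comm

/-!
# Module Coef: matrix coefficients of operators commuting with the right Hecke operators

`cf x z y = (x δ_y)(z)`. `CC cs q X i` is the condition
`X(z, y s_i) + p_i [i ∈ D_R(y)] X(z, y) = X(z s_i, y) + p_i [i ∈ D_R(z)] X(z, y)` for all `z, y`.

PLAN. `CC_cf_iff`: `(x R_i δ_y)(z) = (x δ_{y s_i})(z) + pr(y) (x δ_y)(z)` (`RR_δ`) and
`(R_i x δ_y)(z) = (x δ_y)(z s_i) + pr(z) (x δ_y)(z)` (`RR_apply`); use `ext_δ`.
`CC_ext`: induction over `y` (`simple_induction_right`): `CC` expresses `X(z, y s_i)` by the `X(·, y)`.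
`CC_one`: direct (`z = y s_i ↔ z s_i = y`), or from `CC_cf_iff` with `x = 1`.
`cf_one`, `mem_HA_of_CC`, `CC_of_mem`: from `mem_HA_iff`.
`HA_ext`: `x, x' ∈ HA`, `x δ_1 = x' δ_1` implies `x = x'` (from `CC_ext`, `ext_δ`).
-/

set_option autoImplicit false

open scoped ComplexOrder InnerProductSpace
open Filter Topology

namespace Pool.Agent.H73.HVN

universe u v

variable {B : Type v} {W : Type u} [Group W] {M : CoxeterMatrix B} (cs : CoxeterSystem M W)

/-- matrix coefficients -/
noncomputable def cf (x : L2 W →L[ℂ] L2 W) (z y : W) : ℂ := x (δ y) z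

/-- the commutation condition `C_i` -/
def CC (q : B → ℝ) (X : W → W → ℂ) (i : B) : Prop :=
  ∀ z y, X z (y * cs.simple i) + pr cs q i y * X z y =
    X (z * cs.simple i) y + pr cs q i z * X z y

theorem CC_cf_iff (q : B → ℝ) (x : L2 W →L[ℂ] L2 W) (i : B) :
    CC cs q (cf x) i ↔ x * RR cs q i = RR cs q i * x := by
  have hL : ∀ y z, (x * RR cs q i) (δ y) z =
      cf x z (y * cs.simple i) + pr cs q i y * cf x z y := by
    intro y z
    rw [mul_apply_eq_comp, RR_δ, map_add, map_smul]
    rfl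
  have hR : ∀ y z, (RR cs q i * x) (δ y) z =
      cf x (z * cs.simple i) y + pr cs q i z * cf x z y := by
    intro y z
    rw [mul_apply_eq_comp, RR_apply]
    rfl
  constructor
  · intro h
    refine ext_δ (fun y => ?_)
    ext z
    rw [hL, hR]
    exact h z y
  · intro h z y
    rw [← hL, ← hR, h]

theorem mem_HA_iff_CC {q : B → ℝ} (hq : Admissible cs q) (x : L2 W →L[ℂ] L2 W) :
    x ∈ HA cs q ↔ ∀ i, CC cs q (cf x) i := by
  rw [mem_HA_iff cs hq]
  exact forall_congr' (fun i => (CC_cf_iff cs q x i).symm)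

theorem CC_ext {q : B → ℝ} {X X' : W → W → ℂ} (hX : ∀ i, CC cs q X i) (hX' : ∀ i, CC cs q X' i)
    (h : ∀ z, X z 1 = X' z 1) (z y : W) : X z y = X' z y := by
  have key : ∀ y : W, ∀ z, X z y = X' z y := by
    intro y
    refine cs.simple_induction_right y (p := fun y => ∀ z, X z y = X' z y) h ?_
    intro y i ih z
    have h1 := hX i z y
    have h2 := hX' i z y
    rw [ih (z * cs.simple i), ih z] at h1
    linear_combination h1 - h2
  exact key y z

theorem CC_one (q : B → ℝ) (i : B) :
    CC cs q (fun z y => open Classical in if z = y then (1 : ℂ) else 0) i := by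
  intro z y
  have e1 : (z = y * cs.simple i) ↔ (z * cs.simple i = y) := by
    constructor
    · intro h
      rw [h]
      simp
    · intro h
      rw [← h]
      simp
  by_cases h : z = y
  · subst h
    by_cases h2 : z = z * cs.simple i
    · have h3 : z * cs.simple i = z := h2.symm
      simp only [h3, if_true]
    · have h3 : ¬ z * cs.simple i = z := fun h => h2 h.symm
      simp only [if_neg h2, if_neg h3]
  · by_cases h2 : z = y * cs.simple i
    · have h3 : z * cs.simple i = y := e1.mp h2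
      simp only [if_pos h2, if_pos h3, if_neg h, mul_zero]
    · have h3 : ¬ z * cs.simple i = y := fun h => h2 (e1.mpr h)
      simp only [if_neg h2, if_neg h3, if_neg h, mul_zero]

theorem HA_ext {q : B → ℝ} (hq : Admissible cs q) {x x' : L2 W →L[ℂ] L2 W} (hx : x ∈ HA cs q)
    (hx' : x' ∈ HA cs q) (h : x (δ 1) = x' (δ 1)) : x = x' := by
  refine ext_δ (fun y => ?_)
  ext z
  exact CC_ext cs ((mem_HA_iff_CC cs hq x).mp hx) ((mem_HA_iff_CC cs hq x').mp hx')
    (fun z => by simp only [cf, h]) z y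

/-- `Φ` multiplies the coefficients of `x δ_1` by the function `c` -/
def IsMult (q : B → ℝ) (Φ : HA cs q →ₗ[ℂ] HA cs q) (c : W → ℂ) : Prop :=
  ∀ (x : HA cs q) (w : W), ((Φ x : L2 W →L[ℂ] L2 W) (δ 1)) w =
    c w * ((x : L2 W →L[ℂ] L2 W) (δ 1)) w

end Pool.Agent.H73.HVN
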