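import Pool.Agent.H73.HVN.Closure

/-!
# Module Conv: compactness, finite rank and convergence of multipliers

PLAN.
* `isCompactOperator_wop`: `A = wop (Equiv.refl X) c`; `c` is bounded (finitely many `x` with `|c x| ≥ 1`). For
  `ε > 0` let `c_ε = c` on the finite set `{x | ε ≤ ‖c x‖}` and `0` elsewhere; `wop _ c_ε` has finite-dimensional
  range, so it is compact, and `‖A - wop _ c_ε‖ ≤ ε`. The compact operators are closed
  (`isClosed_setOf_isCompactOperator` or `isCompactOperator_of_tendsto`).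
* `tendsto_mult`: `‖Φ_i x δ_1 - x δ_1‖² = ∑_w ‖c_i w - 1‖² ‖(x δ_1) w‖²` (`hasSum_normsq`), each term tends to `0`,
  dominated by `4 ‖(x δ_1) w‖²`: `tendsto_tsum_of_dominated_convergence`. Then take square roots.
* `tendsto_weak`: `‖Φ_i x‖ ≤ C ‖x‖` by `CBNormLE.norm_le` (if `C < 0`, the right side is `≤ 0`, fine). For
  `w : W` let `R` be as in `exists_RR_word`; `Φ_i x δ_w = Φ_i x R δ_1 = R Φ_i x δ_1 → R x δ_1 = x δ_w`
  (`mem_HA_iff`). So `Φ_i x ξ → x ξ` for `ξ` in the span of the `δ_w`, which is dense, and by uniform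
  boundedness for all `ξ`. For `φ(x) = ∑' ⟪η_j, x ξ_j⟫`: each term converges, dominated by
  `|C| ‖x‖ ‖ξ_j‖ ‖η_j‖`, summable: `tendsto_tsum_of_dominated_convergence`.
* `finiteDimensional_range`: the linear map `range Φ → (s → ℂ)`, `y ↦ ((y δ_1) w)_{w ∈ s}`, where
  `s = {w | c w ≠ 0}` (finite) is injective: if all these coordinates of `y = Φ x` vanish then
  `y δ_1 = 0` (the others vanish by `IsMult`), so `y = 0` by `HA_ext`. `FiniteDimensional.of_injective`.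
-/

set_option autoImplicit false

open scoped ComplexOrder InnerProductSpace
open Filter Topology

namespace Pool.Agent.H73.HVN

universe u v w

private theorem conv_rank_one {X : Type u} (x : X) (a : ℂ) :
    ∃ A : L2 X →L[ℂ] L2 X, IsCompactOperator A ∧ ∀ f : L2 X, A f = (a * f x) • (δ x : L2 X) := by
  refine ⟨(ContinuousLinearMap.toSpanSingleton ℂ (a • (δ x : L2 X))).comp
    (innerSL ℂ (δ x : L2 X)), ?_, ?_⟩
  · have h : IsCompactOperator (innerSL ℂ (δ x : L2 X)) :=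
      isCompactOperator_of_locallyCompactSpace_dom _
    exact h.clm_comp (ContinuousLinearMap.toSpanSingleton ℂ (a • (δ x : L2 X)))
  · intro f
    rw [ContinuousLinearMap.comp_apply, innerSL_apply_apply, inner_δ,
      ContinuousLinearMap.toSpanSingleton_apply, smul_smul, mul_comm]

private theorem conv_finite {X : Type u} (c : X → ℂ) (s : Finset X) :
    ∃ A : L2 X →L[ℂ] L2 X, IsCompactOperator A ∧
      ∀ f : L2 X, A f = ∑ x ∈ s, (c x * f x) • (δ x : L2 X) := by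
  classical
  induction s using Finset.induction_on with
  | empty => exact ⟨0, isCompactOperator_zero, fun f => by simp⟩
  | insert y s hy ih =>
    obtain ⟨A, hA, hA'⟩ := ih
    obtain ⟨A₁, hA₁, hA₁'⟩ := conv_rank_one y (c y)
    refine ⟨A₁ + A, ?_, fun f => ?_⟩
    · exact hA₁.add hA
    · rw [Finset.sum_insert hy, ← hA', ← hA₁']
      rfl

private theorem conv_norm {X : Type u} {A : L2 X →L[ℂ] L2 X} {d : X → ℂ} {e : ℝ} (he : 0 ≤ e)
    (hA : ∀ (f : L2 X) (x : X), A f x = d x * f x) (hd : ∀ x, ‖d x‖ ≤ e) : ‖A‖ ≤ e := by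
  refine ContinuousLinearMap.opNorm_le_bound _ he fun f => ?_
  have h1 := hasSum_normsq (A f)
  have h2 := (hasSum_normsq f).mul_left (e ^ 2)
  have h3 : ‖A f‖ ^ 2 ≤ e ^ 2 * ‖f‖ ^ 2 := by
    refine hasSum_le (fun x => ?_) h1 h2
    rw [hA, norm_mul, mul_pow]
    exact mul_le_mul_of_nonneg_right (pow_le_pow_left₀ (norm_nonneg _) (hd x) 2) (sq_nonneg _)
  rw [← mul_pow] at h3
  exact (pow_le_pow_iff_left₀ (norm_nonneg _) (mul_nonneg he (norm_nonneg _)) two_ne_zero).1 h3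

theorem isCompactOperator_wop {X : Type u} {c : X → ℂ} (hc : ∀ ε > 0, {x | ε ≤ ‖c x‖}.Finite) :
    IsCompactOperator (wop (Equiv.refl X) c) := by
  classical
  -- `c` is bounded
  obtain ⟨C, hC⟩ : ∃ C : ℝ, ∀ x, ‖c x‖ ≤ C := by
    have h1 : BddAbove ((fun x => ‖c x‖) '' {x | (1 : ℝ) ≤ ‖c x‖}) :=
      ((hc 1 one_pos).image _).bddAbove
    obtain ⟨C, hC⟩ := h1
    refine ⟨max C 1, fun x => ?_⟩
    by_cases hx : (1 : ℝ) ≤ ‖c x‖
    · exact le_max_of_le_left (hC ⟨x, hx, rfl⟩)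
    · exact le_max_of_le_right (not_le.1 hx).le
  have hpos : ∀ n : ℕ, (0 : ℝ) < 1 / ((n : ℝ) + 1) := fun n => Nat.one_div_pos_of_nat
  choose A hA hA' using fun n : ℕ => conv_finite c (hc (1 / ((n : ℝ) + 1)) (hpos n)).toFinset
  refine isCompactOperator_of_tendsto (l := atTop) (F := A) ?_ (Eventually.of_forall hA)
  rw [tendsto_iff_norm_sub_tendsto_zero]
  refine squeeze_zero (fun n => norm_nonneg _) (fun n => ?_) tendsto_one_div_add_atTop_nhds_zero_nat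
  have hcoef : ∀ (f : L2 X) (x : X), (∑ y ∈ (hc (1 / ((n : ℝ) + 1)) (hpos n)).toFinset,
      (c y * f y) • (δ y : L2 X)) x =
      if x ∈ (hc (1 / ((n : ℝ) + 1)) (hpos n)).toFinset then c x * f x else 0 := by
    intro f x
    rw [lp.coeFn_sum, Finset.sum_apply]
    by_cases hx : x ∈ (hc (1 / ((n : ℝ) + 1)) (hpos n)).toFinset
    · rw [if_pos hx, Finset.sum_eq_single x]
      · rw [lp.coeFn_smul, Pi.smul_apply, δ_self, smul_eq_mul, mul_one]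
      · intro y _ hy
        rw [lp.coeFn_smul, Pi.smul_apply, δ_ne (Ne.symm hy), smul_zero]
      · intro h
        exact absurd hx h
    · rw [if_neg hx]
      refine Finset.sum_eq_zero fun y hy => ?_
      have hxy : x ≠ y := fun h => hx (h ▸ hy)
      rw [lp.coeFn_smul, Pi.smul_apply, δ_ne hxy, smul_zero]
  refine conv_norm (d := fun x => if x ∈ (hc (1 / ((n : ℝ) + 1)) (hpos n)).toFinset then 0
    else -(c x)) (hpos n).le (fun f x => ?_) (fun x => ?_)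
  · have h1 : (A n - wop (Equiv.refl X) c) f x = A n f x - wop (Equiv.refl X) c f x := rfl
    rw [h1, wop_apply _ _ hC, hA', hcoef, Equiv.refl_apply]
    by_cases hx : x ∈ (hc (1 / ((n : ℝ) + 1)) (hpos n)).toFinset
    · rw [if_pos hx, if_pos hx]
      ring
    · rw [if_neg hx, if_neg hx]
      ring
  · split_ifs with hx
    · rw [norm_zero]
      exact (hpos n).le
    · rw [norm_neg]
      rw [Set.Finite.mem_toFinset, Set.mem_ofPred_eq, not_le] at hx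
      exact hx.le

variable {B : Type v} {W : Type u} [Group W] {M : CoxeterMatrix B} (cs : CoxeterSystem M W)

theorem tendsto_mult {q : B → ℝ} {ι : Type w} {l : Filter ι} {Φ : ι → (HA cs q →ₗ[ℂ] HA cs q)}
    {c : ι → W → ℂ} (hΦ : ∀ i, IsMult cs q (Φ i) (c i)) (hc : ∀ i x, ‖c i x‖ ≤ 1)
    (hlim : ∀ x, Tendsto (fun i => c i x) l (𝓝 1)) (x : HA cs q) :
    Tendsto (fun i => ‖(Φ i x : L2 W →L[ℂ] L2 W) (δ 1) - (x : L2 W →L[ℂ] L2 W) (δ 1)‖) l (𝓝 0) := by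
  have hsq : ∀ i, HasSum (fun w => ‖(c i w - 1) * ((x : L2 W →L[ℂ] L2 W) (δ 1)) w‖ ^ 2)
      (‖(Φ i x : L2 W →L[ℂ] L2 W) (δ 1) - (x : L2 W →L[ℂ] L2 W) (δ 1)‖ ^ 2) := by
    intro i
    have h1 := hasSum_normsq ((Φ i x : L2 W →L[ℂ] L2 W) (δ 1) - (x : L2 W →L[ℂ] L2 W) (δ 1))
    have h2 : (fun w => ‖(c i w - 1) * ((x : L2 W →L[ℂ] L2 W) (δ 1)) w‖ ^ 2) =
        fun w => ‖((Φ i x : L2 W →L[ℂ] L2 W) (δ 1) - (x : L2 W →L[ℂ] L2 W) (δ 1)) w‖ ^ 2 := by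
      funext w
      rw [lp.coeFn_sub, Pi.sub_apply, hΦ i x w, sub_mul, one_mul]
    rw [h2]
    exact h1
  have hlim2 : Tendsto (fun i => ∑' w, ‖(c i w - 1) * ((x : L2 W →L[ℂ] L2 W) (δ 1)) w‖ ^ 2) l
      (𝓝 (∑' _ : W, (0 : ℝ))) := by
    refine tendsto_tsum_of_dominated_convergence
      (bound := fun w => 4 * ‖((x : L2 W →L[ℂ] L2 W) (δ 1)) w‖ ^ 2)
      ((hasSum_normsq _).summable.mul_left 4) (fun w => ?_) (Eventually.of_forall fun i w => ?_)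
    · have h1 : Tendsto (fun i => (c i w - 1) * ((x : L2 W →L[ℂ] L2 W) (δ 1)) w) l (𝓝 0) := by
        have h2 := ((hlim w).sub_const 1).mul_const (((x : L2 W →L[ℂ] L2 W) (δ 1)) w)
        rwa [sub_self, zero_mul] at h2
      have h3 := (h1.norm).pow 2
      rwa [norm_zero, zero_pow two_ne_zero] at h3
    · rw [Real.norm_of_nonneg (sq_nonneg _), norm_mul, mul_pow]
      refine mul_le_mul_of_nonneg_right ?_ (sq_nonneg _)
      have h1 : ‖c i w - 1‖ ≤ 2 := by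
        refine (norm_sub_le _ _).trans ?_
        rw [norm_one]
        linarith [hc i w]
      nlinarith [norm_nonneg (c i w - 1)]
  rw [tsum_zero] at hlim2
  have h3 := (Real.continuous_sqrt.tendsto 0).comp hlim2
  rw [Real.sqrt_zero] at h3
  refine h3.congr fun i => ?_
  rw [Function.comp_apply, (hsq i).tsum_eq, Real.sqrt_sq (norm_nonneg _)]

private theorem conv_norm_le {q : B → ℝ} {Φ : HA cs q →ₗ[ℂ] HA cs q} {C : ℝ}
    (hC : CBNormLE (HA cs q) Φ C) (x : HA cs q) (ξ : L2 W) :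
    ‖(Φ x : L2 W →L[ℂ] L2 W) ξ‖ ≤ |C| * ‖(x : L2 W →L[ℂ] L2 W)‖ * ‖ξ‖ := by
  have h1 := hC.norm_le x ξ ((Φ x : L2 W →L[ℂ] L2 W) ξ)
  rw [inner_self_eq_norm_sq_to_K] at h1
  have h2 : ‖((‖(Φ x : L2 W →L[ℂ] L2 W) ξ‖ : ℝ) : ℂ) ^ 2‖ = ‖(Φ x : L2 W →L[ℂ] L2 W) ξ‖ ^ 2 := by
    rw [norm_pow, Complex.norm_real, norm_norm]
  have h3 : ‖(Φ x : L2 W →L[ℂ] L2 W) ξ‖ ^ 2 ≤
      C * ‖(x : L2 W →L[ℂ] L2 W)‖ * (‖ξ‖ * ‖(Φ x : L2 W →L[ℂ] L2 W) ξ‖) := by
    rw [← h2]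
    exact h1
  have h4 : C * ‖(x : L2 W →L[ℂ] L2 W)‖ * (‖ξ‖ * ‖(Φ x : L2 W →L[ℂ] L2 W) ξ‖) ≤
      |C| * ‖(x : L2 W →L[ℂ] L2 W)‖ * (‖ξ‖ * ‖(Φ x : L2 W →L[ℂ] L2 W) ξ‖) := by
    refine mul_le_mul_of_nonneg_right ?_ (by positivity)
    exact mul_le_mul_of_nonneg_right (le_abs_self C) (norm_nonneg _)
  by_cases h0 : ‖(Φ x : L2 W →L[ℂ] L2 W) ξ‖ = 0
  · rw [h0]
    positivity
  · have h5 : 0 < ‖(Φ x : L2 W →L[ℂ] L2 W) ξ‖ := lt_of_le_of_ne (norm_nonneg _) (Ne.symm h0)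
    refine le_of_mul_le_mul_right ?_ h5
    calc ‖(Φ x : L2 W →L[ℂ] L2 W) ξ‖ * ‖(Φ x : L2 W →L[ℂ] L2 W) ξ‖
        = ‖(Φ x : L2 W →L[ℂ] L2 W) ξ‖ ^ 2 := (sq _).symm
      _ ≤ |C| * ‖(x : L2 W →L[ℂ] L2 W)‖ * (‖ξ‖ * ‖(Φ x : L2 W →L[ℂ] L2 W) ξ‖) := h3.trans h4
      _ = _ := by ring

private theorem conv_strong {X : Type u} {ι : Type w} {l : Filter ι} {T : ι → L2 X →L[ℂ] L2 X}
    {K : ℝ} (hT : ∀ i ξ, ‖T i ξ‖ ≤ K * ‖ξ‖) (hδ : ∀ x, Tendsto (fun i => T i (δ x)) l (𝓝 0))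
    (ξ : L2 X) : Tendsto (fun i => T i ξ) l (𝓝 0) := by
  rw [Metric.tendsto_nhds]
  intro e he
  have hs := hasSum_δ ξ
  have h1 : ∀ᶠ s : Finset X in atTop, dist (∑ x ∈ s, ξ x • (δ x : L2 X)) ξ < e / (2 * (|K| + 1)) :=
    (Metric.tendsto_nhds.1 hs) _ (by positivity)
  obtain ⟨s, hs1⟩ := h1.exists
  have h2 : Tendsto (fun i => T i (∑ x ∈ s, ξ x • (δ x : L2 X))) l (𝓝 0) := by
    have h3 : Tendsto (fun i => ∑ x ∈ s, ξ x • T i (δ x)) l (𝓝 (∑ x ∈ s, ξ x • (0 : L2 X))) :=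
      tendsto_finsetSum _ fun x _ => (hδ x).const_smul _
    simp only [smul_zero, Finset.sum_const_zero] at h3
    refine h3.congr fun i => ?_
    rw [map_sum]
    refine Finset.sum_congr rfl fun x _ => ?_
    rw [map_smul]
  have h4 := (Metric.tendsto_nhds.1 h2) (e / 2) (by positivity)
  filter_upwards [h4] with i hi
  rw [dist_zero_right] at hi ⊢
  have h5 : T i ξ = T i (∑ x ∈ s, ξ x • (δ x : L2 X)) -
      T i ((∑ x ∈ s, ξ x • (δ x : L2 X)) - ξ) := by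
    rw [map_sub]
    abel
  have h6 : ‖T i ((∑ x ∈ s, ξ x • (δ x : L2 X)) - ξ)‖ ≤ e / 2 := by
    refine (hT i _).trans ?_
    rw [dist_eq_norm] at hs1
    have h7 : K * ‖(∑ x ∈ s, ξ x • (δ x : L2 X)) - ξ‖ ≤
        (|K| + 1) * (e / (2 * (|K| + 1))) := by
      refine mul_le_mul ?_ hs1.le (norm_nonneg _) (by positivity)
      linarith [le_abs_self K]
    refine h7.trans (le_of_eq ?_)
    field_simp
  rw [h5]
  refine lt_of_le_of_lt (norm_sub_le _ _) ?_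
  linarith

theorem tendsto_weak {q : B → ℝ} (hq : Admissible cs q) {ι : Type w} {l : Filter ι}
    {Φ : ι → (HA cs q →ₗ[ℂ] HA cs q)} {C : ℝ} (hC : ∀ i, CBNormLE (HA cs q) (Φ i) C) (x : HA cs q)
    (hx : Tendsto (fun i => ‖(Φ i x : L2 W →L[ℂ] L2 W) (δ 1) - (x : L2 W →L[ℂ] L2 W) (δ 1)‖) l (𝓝 0))
    (φ : HA cs q → ℂ) (hφ : IsNormalFunctional (HA cs q) φ) :
    Tendsto (fun i => φ (Φ i x)) l (𝓝 (φ x)) := by
  -- strong convergence
  have hst : ∀ ξ : L2 W, Tendsto (fun i => (Φ i x : L2 W →L[ℂ] L2 W) ξ) l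
      (𝓝 ((x : L2 W →L[ℂ] L2 W) ξ)) := by
    intro ξ
    have h1 : Tendsto (fun i => ((Φ i x : L2 W →L[ℂ] L2 W) - (x : L2 W →L[ℂ] L2 W)) ξ) l (𝓝 0) := by
      refine conv_strong (T := fun i => (Φ i x : L2 W →L[ℂ] L2 W) - (x : L2 W →L[ℂ] L2 W))
        (K := |C| * ‖(x : L2 W →L[ℂ] L2 W)‖ + ‖(x : L2 W →L[ℂ] L2 W)‖) ?_ ?_ ξ
      · intro i η
        refine (norm_sub_le _ _).trans ?_
        rw [add_mul]
        exact add_le_add (conv_norm_le cs (hC i) x η) ((x : L2 W →L[ℂ] L2 W).le_opNorm η)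
      · intro w
        obtain ⟨R, hR1, hR⟩ := exists_RR_word cs q w
        have h2 : ∀ y ∈ HA cs q, y (δ w) = R (y (δ 1)) := by
          intro y hy
          have h3 := hR y ((mem_HA_iff cs hq y).1 hy)
          have h4 := congrArg (fun A : L2 W →L[ℂ] L2 W => A (δ 1)) h3
          rw [← hR1]
          exact h4
        have h5 : Tendsto (fun i => (Φ i x : L2 W →L[ℂ] L2 W) (δ 1) -
            (x : L2 W →L[ℂ] L2 W) (δ 1)) l (𝓝 0) := tendsto_zero_iff_norm_tendsto_zero.2 hx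
        have h6 := (R.continuous.tendsto 0).comp h5
        rw [map_zero] at h6
        refine h6.congr fun i => ?_
        have h7 : ((Φ i x : L2 W →L[ℂ] L2 W) - (x : L2 W →L[ℂ] L2 W)) (δ w) =
            (Φ i x : L2 W →L[ℂ] L2 W) (δ w) - (x : L2 W →L[ℂ] L2 W) (δ w) := rfl
        rw [Function.comp_apply, h7, h2 _ (Φ i x).2, h2 _ x.2, map_sub]
    have h8 : ∀ i, ((Φ i x : L2 W →L[ℂ] L2 W) - (x : L2 W →L[ℂ] L2 W)) ξ =
        (Φ i x : L2 W →L[ℂ] L2 W) ξ - (x : L2 W →L[ℂ] L2 W) ξ := fun i => rfl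
    exact tendsto_sub_nhds_zero_iff.1 (h1.congr h8)
  obtain ⟨κ, ξ, η, hξ, hη, hφ'⟩ := hφ
  simp only [hφ']
  refine tendsto_tsum_of_dominated_convergence
    (bound := fun j => |C| * ‖(x : L2 W →L[ℂ] L2 W)‖ * (‖ξ j‖ ^ 2 + ‖η j‖ ^ 2))
    ((hξ.add hη).mul_left _) (fun j => ?_) (Eventually.of_forall fun i j => ?_)
  · exact (tendsto_const_nhds.inner (hst (ξ j)))
  · refine (norm_inner_le_norm _ _).trans ?_
    have h1 := conv_norm_le cs (hC i) x (ξ j)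
    calc ‖η j‖ * ‖(Φ i x : L2 W →L[ℂ] L2 W) (ξ j)‖
        ≤ ‖η j‖ * (|C| * ‖(x : L2 W →L[ℂ] L2 W)‖ * ‖ξ j‖) :=
          mul_le_mul_of_nonneg_left h1 (norm_nonneg _)
      _ = |C| * ‖(x : L2 W →L[ℂ] L2 W)‖ * (‖η j‖ * ‖ξ j‖) := by ring
      _ ≤ |C| * ‖(x : L2 W →L[ℂ] L2 W)‖ * (‖ξ j‖ ^ 2 + ‖η j‖ ^ 2) := by
          refine mul_le_mul_of_nonneg_left ?_ (by positivity)
          nlinarith [sq_nonneg (‖ξ j‖ - ‖η j‖), sq_nonneg ‖ξ j‖, sq_nonneg ‖η j‖]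

theorem finiteDimensional_range {q : B → ℝ} (hq : Admissible cs q) {Φ : HA cs q →ₗ[ℂ] HA cs q}
    {c : W → ℂ} (h : IsMult cs q Φ c) (hc : {x | c x ≠ 0}.Finite) :
    FiniteDimensional ℂ (LinearMap.range Φ) := by
  let L : LinearMap.range Φ →ₗ[ℂ] (hc.toFinset → ℂ) :=
    { toFun := fun y w => (((y : HA cs q) : L2 W →L[ℂ] L2 W) (δ 1)) (w : W)
      map_add' := fun y y' => rfl
      map_smul' := fun a y => rfl }
  have hL : Function.Injective L := by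
    rintro ⟨y, x, rfl⟩ ⟨y', x', rfl⟩ hy
    have h1 : (Φ x : L2 W →L[ℂ] L2 W) (δ 1) = (Φ x' : L2 W →L[ℂ] L2 W) (δ 1) := by
      ext w
      by_cases hw : w ∈ hc.toFinset
      · exact congrFun hy ⟨w, hw⟩
      · rw [h x w, h x' w]
        rw [Set.Finite.mem_toFinset, Set.mem_ofPred_eq, not_not] at hw
        rw [hw, zero_mul, zero_mul]
    exact Subtype.ext (Subtype.ext (HA_ext cs hq (Φ x).2 (Φ x').2 h1))
  exact FiniteDimensional.of_injective L hL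

end Pool.Agent.H73.HVN
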