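import Pool.Agent.H73.HVN.Defs

/-!
# Triangle-free Coxeter systems are of type FC
-/

set_option autoImplicit false

namespace Pool.Agent.H73.HVN

universe u v

variable {B : Type v} {W : Type u} [Group W] {M : CoxeterMatrix B} (cs : CoxeterSystem M W)

private theorem fcex_dih {G : Type u} [Group G] {s t : G} (hs : s * s = 1) (ht : t * t = 1) {m : ℕ}
    (hm : m ≠ 0) (h : (s * t) ^ m = 1) : Finite (Subgroup.closure ({s, t} : Set G)) := by
  have hsi : s⁻¹ = s := inv_eq_of_mul_eq_one_left hs
  have hti : t⁻¹ = t := inv_eq_of_mul_eq_one_left ht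
  have hfin : IsOfFinOrder (s * t) := isOfFinOrder_iff_pow_eq_one.2 ⟨m, Nat.pos_of_ne_zero hm, h⟩
  have hz : ((Subgroup.zpowers (s * t) : Subgroup G) : Set G).Finite := hfin.finite_zpowers
  have hconj : ∀ k : ℤ, s * (s * t) ^ k = (s * t) ^ (-k) * s := by
    intro k
    have h1 : s * (s * t) * s⁻¹ = (s * t)⁻¹ := by
      rw [mul_inv_rev, hsi, hti, ← mul_assoc s s t, hs, one_mul]
    have h2 : s * (s * t) ^ k * s⁻¹ = (s * t) ^ (-k) := by
      rw [zpow_neg, ← inv_zpow, ← h1, conj_zpow]
    rw [← h2, inv_mul_cancel_right]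
  have hst : t = s * (s * t) := by rw [← mul_assoc, hs, one_mul]
  set S : Set G := (fun g => g) '' ((Subgroup.zpowers (s * t) : Subgroup G) : Set G) ∪
    (fun g => g * s) '' ((Subgroup.zpowers (s * t) : Subgroup G) : Set G) with hS
  have hSfin : S.Finite := (hz.image _).union (hz.image _)
  have hpow : ∀ k : ℤ, (s * t) ^ k ∈ S := fun k => Or.inl ⟨_, ⟨k, rfl⟩, rfl⟩
  have hpow' : ∀ k : ℤ, (s * t) ^ k * s ∈ S := fun k => Or.inr ⟨_, ⟨k, rfl⟩, rfl⟩
  have hsm : ∀ y ∈ S, s * y ∈ S := by
    rintro y (⟨_, ⟨k, rfl⟩, rfl⟩ | ⟨_, ⟨k, rfl⟩, rfl⟩)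
    · change s * (s * t) ^ k ∈ S
      rw [hconj]
      exact hpow' _
    · change s * ((s * t) ^ k * s) ∈ S
      rw [← mul_assoc, hconj, mul_assoc, hs, mul_one]
      exact hpow _
  have htm : ∀ y ∈ S, t * y ∈ S := by
    intro y hy
    have h1 : (s * t) * y ∈ S := by
      rcases hy with ⟨_, ⟨k, rfl⟩, rfl⟩ | ⟨_, ⟨k, rfl⟩, rfl⟩
      · change (s * t) * (s * t) ^ k ∈ S
        rw [mul_self_zpow]
        exact hpow _
      · change (s * t) * ((s * t) ^ k * s) ∈ S
        rw [← mul_assoc (s * t), mul_self_zpow]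
        exact hpow' _
    have h2 := hsm _ h1
    rwa [← mul_assoc s, ← hst] at h2
  have hsub : ((Subgroup.closure ({s, t} : Set G) : Subgroup G) : Set G) ⊆ S := by
    intro x hx
    refine Subgroup.closure_induction_left (p := fun x _ => x ∈ S) ?_ ?_ ?_ hx
    · simpa using hpow 0
    · rintro x hx y _ hy
      rcases hx with hx | hx
      · rw [hx]; exact hsm y hy
      · rw [Set.mem_singleton_iff.1 hx]; exact htm y hy
    · rintro x hx y _ hy
      rcases hx with hx | hx
      · rw [hx, hsi]; exact hsm y hy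
      · rw [Set.mem_singleton_iff.1 hx, hti]; exact htm y hy
  exact (hSfin.subset hsub).to_subtype

/-- A Coxeter system in which any three distinct generators contain a pair with `m = ∞` is of type
FC. -/
theorem isFC_of_triangleFree
    (h : ∀ i j k : B, i ≠ j → j ≠ k → i ≠ k → M i j = 0 ∨ M j k = 0 ∨ M i k = 0) : IsFC cs := by
  classical
  intro K hK
  have hss : ∀ i, cs.simple i * cs.simple i = 1 := fun i => cs.simple_mul_simple_self i
  have hpair : ∀ i j : B, M i j ≠ 0 →
      Finite (Subgroup.closure ({cs.simple i, cs.simple j} : Set W)) := fun i j hij =>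
    fcex_dih (hss i) (hss j) hij (cs.simple_mul_simple_pow i j)
  rcases K.eq_empty_or_nonempty with hK0 | ⟨i, hi⟩
  · rw [hK0, Finset.coe_empty, Set.image_empty, Subgroup.closure_empty]
    infer_instance
  · have hsub : ∃ j : B, M i j ≠ 0 ∧ (K : Set B) ⊆ {i, j} := by
      by_cases h2 : ∃ j ∈ K, j ≠ i
      · obtain ⟨j, hj, hji⟩ := h2
        refine ⟨j, hK i hi j hj, fun k hk => ?_⟩
        by_contra hk'
        rw [Set.mem_insert_iff, Set.mem_singleton_iff, not_or] at hk'
        rcases h i j k (Ne.symm hji) (Ne.symm hk'.2) (Ne.symm hk'.1) with h3 | h3 | h3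
        · exact hK i hi j hj h3
        · exact hK j hj k hk h3
        · exact hK i hi k hk h3
      · push Not at h2
        refine ⟨i, hK i hi i hi, fun k hk => ?_⟩
        rw [h2 k hk]
        exact Set.mem_insert _ _
    obtain ⟨j, hij, hKs⟩ := hsub
    have h1 : Subgroup.closure (cs.simple '' (K : Set B)) ≤
        Subgroup.closure ({cs.simple i, cs.simple j} : Set W) := by
      refine Subgroup.closure_mono ?_
      rintro _ ⟨k, hk, rfl⟩
      rcases hKs hk with h3 | h3
      · rw [h3]; exact Or.inl rfl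
      · rw [Set.mem_singleton_iff.1 h3]; exact Or.inr rfl
    have h2 := hpair i j hij
    exact Finite.of_injective (Subgroup.inclusion h1) (Subgroup.inclusion_injective h1)

end Pool.Agent.H73.HVN
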