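import Mathlib

/-!
# Hecke von Neumann algebras: the definitions used in the statements

`H` is a complex Hilbert space; `BH H` are the bounded operators on it, `ap x ξ` is the vector `x ξ`.
A von Neumann algebra is given as a set of bounded operators (a double commutant, `vNa`), maps
`Φ : 𝓜 → 𝓜` as functions on operators of which only the values on `𝓜` matter.
-/

set_option autoImplicit false

open scoped ComplexOrder InnerProductSpace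
open Filter Topology

namespace Pool.Agent.H73.HVN.St

universe u v

section General

variable (H : Type u) [NormedAddCommGroup H] [InnerProductSpace ℂ H]

/-- the bounded operators on `H` -/
abbrev BH : Type u := H →L[ℂ] H

variable {H}

/-- the vector `x ξ` -/
def ap (x : BH H) (ξ : H) : H := x ξ

/-- the operator `x + c y` -/
def lc (x : BH H) (c : ℂ) (y : BH H) : BH H := x + c • y

/-- the commutant of a set of operators -/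
def comm (S : Set (BH H)) : Set (BH H) := {y | ∀ x ∈ S, ∀ ξ, ap x (ap y ξ) = ap y (ap x ξ)}

/-- the double commutant of a set of operators: for a self-adjoint set this is the von Neumann
algebra generated by it -/
def vNa (S : Set (BH H)) : Set (BH H) := comm (comm S)

/-- `x ↦ ∑ k, ⟨x ξ_k, η_k⟩`, the general form of a normal (that is, σ-weakly continuous) functional
on `𝓜`, where `∑ ‖ξ_k‖² < ∞`, `∑ ‖η_k‖² < ∞` -/
def IsNormalFunctional (𝓜 : Set (BH H)) (φ : BH H → ℂ) : Prop :=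
  ∃ (κ : Type u) (ξ η : κ → H), (Summable fun k => ‖ξ k‖ ^ 2) ∧ (Summable fun k => ‖η k‖ ^ 2) ∧
    ∀ x ∈ 𝓜, φ x = ∑' k, ⟪η k, ap x (ξ k)⟫_ℂ

/-- `Φ` is a linear map `𝓜 → 𝓜` -/
def IsLinearOn (𝓜 : Set (BH H)) (Φ : BH H → BH H) : Prop :=
  ∀ x ∈ 𝓜, Φ x ∈ 𝓜 ∧ ∀ y ∈ 𝓜, ∀ c : ℂ, Φ (lc x c y) = lc (Φ x) c (Φ y)

/-- `Φ` is a normal linear map `𝓜 → 𝓜` -/
def IsNormalMap (𝓜 : Set (BH H)) (Φ : BH H → BH H) : Prop :=
  IsLinearOn 𝓜 Φ ∧ ∀ φ : BH H → ℂ, IsNormalFunctional 𝓜 φ → IsNormalFunctional 𝓜 fun x => φ (Φ x)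

/-- `⟨X ξ, η⟩` for a matrix `X` of operators and `ξ, η ∈ H^n` -/
noncomputable def mip {n : ℕ} (X : Fin n → Fin n → BH H) (ξ η : Fin n → H) : ℂ :=
  ∑ i, ∑ j, ⟪η i, ap (X i j) (ξ j)⟫_ℂ

/-- the norm of `ξ ∈ H^n` -/
noncomputable def nrm {n : ℕ} (ξ : Fin n → H) : ℝ := √(∑ j, ‖ξ j‖ ^ 2)

/-- `Φ : 𝓜 → 𝓜` is completely positive: applied to the entries of a positive matrix over `𝓜` it gives
a positive matrix -/
def IsCP (𝓜 : Set (BH H)) (Φ : BH H → BH H) : Prop :=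
  ∀ (n : ℕ) (X : Fin n → Fin n → BH H), (∀ i j, X i j ∈ 𝓜) → (∀ ξ, 0 ≤ mip X ξ ξ) →
    ∀ ξ, 0 ≤ mip (fun i j => Φ (X i j)) ξ ξ

/-- `‖Φ‖_cb ≤ C`: for every matrix `X` over `𝓜`, `‖X‖ ≤ K` implies that the matrix `(Φ(X_ij))` has norm
`≤ C K` -/
def CBNormLE (𝓜 : Set (BH H)) (Φ : BH H → BH H) (C : ℝ) : Prop :=
  ∀ (n : ℕ) (X : Fin n → Fin n → BH H) (K : ℝ), (∀ i j, X i j ∈ 𝓜) →
    (∀ ξ η, ‖mip X ξ η‖ ≤ K * (nrm ξ * nrm η)) →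
    ∀ ξ η, ‖mip (fun i j => Φ (X i j)) ξ η‖ ≤ C * K * (nrm ξ * nrm η)

/-- `Φ(𝓜)` is contained in the span of finitely many operators -/
def IsFiniteRank (𝓜 : Set (BH H)) (Φ : BH H → BH H) : Prop :=
  ∃ (m : ℕ) (y : Fin m → BH H), ∀ x ∈ 𝓜, ∃ c : Fin m → ℂ, ∀ ξ, ap (Φ x) ξ = ∑ k, c k • ap (y k) ξ

/-- `Φ` extends to a compact operator on `L²(𝓜, τ) = H`, where `τ(x) = ⟨x Ω, Ω⟩`, `x ↔ x Ω` -/
def IsL2Compact (𝓜 : Set (BH H)) (Ω : H) (Φ : BH H → BH H) : Prop :=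
  ∃ K : BH H, IsCompactOperator (ap K) ∧ ∀ x ∈ 𝓜, ap (Φ x) Ω = ap K (ap x Ω)

/-- `τ(Φ(x)) ≤ τ(x)` for all positive `x ∈ 𝓜`, where `τ(x) = ⟨x Ω, Ω⟩` -/
def IsTraceLE (𝓜 : Set (BH H)) (Ω : H) (Φ : BH H → BH H) : Prop :=
  ∀ x ∈ 𝓜, (∀ ξ : H, 0 ≤ ⟪ξ, ap x ξ⟫_ℂ) → ⟪Ω, ap (Φ x) Ω⟫_ℂ ≤ ⟪Ω, ap x Ω⟫_ℂ

/-- `Ω` is a cyclic and separating vector for `𝓜` and `τ(x) = ⟨x Ω, Ω⟩` is a trace on `𝓜`; so
`L²(𝓜, τ) = H` via `x ↦ x Ω` -/
def IsTracial (𝓜 : Set (BH H)) (Ω : H) : Prop :=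
  Dense ((fun x => ap x Ω) '' 𝓜) ∧ (∀ x ∈ 𝓜, ap x Ω = 0 → ∀ ξ, ap x ξ = 0) ∧
    ∀ x ∈ 𝓜, ∀ y ∈ 𝓜, ⟪Ω, ap x (ap y Ω)⟫_ℂ = ⟪Ω, ap y (ap x Ω)⟫_ℂ

/-- The Haagerup property of `(𝓜, τ)`, `τ(x) = ⟨x Ω, Ω⟩`: a net of normal completely positive maps
`Φ_i : 𝓜 → 𝓜` with `τ ∘ Φ_i ≤ τ`, extending to compact operators on `L²(𝓜, τ)`, such that
`‖Φ_i(x) - x‖₂ → 0` for all `x ∈ 𝓜`. -/
def HasHaagerup (𝓜 : Set (BH H)) (Ω : H) : Prop :=
  ∃ (ι : Type u) (_ : Preorder ι) (_ : IsDirectedOrder ι) (_ : Nonempty ι) (Φ : ι → BH H → BH H),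
    (∀ i, IsNormalMap 𝓜 (Φ i) ∧ IsCP 𝓜 (Φ i) ∧ IsTraceLE 𝓜 Ω (Φ i) ∧ IsL2Compact 𝓜 Ω (Φ i)) ∧
    ∀ x ∈ 𝓜, Tendsto (fun i => ‖ap (Φ i x) Ω - ap x Ω‖) atTop (𝓝 0)

/-- The weak-* completely bounded approximation property of `𝓜` with constant `C`: a net of normal
finite-rank maps `Φ_i : 𝓜 → 𝓜` with `‖Φ_i‖_cb ≤ C` and `φ(Φ_i(x)) → φ(x)` for all `x ∈ 𝓜` and all normal
functionals `φ`. -/
def HasWeakStarCBAP (𝓜 : Set (BH H)) (C : ℝ) : Prop :=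
  ∃ (ι : Type u) (_ : Preorder ι) (_ : IsDirectedOrder ι) (_ : Nonempty ι) (Φ : ι → BH H → BH H),
    (∀ i, IsNormalMap 𝓜 (Φ i) ∧ IsFiniteRank 𝓜 (Φ i) ∧ CBNormLE 𝓜 (Φ i) C) ∧
    ∀ x ∈ 𝓜, ∀ φ : BH H → ℂ, IsNormalFunctional 𝓜 φ →
      Tendsto (fun i => φ (Φ i x)) atTop (𝓝 (φ x))

end General

section Coxeter

/-- the Hilbert space `ℓ²(X)` -/
abbrev L2 (X : Type u) : Type u := lp (fun _ : X => ℂ) 2

open Classical in
/-- the basis vector `δ_x` of `ℓ²(X)` -/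
noncomputable def δ {X : Type u} (x : X) : L2 X := lp.single 2 x (1 : ℂ)

variable {B : Type v} {W : Type u} [Group W] {M : CoxeterMatrix B} (cs : CoxeterSystem M W)

/-- `p_s = q_s^{1/2} - q_s^{-1/2}` -/
noncomputable def pp (q : B → ℝ) (i : B) : ℝ := √(q i) - (√(q i))⁻¹

/-- `T` is the family of Hecke operators: bounded operators with `T_s δ_w = δ_{sw}` if `|sw| > |w|` and
`T_s δ_w = δ_{sw} + p_s δ_w` if `|sw| < |w|`. -/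
def IsHeckeFamily (q : B → ℝ) (T : B → BH (L2 W)) : Prop :=
  ∀ (i : B) (w : W),
    (cs.length w < cs.length (cs.simple i * w) → ap (T i) (δ w) = δ (cs.simple i * w)) ∧
    (cs.length (cs.simple i * w) < cs.length w →
      ap (T i) (δ w) = δ (cs.simple i * w) + (pp q i : ℂ) • δ w)

/-- The parameter `q` is admissible: `q_s > 0`, and `q_s = q_t` whenever `s, t` are conjugate. -/
def Admissible (q : B → ℝ) : Prop :=
  (∀ i, 0 < q i) ∧ ∀ i j, IsConj (cs.simple i) (cs.simple j) → q i = q j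

/-- `(W, S)` is of type FC: every finite set `K` of generators such that `m_{st} < ∞` for all
`s, t ∈ K` generates a finite subgroup of `W` (in Mathlib `M i j = 0` encodes `m_{ij} = ∞`). -/
def IsFC : Prop :=
  ∀ K : Finset B, (∀ i ∈ K, ∀ j ∈ K, M i j ≠ 0) →
    Finite (Subgroup.closure (cs.simple '' (K : Set B)))

end Coxeter

end Pool.Agent.H73.HVN.St
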