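import Pool.Agent.H73.HVN.Final
import Pool.Agent.H73.HVN.FCex
import Pool.Agent.H73.HVN.Stmt

/-!
# From the internal definitions to the ones of the statements
-/

set_option autoImplicit false

open scoped ComplexOrder InnerProductSpace
open Filter Topology

namespace Pool.Agent.H73.HVN

universe u v

section General

variable {H : Type u} [NormedAddCommGroup H] [InnerProductSpace ℂ H]

theorem mem_comm_iff (S : Set (H →L[ℂ] H)) (y : H →L[ℂ] H) :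
    y ∈ St.comm S ↔ y ∈ Set.centralizer S := by
  rw [Set.mem_centralizer_iff]
  constructor
  · intro h x hx
    ext ξ
    exact h x hx ξ
  · intro h x hx ξ
    exact congrArg (fun z : H →L[ℂ] H => z ξ) (h x hx)

theorem mem_vNa_iff (S : Set (H →L[ℂ] H)) (x : H →L[ℂ] H) : x ∈ St.vNa S ↔ x ∈ vN S := by
  have h1 : St.comm S = Set.centralizer S := Set.ext (mem_comm_iff S)
  unfold St.vNa
  rw [mem_comm_iff, h1]
  rfl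

open Classical in
/-- a linear map on `𝓜` as a function on operators -/
noncomputable def ext' {𝓜 : Subalgebra ℂ (H →L[ℂ] H)} (Φ : 𝓜 →ₗ[ℂ] 𝓜) (x : H →L[ℂ] H) :
    H →L[ℂ] H := if h : x ∈ 𝓜 then (Φ ⟨x, h⟩ : H →L[ℂ] H) else 0

variable {𝓜 : Subalgebra ℂ (H →L[ℂ] H)} {Φ : 𝓜 →ₗ[ℂ] 𝓜} {𝒮 : Set (H →L[ℂ] H)}

theorem ext'_eq (x : H →L[ℂ] H) (h : x ∈ 𝓜) : ext' Φ x = (Φ ⟨x, h⟩ : H →L[ℂ] H) := dif_pos h

theorem normalFunctional_iff (h𝒮 : ∀ x, x ∈ 𝒮 ↔ x ∈ 𝓜) (φ : (H →L[ℂ] H) → ℂ) :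
    St.IsNormalFunctional 𝒮 φ ↔ IsNormalFunctional 𝓜 (fun x => φ (x : H →L[ℂ] H)) := by
  constructor
  · rintro ⟨κ, ξ, η, h1, h2, h3⟩
    exact ⟨κ, ξ, η, h1, h2, fun x => h3 x ((h𝒮 _).2 x.2)⟩
  · rintro ⟨κ, ξ, η, h1, h2, h3⟩
    exact ⟨κ, ξ, η, h1, h2, fun x hx => h3 ⟨x, (h𝒮 _).1 hx⟩⟩

theorem normalMap_ext' (h𝒮 : ∀ x, x ∈ 𝒮 ↔ x ∈ 𝓜) (hΦ : IsNormalMap 𝓜 Φ) :
    St.IsNormalMap 𝒮 (ext' Φ) := by
  refine ⟨fun x hx => ⟨?_, fun y hy c => ?_⟩, fun φ hφ => ?_⟩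
  · rw [ext'_eq x ((h𝒮 x).1 hx)]
    exact (h𝒮 _).2 (Φ _).2
  · have hx' := (h𝒮 x).1 hx
    have hy' := (h𝒮 y).1 hy
    have hxy : x + c • y ∈ 𝓜 := 𝓜.add_mem hx' (𝓜.smul_mem hy' c)
    have h1 : (⟨x + c • y, hxy⟩ : 𝓜) = ⟨x, hx'⟩ + c • ⟨y, hy'⟩ := rfl
    change ext' Φ (x + c • y) = ext' Φ x + c • ext' Φ y
    rw [ext'_eq _ hxy, ext'_eq _ hx', ext'_eq _ hy', h1, map_add, map_smul]
    rfl
  · rw [normalFunctional_iff h𝒮] at hφ ⊢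
    have h1 := hΦ _ hφ
    have h2 : (fun x : 𝓜 => φ (ext' Φ (x : H →L[ℂ] H))) =
        fun x : 𝓜 => φ ((Φ x : 𝓜) : H →L[ℂ] H) := by
      funext x
      rw [ext'_eq _ x.2]
    rw [h2]
    exact h1

theorem cp_ext' (h𝒮 : ∀ x, x ∈ 𝒮 ↔ x ∈ 𝓜) (hΦ : IsCP 𝓜 Φ) : St.IsCP 𝒮 (ext' Φ) := by
  intro n X hX h ξ
  have h1 := hΦ n (fun i j => ⟨X i j, (h𝒮 _).1 (hX i j)⟩) h ξ
  have h2 : St.mip (fun i j => ext' Φ (X i j)) ξ ξ =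
      ∑ i, ∑ j, ⟪ξ i, (Φ ⟨X i j, (h𝒮 _).1 (hX i j)⟩ : H →L[ℂ] H) (ξ j)⟫_ℂ := by
    refine Finset.sum_congr rfl fun i _ => Finset.sum_congr rfl fun j _ => ?_
    change ⟪ξ i, (ext' Φ (X i j)) (ξ j)⟫_ℂ = _
    rw [ext'_eq _ ((h𝒮 _).1 (hX i j))]
  rw [h2]
  exact h1

theorem cb_ext' (h𝒮 : ∀ x, x ∈ 𝒮 ↔ x ∈ 𝓜) {C : ℝ} (hΦ : CBNormLE 𝓜 Φ C) :
    St.CBNormLE 𝒮 (ext' Φ) C := by
  intro n X K hX h ξ η
  have h1 := hΦ n (fun i j => ⟨X i j, (h𝒮 _).1 (hX i j)⟩) K h ξ η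
  have h2 : St.mip (fun i j => ext' Φ (X i j)) ξ η =
      ∑ i, ∑ j, ⟪η i, (Φ ⟨X i j, (h𝒮 _).1 (hX i j)⟩ : H →L[ℂ] H) (ξ j)⟫_ℂ := by
    refine Finset.sum_congr rfl fun i _ => Finset.sum_congr rfl fun j _ => ?_
    change ⟪η i, (ext' Φ (X i j)) (ξ j)⟫_ℂ = _
    rw [ext'_eq _ ((h𝒮 _).1 (hX i j))]
  rw [h2]
  exact h1

theorem finiteRank_ext' (h𝒮 : ∀ x, x ∈ 𝒮 ↔ x ∈ 𝓜)
    (hΦ : FiniteDimensional ℂ (LinearMap.range Φ)) : St.IsFiniteRank 𝒮 (ext' Φ) := by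
  obtain ⟨m, y, hy⟩ := Submodule.fg_iff_exists_fin_generating_family.1 (Module.Finite.iff_fg.1 hΦ)
  refine ⟨m, fun k => (y k : H →L[ℂ] H), fun x hx => ?_⟩
  have hx' := (h𝒮 x).1 hx
  have hz : Φ ⟨x, hx'⟩ ∈ Submodule.span ℂ (Set.range y) := by
    rw [hy]
    exact ⟨_, rfl⟩
  obtain ⟨c, hc⟩ := (Submodule.mem_span_range_iff_exists_fun ℂ).1 hz
  refine ⟨c, fun ξ => ?_⟩
  have h2 : (Φ ⟨x, hx'⟩ : H →L[ℂ] H) = ∑ k, c k • (y k : H →L[ℂ] H) := by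
    rw [← hc]
    have h3 : ∀ s : Finset (Fin m), ((∑ k ∈ s, c k • y k : 𝓜) : H →L[ℂ] H) =
        ∑ k ∈ s, c k • (y k : H →L[ℂ] H) := by
      intro s
      induction s using Finset.induction_on with
      | empty => rfl
      | insert a s ha ih =>
        rw [Finset.sum_insert ha, Finset.sum_insert ha, ← ih]
        rfl
    exact h3 Finset.univ
  change ext' Φ x ξ = ∑ k, c k • ((y k : H →L[ℂ] H) ξ)
  rw [ext'_eq _ hx', h2, ContinuousLinearMap.sum_apply]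
  rfl

theorem haagerup_bridge (h𝒮 : ∀ x, x ∈ 𝒮 ↔ x ∈ 𝓜) {Ω : H} (h : HasHaagerupProperty 𝓜 Ω) :
    St.HasHaagerup 𝒮 Ω := by
  obtain ⟨ι, i1, i2, i3, Φ, h1, h2⟩ := h
  refine ⟨ι, i1, i2, i3, fun i => ext' (Φ i), fun i => ?_, fun x hx => ?_⟩
  · obtain ⟨a1, a2, a3, K, hK, a4⟩ := h1 i
    refine ⟨normalMap_ext' h𝒮 a1, cp_ext' h𝒮 a2, fun x hx hp => ?_, K, hK, fun x hx => ?_⟩
    · have h3 := a3 ⟨x, (h𝒮 x).1 hx⟩ hp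
      rw [← ext'_eq x ((h𝒮 x).1 hx)] at h3
      exact h3
    · have h3 := a4 ⟨x, (h𝒮 x).1 hx⟩
      rw [← ext'_eq x ((h𝒮 x).1 hx)] at h3
      exact h3
  · have h3 := h2 ⟨x, (h𝒮 x).1 hx⟩
    have h4 : (fun i => ‖St.ap (ext' (Φ i) x) Ω - St.ap x Ω‖) =
        fun i => ‖(Φ i ⟨x, (h𝒮 x).1 hx⟩ : H →L[ℂ] H) Ω - x Ω‖ := by
      funext i
      rw [ext'_eq x ((h𝒮 x).1 hx)]
      rfl
    rw [h4]
    exact h3

theorem cbap_bridge (h𝒮 : ∀ x, x ∈ 𝒮 ↔ x ∈ 𝓜) {C : ℝ} (h : HasWeakStarCBAP 𝓜 C) :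
    St.HasWeakStarCBAP 𝒮 C := by
  obtain ⟨ι, i1, i2, i3, Φ, h1, h2⟩ := h
  refine ⟨ι, i1, i2, i3, fun i => ext' (Φ i), fun i => ?_, fun x hx φ hφ => ?_⟩
  · obtain ⟨a1, a2, a3⟩ := h1 i
    exact ⟨normalMap_ext' h𝒮 a1, finiteRank_ext' h𝒮 a2, cb_ext' h𝒮 a3⟩
  · have h3 := h2 ⟨x, (h𝒮 x).1 hx⟩ _ ((normalFunctional_iff h𝒮 φ).1 hφ)
    have h4 : (fun i => φ (ext' (Φ i) x)) =
        fun i => φ (Φ i ⟨x, (h𝒮 x).1 hx⟩ : H →L[ℂ] H) := by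
      funext i
      rw [ext'_eq x ((h𝒮 x).1 hx)]
    rw [h4]
    exact h3

end General

variable {B : Type v} {W : Type u} [Group W] {M : CoxeterMatrix B} (cs : CoxeterSystem M W)

theorem mem_vNa_TT (q : B → ℝ) (x : L2 W →L[ℂ] L2 W) :
    x ∈ St.vNa (Set.range (TT cs q)) ↔ x ∈ HA cs q := mem_vNa_iff _ _

theorem isHeckeFamily_TT' (q : B → ℝ) : St.IsHeckeFamily cs q (TT cs q) := by
  intro i w
  have h := isHeckeFamily_TT cs q i w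
  refine ⟨fun h1 => ?_, fun h1 => ?_⟩
  · rw [if_pos h1] at h
    exact h
  · rw [if_neg (not_lt.2 h1.le)] at h
    exact h

theorem heckeFamily_unique {q : B → ℝ} {T T' : B → (L2 W →L[ℂ] L2 W)}
    (hT : St.IsHeckeFamily cs q T) (hT' : St.IsHeckeFamily cs q T') : T' = T := by
  funext i
  refine ext_δ fun w => ?_
  rcases lt_or_gt_of_ne (cs.length_simple_mul_ne w i) with h | h
  · exact ((hT' i w).2 h).trans ((hT i w).2 h).symm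
  · exact ((hT' i w).1 h).trans ((hT i w).1 h).symm

theorem tracial_TT {q : B → ℝ} (hq : Admissible cs q) :
    St.IsTracial (St.vNa (Set.range (TT cs q))) (δ (1 : W)) := by
  refine ⟨fun f => ?_, fun x hx h ξ => ?_, fun x hx y hy => ?_⟩
  · have h1 := hasSum_δ f
    refine mem_closure_of_tendsto h1 (Filter.Eventually.of_forall fun s => ?_)
    choose X hX hX1 using HA_cyclic cs q
    refine ⟨∑ w ∈ s, f w • X w, (mem_vNa_TT cs q _).2 ?_, ?_⟩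
    · exact Subalgebra.sum_mem _ fun w _ => Subalgebra.smul_mem _ (hX w) _
    · change (∑ w ∈ s, f w • X w) (δ 1) = _
      rw [ContinuousLinearMap.sum_apply]
      refine Finset.sum_congr rfl fun w _ => ?_
      change f w • (X w (δ 1)) = f w • (δ w : L2 W)
      rw [hX1 w]
  · have h1 : x = 0 := HA_ext cs hq ((mem_vNa_TT cs q _).1 hx) (Subalgebra.zero_mem _) h
    rw [h1]
    rfl
  · exact HA_trace cs hq ((mem_vNa_TT cs q _).1 hx) ((mem_vNa_TT cs q _).1 hy)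

end Pool.Agent.H73.HVN
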