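import Pool.Agent.H73.HVN.CoxDefs

/-!
# Module Exch: the strong exchange condition

PLAN (standard, e.g. Bourbaki, Lie IV.1.4, Björner–Brenti 1.3-1.4). Mathlib has `rightInvSeq`,
`leftInvSeq` (`Mathlib/GroupTheory/Coxeter/Inversion.lean`) but not the exchange condition.
Let `R := {t // cs.IsReflection t}` (or simply work with functions on `W`), and for `i : B` let `π_i`
be the permutation of `W × ZMod 2` given by
`π_i (t, ε) = (s_i t s_i, ε + [t = s_i])`. It is an involution. For a word `ω = [i_1, …, i_n]` one gets
by induction `π_{i_1} ∘ … ∘ π_{i_n} (t, ε) = (w t w⁻¹, ε + #{k : t = (rightInvSeq ω)_k})`, `w = π ω`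
(`List.count t (cs.rightInvSeq ω)`).
For the word `(i j)^{m}` of length `2m`, `m = M i j`, the right inversion sequence is periodic of
period `m` (its `k`-th entry is `(s_j s_i)^k s_j`, and `(s_j s_i)^m = 1`), so every count is even and
`(π_i π_j)^m = 1`: the `π_i` are liftable (`CoxeterMatrix.IsLiftable`, `CoxeterSystem.lift` into
`Equiv.Perm (W × ZMod 2)` or `Function.End`). So the parity `η(w, t)` of `count t (rightInvSeq ω)` depends
only on `w = π ω`.
If `ω` is reduced, `t ∈ rightInvSeq ω` implies `ℓ (w t) < ℓ w`
(`isRightInversion_of_mem_rightInvSeq`) and `count = 1` (`IsReduced.nodup_rightInvSeq`).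
Conversely if `η(w,t)` is even, then `η(w t, t)` is odd (cocycle: `η(w t, t) = η(w, t) + η(t, t)` up to
conjugation of `t` by `t`, and `η(t,t) = 1` by taking `t = u s_i u⁻¹`), so with `ω'` a reduced word of
`w t` we get `t ∈ rightInvSeq ω'`, so `ℓ (w t t) < ℓ (w t)`, i.e. `ℓ w < ℓ (w t)`.
Hence if `ℓ (w t) < ℓ w`, then for EVERY word `ω` of `w` the count of `t` in `rightInvSeq ω` is odd, so
`t` is an entry, and `wordProd_mul_getD_rightInvSeq` gives the conclusion.

`simple_mul_eq_mul_simple`: by parity `ℓ(s_i w s_j) = ℓ(w)`, `ℓ(s_i w) = ℓ(w) + 1`. Let `ω` be a reduced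
word of `w`; `i :: ω` is a word of `s_i w` and `ℓ(s_i w s_j) < ℓ(s_i w)`, so by strong exchange
`s_i w s_j` is the product of `(i :: ω).eraseIdx k`. If `k = 0`, `s_i w s_j = w`: done. Otherwise
`s_i w s_j = s_i w'` with `w' = π (ω.eraseIdx (k-1))` of length `≤ ℓ(w) - 1`; but `w' = w s_j` has length
`ℓ(w) + 1`: contradiction.
-/

set_option autoImplicit false

namespace Pool.Agent.H73.HVN

universe u v

variable {B : Type v} {W : Type u} [Group W] {M : CoxeterMatrix B} (cs : CoxeterSystem M W)

open Classical in
/-- the generators of the action on `W × ZMod 2` -/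
private noncomputable def exPi (i : B) : Function.End (W × ZMod 2) :=
  fun p => (cs.simple i * p.1 * cs.simple i, p.2 + if p.1 = cs.simple i then 1 else 0)

private theorem exPi_apply (i : B) (t : W) (e : ZMod 2) [DecidableEq W] :
    exPi cs i (t, e) = (cs.simple i * t * cs.simple i, e + if t = cs.simple i then 1 else 0) := by
  classical
  unfold exPi
  congr

private theorem ex_conj (i j : B) (k : ℕ) :
    cs.simple j * (cs.simple i * cs.simple j) ^ k =
      ((cs.simple i * cs.simple j) ^ k)⁻¹ * cs.simple j := by
  induction k with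
  | zero => simp
  | succ k ih =>
    rw [pow_succ, ← mul_assoc, ih, ← pow_succ, pow_succ', mul_inv_rev]
    simp [mul_assoc]

private theorem exPi_pow (i j : B) (m : ℕ) (t : W) (e : ZMod 2) [DecidableEq W] :
    ((exPi cs i * exPi cs j) ^ m) (t, e) =
      ((cs.simple i * cs.simple j) ^ m * t * ((cs.simple i * cs.simple j) ^ m)⁻¹,
        e + ∑ k ∈ Finset.range (2 * m),
          if t = ((cs.simple i * cs.simple j) ^ k)⁻¹ * cs.simple j then 1 else 0) := by
  induction m with
  | zero =>
    simp only [pow_zero, one_mul, inv_one, mul_one, mul_zero, Finset.range_zero,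
      Finset.sum_empty, add_zero]
    rfl
  | succ m ih =>
    rw [pow_succ', Function.End.mul_def, Function.comp_apply, ih, Function.End.mul_def,
      Function.comp_apply, exPi_apply, exPi_apply]
    set c := cs.simple i * cs.simple j with hc
    have hcinv : c⁻¹ = cs.simple j * cs.simple i := by simp [hc]
    have hconj := ex_conj cs i j
    rw [← hc] at hconj
    refine Prod.ext ?_ ?_
    · simp only
      rw [pow_succ' c m, mul_inv_rev, hcinv]
      simp only [hc, mul_assoc]
    · simp only
      rw [show 2 * (m + 1) = 2 * m + 1 + 1 from by ring, Finset.sum_range_succ,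
        Finset.sum_range_succ]
      have e1 : (c ^ m * t * (c ^ m)⁻¹ = cs.simple j) ↔ (t = (c ^ (2 * m))⁻¹ * cs.simple j) := by
        rw [two_mul, pow_add, mul_inv_rev, mul_assoc (c ^ m)⁻¹, ← hconj m]
        constructor
        · intro h
          rw [← h]
          group
        · intro h
          rw [h]
          group
      have e2 : (cs.simple j * (c ^ m * t * (c ^ m)⁻¹) * cs.simple j = cs.simple i) ↔
          (t = (c ^ (2 * m + 1))⁻¹ * cs.simple j) := by
        have e3 : (c ^ (2 * m + 1))⁻¹ * cs.simple j =
            (c ^ m)⁻¹ * (cs.simple j * cs.simple i * cs.simple j) * c ^ m := by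
          have h1 : cs.simple j * c ^ m = (c ^ m)⁻¹ * cs.simple j := hconj m
          rw [mul_assoc, mul_assoc (cs.simple j * cs.simple i), h1, ← hcinv]
          group
        rw [e3]
        constructor
        · intro h
          rw [← h]
          simp only [mul_assoc, CoxeterSystem.simple_mul_simple_cancel_left]
          simp
        · intro h
          rw [h]
          simp only [mul_assoc]
          simp
      simp only [e1, e2]
      ring

private theorem ex_liftable : M.IsLiftable (exPi cs) := by
  classical
  intro i j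
  funext p
  obtain ⟨t, e⟩ := p
  rw [exPi_pow]
  have hm : (cs.simple i * cs.simple j) ^ (M i j) = 1 := cs.simple_mul_simple_pow i j
  have h2 : (∑ k ∈ Finset.range (2 * M i j),
      if t = ((cs.simple i * cs.simple j) ^ k)⁻¹ * cs.simple j then (1 : ZMod 2) else 0) = 0 := by
    rw [two_mul, Finset.sum_range_add]
    have h3 : ∀ k, ((cs.simple i * cs.simple j) ^ (M i j + k)) = (cs.simple i * cs.simple j) ^ k := by
      intro k
      rw [pow_add, hm, one_mul]
    have h5 : (∑ k ∈ Finset.range (M i j),
        if t = ((cs.simple i * cs.simple j) ^ (M i j + k))⁻¹ * cs.simple j then (1 : ZMod 2) else 0) =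
        ∑ k ∈ Finset.range (M i j),
        if t = ((cs.simple i * cs.simple j) ^ k)⁻¹ * cs.simple j then (1 : ZMod 2) else 0 :=
      Finset.sum_congr rfl (fun k _ => by rw [h3 k])
    rw [h5]
    exact CharTwo.add_self_eq_zero _
  rw [h2, hm]
  simp only [one_mul, inv_one, mul_one, add_zero]
  rfl

/-- the action -/
private noncomputable def exAct : W →* Function.End (W × ZMod 2) :=
  cs.lift ⟨exPi cs, ex_liftable cs⟩

private theorem exAct_simple (i : B) : exAct cs (cs.simple i) = exPi cs i :=
  cs.lift_apply_simple (ex_liftable cs) i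

private theorem exAct_word (ω : List B) (t : W) (e : ZMod 2) [DecidableEq W] :
    exAct cs (cs.wordProd ω) (t, e) =
      (cs.wordProd ω * t * (cs.wordProd ω)⁻¹, e + ((cs.rightInvSeq ω).count t : ℕ)) := by
  induction ω with
  | nil =>
    simp only [CoxeterSystem.wordProd_nil, map_one, one_mul, inv_one, mul_one,
      CoxeterSystem.rightInvSeq_nil, List.count_nil, Nat.cast_zero, add_zero]
    rfl
  | cons i ω ih =>
    rw [CoxeterSystem.wordProd_cons, map_mul, Function.End.mul_def, Function.comp_apply, ih,
      exAct_simple, exPi_apply]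
    refine Prod.ext ?_ ?_
    · simp [mul_assoc]
    · simp only [CoxeterSystem.rightInvSeq, List.count_cons, beq_iff_eq]
      have e1 : (cs.wordProd ω * t * (cs.wordProd ω)⁻¹ = cs.simple i) ↔
          ((cs.wordProd ω)⁻¹ * cs.simple i * cs.wordProd ω = t) := by
        constructor
        · intro h
          rw [← h]
          group
        · intro h
          rw [← h]
          group
      simp only [e1, add_assoc]
      push_cast
      rfl

private theorem exAct_add (w t : W) (e : ZMod 2) :
    exAct cs w (t, e) = (w * t * w⁻¹, e + (exAct cs w (t, 0)).2) := by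
  classical
  obtain ⟨ω, rfl⟩ := cs.wordProd_surjective w
  rw [exAct_word, exAct_word]
  simp

private theorem exAct_refl {t : W} (ht : cs.IsReflection t) : exAct cs t (t, 0) = (t, 1) := by
  classical
  obtain ⟨u, i, hu⟩ := ht
  have h1 : exAct cs u⁻¹ (t, 0) = (cs.simple i, (exAct cs u⁻¹ (t, 0)).2) := by
    conv_lhs => rw [exAct_add]
    refine Prod.ext ?_ ?_
    · simp only
      rw [hu]
      group
    · simp
  set a := (exAct cs u⁻¹ (t, 0)).2 with ha
  have h2 : exAct cs u (exAct cs u⁻¹ (t, 0)) = (t, 0) := by
    have : exAct cs u * exAct cs u⁻¹ = 1 := by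
      rw [← map_mul]
      simp
    calc exAct cs u (exAct cs u⁻¹ (t, 0)) = (exAct cs u * exAct cs u⁻¹) (t, 0) := rfl
      _ = (t, 0) := by rw [this]; rfl
  rw [h1, exAct_add] at h2
  have h3 : a + (exAct cs u (cs.simple i, 0)).2 = 0 := (Prod.ext_iff.mp h2).2
  have h4 : exAct cs t (t, 0) = exAct cs u (exAct cs (cs.simple i) (exAct cs u⁻¹ (t, 0))) := by
    have : exAct cs t = exAct cs u * exAct cs (cs.simple i) * exAct cs u⁻¹ := by
      rw [← map_mul, ← map_mul, ← hu]
    rw [this]
    rfl
  rw [h4, h1, exAct_simple, exPi_apply, exAct_add]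
  refine Prod.ext ?_ ?_
  · simp [hu]
  · simp only [if_true]
    have h5 : (cs.simple i * cs.simple i * cs.simple i) = cs.simple i := by simp
    rw [h5]
    linear_combination h3

private theorem ex_odd {w t : W} (ht : cs.IsReflection t)
    (h : cs.length (w * t) < cs.length w) : (exAct cs w (t, 0)).2 = 1 := by
  classical
  by_contra hne
  have h0 : (exAct cs w (t, 0)).2 = 0 := by
    have : ∀ x : ZMod 2, x ≠ 1 → x = 0 := by decide
    exact this _ hne
  have h1 : (exAct cs (w * t) (t, 0)).2 = 1 := by
    have : exAct cs (w * t) (t, 0) = exAct cs w (exAct cs t (t, 0)) := by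
      rw [map_mul]
      rfl
    rw [this, exAct_refl cs ht, exAct_add, h0]
    simp
  obtain ⟨ω, hred, hω⟩ := cs.exists_isReduced (w * t)
  rw [hω, exAct_word] at h1
  have h2 : t ∈ cs.rightInvSeq ω := by
    by_contra hn
    rw [List.count_eq_zero_of_not_mem hn] at h1
    simp at h1
  have h3 := cs.isRightInversion_of_mem_rightInvSeq hred h2
  rw [← hω] at h3
  have h4 := h3.2
  rw [mul_assoc, ht.mul_self, mul_one] at h4
  omega

theorem strong_exchange {ω : List B} {t : W} (ht : cs.IsReflection t)
    (h : cs.length (cs.wordProd ω * t) < cs.length (cs.wordProd ω)) :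
    ∃ j < ω.length, cs.wordProd ω * t = cs.wordProd (ω.eraseIdx j) := by
  classical
  have h1 := ex_odd cs ht h
  rw [exAct_word] at h1
  have h2 : t ∈ cs.rightInvSeq ω := by
    by_contra hn
    rw [List.count_eq_zero_of_not_mem hn] at h1
    simp at h1
  obtain ⟨j, hj, hjt⟩ := List.mem_iff_getElem.mp h2
  refine ⟨j, by simpa using hj, ?_⟩
  rw [← cs.wordProd_mul_getD_rightInvSeq, List.getD_eq_getElem _ 1 hj, hjt]

theorem simple_mul_eq_mul_simple {w : W} {i j : B} (h1 : ¬ cs.IsLeftDescent w i)
    (h2 : ¬ cs.IsRightDescent w j)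
    (h3 : cs.length (cs.simple i * w * cs.simple j) < cs.length w + 2) :
    cs.simple i * w = w * cs.simple j := by
  have h1' := cs.not_isLeftDescent_iff.mp h1
  have h2' := cs.not_isRightDescent_iff.mp h2
  obtain ⟨ω, hred, hω⟩ := cs.exists_isReduced w
  have hlen : cs.length w = ω.length := by rw [hω]; exact hred
  have h4 : cs.length (cs.simple i * w * cs.simple j) < cs.length (cs.simple i * w) := by
    have h5 := cs.length_mul_simple (cs.simple i * w) j
    omega
  have h6 : cs.wordProd (i :: ω) = cs.simple i * w := by rw [CoxeterSystem.wordProd_cons, hω]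
  obtain ⟨k, hk, hk2⟩ := strong_exchange cs (ω := i :: ω) (cs.isReflection_simple j)
    (by rw [h6]; exact h4)
  rw [h6] at hk2
  rcases k with _ | k
  · simp only [List.eraseIdx_zero, List.tail_cons] at hk2
    rw [← hω] at hk2
    conv_rhs => rw [← hk2]
    simp
  · exfalso
    simp only [List.eraseIdx_cons_succ, CoxeterSystem.wordProd_cons] at hk2
    rw [mul_assoc] at hk2
    have h7 := mul_left_cancel hk2
    have h8 : cs.length (w * cs.simple j) ≤ (ω.eraseIdx k).length := by
      rw [h7]
      exact cs.length_wordProd_le _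
    have h9 : k < ω.length := by simpa using hk
    rw [List.length_eraseIdx_of_lt h9] at h8
    omega

end Pool.Agent.H73.HVN
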