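import Pool.Agent.H73.HVN.CoxDefs

/-!
# Module Geom: the geometric representation; simple generators are distinct, `m = ∞` is infinite order

PLAN. `V = B →₀ ℝ` (or `B → ℝ` with the dual action), `α_i = single i 1`, bilinear form
`β(α_i, α_j) = -cos(π / M i j)` for `M i j ≠ 0` and `-1` for `M i j = 0` (`M i i = 1` gives `1`).
`σ_i v = v - 2 β(v, α_i) α_i`, a linear involution. Liftable: for `i ≠ j`, `m = M i j ≥ 2`,
`θ = π / m`: `(σ_i σ_j)^m = 1`. Put `x = β(v, α_i)`, `y = β(v, α_j)`, `c = cos θ`, then
`σ_i σ_j v = v - 2 y α_j - (2 x + 4 c y) α_i` (as `β(α_j, α_i) = -c`), and one proves by induction on `n` a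
formula `(σ_i σ_j)^n v = v + a_n α_i + b_n α_j` where `a_n, b_n` are `x, y`-linear with coefficients
`sin(n θ) * (...) / sin² θ`: explicitly with `S_n = sin (n θ) / sin θ`:
`a_n = -2 S_n (x S_n + y S_{n+1})`, `b_n = -2 S_n (x S_{n-1} + y S_n)` (check: `n = 1`:
`a_1 = -2 (x + 2 c y)`, `b_1 = -2 y`); the induction step uses `S_{n+1} + S_{n-1} = 2 c S_n` and
`S_{n+1}² - 2 c S_n S_{n+1} + S_n² = 1`. At `n = m`, `S_m = 0`. (Alternatively avoid trigonometry: define
`S_n` by the recursion and use only `S_m = 0`; or restrict to the 2-dimensional subspace.)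
`σ : W → GL(V)` by `CoxeterSystem.lift`. If `s_i = s_j`, `i ≠ j`: `σ_i α_i = -α_i` but
`σ_j α_i = α_i - 2 β(α_i, α_j) α_j` has `α_i`-coordinate `1`: contradiction.
If `M i j = 0` then `β(α_i, α_j) = -1`, and with `e = α_i + α_j`: `β(e, α_i) = β(e, α_j) = 0`,
`σ_i σ_j α_i = α_i + 2 (α_i + α_j)...` i.e. `(σ_i σ_j) α_i = α_i + 2 e` (compute: `σ_j α_i = α_i + 2 α_j`,
`σ_i (α_i + 2 α_j) = -α_i + 2 α_j + 4 α_i = 3 α_i + 2 α_j = α_i + 2 e`), `σ_i σ_j e = e`, so
`(σ_i σ_j)^n α_i = α_i + 2 n e ≠ α_i` for `n ≠ 0`.
-/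

set_option autoImplicit false

namespace Pool.Agent.H73.HVN

universe u v

variable {B : Type v} {W : Type u} [Group W] {M : CoxeterMatrix B} (cs : CoxeterSystem M W)

/-! ### the product of two reflections -/

private theorem geom_pow {V : Type v} [AddCommGroup V] [Module ℝ V] (f g : V →ₗ[ℝ] ℝ) (a b : V)
    (c : ℝ) (θ : ℝ) (hθ : c = Real.cos θ) (hfa : f a = 1) (hgb : g b = 1) (hfb : f b = -c)
    (hga : g a = -c) (P : V →ₗ[ℝ] V)
    (hP : ∀ v, P v = v - (2 * g v) • b - (2 * f v + 4 * c * g v) • a) (n : ℕ) :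
    ∃ s t : ℝ, s * Real.sin θ = Real.sin (n * θ) ∧ t * Real.sin θ = Real.sin ((n + 1) * θ) ∧
      t ^ 2 - 2 * c * s * t + s ^ 2 = 1 ∧
      ∀ v, (P ^ n) v = v + (-2 * s * (f v * s + g v * t)) • a +
        (-2 * s * (f v * (2 * c * s - t) + g v * s)) • b := by
  induction n with
  | zero =>
    refine ⟨0, 1, by simp, by simp, by ring, fun v => ?_⟩
    simp
  | succ n ih =>
    obtain ⟨s, t, hs, ht, hst, hv⟩ := ih
    refine ⟨t, 2 * c * t - s, ?_, ?_, by linear_combination hst, fun v => ?_⟩
    · rw [ht]
      push_cast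
      ring_nf
    · have h1 : Real.sin ((n + 1 + 1) * θ) =
          2 * Real.cos θ * Real.sin ((n + 1) * θ) - Real.sin (n * θ) := by
        have e1 : ((n : ℝ) + 1 + 1) * θ = (n + 1) * θ + θ := by ring
        have e2 : (n : ℝ) * θ = (n + 1) * θ - θ := by ring
        rw [e1, e2, Real.sin_add, Real.sin_sub]
        ring
      push_cast
      rw [h1, ← ht, ← hs, hθ]
      ring
    · have hf : f ((P ^ n) v) = f v + (-2 * s * (f v * s + g v * t)) -
          c * (-2 * s * (f v * (2 * c * s - t) + g v * s)) := by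
        rw [hv v, map_add, map_add, map_smul, map_smul, hfa, hfb]
        simp only [smul_eq_mul]
        ring
      have hg : g ((P ^ n) v) = g v - c * (-2 * s * (f v * s + g v * t)) +
          (-2 * s * (f v * (2 * c * s - t) + g v * s)) := by
        rw [hv v, map_add, map_add, map_smul, map_smul, hga, hgb]
        simp only [smul_eq_mul]
        ring
      rw [pow_succ', Module.End.mul_apply, hP ((P ^ n) v), hf, hg, hv v]
      generalize f v = x
      generalize g v = y
      have e1 : (-2 * t * (x * t + y * (2 * c * t - s))) =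
          (-2 * s * (x * s + y * t)) -
          (2 * (x + -2 * s * (x * s + y * t) - c * (-2 * s * (x * (2 * c * s - t) + y * s))) +
            4 * c * (y - c * (-2 * s * (x * s + y * t)) +
              -2 * s * (x * (2 * c * s - t) + y * s))) := by
        linear_combination (-(2 * x + 4 * c * y)) * hst
      have e2 : (-2 * t * (x * (2 * c * t - (2 * c * t - s)) + y * t)) =
          (-2 * s * (x * (2 * c * s - t) + y * s)) -
          2 * (y - c * (-2 * s * (x * s + y * t)) +
              -2 * s * (x * (2 * c * s - t) + y * s)) := by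
        linear_combination (-(2 * y)) * hst
      rw [e1, e2]
      module

private theorem geom_pow_eq_one {V : Type v} [AddCommGroup V] [Module ℝ V] (f g : V →ₗ[ℝ] ℝ)
    (a b : V) (m : ℕ) (hm : 2 ≤ m) (hfa : f a = 1) (hgb : g b = 1)
    (hfb : f b = -Real.cos (Real.pi / m)) (hga : g a = -Real.cos (Real.pi / m)) (P : V →ₗ[ℝ] V)
    (hP : ∀ v, P v = v - (2 * g v) • b - (2 * f v + 4 * Real.cos (Real.pi / m) * g v) • a) :
    P ^ m = 1 := by
  obtain ⟨s, t, hs, -, -, hv⟩ := geom_pow f g a b _ (Real.pi / m) rfl hfa hgb hfb hga P hP m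
  have hm0 : (0 : ℝ) < m := by exact_mod_cast (by omega : 0 < m)
  have h1 : (m : ℝ) * (Real.pi / m) = Real.pi := by field_simp
  rw [h1, Real.sin_pi] at hs
  have h2 : 0 < Real.sin (Real.pi / m) := by
    apply Real.sin_pos_of_pos_of_lt_pi
    · exact div_pos Real.pi_pos hm0
    · rw [div_lt_iff₀ hm0]
      have h3 : (2 : ℝ) ≤ m := by exact_mod_cast hm
      nlinarith [Real.pi_pos]
  have h3 : s = 0 := by
    rcases mul_eq_zero.1 hs with h | h
    · exact h
    · exact absurd h h2.ne'
  ext v
  rw [hv v, h3]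
  simp

/-! ### the geometric representation -/

/-- the bilinear form on the simple roots -/
private noncomputable def geomK (M : CoxeterMatrix B) (i j : B) : ℝ :=
  if M i j = 0 then -1 else -Real.cos (Real.pi / M i j)

private theorem geomK_symm (i j : B) : geomK M i j = geomK M j i := by
  unfold geomK
  rw [M.symmetric i j]

private theorem geomK_self (i : B) : geomK M i i = 1 := by
  unfold geomK
  rw [M.diagonal i]
  simp

/-- the form with the simple root number `i` -/
private noncomputable def geomF (M : CoxeterMatrix B) (i : B) : (B →₀ ℝ) →ₗ[ℝ] ℝ :=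
  Finsupp.linearCombination ℝ (fun j => geomK M i j)

private theorem geomF_single (i j : B) : geomF M i (Finsupp.single j 1) = geomK M i j := by
  unfold geomF
  rw [Finsupp.linearCombination_single, one_smul]

/-- the reflection number `i` -/
private noncomputable def geomR (M : CoxeterMatrix B) (i : B) : Module.End ℝ (B →₀ ℝ) :=
  LinearMap.id - (2 : ℝ) • (geomF M i).smulRight (Finsupp.single i 1)

private theorem geomR_apply (i : B) (v : B →₀ ℝ) :
    geomR M i v = v - (2 * geomF M i v) • Finsupp.single i (1 : ℝ) := by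
  unfold geomR
  rw [LinearMap.sub_apply, LinearMap.smul_apply, LinearMap.smulRight_apply, LinearMap.id_apply,
    smul_smul]

private theorem geomR_mul (i j : B) (v : B →₀ ℝ) :
    (geomR M i * geomR M j) v = v - (2 * geomF M j v) • Finsupp.single j (1 : ℝ) -
      (2 * geomF M i v + 4 * (-geomK M i j) * geomF M j v) • Finsupp.single i (1 : ℝ) := by
  rw [Module.End.mul_apply, geomR_apply, geomR_apply, map_sub, map_smul, geomF_single]
  congr 2
  simp only [smul_eq_mul]
  ring

private theorem geomR_liftable : M.IsLiftable (geomR M) := by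
  intro i j
  rcases Nat.eq_zero_or_pos (M i j) with h0 | h0
  · rw [h0, pow_zero]
  by_cases hij : i = j
  · subst hij
    rw [M.diagonal i, pow_one]
    refine LinearMap.ext fun v => ?_
    rw [geomR_mul, geomK_self, Module.End.one_apply]
    module
  · have h1 : M i j ≠ 1 := M.off_diagonal i j hij
    have hk : geomK M i j = -Real.cos (Real.pi / M i j) := by
      unfold geomK
      rw [if_neg h0.ne']
    refine geom_pow_eq_one (geomF M i) (geomF M j) (Finsupp.single i 1) (Finsupp.single j 1)
      (M i j) (by omega) ?_ ?_ ?_ ?_ _ fun v => ?_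
    · rw [geomF_single, geomK_self]
    · rw [geomF_single, geomK_self]
    · rw [geomF_single, hk]
    · rw [geomF_single, geomK_symm, hk]
    · rw [geomR_mul, hk, neg_neg]

theorem simple_injective : Function.Injective cs.simple := by
  intro i j hij
  by_contra hne
  have h1 : cs.lift ⟨geomR M, geomR_liftable⟩ (cs.simple i) =
      cs.lift ⟨geomR M, geomR_liftable⟩ (cs.simple j) := by rw [hij]
  rw [cs.lift_apply_simple, cs.lift_apply_simple] at h1
  have h2 := congrArg (fun T : Module.End ℝ (B →₀ ℝ) => (T (Finsupp.single i 1)) i) h1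
  simp only [geomR_apply, geomF_single, geomK_self, Finsupp.sub_apply, Finsupp.smul_apply,
    Finsupp.single_eq_same, smul_eq_mul] at h2
  rw [Finsupp.single_eq_of_ne hne] at h2
  norm_num at h2

theorem pow_ne_one_of_eq_zero {i j : B} (h : M i j = 0) {n : ℕ} (hn : n ≠ 0) :
    (cs.simple i * cs.simple j) ^ n ≠ 1 := by
  have hne : i ≠ j := by
    rintro rfl
    rw [M.diagonal i] at h
    exact one_ne_zero h
  have hk : geomK M i j = -1 := by
    unfold geomK
    rw [if_pos h]
  have hk' : geomK M j i = -1 := by rw [geomK_symm, hk]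
  intro h1
  have h2 := congrArg (cs.lift ⟨geomR M, geomR_liftable⟩) h1
  rw [map_pow, map_mul, map_one, cs.lift_apply_simple, cs.lift_apply_simple] at h2
  have h3 : ∀ n : ℕ, ((geomR M i * geomR M j) ^ n) (Finsupp.single i (1 : ℝ)) =
      Finsupp.single i (1 : ℝ) +
        (2 * (n : ℝ)) • (Finsupp.single i (1 : ℝ) + Finsupp.single j (1 : ℝ)) := by
    intro n
    induction n with
    | zero => simp
    | succ n ih =>
      rw [pow_succ', Module.End.mul_apply, ih, geomR_mul, hk]
      simp only [map_add, map_smul, geomF_single, geomK_self, hk, hk', smul_eq_mul]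
      push_cast
      module
  have h4 := congrArg (fun T : Module.End ℝ (B →₀ ℝ) => (T (Finsupp.single i 1)) j) h2
  simp only [h3 n, Module.End.one_apply, Finsupp.add_apply, Finsupp.smul_apply,
    Finsupp.single_eq_same, smul_eq_mul] at h4
  rw [Finsupp.single_eq_of_ne hne.symm] at h4
  have h5 : (n : ℝ) = 0 := by linarith
  exact hn (by exact_mod_cast h5)

end Pool.Agent.H73.HVN
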