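import Pool.Agent.H73.HVN.Exch
import Pool.Agent.H73.HVN.Geom

/-!
# Module Parab: parabolic subgroups, supports, minimal coset representatives

PLAN.
* `exists_reduced_word_mem`: every `w ∈ W_L` is the product of a word in letters from `L`
  (`Subgroup.closure_induction`, `inv_simple`); take such a word of minimal length. It is reduced: if not,
  there is a first prefix `ω' ++ [i]` with `ω'` reduced and `ω' ++ [i]` not, so `ℓ(π ω' s_i) < ℓ(π ω')` and
  `strong_exchange` (`t = s_i`) gives a shorter word in letters from `L`.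
* `mem_of_isReduced`: induction on the word. `ω = ω' ++ [i]`, `w = π ω`; let `η` be a reduced `L`-word of
  `w`. `i` is a right descent of `w`, so `w s_i = π (η.eraseIdx k)` is in `W_L` with reduced word `ω'`, so
  `ω' ⊆ L`; then `s_i = (w s_i)⁻¹ w ∈ W_L`, it has length 1 so a reduced `L`-word of it has one letter
  `i' ∈ L`, `s_i = s_{i'}`, and `simple_injective` gives `i = i' ∈ L`.
* `right_descent_mem`: if `w ∈ W_L` and `i` is a right descent of `w` then `i ∈ L` (a reduced word of `w`
  ending in `i`).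
* `length_mul_of_min`: let `u` have no right descent in `L`. First: `u` is an element of minimal length
  `u'` of `u W_L`: write `u = u' l`, `u'` of minimal length in the coset, `ℓ(u' l) = ℓ(u') + ℓ(l)` (by
  induction on `ℓ(l)` with strong exchange: if `ℓ(u' l s_i) < ℓ(u' l)` where `ℓ (l s_i) > ℓ(l)`, `i ∈ L`, a
  letter can be deleted from the word `u'·l`; deletion in the `l`-part contradicts `ℓ (l s_i) > ℓ(l)`,
  deletion in the `u'`-part gives an element of `u' W_L` shorter than `u'`); if `l ≠ 1`, a right descent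
  of `l` (it is in `L`) is a right descent of `u`: contradiction. So `l = 1`, `u = u'`, and the additivity
  just shown is the claim.
* `exists_min`: take `u` of minimal length in the coset.
* `min_unique`: `u l = u' l'` gives `u = u' l''`, `l'' = l' l⁻¹ ∈ W_L`, lengths give `l'' = 1`.
* left versions: take inverses.
-/

set_option autoImplicit false

namespace Pool.Agent.H73.HVN

universe u v

variable {B : Type v} {W : Type u} [Group W] {M : CoxeterMatrix B} (cs : CoxeterSystem M W)

private theorem parab_eraseIdx {L : Set B} {ω : List B} (hω : cs.IsReduced ω)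
    (hL : ∀ i ∈ ω, i ∈ L) {i : B} (hi : cs.length (cs.wordProd ω * cs.simple i) <
      cs.length (cs.wordProd ω)) :
    ∃ ω' : List B, cs.IsReduced ω' ∧ cs.wordProd ω * cs.simple i = cs.wordProd ω' ∧
      ∀ i ∈ ω', i ∈ L := by
  obtain ⟨j, hj, h⟩ := strong_exchange cs (cs.isReflection_simple i) hi
  refine ⟨ω.eraseIdx j, ?_, h, fun k hk => hL k (List.mem_of_mem_eraseIdx hk)⟩
  have h1 := cs.length_wordProd_le (ω.eraseIdx j)
  have h2 := List.length_eraseIdx_of_lt hj
  have h3 := cs.length_mul_simple (cs.wordProd ω) i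
  rw [h] at h3 hi
  have h4 := hω.eq
  unfold CoxeterSystem.IsReduced
  omega

private theorem parab_concat {ω : List B} (hω : cs.IsReduced ω) {i : B}
    (hi : ¬ cs.length (cs.wordProd ω * cs.simple i) < cs.length (cs.wordProd ω)) :
    cs.IsReduced (ω ++ [i]) := by
  have h3 := cs.length_mul_simple (cs.wordProd ω) i
  have h4 := hω.eq
  unfold CoxeterSystem.IsReduced
  rw [cs.wordProd_append, cs.wordProd_singleton, List.length_append, List.length_singleton]
  omega

theorem exists_reduced_word_mem {L : Set B} {w : W} (hw : w ∈ WP cs L) :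
    ∃ ω : List B, cs.IsReduced ω ∧ w = cs.wordProd ω ∧ ∀ i ∈ ω, i ∈ L := by
  have key : ∀ x : W, ∀ i ∈ L, (∃ ω : List B, cs.IsReduced ω ∧ x = cs.wordProd ω ∧
      ∀ i ∈ ω, i ∈ L) → ∃ ω : List B, cs.IsReduced ω ∧ x * cs.simple i = cs.wordProd ω ∧
      ∀ i ∈ ω, i ∈ L := by
    rintro x i hi ⟨ω, hω, rfl, hL⟩
    by_cases h : cs.length (cs.wordProd ω * cs.simple i) < cs.length (cs.wordProd ω)
    · exact parab_eraseIdx cs hω hL h
    · refine ⟨ω ++ [i], parab_concat cs hω h, ?_, ?_⟩
      · rw [cs.wordProd_append, cs.wordProd_singleton]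
      · intro k hk
        rcases List.mem_append.1 hk with hk | hk
        · exact hL k hk
        · rw [List.mem_singleton.1 hk]
          exact hi
  unfold WP at hw
  induction hw using Subgroup.closure_induction_right with
  | one => exact ⟨[], by unfold CoxeterSystem.IsReduced; simp, by simp, by simp⟩
  | mul_right x hx y hy ih =>
    obtain ⟨i, hi, rfl⟩ := hy
    exact key x i hi ih
  | mul_inv_cancel x hx y hy ih =>
    obtain ⟨i, hi, rfl⟩ := hy
    rw [cs.inv_simple]
    exact key x i hi ih

private theorem parab_wordProd_mem {L : Set B} {ω : List B} (h : ∀ i ∈ ω, i ∈ L) :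
    cs.wordProd ω ∈ WP cs L := by
  induction ω with
  | nil =>
    rw [cs.wordProd_nil]
    exact one_mem _
  | cons i ω ih =>
    rw [cs.wordProd_cons]
    exact mul_mem (Subgroup.subset_closure ⟨i, h i (by simp), rfl⟩)
      (ih fun k hk => h k (by simp [hk]))

private theorem parab_simple {L : Set B} {i : B} (h : cs.simple i ∈ WP cs L) : i ∈ L := by
  obtain ⟨ω, hω, h1, hL⟩ := exists_reduced_word_mem cs h
  have h2 := hω.eq
  rw [← h1, cs.length_simple] at h2
  obtain ⟨k, rfl⟩ := List.length_eq_one_iff.1 h2.symm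
  rw [cs.wordProd_singleton] at h1
  rw [simple_injective cs h1]
  exact hL k (by simp)

private theorem parab_right {L : Set B} {w : W} (hw : w ∈ WP cs L) {i : B}
    (hi : cs.IsRightDescent w i) : i ∈ L := by
  obtain ⟨ω, hω, rfl, hL⟩ := exists_reduced_word_mem cs hw
  obtain ⟨ω', -, h, hL'⟩ := parab_eraseIdx cs hω hL hi
  apply parab_simple cs
  have h1 : cs.simple i = (cs.wordProd ω)⁻¹ * cs.wordProd ω' := by
    rw [← h]
    group
  rw [h1]
  exact mul_mem (inv_mem hw) (parab_wordProd_mem cs hL')

theorem mem_of_isReduced {L : Set B} {ω : List B} (hω : cs.IsReduced ω)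
    (h : cs.wordProd ω ∈ WP cs L) : ∀ i ∈ ω, i ∈ L := by
  induction ω using List.reverseRecOn with
  | nil => simp
  | append_singleton ω i ih =>
    have h1 : cs.IsReduced ω := by
      have := hω.take ω.length
      rwa [List.take_left] at this
    have h2 := hω.eq
    have h3 := h1.eq
    have h4 : cs.wordProd (ω ++ [i]) * cs.simple i = cs.wordProd ω := by
      rw [cs.wordProd_append, cs.wordProd_singleton, cs.simple_mul_simple_cancel_right]
    have h5 : cs.IsRightDescent (cs.wordProd (ω ++ [i])) i := by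
      unfold CoxeterSystem.IsRightDescent
      rw [h4, h2, h3]
      simp
    have h6 : i ∈ L := parab_right cs h h5
    have h7 : cs.wordProd ω ∈ WP cs L := by
      rw [← h4]
      exact mul_mem h (Subgroup.subset_closure ⟨i, h6, rfl⟩)
    intro k hk
    rcases List.mem_append.1 hk with hk | hk
    · exact ih h1 h7 k hk
    · rw [List.mem_singleton.1 hk]
      exact h6

theorem right_descent_mem {L : Set B} {w : W} (hw : w ∈ WP cs L) {i : B}
    (hi : cs.IsRightDescent w i) : i ∈ L := parab_right cs hw hi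

theorem left_descent_mem {L : Set B} {w : W} (hw : w ∈ WP cs L) {i : B}
    (hi : cs.IsLeftDescent w i) : i ∈ L :=
  parab_right cs (inv_mem hw) (cs.isRightDescent_inv_iff.2 hi)

theorem simple_mem_WP_iff {L : Set B} {i : B} : cs.simple i ∈ WP cs L ↔ i ∈ L :=
  ⟨parab_simple cs, fun h => Subgroup.subset_closure ⟨i, h, rfl⟩⟩

private theorem parab_add {L : Set B} {u : W} (hu : ∀ l ∈ WP cs L, cs.length u ≤
    cs.length (u * l)) (ω : List B) (hω : cs.IsReduced ω) (hL : ∀ i ∈ ω, i ∈ L) :
    cs.length (u * cs.wordProd ω) = cs.length u + ω.length := by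
  induction ω using List.reverseRecOn with
  | nil => simp
  | append_singleton ω i ih =>
    have h1 : cs.IsReduced ω := by
      have := hω.take ω.length
      rwa [List.take_left] at this
    have h2 := hω.eq
    have h3 := h1.eq
    have hLω : ∀ i ∈ ω, i ∈ L := fun k hk => hL k (by simp [hk])
    have hi : i ∈ L := hL i (by simp)
    have h4 := ih h1 hLω
    have hmem : cs.wordProd ω ∈ WP cs L := parab_wordProd_mem cs hLω
    have hsi : cs.simple i ∈ WP cs L := Subgroup.subset_closure ⟨i, hi, rfl⟩
    rw [cs.wordProd_append, cs.wordProd_singleton] at h2 ⊢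
    rw [← mul_assoc, List.length_append, List.length_singleton]
    rw [List.length_append, List.length_singleton] at h2
    rcases cs.length_mul_simple (u * cs.wordProd ω) i with h5 | h5
    · omega
    · exfalso
      obtain ⟨υ, hυ, hυu⟩ := cs.exists_isReduced u
      have h6 : cs.wordProd (υ ++ ω) = u * cs.wordProd ω := by
        rw [cs.wordProd_append, ← hυu]
      obtain ⟨j, hj, h7⟩ := strong_exchange cs (ω := υ ++ ω) (cs.isReflection_simple i)
        (by rw [h6]; omega)
      rw [h6] at h7
      by_cases hj1 : j < υ.length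
      · rw [List.eraseIdx_append_of_lt_length hj1, cs.wordProd_append] at h7
        have h8 : u * (cs.wordProd ω * cs.simple i * (cs.wordProd ω)⁻¹) =
            cs.wordProd (υ.eraseIdx j) := by
          rw [← mul_assoc, ← mul_assoc, h7]
          group
        have h9 := hu _ (mul_mem (mul_mem hmem hsi) (inv_mem hmem))
        rw [h8] at h9
        have h10 := cs.length_wordProd_le (υ.eraseIdx j)
        have h11 := List.length_eraseIdx_of_lt hj1
        have h12 := hυ.eq
        rw [← hυu] at h12
        omega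
      · rw [not_lt] at hj1
        rw [List.eraseIdx_append_of_length_le hj1, cs.wordProd_append, ← hυu, mul_assoc,
          mul_left_cancel_iff] at h7
        rw [List.length_append] at hj
        have h10 := cs.length_wordProd_le (ω.eraseIdx (j - υ.length))
        have h11 := List.length_eraseIdx_of_lt (l := ω) (i := j - υ.length) (by omega)
        rw [h7] at h2
        omega

private theorem parab_exists_min (L : Set B) (y : W) :
    ∃ u l, (∀ l ∈ WP cs L, cs.length u ≤ cs.length (u * l)) ∧ l ∈ WP cs L ∧ y = u * l := by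
  classical
  have hex : ∃ n, ∃ l ∈ WP cs L, cs.length (y * l) = n := ⟨_, 1, one_mem _, rfl⟩
  obtain ⟨l, hl, hn⟩ := Nat.find_spec hex
  refine ⟨y * l, l⁻¹, ?_, inv_mem hl, by group⟩
  intro l' hl'
  rw [hn]
  exact Nat.find_min' hex ⟨l * l', mul_mem hl hl', by rw [mul_assoc]⟩

private theorem parab_min_of_no_descent {L : Set B} {u : W}
    (hu : ∀ i ∈ L, ¬ cs.IsRightDescent u i) :
    ∀ l ∈ WP cs L, cs.length u ≤ cs.length (u * l) := by
  obtain ⟨u', l, hu', hl, rfl⟩ := parab_exists_min cs L u
  by_cases h1 : l = 1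
  · subst h1
    rwa [mul_one]
  · exfalso
    obtain ⟨i, hi⟩ := cs.exists_rightDescent_of_ne_one h1
    have hiL := parab_right cs hl hi
    apply hu i hiL
    obtain ⟨ω, hω, h2, hL⟩ := exists_reduced_word_mem cs hl
    have hls : l * cs.simple i ∈ WP cs L := mul_mem hl (Subgroup.subset_closure ⟨i, hiL, rfl⟩)
    obtain ⟨ω', hω', h3, hL'⟩ := exists_reduced_word_mem cs hls
    have h4 := parab_add cs hu' ω hω hL
    have h5 := parab_add cs hu' ω' hω' hL'
    have h6 := hω.eq
    have h7 := hω'.eq
    rw [← h2] at h4 h6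
    rw [← h3] at h5 h7
    unfold CoxeterSystem.IsRightDescent at hi ⊢
    rw [mul_assoc]
    omega

theorem length_mul_of_min {L : Set B} {u l : W} (hu : ∀ i ∈ L, ¬ cs.IsRightDescent u i)
    (hl : l ∈ WP cs L) : cs.length (u * l) = cs.length u + cs.length l := by
  obtain ⟨ω, hω, rfl, hL⟩ := exists_reduced_word_mem cs hl
  rw [parab_add cs (parab_min_of_no_descent cs hu) ω hω hL, hω.eq]

theorem exists_min (L : Set B) (y : W) :
    ∃ u l, (∀ i ∈ L, ¬ cs.IsRightDescent u i) ∧ l ∈ WP cs L ∧ y = u * l := by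
  obtain ⟨u, l, hu, hl, h⟩ := parab_exists_min cs L y
  refine ⟨u, l, fun i hi hd => ?_, hl, h⟩
  have h1 := hu (cs.simple i) (Subgroup.subset_closure ⟨i, hi, rfl⟩)
  unfold CoxeterSystem.IsRightDescent at hd
  omega

theorem min_unique {L : Set B} {u u' l l' : W} (hu : ∀ i ∈ L, ¬ cs.IsRightDescent u i)
    (hu' : ∀ i ∈ L, ¬ cs.IsRightDescent u' i) (hl : l ∈ WP cs L) (hl' : l' ∈ WP cs L)
    (h : u * l = u' * l') : u = u' ∧ l = l' := by
  have h1 : u = u' * (l' * l⁻¹) := by
    rw [← mul_assoc, ← h]
    group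
  have h2 : u' = u * (l * l'⁻¹) := by
    rw [← mul_assoc, h]
    group
  have h3 := length_mul_of_min cs hu' (mul_mem hl' (inv_mem hl))
  have h4 := length_mul_of_min cs hu (mul_mem hl (inv_mem hl'))
  rw [← h1] at h3
  rw [← h2] at h4
  have h5 : cs.length (l' * l⁻¹) = 0 := by omega
  rw [cs.length_eq_zero_iff] at h5
  refine ⟨?_, (mul_inv_eq_one.1 h5).symm⟩
  rw [h1, h5, mul_one]

theorem length_mul_of_min_left {L : Set B} {u l : W} (hu : ∀ i ∈ L, ¬ cs.IsLeftDescent u i)
    (hl : l ∈ WP cs L) : cs.length (l * u) = cs.length l + cs.length u := by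
  have h1 := length_mul_of_min cs (u := u⁻¹) (l := l⁻¹)
    (fun i hi hd => hu i hi (cs.isRightDescent_inv_iff.1 hd)) (inv_mem hl)
  rw [← mul_inv_rev, cs.length_inv, cs.length_inv, cs.length_inv] at h1
  omega

theorem exists_min_left (L : Set B) (y : W) :
    ∃ l u, (∀ i ∈ L, ¬ cs.IsLeftDescent u i) ∧ l ∈ WP cs L ∧ y = l * u := by
  obtain ⟨u, l, hu, hl, h⟩ := exists_min cs L y⁻¹
  refine ⟨l⁻¹, u⁻¹, fun i hi hd => hu i hi ?_, inv_mem hl, ?_⟩
  · exact cs.isLeftDescent_inv_iff.1 hd
  · rw [← mul_inv_rev, ← h, inv_inv]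

theorem min_unique_left {L : Set B} {u u' l l' : W} (hu : ∀ i ∈ L, ¬ cs.IsLeftDescent u i)
    (hu' : ∀ i ∈ L, ¬ cs.IsLeftDescent u' i) (hl : l ∈ WP cs L) (hl' : l' ∈ WP cs L)
    (h : l * u = l' * u') : u = u' ∧ l = l' := by
  have h1 := min_unique cs (u := u⁻¹) (u' := u'⁻¹) (l := l⁻¹) (l' := l'⁻¹)
    (fun i hi hd => hu i hi (cs.isRightDescent_inv_iff.1 hd))
    (fun i hi hd => hu' i hi (cs.isRightDescent_inv_iff.1 hd)) (inv_mem hl) (inv_mem hl')
    (by rw [← mul_inv_rev, ← mul_inv_rev, h])
  exact ⟨inv_injective h1.1, inv_injective h1.2⟩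

end Pool.Agent.H73.HVN
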