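import Pool.Agent.H73.HVN.Kraus
import Pool.Agent.H73.HVN.Coef

/-!
# Module Kern: from kernels to maps on the Hecke–von Neumann algebra

Weighted right translations `(A_i f)(w) = k_i(w) f(w a_i)`, so `A_i δ_y = k_i(y a_i⁻¹) δ_{y a_i⁻¹}`;
`A'_i` similarly with `k'_i`.

PLAN. `A_i := wop (Equiv.mulRight (a i)) (fun w => (k i w : ℂ))`; the weight is bounded: `(k i w)² ≤ K` by `hk`
at `y = w a_i` (single term of a nonnegative sum). `wop_apply`, `wop_δ`.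
`IsRow A K`: `∑_i ‖A_i ξ‖² = ∑_i ∑_w k_i(w)² ‖ξ(w a_i)‖² = ∑_i ∑_y k_i(y a_i⁻¹)² ‖ξ(y)‖² = ∑_y ‖ξ(y)‖² ∑_i k_i(y a_i⁻¹)²
≤ K ‖ξ‖²` (`hasSum_normsq`, `Equiv.tsum_eq`; all terms nonnegative: work in `ENNReal`/`NNReal` or with
`summable_prod_of_nonneg` and `Summable.tsum_comm`).
`exists_kraus` (with `C = A`, `D = A'`) gives `Ψ` on all bounded operators and
`cf (Ψ x) z y = ⟪δ_z, Ψ x δ_y⟫ = ∑' ⟪A'_i δ_z, x A_i δ_y⟫ = kmap k k' a (cf x) z y` (`inner_δ`, `wop_δ`, the `k` are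
real). If `x ∈ HA` then `cf x` satisfies all `CC` (`mem_HA_iff_CC`), so `cf (Ψ x)` does by `hC`, so `Ψ x ∈ HA`:
`Φ := Ψ.restrict` (codomain restriction; build with `LinearMap.codRestrict` / `LinearMap.restrict` on
`Subalgebra.toSubmodule`, or by hand `{ toFun := fun x => ⟨Ψ x, _⟩, … }`). `IsKraus` holds; `IsKraus.normal`,
`IsKraus.cb`, `IsKraus.cp` (if `k = k'` then `A = A'`). `IsMult` is `h1` (`z = w`, `y = 1`).
-/

set_option autoImplicit false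

open scoped ComplexOrder InnerProductSpace
open Filter Topology

namespace Pool.Agent.H73.HVN

universe u v

variable {B : Type v} {W : Type u} [Group W] {M : CoxeterMatrix B} (cs : CoxeterSystem M W)

/-- the action on kernels of the map `x ↦ ∑_i A'_i* x A_i` -/
noncomputable def kmap {ι : Type u} (k k' : ι → W → ℝ) (a : ι → W) (X : W → W → ℂ) (z y : W) : ℂ :=
  ∑' i, ((k' i (z * (a i)⁻¹) * k i (y * (a i)⁻¹) : ℝ) : ℂ) * X (z * (a i)⁻¹) (y * (a i)⁻¹)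

/-- the weights are bounded -/
private theorem weight_bound {ι : Type u} (k : ι → W → ℝ) (a : ι → W) {K : ℝ}
    (hk : ∀ y, Summable (fun i => (k i (y * (a i)⁻¹)) ^ 2) ∧ ∑' i, (k i (y * (a i)⁻¹)) ^ 2 ≤ K)
    (i : ι) (w : W) : ‖((k i w : ℝ) : ℂ)‖ ≤ √K := by
  have h := hk (w * a i)
  have h1 : (k i (w * a i * (a i)⁻¹)) ^ 2 ≤ K :=
    (h.1.le_tsum i (fun j _ => sq_nonneg _)).trans h.2
  rw [mul_inv_cancel_right] at h1
  rw [Complex.norm_real, Real.norm_eq_abs]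
  exact Real.abs_le_sqrt h1

/-- the operators `A_i` -/
private noncomputable def opA {ι : Type u} (k : ι → W → ℝ) (a : ι → W) (i : ι) :
    L2 W →L[ℂ] L2 W :=
  wop (Equiv.mulRight (a i)) (fun w => ((k i w : ℝ) : ℂ))

private theorem opA_apply {ι : Type u} (k : ι → W → ℝ) (a : ι → W) {K : ℝ}
    (hk : ∀ y, Summable (fun i => (k i (y * (a i)⁻¹)) ^ 2) ∧ ∑' i, (k i (y * (a i)⁻¹)) ^ 2 ≤ K)
    (i : ι) (f : L2 W) (w : W) :
    opA k a i f w = ((k i w : ℝ) : ℂ) * f (w * a i) := by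
  unfold opA
  rw [wop_apply (Equiv.mulRight (a i)) (fun w => ((k i w : ℝ) : ℂ))
    (fun x => weight_bound k a hk i x) f w]
  rfl

private theorem opA_δ {ι : Type u} (k : ι → W → ℝ) (a : ι → W) {K : ℝ}
    (hk : ∀ y, Summable (fun i => (k i (y * (a i)⁻¹)) ^ 2) ∧ ∑' i, (k i (y * (a i)⁻¹)) ^ 2 ≤ K)
    (i : ι) (y : W) :
    opA k a i (δ y) = ((k i (y * (a i)⁻¹) : ℝ) : ℂ) • (δ (y * (a i)⁻¹) : L2 W) := by
  unfold opA
  rw [wop_δ (Equiv.mulRight (a i)) (fun w => ((k i w : ℝ) : ℂ))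
    (fun x => weight_bound k a hk i x) y]
  rfl

private theorem opA_hasSum {ι : Type u} (k : ι → W → ℝ) (a : ι → W) {K : ℝ}
    (hk : ∀ y, Summable (fun i => (k i (y * (a i)⁻¹)) ^ 2) ∧ ∑' i, (k i (y * (a i)⁻¹)) ^ 2 ≤ K)
    (i : ι) (ξ : L2 W) :
    HasSum (fun y => (k i (y * (a i)⁻¹)) ^ 2 * ‖ξ y‖ ^ 2) (‖opA k a i ξ‖ ^ 2) := by
  have h := hasSum_normsq (opA k a i ξ)
  have h2 := ((Equiv.mulRight (a i)).symm.hasSum_iff).2 h
  convert h2 using 1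
  funext y
  simp only [Function.comp_apply]
  rw [opA_apply k a hk, norm_mul, mul_pow, Complex.norm_real, Real.norm_eq_abs, sq_abs]
  simp

private theorem opA_isRow {ι : Type u} (k : ι → W → ℝ) (a : ι → W) {K : ℝ}
    (hk : ∀ y, Summable (fun i => (k i (y * (a i)⁻¹)) ^ 2) ∧ ∑' i, (k i (y * (a i)⁻¹)) ^ 2 ≤ K) :
    IsRow (opA k a) K := by
  intro ξ
  have hS := hasSum_normsq ξ
  have hnn : ∀ (p : W × ι), 0 ≤ (k p.2 (p.1 * (a p.2)⁻¹)) ^ 2 * ‖ξ p.1‖ ^ 2 := fun p => by positivity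
  have hrow : ∀ y, Summable (fun i => (k i (y * (a i)⁻¹)) ^ 2 * ‖ξ y‖ ^ 2) := fun y =>
    (hk y).1.mul_right _
  have hrow2 : ∀ y, ∑' i, (k i (y * (a i)⁻¹)) ^ 2 * ‖ξ y‖ ^ 2 ≤ K * ‖ξ y‖ ^ 2 := by
    intro y
    rw [tsum_mul_right]
    exact mul_le_mul_of_nonneg_right (hk y).2 (sq_nonneg _)
  have hKs : Summable (fun y => K * ‖ξ y‖ ^ 2) := hS.summable.mul_left K
  have hc : Summable (fun y => ∑' i, (k i (y * (a i)⁻¹)) ^ 2 * ‖ξ y‖ ^ 2) := by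
    refine Summable.of_nonneg_of_le (fun y => tsum_nonneg fun i => by positivity) hrow2 hKs
  have hp : Summable (fun p : W × ι => (k p.2 (p.1 * (a p.2)⁻¹)) ^ 2 * ‖ξ p.1‖ ^ 2) :=
    (summable_prod_of_nonneg hnn).2 ⟨hrow, hc⟩
  have hp' : Summable (fun p : ι × W => (k p.1 (p.2 * (a p.1)⁻¹)) ^ 2 * ‖ξ p.2‖ ^ 2) :=
    hp.prod_symm
  have he : ∀ i, ‖opA k a i ξ‖ ^ 2 = ∑' y, (k i (y * (a i)⁻¹)) ^ 2 * ‖ξ y‖ ^ 2 := fun i =>
    (opA_hasSum k a hk i ξ).tsum_eq.symm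
  constructor
  · simp_rw [he]
    exact hp'.prod
  · simp_rw [he]
    have hcomm : ∑' i, ∑' y, (k i (y * (a i)⁻¹)) ^ 2 * ‖ξ y‖ ^ 2 =
        ∑' y, ∑' i, (k i (y * (a i)⁻¹)) ^ 2 * ‖ξ y‖ ^ 2 :=
      (Summable.tsum_comm (f := fun (i : ι) (y : W) => (k i (y * (a i)⁻¹)) ^ 2 * ‖ξ y‖ ^ 2) hp').symm
    rw [hcomm]
    calc ∑' y, ∑' i, (k i (y * (a i)⁻¹)) ^ 2 * ‖ξ y‖ ^ 2 ≤ ∑' y, K * ‖ξ y‖ ^ 2 :=
          hc.tsum_le_tsum hrow2 hKs
      _ = K * ‖ξ‖ ^ 2 := by rw [tsum_mul_left, hS.tsum_eq]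

theorem exists_map_of_kernel {q : B → ℝ} (hq : Admissible cs q) {ι : Type u} (k k' : ι → W → ℝ)
    (a : ι → W) {K : ℝ} (hK : 0 ≤ K)
    (hk : ∀ y, Summable (fun i => (k i (y * (a i)⁻¹)) ^ 2) ∧ ∑' i, (k i (y * (a i)⁻¹)) ^ 2 ≤ K)
    (hk' : ∀ y, Summable (fun i => (k' i (y * (a i)⁻¹)) ^ 2) ∧ ∑' i, (k' i (y * (a i)⁻¹)) ^ 2 ≤ K)
    (c : W → ℂ)
    (hC : ∀ X : W → W → ℂ, (∀ i, CC cs q X i) → ∀ i, CC cs q (kmap k k' a X) i)
    (h1 : ∀ X : W → W → ℂ, (∀ i, CC cs q X i) → ∀ z, kmap k k' a X z 1 = c z * X z 1) :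
    ∃ Φ : HA cs q →ₗ[ℂ] HA cs q, IsNormalMap (HA cs q) Φ ∧ CBNormLE (HA cs q) Φ K ∧
      IsMult cs q Φ c ∧ (k = k' → IsCP (HA cs q) Φ) := by
  have hA := opA_isRow k a hk
  have hA' := opA_isRow k' a hk'
  obtain ⟨Ψ, hΨ⟩ := exists_kraus hK hA hA'
  have hcf : ∀ (x : L2 W →L[ℂ] L2 W), cf (Ψ x) = kmap k k' a (cf x) := by
    intro x
    funext z y
    unfold cf kmap
    rw [← inner_δ, hΨ]
    refine tsum_congr fun i => ?_
    rw [opA_δ k' a hk', opA_δ k a hk, inner_smul_left, map_smul, inner_smul_right, inner_δ,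
      Complex.conj_ofReal]
    push_cast
    ring
  have hmem : ∀ x : L2 W →L[ℂ] L2 W, x ∈ HA cs q → Ψ x ∈ HA cs q := by
    intro x hx
    rw [mem_HA_iff_CC cs hq] at hx ⊢
    intro i
    rw [hcf]
    exact hC _ hx i
  let Φ : HA cs q →ₗ[ℂ] HA cs q :=
    { toFun := fun x => ⟨Ψ x, hmem x x.2⟩
      map_add' := fun x y => by
        apply Subtype.ext
        simp
      map_smul' := fun r x => by
        apply Subtype.ext
        simp }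
  have hΦ : ∀ x : HA cs q, (Φ x : L2 W →L[ℂ] L2 W) = Ψ x := fun x => rfl
  have hKr : IsKraus (HA cs q) Φ (opA k a) (opA k' a) := by
    intro x ξ η
    rw [hΦ]
    exact hΨ x ξ η
  refine ⟨Φ, hKr.normal hK hA hA', hKr.cb hK hA hA', ?_, ?_⟩
  · intro x w
    rw [hΦ]
    have h := h1 (cf (x : L2 W →L[ℂ] L2 W)) ((mem_HA_iff_CC cs hq _).1 x.2) w
    rw [← hcf] at h
    exact h
  · rintro rfl
    exact hKr.cp hK hA

end Pool.Agent.H73.HVN
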