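import Pool.Agent.H73.HVN.Gen
import Pool.Agent.H73.HVN.Kern
import Pool.Agent.H73.HVN.Two

/-!
# Module EA: the conditional expectation onto the subalgebra of a parabolic subgroup

PLAN. `𝒜 = {m | ∀ i ∈ A, ¬ IsLeftDescent m i}` (minimal representatives of the cosets `W_A m`), `𝒴 = W_A`.
Every `y` is `y = l m` with `l ∈ W_A`, `m ∈ 𝒜` in exactly one way (`exists_min_left`, `min_unique_left`), so
exactly one `m ∈ 𝒜` has `y m⁻¹ ∈ W_A`. `exists_map_of_kernel` with `ι = W`, `a m = m`, `K = 1`,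
`k m w = k' m w = if m ∈ 𝒜 ∧ w ∈ W_A then 1 else 0`: the sum of squares is `1`, and
`kmap k k a X = Ker 𝒜 W_A (fun _ _ => 1) X`. `Ker_CC` with `L = A` gives `hC`: `hfin` (singleton), `hY`
(subgroup), `hA` (`deodhar_left`), `hsep` (`length_mul_of_min_left`). `h1`: for `y = 1` the only `m` is `1`, so
the kernel is `X z 1` if `z ∈ W_A` and `0` otherwise.
-/

set_option autoImplicit false

open scoped ComplexOrder InnerProductSpace
open Filter Topology

namespace Pool.Agent.H73.HVN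

universe u v

variable {B : Type v} {W : Type u} [Group W] {M : CoxeterMatrix B} (cs : CoxeterSystem M W)

private theorem EA_unique (A : Set B) (y : W) :
    ∃ m₀ : W, ∀ m : W, ((∀ i ∈ A, ¬ cs.IsLeftDescent m i) ∧ y * m⁻¹ ∈ WP cs A) ↔ m = m₀ := by
  obtain ⟨l, u, hu, hl, hy⟩ := exists_min_left cs A y
  refine ⟨u, fun m => ⟨?_, ?_⟩⟩
  · rintro ⟨hm, hym⟩
    have h : y * m⁻¹ * m = l * u := by rw [inv_mul_cancel_right, hy]
    exact (min_unique_left cs hm hu hym hl h).1
  · rintro rfl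
    refine ⟨hu, ?_⟩
    rw [hy, mul_inv_cancel_right]
    exact hl

private theorem EA_one (A : Set B) {m : W} (hm : ∀ i ∈ A, ¬ cs.IsLeftDescent m i)
    (h : m ∈ WP cs A) : m = 1 := by
  by_contra hne
  obtain ⟨i, hi⟩ := cs.exists_leftDescent_of_ne_one hne
  exact hm i (left_descent_mem cs h hi) hi

open Classical in
private noncomputable def EAk (A : Set B) (m w : W) : ℝ :=
  if (∀ i ∈ A, ¬ cs.IsLeftDescent m i) ∧ w ∈ WP cs A then 1 else 0

private theorem EA_sq (A : Set B) (y : W) :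
    HasSum (fun m : W => (EAk cs A m (y * m⁻¹)) ^ 2) 1 := by
  classical
  obtain ⟨m₀, h⟩ := EA_unique cs A y
  have h1 : (fun m : W => (EAk cs A m (y * m⁻¹)) ^ 2) = fun m => if m = m₀ then (1 : ℝ) else 0 := by
    funext m
    simp only [EAk, h m]
    split_ifs <;> norm_num
  rw [h1]
  exact hasSum_ite_eq m₀ 1

open Classical in
private theorem EA_ite (P Q R : Prop) (x : ℂ) :
    (((if P ∧ Q then (1 : ℝ) else 0) * (if P ∧ R then (1 : ℝ) else 0) : ℝ) : ℂ) * x =
      if P ∧ Q ∧ R then 1 * x else 0 := by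
  by_cases h1 : P <;> by_cases h2 : Q <;> by_cases h3 : R <;> simp [h1, h2, h3]

private theorem EA_kmap (A : Set B) (X : W → W → ℂ) :
    kmap (EAk cs A) (EAk cs A) (fun m : W => m) X =
      Ker {m : W | ∀ i ∈ A, ¬ cs.IsLeftDescent m i} (WP cs A : Set W) (fun _ _ => 1) X := by
  classical
  funext z y
  unfold kmap Ker
  apply tsum_congr
  intro m
  exact EA_ite _ _ _ _

open Classical in
theorem exists_EA {q : B → ℝ} (hq : Admissible cs q) (A : Set B) :
    ∃ Φ : HA cs q →ₗ[ℂ] HA cs q, IsNormalMap (HA cs q) Φ ∧ CBNormLE (HA cs q) Φ 1 ∧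
      IsMult cs q Φ (fun w => if w ∈ WP cs A then 1 else 0) ∧ IsCP (HA cs q) Φ := by
  have hC : ∀ X : W → W → ℂ, (∀ i, CC cs q X i) →
      ∀ i, CC cs q (kmap (EAk cs A) (EAk cs A) (fun m : W => m) X) i := by
    intro X hX t
    rw [EA_kmap]
    refine Ker_CC cs hq (L := A) (fun i _ => hX i) ?_ ?_ ?_ ?_ ?_
    · intro y
      obtain ⟨m₀, h⟩ := EA_unique cs A y
      refine (Set.finite_singleton m₀).subset ?_
      rintro a ⟨ha1, ha2⟩
      exact (h a).1 ⟨ha1, ha2⟩
    · intro i hi y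
      exact (WP cs A).mul_mem_cancel_right ((simple_mem_WP_iff cs).2 hi)
    · intro i _ z y
      exact ⟨rfl, rfl⟩
    · intro a ha
      exact deodhar_left cs ha t
    · intro y hy a ha
      exact length_mul_of_min_left cs ha hy
  have h1 : ∀ X : W → W → ℂ, (∀ i, CC cs q X i) → ∀ z,
      kmap (EAk cs A) (EAk cs A) (fun m : W => m) X z 1 =
        (fun w => if w ∈ WP cs A then (1 : ℂ) else 0) z * X z 1 := by
    intro X _ z
    unfold kmap
    rw [tsum_eq_single (1 : W)]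
    · have h0 : ∀ i ∈ A, ¬ cs.IsLeftDescent (1 : W) i := fun i _ => cs.not_isLeftDescent_one i
      have e1 : EAk cs A 1 (1 * (1 : W)⁻¹) = 1 := by
        rw [EAk, if_pos ⟨h0, by simp⟩]
      by_cases hz : z ∈ WP cs A
      · have e2 : EAk cs A 1 (z * (1 : W)⁻¹) = 1 := by
          rw [EAk, if_pos ⟨h0, by simpa using hz⟩]
        rw [e1, e2]
        simp [hz]
      · have e2 : EAk cs A 1 (z * (1 : W)⁻¹) = 0 := by
          rw [EAk, if_neg (fun h => hz (by simpa using h.2))]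
        rw [e1, e2]
        simp [hz]
    · intro m hm
      have h5 : EAk cs A m (1 * m⁻¹) = 0 := by
        rw [EAk, if_neg]
        rintro ⟨h5, h6⟩
        rw [one_mul, inv_mem_iff] at h6
        exact hm (EA_one cs A h5 h6)
      rw [h5]
      simp
  obtain ⟨Φ, g1, g2, g3, g4⟩ := exists_map_of_kernel cs hq (EAk cs A) (EAk cs A)
    (fun m : W => m) (K := 1) zero_le_one
    (fun y => ⟨(EA_sq cs A y).summable, (EA_sq cs A y).tsum_eq.le⟩)
    (fun y => ⟨(EA_sq cs A y).summable, (EA_sq cs A y).tsum_eq.le⟩)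
    (fun w => if w ∈ WP cs A then 1 else 0) hC h1
  exact ⟨Φ, g1, g2, g3, g4 rfl⟩

end Pool.Agent.H73.HVN
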