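import Pool.Agent.H73.HVN.Defs

/-!
# Module Kraus: maps `x ↦ ∑ D_i* x C_i`

`H` a complex Hilbert space; `IsRow C K`: `∑_i ‖C_i ξ‖² ≤ K ‖ξ‖²` for all `ξ`.

PLAN.
* `summable_kraus`: `‖⟪D_i η, x (C_i ξ)⟫‖ ≤ ‖x‖ ‖D_i η‖ ‖C_i ξ‖`, and `∑ ‖D_i η‖ ‖C_i ξ‖ ≤
  √(∑ ‖D_i η‖²) √(∑ ‖C_i ξ‖²) ≤ K ‖η‖ ‖ξ‖` (Cauchy–Schwarz: `Real.summable_mul_of_Lp_Lq`,
  `Real.inner_le_Lp_mul_Lq_tsum` or via partial sums; `K ≥ 0`).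
* `exists_kraus`: for `x` fixed the form `(η, ξ) ↦ ∑' ⟪D_i η, x (C_i ξ)⟫` is conjugate linear in `η`, linear in
  `ξ`, bounded by `K ‖x‖ ‖η‖ ‖ξ‖`. By Riesz (`InnerProductSpace.toDual` for fixed `ξ`, or
  `LinearMap.mkContinuous₂` and `InnerProductSpace.continuousLinearMapOfBilin`) it is `⟪η, A ξ⟫` for a unique
  bounded `A = Φ x`; linear in `x` by uniqueness (`ext_inner_left`).
* `IsKraus.normal`: `φ(x) = ∑_j ⟪η_j, x ξ_j⟫` normal; then `φ(Φ x) = ∑_j ∑_i ⟪D_i η_j, x C_i ξ_j⟫`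
  `= ∑_{(j,i)} …` with vectors `C_i ξ_j`, `D_i η_j`; `∑_{j,i} ‖C_i ξ_j‖² ≤ K ∑_j ‖ξ_j‖²` (`summable_prod_of_nonneg`),
  the double family is absolutely summable (norm `≤ ‖x‖ ‖C_i ξ_j‖ ‖D_i η_j‖ ≤ ‖x‖ (‖C_i ξ_j‖² + ‖D_i η_j‖²)`),
  `Summable.tsum_prod`.
* `IsKraus.cb`: `∑_{k,l} ⟪η_k, Φ(X_kl) ξ_l⟫ = ∑'_i ∑_{k,l} ⟪D_i η_k, X_kl (C_i ξ_l)⟫`, the norm of the `i`-th term
  is by hypothesis `≤ K₀ √(∑_l ‖C_i ξ_l‖²) √(∑_k ‖D_i η_k‖²)`; Cauchy–Schwarz over `i` gives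
  `K₀ √(∑_i ∑_l ‖C_i ξ_l‖²) √(∑_i ∑_k ‖D_i η_k‖²) ≤ K₀ √(K ∑ ‖ξ_l‖²) √(K ∑ ‖η_k‖²)`. (If `K₀ < 0` the hypothesis
  shows that all the square roots vanish for all `ξ`, `η`; then both sides are `0`; e.g. replace `K₀` by
  `0`: from the hypothesis with `K₀ < 0` follows that the left side is `0` for all `ξ, η` and
  `√(∑ ‖ξ_j‖²) * √(∑ ‖η_i‖²) = 0` for all `ξ, η`.)
* `IsKraus.cp` (`D = C`): `∑_{k,l} ⟪ξ_k, Φ(X_kl) ξ_l⟫ = ∑'_i ∑_{k,l} ⟪C_i ξ_k, X_kl (C_i ξ_l)⟫`, each term `≥ 0`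
  (`tsum_nonneg`; for the order of `ℂ` (`ComplexOrder`) use real and imaginary parts, or
  `HasSum` and closedness of `{z | 0 ≤ z}`).
-/

set_option autoImplicit false

open scoped ComplexOrder InnerProductSpace
open Filter Topology

namespace Pool.Agent.H73.HVN

universe u

variable {H : Type u} [NormedAddCommGroup H] [InnerProductSpace ℂ H] [CompleteSpace H]

/-- a square summable family of operators: `∑_i ‖C_i ξ‖² ≤ K ‖ξ‖²` -/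
def IsRow {ι : Type u} (C : ι → H →L[ℂ] H) (K : ℝ) : Prop :=
  ∀ ξ : H, Summable (fun i => ‖C i ξ‖ ^ 2) ∧ ∑' i, ‖C i ξ‖ ^ 2 ≤ K * ‖ξ‖ ^ 2

/-- `Φ(x) = ∑_i D_i* x C_i` on `𝓜` -/
def IsKraus (𝓜 : Subalgebra ℂ (H →L[ℂ] H)) (Φ : 𝓜 →ₗ[ℂ] 𝓜) {ι : Type u} (C D : ι → H →L[ℂ] H) :
    Prop :=
  ∀ (x : 𝓜) (ξ η : H), ⟪η, (Φ x : H →L[ℂ] H) ξ⟫_ℂ = ∑' i, ⟪D i η, (x : H →L[ℂ] H) (C i ξ)⟫_ℂ

private theorem cs_sum {ι : Type*} {f g : ι → ℝ} (hf : ∀ i, 0 ≤ f i) (hg : ∀ i, 0 ≤ g i)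
    (hf2 : Summable (fun i => f i ^ 2)) (hg2 : Summable (fun i => g i ^ 2)) :
    Summable (fun i => f i * g i) ∧
      ∑' i, f i * g i ≤ √(∑' i, f i ^ 2) * √(∑' i, g i ^ 2) := by
  have hs : Summable (fun i => f i * g i) := by
    refine Summable.of_nonneg_of_le (fun i => mul_nonneg (hf i) (hg i)) (fun i => ?_)
      (hf2.add hg2)
    nlinarith [sq_nonneg (f i - g i), sq_nonneg (f i), sq_nonneg (g i)]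
  refine ⟨hs, hs.tsum_le_of_sum_le fun s => ?_⟩
  refine (Real.sum_mul_le_sqrt_mul_sqrt s f g).trans ?_
  refine mul_le_mul ?_ ?_ (Real.sqrt_nonneg _) (Real.sqrt_nonneg _)
  · exact Real.sqrt_le_sqrt (hf2.sum_le_tsum s (fun i _ => sq_nonneg _))
  · exact Real.sqrt_le_sqrt (hg2.sum_le_tsum s (fun i _ => sq_nonneg _))

private theorem kr_bound {ι : Type u} {C D : ι → H →L[ℂ] H} {K : ℝ} (hC : IsRow C K)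
    (hD : IsRow D K) (ξ η : H) :
    Summable (fun i => ‖D i η‖ * ‖C i ξ‖) ∧
      ∑' i, ‖D i η‖ * ‖C i ξ‖ ≤ √(K * ‖η‖ ^ 2) * √(K * ‖ξ‖ ^ 2) := by
  obtain ⟨h1, h2⟩ := cs_sum (fun i => norm_nonneg (D i η)) (fun i => norm_nonneg (C i ξ))
    (hD η).1 (hC ξ).1
  refine ⟨h1, h2.trans ?_⟩
  exact mul_le_mul (Real.sqrt_le_sqrt (hD η).2) (Real.sqrt_le_sqrt (hC ξ).2)
    (Real.sqrt_nonneg _) (Real.sqrt_nonneg _)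

private theorem kr_term {ι : Type u} (C D : ι → H →L[ℂ] H) (x : H →L[ℂ] H) (ξ η : H) (i : ι) :
    ‖⟪D i η, x (C i ξ)⟫_ℂ‖ ≤ ‖x‖ * (‖D i η‖ * ‖C i ξ‖) := by
  refine (norm_inner_le_norm _ _).trans ?_
  have := x.le_opNorm (C i ξ)
  calc ‖D i η‖ * ‖x (C i ξ)‖ ≤ ‖D i η‖ * (‖x‖ * ‖C i ξ‖) :=
        mul_le_mul_of_nonneg_left this (norm_nonneg _)
    _ = _ := by ring

theorem summable_kraus {ι : Type u} {C D : ι → H →L[ℂ] H} {K : ℝ} (hC : IsRow C K) (hD : IsRow D K)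
    (x : H →L[ℂ] H) (ξ η : H) : Summable (fun i => ⟪D i η, x (C i ξ)⟫_ℂ) := by
  exact Summable.of_norm_bounded ((kr_bound hC hD ξ η).1.mul_left ‖x‖)
    (fun i => kr_term C D x ξ η i)

private theorem kr_norm {ι : Type u} {C D : ι → H →L[ℂ] H} {K : ℝ} (hK : 0 ≤ K)
    (hC : IsRow C K) (hD : IsRow D K) (x : H →L[ℂ] H) (ξ η : H) :
    ‖∑' i, ⟪D i η, x (C i ξ)⟫_ℂ‖ ≤ ‖x‖ * K * ‖η‖ * ‖ξ‖ := by
  obtain ⟨h1, h2⟩ := kr_bound hC hD ξ η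
  have h3 : ‖∑' i, ⟪D i η, x (C i ξ)⟫_ℂ‖ ≤ ∑' i, ‖x‖ * (‖D i η‖ * ‖C i ξ‖) :=
    tsum_of_norm_bounded (h1.mul_left ‖x‖).hasSum (fun i => kr_term C D x ξ η i)
  rw [tsum_mul_left] at h3
  refine h3.trans ?_
  have h4 : √(K * ‖η‖ ^ 2) * √(K * ‖ξ‖ ^ 2) = K * ‖η‖ * ‖ξ‖ := by
    rw [Real.sqrt_mul hK, Real.sqrt_mul hK, Real.sqrt_sq (norm_nonneg _),
      Real.sqrt_sq (norm_nonneg _)]
    have := Real.mul_self_sqrt hK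
    linear_combination ‖η‖ * ‖ξ‖ * this
  rw [h4] at h2
  calc ‖x‖ * ∑' i, ‖D i η‖ * ‖C i ξ‖ ≤ ‖x‖ * (K * ‖η‖ * ‖ξ‖) :=
        mul_le_mul_of_nonneg_left h2 (norm_nonneg _)
    _ = _ := by ring

private theorem kr_exists {ι : Type u} {C D : ι → H →L[ℂ] H} {K : ℝ} (hK : 0 ≤ K)
    (hC : IsRow C K) (hD : IsRow D K) (x : H →L[ℂ] H) : ∃ A : H →L[ℂ] H,
      ∀ ξ η : H, ⟪η, A ξ⟫_ℂ = ∑' i, ⟪D i η, x (C i ξ)⟫_ℂ := by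
  let F : H →ₗ⋆[ℂ] H →ₗ[ℂ] ℂ := LinearMap.mk₂'ₛₗ (starRingEnd ℂ) (RingHom.id ℂ)
    (fun η ξ => ∑' i, ⟪D i η, x (C i ξ)⟫_ℂ)
    (fun η η' ξ => by
      rw [← (summable_kraus hC hD x ξ η).tsum_add (summable_kraus hC hD x ξ η')]
      refine tsum_congr fun i => ?_
      rw [map_add, inner_add_left])
    (fun c η ξ => by
      rw [smul_eq_mul, ← tsum_mul_left]
      refine tsum_congr fun i => ?_
      rw [map_smul, inner_smul_left])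
    (fun η ξ ξ' => by
      rw [← (summable_kraus hC hD x ξ η).tsum_add (summable_kraus hC hD x ξ' η)]
      refine tsum_congr fun i => ?_
      rw [map_add, map_add, inner_add_right])
    (fun c η ξ => by
      rw [RingHom.id_apply, smul_eq_mul, ← tsum_mul_left]
      refine tsum_congr fun i => ?_
      rw [map_smul, map_smul, inner_smul_right])
  have hF : ∀ η ξ, F η ξ = ∑' i, ⟪D i η, x (C i ξ)⟫_ℂ := fun η ξ => rfl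
  let B : H →L⋆[ℂ] H →L[ℂ] ℂ := F.mkContinuous₂ (‖x‖ * K) (fun η ξ => by
    rw [hF]
    exact kr_norm hK hC hD x ξ η)
  refine ⟨ContinuousLinearMap.adjoint (InnerProductSpace.continuousLinearMapOfBilin B), ?_⟩
  intro ξ η
  rw [ContinuousLinearMap.adjoint_inner_right, InnerProductSpace.continuousLinearMapOfBilin_apply]
  exact hF η ξ

theorem exists_kraus {ι : Type u} {C D : ι → H →L[ℂ] H} {K : ℝ} (hK : 0 ≤ K) (hC : IsRow C K)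
    (hD : IsRow D K) : ∃ Φ : (H →L[ℂ] H) →ₗ[ℂ] (H →L[ℂ] H),
      ∀ (x : H →L[ℂ] H) (ξ η : H), ⟪η, Φ x ξ⟫_ℂ = ∑' i, ⟪D i η, x (C i ξ)⟫_ℂ := by
  choose A hA using fun x => kr_exists hK hC hD x
  refine ⟨{ toFun := A, map_add' := ?_, map_smul' := ?_ }, hA⟩
  · intro x y
    ext ξ
    refine ext_inner_left ℂ fun η => ?_
    rw [add_apply, inner_add_right, hA, hA, hA,
      ← (summable_kraus hC hD x ξ η).tsum_add (summable_kraus hC hD y ξ η)]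
    refine tsum_congr fun i => ?_
    rw [add_apply, inner_add_right]
  · intro c x
    ext ξ
    refine ext_inner_left ℂ fun η => ?_
    rw [RingHom.id_apply, smul_apply, inner_smul_right, hA, hA,
      ← tsum_mul_left]
    refine tsum_congr fun i => ?_
    rw [smul_apply, inner_smul_right]

private theorem kr_prod {ι κ : Type u} {C : ι → H →L[ℂ] H} {K : ℝ} (hC : IsRow C K)
    {ξ : κ → H} (hξ : Summable fun j => ‖ξ j‖ ^ 2) :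
    Summable (fun p : κ × ι => ‖C p.2 (ξ p.1)‖ ^ 2) := by
  rw [summable_prod_of_nonneg (fun p => sq_nonneg _)]
  refine ⟨fun j => (hC (ξ j)).1, ?_⟩
  refine Summable.of_nonneg_of_le (fun j => tsum_nonneg fun i => sq_nonneg _) (fun j => (hC (ξ j)).2)
    (hξ.mul_left K)

theorem IsKraus.normal {𝓜 : Subalgebra ℂ (H →L[ℂ] H)} {Φ : 𝓜 →ₗ[ℂ] 𝓜} {ι : Type u}
    {C D : ι → H →L[ℂ] H} {K : ℝ} (h : IsKraus 𝓜 Φ C D) (hK : 0 ≤ K) (hC : IsRow C K)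
    (hD : IsRow D K) : IsNormalMap 𝓜 Φ := by
  rintro φ ⟨κ, ξ, η, hξ, hη, hφ⟩
  refine ⟨κ × ι, fun p => C p.2 (ξ p.1), fun p => D p.2 (η p.1), kr_prod hC hξ, kr_prod hD hη, ?_⟩
  intro x
  have hs : Summable (fun p : κ × ι => ⟪D p.2 (η p.1), (x : H →L[ℂ] H) (C p.2 (ξ p.1))⟫_ℂ) := by
    refine Summable.of_norm_bounded (((cs_sum (fun p => norm_nonneg _) (fun p => norm_nonneg _)
      (kr_prod hD hη) (kr_prod hC hξ)).1).mul_left ‖(x : H →L[ℂ] H)‖) (fun p => ?_)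
    exact kr_term C D (x : H →L[ℂ] H) (ξ p.1) (η p.1) p.2
  change φ (Φ x) = ∑' p : κ × ι, ⟪D p.2 (η p.1), (x : H →L[ℂ] H) (C p.2 (ξ p.1))⟫_ℂ
  rw [hφ, hs.tsum_prod]
  refine tsum_congr fun j => ?_
  exact h x (ξ j) (η j)

private theorem kr_swap {𝓜 : Subalgebra ℂ (H →L[ℂ] H)} {Φ : 𝓜 →ₗ[ℂ] 𝓜} {ι : Type u}
    {C D : ι → H →L[ℂ] H} {K : ℝ} (h : IsKraus 𝓜 Φ C D) (hC : IsRow C K)
    (hD : IsRow D K) (n : ℕ) (X : Fin n → Fin n → 𝓜) (ξ η : Fin n → H) :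
    Summable (fun i => ∑ k, ∑ l, ⟪D i (η k), (X k l : H →L[ℂ] H) (C i (ξ l))⟫_ℂ) ∧
    ∑ k, ∑ l, ⟪η k, (Φ (X k l) : H →L[ℂ] H) (ξ l)⟫_ℂ =
      ∑' i, ∑ k, ∑ l, ⟪D i (η k), (X k l : H →L[ℂ] H) (C i (ξ l))⟫_ℂ := by
  have h1 : ∀ k l, HasSum (fun i => ⟪D i (η k), (X k l : H →L[ℂ] H) (C i (ξ l))⟫_ℂ)
      ⟪η k, (Φ (X k l) : H →L[ℂ] H) (ξ l)⟫_ℂ := by
    intro k l
    rw [h (X k l) (ξ l) (η k)]
    exact (summable_kraus hC hD _ _ _).hasSum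
  have h2 : HasSum (fun i => ∑ k, ∑ l, ⟪D i (η k), (X k l : H →L[ℂ] H) (C i (ξ l))⟫_ℂ)
      (∑ k, ∑ l, ⟪η k, (Φ (X k l) : H →L[ℂ] H) (ξ l)⟫_ℂ) :=
    hasSum_sum fun k _ => hasSum_sum fun l _ => h1 k l
  exact ⟨h2.summable, h2.tsum_eq.symm⟩

private theorem kr_rows {ι : Type u} {C : ι → H →L[ℂ] H} {K : ℝ} (hC : IsRow C K) (n : ℕ)
    (ξ : Fin n → H) : Summable (fun i => √(∑ l, ‖C i (ξ l)‖ ^ 2) ^ 2) ∧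
      ∑' i, √(∑ l, ‖C i (ξ l)‖ ^ 2) ^ 2 ≤ K * ∑ l, ‖ξ l‖ ^ 2 := by
  have h0 : ∀ i, √(∑ l, ‖C i (ξ l)‖ ^ 2) ^ 2 = ∑ l, ‖C i (ξ l)‖ ^ 2 := fun i =>
    Real.sq_sqrt (Finset.sum_nonneg fun l _ => sq_nonneg _)
  simp only [h0]
  have h1 : HasSum (fun i => ∑ l, ‖C i (ξ l)‖ ^ 2) (∑ l, ∑' i, ‖C i (ξ l)‖ ^ 2) :=
    hasSum_sum fun l _ => (hC (ξ l)).1.hasSum
  refine ⟨h1.summable, ?_⟩
  rw [h1.tsum_eq, Finset.mul_sum]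
  exact Finset.sum_le_sum fun l _ => (hC (ξ l)).2

private theorem kr_cb {𝓜 : Subalgebra ℂ (H →L[ℂ] H)} {Φ : 𝓜 →ₗ[ℂ] 𝓜} {ι : Type u}
    {C D : ι → H →L[ℂ] H} {K : ℝ} (h : IsKraus 𝓜 Φ C D) (hK : 0 ≤ K) (hC : IsRow C K)
    (hD : IsRow D K) (n : ℕ) (X : Fin n → Fin n → 𝓜) {K₀ : ℝ} (hK₀ : 0 ≤ K₀)
    (hX : ∀ ξ η : Fin n → H, ‖∑ i, ∑ j, ⟪η i, (X i j : H →L[ℂ] H) (ξ j)⟫_ℂ‖ ≤
      K₀ * (√(∑ j, ‖ξ j‖ ^ 2) * √(∑ i, ‖η i‖ ^ 2))) (ξ η : Fin n → H) :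
    ‖∑ i, ∑ j, ⟪η i, (Φ (X i j) : H →L[ℂ] H) (ξ j)⟫_ℂ‖ ≤
      K * K₀ * (√(∑ j, ‖ξ j‖ ^ 2) * √(∑ i, ‖η i‖ ^ 2)) := by
  obtain ⟨-, h2⟩ := kr_swap h hC hD n X ξ η
  rw [h2]
  obtain ⟨hc1, hc2⟩ := kr_rows hC n ξ
  obtain ⟨hd1, hd2⟩ := kr_rows hD n η
  obtain ⟨hs1, hs2⟩ := cs_sum (fun i => Real.sqrt_nonneg (∑ l, ‖C i (ξ l)‖ ^ 2))
    (fun i => Real.sqrt_nonneg (∑ l, ‖D i (η l)‖ ^ 2)) hc1 hd1
  have h3 : ‖∑' i, ∑ k, ∑ l, ⟪D i (η k), (X k l : H →L[ℂ] H) (C i (ξ l))⟫_ℂ‖ ≤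
      ∑' i, K₀ * (√(∑ l, ‖C i (ξ l)‖ ^ 2) * √(∑ l, ‖D i (η l)‖ ^ 2)) :=
    tsum_of_norm_bounded (hs1.mul_left K₀).hasSum (fun i =>
      hX (fun l => C i (ξ l)) (fun k => D i (η k)))
  rw [tsum_mul_left] at h3
  refine h3.trans ?_
  have h4 : √(K * ∑ l, ‖ξ l‖ ^ 2) * √(K * ∑ l, ‖η l‖ ^ 2) =
      K * (√(∑ j, ‖ξ j‖ ^ 2) * √(∑ i, ‖η i‖ ^ 2)) := by
    rw [Real.sqrt_mul hK, Real.sqrt_mul hK]
    have := Real.mul_self_sqrt hK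
    linear_combination √(∑ j, ‖ξ j‖ ^ 2) * √(∑ i, ‖η i‖ ^ 2) * this
  have h5 : √(∑' i, √(∑ l, ‖C i (ξ l)‖ ^ 2) ^ 2) * √(∑' i, √(∑ l, ‖D i (η l)‖ ^ 2) ^ 2) ≤
      √(K * ∑ l, ‖ξ l‖ ^ 2) * √(K * ∑ l, ‖η l‖ ^ 2) :=
    mul_le_mul (Real.sqrt_le_sqrt hc2) (Real.sqrt_le_sqrt hd2)
      (Real.sqrt_nonneg _) (Real.sqrt_nonneg _)
  rw [h4] at h5
  calc K₀ * ∑' i, √(∑ l, ‖C i (ξ l)‖ ^ 2) * √(∑ l, ‖D i (η l)‖ ^ 2)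
      ≤ K₀ * (K * (√(∑ j, ‖ξ j‖ ^ 2) * √(∑ i, ‖η i‖ ^ 2))) :=
        mul_le_mul_of_nonneg_left (hs2.trans h5) hK₀
    _ = _ := by ring

theorem IsKraus.cb {𝓜 : Subalgebra ℂ (H →L[ℂ] H)} {Φ : 𝓜 →ₗ[ℂ] 𝓜} {ι : Type u}
    {C D : ι → H →L[ℂ] H} {K : ℝ} (h : IsKraus 𝓜 Φ C D) (hK : 0 ≤ K) (hC : IsRow C K)
    (hD : IsRow D K) : CBNormLE 𝓜 Φ K := by
  intro n X K₀ hX ξ η
  by_cases hK₀ : 0 ≤ K₀
  · exact kr_cb h hK hC hD n X hK₀ hX ξ η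
  · have hP : ∀ ξ η : Fin n → H, √(∑ j, ‖ξ j‖ ^ 2) * √(∑ i, ‖η i‖ ^ 2) = 0 := by
      intro ξ η
      have h1 := (norm_nonneg _).trans (hX ξ η)
      have h2 : 0 ≤ √(∑ j, ‖ξ j‖ ^ 2) * √(∑ i, ‖η i‖ ^ 2) :=
        mul_nonneg (Real.sqrt_nonneg _) (Real.sqrt_nonneg _)
      have h3 : K₀ < 0 := not_le.1 hK₀
      nlinarith
    have h4 := kr_cb h hK hC hD n X (le_refl (0 : ℝ)) (fun ξ η => by
      have h5 := hX ξ η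
      rw [hP ξ η, mul_zero] at h5 ⊢
      exact h5) ξ η
    rw [hP ξ η, mul_zero] at h4 ⊢
    exact h4

theorem IsKraus.cp {𝓜 : Subalgebra ℂ (H →L[ℂ] H)} {Φ : 𝓜 →ₗ[ℂ] 𝓜} {ι : Type u}
    {C : ι → H →L[ℂ] H} {K : ℝ} (h : IsKraus 𝓜 Φ C C) (hK : 0 ≤ K) (hC : IsRow C K) :
    IsCP 𝓜 Φ := by
  intro n X hX ξ
  obtain ⟨-, h2⟩ := kr_swap h hC hC n X ξ ξ
  rw [h2]
  exact tsum_nonneg fun i => hX (fun l => C i (ξ l))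

end Pool.Agent.H73.HVN
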