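import Pool.Agent.H73.HVN.Coef
import Pool.Agent.H73.HVN.Kraus

/-!
# Module Closure: compositions and differences of maps

PLAN. `comp`: immediate from the definitions (`CBNormLE.comp`: apply `Φ` with constant `C' * K`).
`IsNormalMap.sub`: for a normal functional `φ(x) = ∑' ⟪η_i, x ξ_i⟫` the series converges absolutely
(`‖x‖ ‖ξ_i‖ ‖η_i‖ ≤ ‖x‖ (‖ξ_i‖² + ‖η_i‖²)`), so `φ` is additive and `φ ∘ (Φ - Ψ) = φ ∘ Φ - φ ∘ Ψ`; the difference of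
two normal functionals is normal: index type `ι ⊕ ι'`, vectors `ξ, ξ'` and `η, -η'`.
`CBNormLE.mono`: `0 ≤ ‖…‖ ≤ K * (…)` by hypothesis, so multiply by `C ≤ C'`.
`exists_prod`: `Finset.induction_on`, identity map for `A = ∅`.
-/

set_option autoImplicit false

open scoped ComplexOrder InnerProductSpace
open Filter Topology

namespace Pool.Agent.H73.HVN

universe u v

section General

variable {H : Type u} [NormedAddCommGroup H] [InnerProductSpace ℂ H] [CompleteSpace H]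
  {𝓜 : Subalgebra ℂ (H →L[ℂ] H)} {Φ Ψ : 𝓜 →ₗ[ℂ] 𝓜}

omit [CompleteSpace H] in
private theorem summable_pair {ι : Type u} {ξ η : ι → H} (hξ : Summable fun i => ‖ξ i‖ ^ 2)
    (hη : Summable fun i => ‖η i‖ ^ 2) (x : H →L[ℂ] H) :
    Summable fun i => ⟪η i, x (ξ i)⟫_ℂ := by
  refine Summable.of_norm_bounded (g := fun i => ‖x‖ * (‖ξ i‖ ^ 2 + ‖η i‖ ^ 2))
    ((hξ.add hη).mul_left _) fun i => ?_
  have h1 : ‖⟪η i, x (ξ i)⟫_ℂ‖ ≤ ‖η i‖ * ‖x (ξ i)‖ := norm_inner_le_norm _ _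
  have h2 : ‖x (ξ i)‖ ≤ ‖x‖ * ‖ξ i‖ := x.le_opNorm _
  have h3 : ‖η i‖ * ‖x (ξ i)‖ ≤ ‖η i‖ * (‖x‖ * ‖ξ i‖) :=
    mul_le_mul_of_nonneg_left h2 (norm_nonneg _)
  have h4 : ‖ξ i‖ * ‖η i‖ ≤ ‖ξ i‖ ^ 2 + ‖η i‖ ^ 2 := by
    nlinarith [sq_nonneg (‖ξ i‖ - ‖η i‖), sq_nonneg (‖ξ i‖), sq_nonneg (‖η i‖)]
  have h5 : ‖η i‖ * (‖x‖ * ‖ξ i‖) ≤ ‖x‖ * (‖ξ i‖ ^ 2 + ‖η i‖ ^ 2) := by
    have := mul_le_mul_of_nonneg_left h4 (norm_nonneg x)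
    linarith
  linarith

private theorem normal_apply_sub {φ : 𝓜 → ℂ} (hφ : IsNormalFunctional 𝓜 φ) (x y : 𝓜) :
    φ (x - y) = φ x - φ y := by
  obtain ⟨ι, ξ, η, h1, h2, h3⟩ := hφ
  rw [h3, h3, h3, ← (summable_pair h1 h2 _).tsum_sub (summable_pair h1 h2 _)]
  refine tsum_congr fun i => ?_
  rw [← inner_sub_right]
  rfl

private theorem normal_sub {φ ψ : 𝓜 → ℂ} (hφ : IsNormalFunctional 𝓜 φ)
    (hψ : IsNormalFunctional 𝓜 ψ) : IsNormalFunctional 𝓜 (fun x => φ x - ψ x) := by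
  obtain ⟨ι, ξ, η, h1, h2, h3⟩ := hφ
  obtain ⟨ι', ξ', η', h1', h2', h3'⟩ := hψ
  refine ⟨ι ⊕ ι', Sum.elim ξ ξ', Sum.elim η (fun i => - η' i), ?_, ?_, ?_⟩
  · have a : HasSum (fun i : ι ⊕ ι' => ‖Sum.elim ξ ξ' i‖ ^ 2) _ :=
      HasSum.sum (f := fun i : ι ⊕ ι' => ‖Sum.elim ξ ξ' i‖ ^ 2) h1.hasSum h1'.hasSum
    exact a.summable
  · have b : Summable (fun i => ‖- η' i‖ ^ 2) := by simpa using h2'
    have a : HasSum (fun i : ι ⊕ ι' => ‖Sum.elim η (fun i => - η' i) i‖ ^ 2) _ :=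
      HasSum.sum (f := fun i : ι ⊕ ι' => ‖Sum.elim η (fun i => - η' i) i‖ ^ 2) h2.hasSum b.hasSum
    exact a.summable
  · intro x
    have c1 : HasSum (fun i => ⟪η i, (x : H →L[ℂ] H) (ξ i)⟫_ℂ) (φ x) := by
      rw [h3]
      exact (summable_pair h1 h2 _).hasSum
    have c2 : HasSum (fun i => ⟪η' i, (x : H →L[ℂ] H) (ξ' i)⟫_ℂ) (ψ x) := by
      rw [h3']
      exact (summable_pair h1' h2' _).hasSum
    have c3 : HasSum (fun i => ⟪- η' i, (x : H →L[ℂ] H) (ξ' i)⟫_ℂ) (- ψ x) := by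
      simpa only [inner_neg_left] using c2.neg
    have a : HasSum (fun i : ι ⊕ ι' => ⟪Sum.elim η (fun i => - η' i) i,
        (x : H →L[ℂ] H) (Sum.elim ξ ξ' i)⟫_ℂ) (φ x + - ψ x) :=
      HasSum.sum (f := fun i : ι ⊕ ι' => ⟪Sum.elim η (fun i => - η' i) i,
        (x : H →L[ℂ] H) (Sum.elim ξ ξ' i)⟫_ℂ) c1 c3
    rw [a.tsum_eq]
    exact sub_eq_add_neg _ _

theorem IsNormalMap.comp (hΦ : IsNormalMap 𝓜 Φ) (hΨ : IsNormalMap 𝓜 Ψ) :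
    IsNormalMap 𝓜 (Φ ∘ₗ Ψ) := by
  intro φ hφ
  exact hΨ _ (hΦ φ hφ)

theorem IsNormalMap.sub (hΦ : IsNormalMap 𝓜 Φ) (hΨ : IsNormalMap 𝓜 Ψ) :
    IsNormalMap 𝓜 (Φ - Ψ) := by
  intro φ hφ
  have h := normal_sub (hΦ φ hφ) (hΨ φ hφ)
  have e : (fun x => φ ((Φ - Ψ) x)) = fun x => φ (Φ x) - φ (Ψ x) := by
    funext x
    rw [LinearMap.sub_apply, normal_apply_sub hφ]
  rw [e]
  exact h

theorem isNormalMap_id : IsNormalMap 𝓜 (LinearMap.id : 𝓜 →ₗ[ℂ] 𝓜) := by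
  intro φ hφ
  exact hφ

theorem IsCP.comp (hΦ : IsCP 𝓜 Φ) (hΨ : IsCP 𝓜 Ψ) : IsCP 𝓜 (Φ ∘ₗ Ψ) := by
  intro n X h ξ
  exact hΦ n (fun i j => Ψ (X i j)) (hΨ n X h) ξ

theorem isCP_id : IsCP 𝓜 (LinearMap.id : 𝓜 →ₗ[ℂ] 𝓜) := by
  intro n X h ξ
  exact h ξ

theorem CBNormLE.comp {C C' : ℝ} (hΦ : CBNormLE 𝓜 Φ C) (hΨ : CBNormLE 𝓜 Ψ C') :
    CBNormLE 𝓜 (Φ ∘ₗ Ψ) (C * C') := by
  intro n X K hX ξ η
  have h := hΦ n (fun i j => Ψ (X i j)) (C' * K) (hΨ n X K hX) ξ η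
  have e : C * (C' * K) = C * C' * K := by ring
  rw [e] at h
  exact h

theorem CBNormLE.sub {C C' : ℝ} (hΦ : CBNormLE 𝓜 Φ C) (hΨ : CBNormLE 𝓜 Ψ C') :
    CBNormLE 𝓜 (Φ - Ψ) (C + C') := by
  intro n X K hX ξ η
  have h1 := hΦ n X K hX ξ η
  have h2 := hΨ n X K hX ξ η
  have e : (∑ i, ∑ j, ⟪η i, ((Φ - Ψ) (X i j) : H →L[ℂ] H) (ξ j)⟫_ℂ) =
      (∑ i, ∑ j, ⟪η i, (Φ (X i j) : H →L[ℂ] H) (ξ j)⟫_ℂ) -
        ∑ i, ∑ j, ⟪η i, (Ψ (X i j) : H →L[ℂ] H) (ξ j)⟫_ℂ := by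
    rw [← Finset.sum_sub_distrib]
    refine Finset.sum_congr rfl fun i _ => ?_
    rw [← Finset.sum_sub_distrib]
    refine Finset.sum_congr rfl fun j _ => ?_
    rw [← inner_sub_right]
    rfl
  rw [e]
  refine (norm_sub_le _ _).trans ?_
  rw [add_mul, add_mul]
  exact add_le_add h1 h2

theorem CBNormLE.mono {C C' : ℝ} (hΦ : CBNormLE 𝓜 Φ C) (h : C ≤ C') : CBNormLE 𝓜 Φ C' := by
  intro n X K hX ξ η
  have h1 := hΦ n X K hX ξ η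
  have h2 : 0 ≤ K * (√(∑ j, ‖ξ j‖ ^ 2) * √(∑ i, ‖η i‖ ^ 2)) := (norm_nonneg _).trans (hX ξ η)
  have h3 := mul_le_mul_of_nonneg_right h h2
  rw [mul_assoc] at h1 ⊢
  exact h1.trans h3

theorem cbNormLE_id : CBNormLE 𝓜 (LinearMap.id : 𝓜 →ₗ[ℂ] 𝓜) 1 := by
  intro n X K hX ξ η
  rw [one_mul]
  exact hX ξ η

/-- the bound of the norm -/
theorem CBNormLE.norm_le {C : ℝ} (hΦ : CBNormLE 𝓜 Φ C) (x : 𝓜) (ξ η : H) :
    ‖⟪η, (Φ x : H →L[ℂ] H) ξ⟫_ℂ‖ ≤ C * ‖(x : H →L[ℂ] H)‖ * (‖ξ‖ * ‖η‖) := by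
  have h := hΦ 1 (fun _ _ => x) ‖(x : H →L[ℂ] H)‖ (by
    intro ξ η
    simp only [Fin.sum_univ_one, Real.sqrt_sq (norm_nonneg _)]
    refine (norm_inner_le_norm _ _).trans ?_
    have h2 : ‖(x : H →L[ℂ] H) (ξ 0)‖ ≤ ‖(x : H →L[ℂ] H)‖ * ‖ξ 0‖ :=
      (x : H →L[ℂ] H).le_opNorm _
    have h3 := mul_le_mul_of_nonneg_left h2 (norm_nonneg (η 0))
    linarith) (fun _ => ξ) (fun _ => η)
  simpa only [Fin.sum_univ_one, Real.sqrt_sq (norm_nonneg _)] using h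

end General

variable {B : Type v} {W : Type u} [Group W] {M : CoxeterMatrix B} (cs : CoxeterSystem M W)

theorem IsMult.comp {q : B → ℝ} {Φ Ψ : HA cs q →ₗ[ℂ] HA cs q} {c c' : W → ℂ} (h : IsMult cs q Φ c)
    (h' : IsMult cs q Ψ c') : IsMult cs q (Φ ∘ₗ Ψ) (fun w => c w * c' w) := by
  intro x w
  have h1 := h (Ψ x) w
  have h2 := h' x w
  rw [h2] at h1
  rw [LinearMap.comp_apply, h1]
  ring

theorem IsMult.sub {q : B → ℝ} {Φ Ψ : HA cs q →ₗ[ℂ] HA cs q} {c c' : W → ℂ} (h : IsMult cs q Φ c)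
    (h' : IsMult cs q Ψ c') : IsMult cs q (Φ - Ψ) (fun w => c w - c' w) := by
  intro x w
  have h1 := h x w
  have h2 := h' x w
  have e : ((((Φ - Ψ) x : HA cs q) : L2 W →L[ℂ] L2 W) (δ 1)) w =
      ((Φ x : L2 W →L[ℂ] L2 W) (δ 1)) w - ((Ψ x : L2 W →L[ℂ] L2 W) (δ 1)) w := rfl
  rw [e, h1, h2]
  ring

theorem exists_prod {q : B → ℝ} (P : Prop) (A : Finset B) (K : B → ℝ) (c : B → W → ℂ)
    (h : ∀ b ∈ A, ∃ Φ : HA cs q →ₗ[ℂ] HA cs q, IsNormalMap (HA cs q) Φ ∧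
      CBNormLE (HA cs q) Φ (K b) ∧ IsMult cs q Φ (c b) ∧ (P → IsCP (HA cs q) Φ)) :
    ∃ Φ : HA cs q →ₗ[ℂ] HA cs q, IsNormalMap (HA cs q) Φ ∧
      CBNormLE (HA cs q) Φ (∏ b ∈ A, K b) ∧ IsMult cs q Φ (fun w => ∏ b ∈ A, c b w) ∧
      (P → IsCP (HA cs q) Φ) := by
  classical
  induction A using Finset.induction_on with
  | empty =>
    refine ⟨LinearMap.id, isNormalMap_id, ?_, ?_, fun _ => isCP_id⟩
    · rw [Finset.prod_empty]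
      exact cbNormLE_id
    · intro x w
      simp only [Finset.prod_empty, one_mul]
      rfl
  | insert a s ha ih =>
    obtain ⟨Ψ, g1, g2, g3, g4⟩ := ih fun b hb => h b (Finset.mem_insert_of_mem hb)
    obtain ⟨Φ, f1, f2, f3, f4⟩ := h a (Finset.mem_insert_self a s)
    refine ⟨Φ ∘ₗ Ψ, f1.comp g1, ?_, ?_, fun hP => (f4 hP).comp (g4 hP)⟩
    · rw [Finset.prod_insert ha]
      exact f2.comp g2
    · have e := f3.comp cs g3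
      have e2 : (fun w => ∏ b ∈ insert a s, c b w) = fun w => c a w * ∏ b ∈ s, c b w := by
        funext w
        rw [Finset.prod_insert ha]
      rw [e2]
      exact e

end Pool.Agent.H73.HVN
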