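import Pool.Agent.H73.HVN.Mult
import Pool.Agent.H73.HVN.Kern

/-!
# Module MapTheta: completely bounded multipliers `g(N_b)`

PLAN. `N = NN cs b`; `u 0 i j = g (i + j)`, `u 1 i j = g (i + j) - g (i + j + 1)`,
`u 2 i j = g (i + j - 1) - g (i + j)` (natural subtraction). `exists_map_of_kernel` with
`ι = (ℕ × ℕ) × (Fin 3 × W)`, conditions `cond 0 x w := x = 1`, `cond 1 x w := x ∈ V ∧ w ∈ Y`,
`cond 2 x w := x ∈ F ∧ w ∉ Y`, `a (_, (0, x)) = 1`, `a (_, (c, x)) = x` for `c = 1, 2`,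
`k ((i, j), (c, x)) w = if cond c x w ∧ N w = i then √|u c i j| else 0`,
`k' ((i, j), (c, x)) w = if cond c x w ∧ N w = j then sign (u c i j) * √|u c i j| else 0`.
* Row sums: for fixed `y`: `∑ k(y a⁻¹)² = ∑_{(c,x) : cond c x (y a⁻¹)} ∑_j |u c (N (y a⁻¹)) j|
  ≤ K (ρ^{2N(y)} + (1-ρ) ∑_v ρ^{2N(y v⁻¹)} + (1-ρ)/ρ ∑_f ρ^{2N(y f⁻¹)}) = K` by `h0, h1, h2` and `kappa`. Only
  finitely many `(c, x)` satisfy the condition, and for each of them the family over `(i, j)` lives on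
  `i = N(y a⁻¹)`. The same for `k'` since `u c i j` depends on `i + j` only (`sign² ≤ 1`).
* `kmap k k' a X z y = Theta cs b g X z y`: for fixed `(c, x)` the only nonzero term is
  `i = N (y a⁻¹)`, `j = N (z a⁻¹)`, with coefficient `sign(u) √|u| √|u| = u c i j` (finite support).
* `hC`, `h1` are `Theta_CC`, `Theta_one`, `c w = g (N w)`.
-/

set_option autoImplicit false

open scoped ComplexOrder InnerProductSpace
open Filter Topology

namespace Pool.Agent.H73.HVN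

universe u v

variable {B : Type v} {W : Type u} [Group W] {M : CoxeterMatrix B} (cs : CoxeterSystem M W)

/-- the three kinds of conditions -/
private def mtCond (b : B) (c : Fin 3) (x w : W) : Prop :=
  (c = 0 ∧ x = 1) ∨ (c = 1 ∧ x ∈ VV cs b ∧ w ∈ YY cs b) ∨ (c = 2 ∧ x ∈ FF cs b ∧ w ∉ YY cs b)

private theorem mtCond_zero (b : B) (x w : W) : mtCond cs b 0 x w ↔ x = 1 := by
  unfold mtCond
  constructor
  · rintro (h | h | h)
    · exact h.2
    · exact absurd h.1 (by decide)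
    · exact absurd h.1 (by decide)
  · intro h
    exact Or.inl ⟨rfl, h⟩

private theorem mtCond_one (b : B) (x w : W) :
    mtCond cs b 1 x w ↔ x ∈ VV cs b ∧ w ∈ YY cs b := by
  unfold mtCond
  constructor
  · rintro (h | h | h)
    · exact absurd h.1 (by decide)
    · exact h.2
    · exact absurd h.1 (by decide)
  · intro h
    exact Or.inr (Or.inl ⟨rfl, h⟩)

private theorem mtCond_two (b : B) (x w : W) :
    mtCond cs b 2 x w ↔ x ∈ FF cs b ∧ w ∉ YY cs b := by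
  unfold mtCond
  constructor
  · rintro (h | h | h)
    · exact absurd h.1 (by decide)
    · exact absurd h.1 (by decide)
    · exact h.2
  · intro h
    exact Or.inr (Or.inr ⟨rfl, h⟩)

private theorem mt_finite (b : B) (y : W) :
    {q : Fin 3 × W | mtCond cs b q.1 q.2 (y * q.2⁻¹)}.Finite := by
  have h : {q : Fin 3 × W | mtCond cs b q.1 q.2 (y * q.2⁻¹)} ⊆
      ((fun x : W => ((0 : Fin 3), x)) '' {1}) ∪
      (((fun x : W => ((1 : Fin 3), x)) '' {v | v ∈ VV cs b ∧ y * v⁻¹ ∈ YY cs b}) ∪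
      ((fun x : W => ((2 : Fin 3), x)) '' {f | f ∈ FF cs b ∧ y * f⁻¹ ∉ YY cs b})) := by
    rintro ⟨c, x⟩ hq
    have hq' : mtCond cs b c x (y * x⁻¹) := hq
    unfold mtCond at hq'
    rcases hq' with h | h | h
    · left
      exact ⟨x, h.2, by rw [h.1]⟩
    · right; left
      exact ⟨x, h.2, by rw [h.1]⟩
    · right; right
      exact ⟨x, h.2, by rw [h.1]⟩
  refine Set.Finite.subset ?_ h
  exact ((Set.finite_singleton _).image _).union
    (((finite_V cs b y).image _).union ((finite_F cs b y).image _))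

/-- the coefficients -/
private noncomputable def mtU (g : ℕ → ℝ) (c : Fin 3) (m : ℕ) : ℝ :=
  if c = 0 then g m else if c = 1 then g m - g (m + 1) else g (m - 1) - g m

private theorem mtU_zero (g : ℕ → ℝ) (m : ℕ) : mtU g 0 m = g m := by
  unfold mtU
  rw [if_pos rfl]

private theorem mtU_one (g : ℕ → ℝ) (m : ℕ) : mtU g 1 m = g m - g (m + 1) := by
  unfold mtU
  rw [if_neg (by decide), if_pos rfl]

private theorem mtU_two (g : ℕ → ℝ) (m : ℕ) : mtU g 2 m = g (m - 1) - g m := by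
  unfold mtU
  rw [if_neg (by decide), if_neg (by decide)]

/-- the sign -/
private noncomputable def mtS (x : ℝ) : ℝ := if 0 ≤ x then 1 else -1

private theorem mtS_sq (x : ℝ) : mtS x ^ 2 = 1 := by
  unfold mtS
  split_ifs <;> norm_num

private theorem mtS_mul (x : ℝ) : mtS x * √|x| * √|x| = x := by
  rw [mul_assoc, Real.mul_self_sqrt (abs_nonneg x)]
  unfold mtS
  split_ifs with h
  · rw [abs_of_nonneg h, one_mul]
  · rw [abs_of_neg (not_le.mp h)]
    ring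

open Classical in
private theorem mt_inner (n : ℕ) (F : ℕ → ℝ) (hF : Summable F) :
    HasSum (fun p : ℕ × ℕ => if n = p.1 then F p.2 else 0) (∑' j, F j) := by
  have hinj : Function.Injective (fun j : ℕ => (n, j)) := by
    intro i j h
    exact (Prod.mk.inj h).2
  rw [← hinj.hasSum_iff]
  · have : ((fun p : ℕ × ℕ => if n = p.1 then F p.2 else 0) ∘ fun j : ℕ => (n, j)) = F := by
      funext j
      simp
    rw [this]
    exact hF.hasSum
  · rintro ⟨i, j⟩ hx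
    have : n ≠ i := by
      intro h
      apply hx
      exact ⟨j, by rw [h]⟩
    simp [this]

open Classical in
private theorem mt_sum {Q : Type u} (P : Q → Prop) (hP : {q | P q}.Finite) (n : Q → ℕ)
    (F : Q → ℕ → ℝ) (hF0 : ∀ q j, 0 ≤ F q j) (hF : ∀ q, Summable (F q)) :
    Summable (fun p : Q × (ℕ × ℕ) => if P p.1 ∧ n p.1 = p.2.1 then F p.1 p.2.2 else 0) ∧
    ∑' p : Q × (ℕ × ℕ), (if P p.1 ∧ n p.1 = p.2.1 then F p.1 p.2.2 else 0) =
      ∑' q, if P q then ∑' j, F q j else 0 := by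
  have hin : ∀ q, HasSum (fun p : ℕ × ℕ => if P q ∧ n q = p.1 then F q p.2 else 0)
      (if P q then ∑' j, F q j else 0) := by
    intro q
    by_cases h : P q
    · have h1 := mt_inner (n q) (F q) (hF q)
      simpa [h] using h1
    · simp [h, hasSum_zero]
  have hnn : 0 ≤ (fun p : Q × (ℕ × ℕ) => if P p.1 ∧ n p.1 = p.2.1 then F p.1 p.2.2 else 0) := by
    intro p
    show (0 : ℝ) ≤ if P p.1 ∧ n p.1 = p.2.1 then F p.1 p.2.2 else 0
    split_ifs
    · exact hF0 _ _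
    · exact le_refl _
  have hout : Summable (fun q => if P q then ∑' j, F q j else 0) := by
    apply summable_of_hasFiniteSupport
    refine hP.subset ?_
    intro q hq
    by_contra h
    apply hq
    have h' : ¬ P q := h
    simp [h']
  have hsum : Summable
      (fun p : Q × (ℕ × ℕ) => if P p.1 ∧ n p.1 = p.2.1 then F p.1 p.2.2 else 0) := by
    rw [summable_prod_of_nonneg hnn]
    refine ⟨fun q => (hin q).summable, ?_⟩
    refine hout.congr ?_
    intro q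
    exact (hin q).tsum_eq.symm
  refine ⟨hsum, ?_⟩
  rw [hsum.tsum_prod]
  apply tsum_congr
  intro q
  exact (hin q).tsum_eq

open Classical in
private theorem mt_single {Q : Type u} (P : Q → Prop) (m n : Q → ℕ) (G : Q → ℂ) :
    ∑' p : Q × (ℕ × ℕ), (if P p.1 ∧ m p.1 = p.2.1 ∧ n p.1 = p.2.2 then G p.1 else 0) =
      ∑' q, if P q then G q else 0 := by
  have hinj : Function.Injective (fun q : Q => (q, (m q, n q))) := by
    intro q q' h
    exact (Prod.mk.inj h).1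
  rw [← hinj.tsum_eq]
  · apply tsum_congr
    intro q
    simp
  · rintro ⟨q, i, j⟩ hx
    have hx' : (if P q ∧ m q = i ∧ n q = j then G q else 0) ≠ 0 := hx
    have h : P q ∧ m q = i ∧ n q = j := by
      by_contra hc
      apply hx'
      rw [if_neg hc]
    refine ⟨q, ?_⟩
    show (q, (m q, n q)) = (q, (i, j))
    rw [h.2.1, h.2.2]

omit [Group W] in
open Classical in
private theorem mt_fin3 {E : Type} [NormedAddCommGroup E] [CompleteSpace E]
    (P : Fin 3 → W → Prop) (hP : {q : Fin 3 × W | P q.1 q.2}.Finite) (G : Fin 3 → W → E) :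
    Summable (fun q : Fin 3 × W => if P q.1 q.2 then G q.1 q.2 else 0) ∧
    ∑' q : Fin 3 × W, (if P q.1 q.2 then G q.1 q.2 else 0) =
      (∑' x, if P 0 x then G 0 x else 0) + (∑' x, if P 1 x then G 1 x else 0) +
      (∑' x, if P 2 x then G 2 x else 0) := by
  have hsum : Summable (fun q : Fin 3 × W => if P q.1 q.2 then G q.1 q.2 else 0) := by
    apply summable_of_hasFiniteSupport
    refine hP.subset ?_
    intro q hq
    by_contra h
    apply hq
    have h' : ¬ P q.1 q.2 := h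
    simp [h']
  refine ⟨hsum, ?_⟩
  rw [hsum.tsum_prod, tsum_fintype, Fin.sum_univ_three]

open Classical in
/-- the weights of the right operators -/
private noncomputable def mtK (b : B) (g : ℕ → ℝ) (p : (Fin 3 × W) × (ℕ × ℕ)) (w : W) : ℝ :=
  if mtCond cs b p.1.1 p.1.2 w ∧ NN cs b w = p.2.1 then √|mtU g p.1.1 (p.2.1 + p.2.2)| else 0

open Classical in
/-- the weights of the left operators -/
private noncomputable def mtK' (b : B) (g : ℕ → ℝ) (p : (Fin 3 × W) × (ℕ × ℕ)) (w : W) : ℝ :=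
  if mtCond cs b p.1.1 p.1.2 w ∧ NN cs b w = p.2.2 then
    mtS (mtU g p.1.1 (p.2.1 + p.2.2)) * √|mtU g p.1.1 (p.2.1 + p.2.2)| else 0

open Classical in
private theorem mtK_sq (b : B) (g : ℕ → ℝ) (p : (Fin 3 × W) × (ℕ × ℕ)) (y : W) :
    mtK cs b g p (y * (p.1.2)⁻¹) ^ 2 =
      if mtCond cs b p.1.1 p.1.2 (y * (p.1.2)⁻¹) ∧ NN cs b (y * (p.1.2)⁻¹) = p.2.1 then
        |mtU g p.1.1 (NN cs b (y * (p.1.2)⁻¹) + p.2.2)| else 0 := by
  unfold mtK
  split_ifs with h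
  · rw [Real.sq_sqrt (abs_nonneg _), h.2]
  · norm_num

open Classical in
private theorem mtK'_sq (b : B) (g : ℕ → ℝ) (p : (Fin 3 × W) × (ℕ × ℕ)) (y : W) :
    mtK' cs b g p (y * (p.1.2)⁻¹) ^ 2 =
      if mtCond cs b p.1.1 p.1.2 (y * (p.1.2)⁻¹) ∧ NN cs b (y * (p.1.2)⁻¹) = p.2.2 then
        |mtU g p.1.1 (NN cs b (y * (p.1.2)⁻¹) + p.2.1)| else 0 := by
  unfold mtK'
  split_ifs with h
  · rw [mul_pow, mtS_sq, Real.sq_sqrt (abs_nonneg _), h.2, one_mul, add_comm]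
  · norm_num

open Classical in
private theorem mt_bound (b : B) {ρ K : ℝ} (hρ0 : 0 < ρ) (g : ℕ → ℝ)
    (h0 : ∀ i, Summable (fun j => |g (i + j)|) ∧ ∑' j, |g (i + j)| ≤ K * ρ ^ (2 * i))
    (h1 : ∀ i, Summable (fun j => |g (i + j) - g (i + j + 1)|) ∧
      ∑' j, |g (i + j) - g (i + j + 1)| ≤ K * (1 - ρ) * ρ ^ (2 * i))
    (h2 : ∀ i, Summable (fun j => |g (i + j - 1) - g (i + j)|) ∧
      ∑' j, |g (i + j - 1) - g (i + j)| ≤ K * ((1 - ρ) / ρ) * ρ ^ (2 * i)) (y : W) :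
    Summable (fun p : (Fin 3 × W) × (ℕ × ℕ) =>
      if mtCond cs b p.1.1 p.1.2 (y * (p.1.2)⁻¹) ∧ NN cs b (y * (p.1.2)⁻¹) = p.2.1 then
        |mtU g p.1.1 (NN cs b (y * (p.1.2)⁻¹) + p.2.2)| else 0) ∧
    ∑' p : (Fin 3 × W) × (ℕ × ℕ),
      (if mtCond cs b p.1.1 p.1.2 (y * (p.1.2)⁻¹) ∧ NN cs b (y * (p.1.2)⁻¹) = p.2.1 then
        |mtU g p.1.1 (NN cs b (y * (p.1.2)⁻¹) + p.2.2)| else 0) ≤ K := by
  have hF : ∀ (c : Fin 3) (n : ℕ), Summable (fun j => |mtU g c (n + j)|) := by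
    intro c n
    fin_cases c
    · simpa only [Fin.zero_eta, mtU_zero] using (h0 n).1
    · simpa only [Fin.mk_one, mtU_one] using (h1 n).1
    · simpa only [Fin.reduceFinMk, mtU_two] using (h2 n).1
  have hA := mt_sum (fun q : Fin 3 × W => mtCond cs b q.1 q.2 (y * q.2⁻¹)) (mt_finite cs b y)
    (fun q => NN cs b (y * q.2⁻¹)) (fun q j => |mtU g q.1 (NN cs b (y * q.2⁻¹) + j)|)
    (fun _ _ => abs_nonneg _) (fun q => hF _ _)
  refine ⟨hA.1, ?_⟩
  refine le_trans (le_of_eq hA.2) ?_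
  have hB := mt_fin3 (E := ℝ) (fun c x => mtCond cs b c x (y * x⁻¹)) (mt_finite cs b y)
    (fun c x => ∑' j, |mtU g c (NN cs b (y * x⁻¹) + j)|)
  have hB2 := hB.2
  refine le_trans (le_of_eq hB2) ?_
  have hC0 : (∑' x, if mtCond cs b 0 x (y * x⁻¹) then
      ∑' j, |mtU g 0 (NN cs b (y * x⁻¹) + j)| else 0) ≤ K * ρ ^ (2 * NN cs b y) := by
    rw [tsum_eq_single 1]
    · rw [if_pos ((mtCond_zero cs b 1 _).mpr rfl), inv_one, mul_one]
      simp only [mtU_zero]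
      exact (h0 _).2
    · intro x hx
      rw [if_neg]
      intro h
      exact hx ((mtCond_zero cs b x _).mp h)
  have hfin1 : ∀ G : W → ℝ, Summable (fun v : W => if v ∈ VV cs b ∧ y * v⁻¹ ∈ YY cs b then
      G v else 0) := by
    intro G
    apply summable_of_hasFiniteSupport
    refine (finite_V cs b y).subset ?_
    intro q hq
    by_contra h
    apply hq
    show (if q ∈ VV cs b ∧ y * q⁻¹ ∈ YY cs b then G q else 0) = 0
    rw [if_neg]
    exact h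
  have hfin2 : ∀ G : W → ℝ, Summable (fun f : W => if f ∈ FF cs b ∧ y * f⁻¹ ∉ YY cs b then
      G f else 0) := by
    intro G
    apply summable_of_hasFiniteSupport
    refine (finite_F cs b y).subset ?_
    intro q hq
    by_contra h
    apply hq
    show (if q ∈ FF cs b ∧ y * q⁻¹ ∉ YY cs b then G q else 0) = 0
    rw [if_neg]
    exact h
  have hC1 : (∑' x, if mtCond cs b 1 x (y * x⁻¹) then
      ∑' j, |mtU g 1 (NN cs b (y * x⁻¹) + j)| else 0) ≤
      K * ((1 - ρ) * (∑' v : W, if v ∈ VV cs b ∧ y * v⁻¹ ∈ YY cs b then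
        ρ ^ (2 * NN cs b (y * v⁻¹)) else 0)) := by
    rw [← tsum_mul_left, ← tsum_mul_left]
    refine Summable.tsum_le_tsum ?_ ?_ ?_
    · intro x
      by_cases h : mtCond cs b 1 x (y * x⁻¹)
      · rw [if_pos h, if_pos ((mtCond_one cs b x _).mp h)]
        simp only [mtU_one]
        refine le_trans (h1 _).2 (le_of_eq ?_)
        ring
      · rw [if_neg h, if_neg (fun hc => h ((mtCond_one cs b x _).mpr hc))]
        simp
    · refine (hfin1 (fun x => ∑' j, |mtU g 1 (NN cs b (y * x⁻¹) + j)|)).congr ?_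
      intro x
      by_cases h : mtCond cs b 1 x (y * x⁻¹)
      · rw [if_pos h, if_pos ((mtCond_one cs b x _).mp h)]
      · rw [if_neg h, if_neg (fun hc => h ((mtCond_one cs b x _).mpr hc))]
    · exact ((hfin1 _).mul_left _).mul_left _
  have hC2 : (∑' x, if mtCond cs b 2 x (y * x⁻¹) then
      ∑' j, |mtU g 2 (NN cs b (y * x⁻¹) + j)| else 0) ≤
      K * ((1 - ρ) / ρ * (∑' f : W, if f ∈ FF cs b ∧ y * f⁻¹ ∉ YY cs b then
        ρ ^ (2 * NN cs b (y * f⁻¹)) else 0)) := by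
    rw [← tsum_mul_left, ← tsum_mul_left]
    refine Summable.tsum_le_tsum ?_ ?_ ?_
    · intro x
      by_cases h : mtCond cs b 2 x (y * x⁻¹)
      · rw [if_pos h, if_pos ((mtCond_two cs b x _).mp h)]
        simp only [mtU_two]
        refine le_trans (h2 _).2 (le_of_eq ?_)
        ring
      · rw [if_neg h, if_neg (fun hc => h ((mtCond_two cs b x _).mpr hc))]
        simp
    · refine (hfin2 (fun x => ∑' j, |mtU g 2 (NN cs b (y * x⁻¹) + j)|)).congr ?_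
      intro x
      by_cases h : mtCond cs b 2 x (y * x⁻¹)
      · rw [if_pos h, if_pos ((mtCond_two cs b x _).mp h)]
      · rw [if_neg h, if_neg (fun hc => h ((mtCond_two cs b x _).mpr hc))]
    · exact ((hfin2 _).mul_left _).mul_left _
  have hk := kappa cs b hρ0.ne' y
  calc _ ≤ K * ρ ^ (2 * NN cs b y) + K * ((1 - ρ) * (∑' v : W,
          if v ∈ VV cs b ∧ y * v⁻¹ ∈ YY cs b then ρ ^ (2 * NN cs b (y * v⁻¹)) else 0)) +
        K * ((1 - ρ) / ρ * (∑' f : W, if f ∈ FF cs b ∧ y * f⁻¹ ∉ YY cs b then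
        ρ ^ (2 * NN cs b (y * f⁻¹)) else 0)) := add_le_add (add_le_add hC0 hC1) hC2
    _ = K * (ρ ^ (2 * NN cs b y) + (1 - ρ) * (∑' v : W,
          if v ∈ VV cs b ∧ y * v⁻¹ ∈ YY cs b then ρ ^ (2 * NN cs b (y * v⁻¹)) else 0) +
        (1 - ρ) / ρ * (∑' f : W, if f ∈ FF cs b ∧ y * f⁻¹ ∉ YY cs b then
        ρ ^ (2 * NN cs b (y * f⁻¹)) else 0)) := by ring
    _ = K := by rw [hk, mul_one]

private theorem mt_kmap (b : B) (g : ℕ → ℝ) (X : W → W → ℂ) (z y : W) :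
    kmap (mtK cs b g) (mtK' cs b g) (fun p => p.1.2) X z y = Theta cs b g X z y := by
  classical
  unfold kmap
  have e1 : ∀ p : (Fin 3 × W) × (ℕ × ℕ),
      ((mtK' cs b g p (z * (p.1.2)⁻¹) * mtK cs b g p (y * (p.1.2)⁻¹) : ℝ) : ℂ) *
        X (z * (p.1.2)⁻¹) (y * (p.1.2)⁻¹) =
      if (mtCond cs b p.1.1 p.1.2 (z * (p.1.2)⁻¹) ∧ mtCond cs b p.1.1 p.1.2 (y * (p.1.2)⁻¹)) ∧
        NN cs b (y * (p.1.2)⁻¹) = p.2.1 ∧ NN cs b (z * (p.1.2)⁻¹) = p.2.2 then
        ((mtU g p.1.1 (NN cs b (z * (p.1.2)⁻¹) + NN cs b (y * (p.1.2)⁻¹)) : ℝ) : ℂ) *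
          X (z * (p.1.2)⁻¹) (y * (p.1.2)⁻¹) else 0 := by
    intro p
    unfold mtK mtK'
    by_cases ha : mtCond cs b p.1.1 p.1.2 (z * (p.1.2)⁻¹)
    · by_cases hb : mtCond cs b p.1.1 p.1.2 (y * (p.1.2)⁻¹)
      · by_cases hc : NN cs b (y * (p.1.2)⁻¹) = p.2.1
        · by_cases hd : NN cs b (z * (p.1.2)⁻¹) = p.2.2
          · rw [if_pos ⟨ha, hd⟩, if_pos ⟨hb, hc⟩, if_pos ⟨⟨ha, hb⟩, hc, hd⟩, mtS_mul, hc, hd,
              add_comm]
          · rw [if_neg (fun h => hd h.2), if_neg (fun h : _ ∧ _ ∧ _ => hd h.2.2)]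
            simp
        · rw [if_neg (fun h : mtCond cs b p.1.1 p.1.2 (y * (p.1.2)⁻¹) ∧ _ => hc h.2),
            if_neg (fun h : (_ ∧ _) ∧ _ ∧ _ => hc h.2.1)]
          simp
      · rw [if_neg (fun h : mtCond cs b p.1.1 p.1.2 (y * (p.1.2)⁻¹) ∧ _ => hb h.1),
          if_neg (fun h : (_ ∧ _) ∧ _ ∧ _ => hb h.1.2)]
        simp
    · rw [if_neg (fun h : mtCond cs b p.1.1 p.1.2 (z * (p.1.2)⁻¹) ∧ _ => ha h.1),
        if_neg (fun h : (_ ∧ _) ∧ _ ∧ _ => ha h.1.1)]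
      simp
  rw [tsum_congr e1]
  have e2 := mt_single
    (fun q : Fin 3 × W => mtCond cs b q.1 q.2 (z * q.2⁻¹) ∧ mtCond cs b q.1 q.2 (y * q.2⁻¹))
    (fun q => NN cs b (y * q.2⁻¹)) (fun q => NN cs b (z * q.2⁻¹))
    (fun q => ((mtU g q.1 (NN cs b (z * q.2⁻¹) + NN cs b (y * q.2⁻¹)) : ℝ) : ℂ) *
          X (z * q.2⁻¹) (y * q.2⁻¹))
  refine Eq.trans (tsum_congr (fun p => ?_)) (Eq.trans e2 ?_)
  · congr
  have e3 := mt_fin3 (E := ℂ)
    (fun c x => mtCond cs b c x (z * x⁻¹) ∧ mtCond cs b c x (y * x⁻¹))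
    ((mt_finite cs b z).subset (fun q hq => hq.1))
    (fun c x => ((mtU g c (NN cs b (z * x⁻¹) + NN cs b (y * x⁻¹)) : ℝ) : ℂ) *
          X (z * x⁻¹) (y * x⁻¹))
  refine Eq.trans (tsum_congr (fun p => ?_)) (Eq.trans e3.2 ?_)
  · congr
  unfold Theta Ker
  congr 1
  · congr 1
    · rw [tsum_eq_single 1]
      · rw [if_pos ⟨(mtCond_zero cs b 1 _).mpr rfl, (mtCond_zero cs b 1 _).mpr rfl⟩, inv_one,
          mul_one, mul_one, mtU_zero]
      · intro x hx
        rw [if_neg]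
        intro h
        exact hx ((mtCond_zero cs b x _).mp h.1)
    · apply tsum_congr
      intro x
      by_cases h : x ∈ VV cs b ∧ z * x⁻¹ ∈ YY cs b ∧ y * x⁻¹ ∈ YY cs b
      · rw [if_pos h, if_pos ⟨(mtCond_one cs b x _).mpr ⟨h.1, h.2.1⟩,
          (mtCond_one cs b x _).mpr ⟨h.1, h.2.2⟩⟩, mtU_one]
      · rw [if_neg h, if_neg]
        rintro ⟨h1, h2⟩
        rw [mtCond_one] at h1 h2
        exact h ⟨h1.1, h1.2, h2.2⟩
  · apply tsum_congr
    intro x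
    by_cases h : x ∈ FF cs b ∧ z * x⁻¹ ∈ (YY cs b)ᶜ ∧ y * x⁻¹ ∈ (YY cs b)ᶜ
    · rw [if_pos h, if_pos ⟨(mtCond_two cs b x _).mpr ⟨h.1, h.2.1⟩,
        (mtCond_two cs b x _).mpr ⟨h.1, h.2.2⟩⟩, mtU_two]
    · rw [if_neg h, if_neg]
      rintro ⟨h1, h2⟩
      rw [mtCond_two] at h1 h2
      exact h ⟨h1.1, h1.2, h2.2⟩

theorem exists_theta {q : B → ℝ} (hq : Admissible cs q) (b : B) {ρ K : ℝ} (hρ0 : 0 < ρ)
    (hρ1 : ρ < 1) (hK : 0 ≤ K) (g : ℕ → ℝ)
    (h0 : ∀ i, Summable (fun j => |g (i + j)|) ∧ ∑' j, |g (i + j)| ≤ K * ρ ^ (2 * i))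
    (h1 : ∀ i, Summable (fun j => |g (i + j) - g (i + j + 1)|) ∧
      ∑' j, |g (i + j) - g (i + j + 1)| ≤ K * (1 - ρ) * ρ ^ (2 * i))
    (h2 : ∀ i, Summable (fun j => |g (i + j - 1) - g (i + j)|) ∧
      ∑' j, |g (i + j - 1) - g (i + j)| ≤ K * ((1 - ρ) / ρ) * ρ ^ (2 * i)) :
    ∃ Φ : HA cs q →ₗ[ℂ] HA cs q, IsNormalMap (HA cs q) Φ ∧ CBNormLE (HA cs q) Φ K ∧
      IsMult cs q Φ (fun w => (g (NN cs b w) : ℂ)) := by
  classical
  have hk : ∀ y, Summable (fun p => (mtK cs b g p (y * (p.1.2)⁻¹)) ^ 2) ∧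
      ∑' p, (mtK cs b g p (y * (p.1.2)⁻¹)) ^ 2 ≤ K := by
    intro y
    have h := mt_bound cs b hρ0 g h0 h1 h2 y
    simp only [mtK_sq]
    exact h
  have hk' : ∀ y, Summable (fun p => (mtK' cs b g p (y * (p.1.2)⁻¹)) ^ 2) ∧
      ∑' p, (mtK' cs b g p (y * (p.1.2)⁻¹)) ^ 2 ≤ K := by
    intro y
    have h := mt_bound cs b hρ0 g h0 h1 h2 y
    let e : (Fin 3 × W) × (ℕ × ℕ) ≃ (Fin 3 × W) × (ℕ × ℕ) :=
      (Equiv.refl (Fin 3 × W)).prodCongr (Equiv.prodComm ℕ ℕ)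
    have he : (fun p => (mtK' cs b g p (y * (p.1.2)⁻¹)) ^ 2) =
        (fun p : (Fin 3 × W) × (ℕ × ℕ) =>
      if mtCond cs b p.1.1 p.1.2 (y * (p.1.2)⁻¹) ∧ NN cs b (y * (p.1.2)⁻¹) = p.2.1 then
        |mtU g p.1.1 (NN cs b (y * (p.1.2)⁻¹) + p.2.2)| else 0) ∘ e := by
      funext p
      rw [mtK'_sq]
      rfl
    rw [he]
    refine ⟨(Equiv.summable_iff e).mpr h.1, ?_⟩
    refine le_trans (le_of_eq ?_) h.2
    exact Equiv.tsum_eq e (fun p : (Fin 3 × W) × (ℕ × ℕ) =>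
      if mtCond cs b p.1.1 p.1.2 (y * (p.1.2)⁻¹) ∧ NN cs b (y * (p.1.2)⁻¹) = p.2.1 then
        |mtU g p.1.1 (NN cs b (y * (p.1.2)⁻¹) + p.2.2)| else 0)
  obtain ⟨Φ, hΦ1, hΦ2, hΦ3, -⟩ := exists_map_of_kernel cs hq (mtK cs b g) (mtK' cs b g)
    (fun p => p.1.2) hK hk hk' (fun w => (g (NN cs b w) : ℂ))
    (by
      intro X hX i
      have : kmap (mtK cs b g) (mtK' cs b g) (fun p => p.1.2) X = Theta cs b g X := by
        funext z y
        exact mt_kmap cs b g X z y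
      rw [this]
      exact Theta_CC cs hq b g hX i)
    (by
      intro X hX z
      rw [mt_kmap, Theta_one])
  exact ⟨Φ, hΦ1, hΦ2, hΦ3⟩

end Pool.Agent.H73.HVN
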