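import Pool.Agent.H73.HVN.MapPhi
import Pool.Agent.H73.HVN.MapTheta
import Pool.Agent.H73.HVN.Closure

/-!
# Module Trunc: truncated multipliers with cb-norm close to one

PLAN. `Φ₁` from `exists_phi` with `r = ρ^4` (multiplier `ρ^{4 N}`, cb-norm `≤ 1`). For `n : ℕ` let
`g k = if n < k then ρ^(4k) else 0`, `K_n = 2 ρ^{2(n+1)} / (ρ² (1 - ρ) (1 - ρ²))`, and `Φ₂` from `exists_theta`.
Bounds: `0 ≤ g k ≤ ρ^{2(n+1)} ρ^{2k}` for all `k`. `∑_j ρ^{2(i+j)} = ρ^{2i} / (1 - ρ²)`. So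
`∑_j |g(i+j)| ≤ ρ^{2(n+1)} ρ^{2i}/(1-ρ²) ≤ K_n ρ^{2i}`;
`|g(k) - g(k+1)| ≤ g(k) + g(k+1) ≤ 2 ρ^{2(n+1)} ρ^{2k}`, so the sum is `≤ 2 ρ^{2(n+1)} ρ^{2i}/(1-ρ²)
≤ K_n (1-ρ) ρ^{2i}`; `|g(k-1) - g(k)| ≤ 2 ρ^{2(n+1)} ρ^{2k}/ρ²` (for `k = 0` it is `0`), so the sum is
`≤ K_n (1-ρ) ρ^{2i} ≤ K_n ((1-ρ)/ρ) ρ^{2i}`.
`K_n → 0`, so take `n ≥ n₀` with `K_n ≤ ε`; `Φ = Φ₁ - Φ₂` has cb-norm `≤ 1 + K_n ≤ 1 + ε` and multiplier
`ρ^{4N} - g(N) = if N ≤ n then ρ^{4N} else 0`.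
-/

set_option autoImplicit false

open scoped ComplexOrder InnerProductSpace
open Filter Topology

namespace Pool.Agent.H73.HVN

universe u v

variable {B : Type v} {W : Type u} [Group W] {M : CoxeterMatrix B} (cs : CoxeterSystem M W)

private theorem Trunc_sum {f : ℕ → ℝ} {A ρ : ℝ} (hρ0 : 0 < ρ) (hρ1 : ρ < 1)
    (h : ∀ j, |f j| ≤ A * ρ ^ (2 * j)) :
    Summable (fun j => |f j|) ∧ ∑' j, |f j| ≤ A / (1 - ρ ^ 2) := by
  have hlt : ρ ^ 2 < 1 := by nlinarith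
  have hs : HasSum (fun j : ℕ => A * ρ ^ (2 * j)) (A / (1 - ρ ^ 2)) := by
    have := (hasSum_geometric_of_lt_one (by positivity : 0 ≤ ρ ^ 2) hlt).mul_left A
    rw [← div_eq_mul_inv] at this
    simpa only [pow_mul] using this
  have h1 : Summable (fun j => |f j|) :=
    Summable.of_nonneg_of_le (fun j => abs_nonneg _) h hs.summable
  exact ⟨h1, hs.tsum_eq ▸ h1.tsum_le_tsum h hs.summable⟩

theorem exists_trunc {q : B → ℝ} (hq : Admissible cs q) (b : B) {ρ : ℝ} (hρ0 : 0 < ρ)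
    (hρ1 : ρ < 1) {ε : ℝ} (hε : 0 < ε) (n₀ : ℕ) :
    ∃ n : ℕ, n₀ ≤ n ∧ ∃ Φ : HA cs q →ₗ[ℂ] HA cs q, IsNormalMap (HA cs q) Φ ∧
      CBNormLE (HA cs q) Φ (1 + ε) ∧
      IsMult cs q Φ (fun w => if NN cs b w ≤ n then ((ρ ^ (4 * NN cs b w) : ℝ) : ℂ) else 0) := by
  have hlt : ρ ^ 2 < 1 := by nlinarith
  set D : ℝ := ρ ^ 2 * (1 - ρ) * (1 - ρ ^ 2) with hD
  have hD0 : 0 < D := by
    have h1 : 0 < 1 - ρ := by linarith
    have h2 : 0 < 1 - ρ ^ 2 := by linarith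
    positivity
  obtain ⟨m, hm⟩ := exists_pow_lt_of_lt_one (show 0 < ε * D / 2 by positivity) hρ1
  set n := max n₀ m with hn
  set C : ℝ := ρ ^ (2 * (n + 1)) with hC
  have hC0 : 0 < C := by positivity
  have hCm : C ≤ ε * D / 2 := by
    refine le_trans ?_ hm.le
    exact pow_le_pow_of_le_one hρ0.le hρ1.le (by omega)
  set K : ℝ := 2 * C / D with hK
  have hK0 : 0 ≤ K := by positivity
  have hKε : K ≤ ε := by
    rw [hK, div_le_iff₀ hD0]
    linarith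
  set g : ℕ → ℝ := fun k => if n < k then ρ ^ (4 * k) else 0 with hg
  have hg0 : ∀ k, 0 ≤ g k := by
    intro k
    simp only [hg]
    split_ifs <;> positivity
  have hg1 : ∀ k, g k ≤ C * ρ ^ (2 * k) := by
    intro k
    simp only [hg]
    split_ifs with h
    · rw [show 4 * k = 2 * k + 2 * k by ring, pow_add]
      apply mul_le_mul_of_nonneg_right _ (by positivity)
      exact pow_le_pow_of_le_one hρ0.le hρ1.le (by omega)
    · positivity
  have h1ρ : 0 < 1 - ρ := by linarith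
  have h1ρ2 : 0 < 1 - ρ ^ 2 := by linarith
  have hρ2 : 0 < ρ ^ 2 := by positivity
  -- comparison of constants
  have k0 : C / (1 - ρ ^ 2) ≤ K := by
    rw [hK, hD, div_le_div_iff₀ h1ρ2 (by positivity)]
    have : ρ ^ 2 * (1 - ρ) ≤ 2 := by nlinarith
    have h3 : 0 ≤ C * (1 - ρ ^ 2) := by positivity
    nlinarith
  have k1 : 2 * C / (1 - ρ ^ 2) ≤ K * (1 - ρ) := by
    have e : K * (1 - ρ) = 2 * C / (ρ ^ 2 * (1 - ρ ^ 2)) := by
      rw [hK, hD]
      field_simp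
    rw [e, div_le_div_iff₀ h1ρ2 (by positivity)]
    have h3 : 0 ≤ 2 * C * (1 - ρ ^ 2) := by positivity
    nlinarith
  have k2 : 2 * C / ρ ^ 2 / (1 - ρ ^ 2) ≤ K * ((1 - ρ) / ρ) := by
    have e : K * ((1 - ρ) / ρ) = 2 * C / ρ ^ 2 / (1 - ρ ^ 2) / ρ := by
      rw [hK, hD]
      field_simp
    rw [e, le_div_iff₀ hρ0]
    have h3 : 0 ≤ 2 * C / ρ ^ 2 / (1 - ρ ^ 2) := by positivity
    nlinarith
  obtain ⟨Φ₁, hN1, hB1, hM1, -⟩ := exists_phi cs hq b (r := ρ ^ 4) (by positivity)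
    (pow_lt_one₀ hρ0.le hρ1 (by norm_num))
  obtain ⟨Φ₂, hN2, hB2, hM2⟩ := exists_theta cs hq b hρ0 hρ1 hK0 g
    (by
      intro i
      obtain ⟨h1, h2⟩ := Trunc_sum (f := fun j => g (i + j)) (A := C * ρ ^ (2 * i)) hρ0 hρ1 (by
        intro j
        rw [abs_of_nonneg (hg0 _)]
        refine (hg1 _).trans (le_of_eq ?_)
        rw [mul_add, pow_add]
        ring)
      refine ⟨h1, h2.trans ?_⟩
      have := mul_le_mul_of_nonneg_right k0 (show 0 ≤ ρ ^ (2 * i) by positivity)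
      calc C * ρ ^ (2 * i) / (1 - ρ ^ 2) = C / (1 - ρ ^ 2) * ρ ^ (2 * i) := by ring
        _ ≤ _ := this)
    (by
      intro i
      obtain ⟨h1, h2⟩ := Trunc_sum (f := fun j => g (i + j) - g (i + j + 1))
        (A := 2 * C * ρ ^ (2 * i)) hρ0 hρ1 (by
        intro j
        have a1 := hg1 (i + j)
        have a2 := hg1 (i + j + 1)
        have a3 : C * ρ ^ (2 * (i + j + 1)) ≤ C * ρ ^ (2 * (i + j)) :=
          mul_le_mul_of_nonneg_left (pow_le_pow_of_le_one hρ0.le hρ1.le (by omega)) hC0.le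
        have a4 : C * ρ ^ (2 * (i + j)) = C * ρ ^ (2 * i) * ρ ^ (2 * j) := by
          rw [mul_add, pow_add]; ring
        have b1 := hg0 (i + j)
        have b2 := hg0 (i + j + 1)
        rw [abs_le]
        constructor <;> nlinarith)
      refine ⟨h1, h2.trans ?_⟩
      have := mul_le_mul_of_nonneg_right k1 (show 0 ≤ ρ ^ (2 * i) by positivity)
      calc 2 * C * ρ ^ (2 * i) / (1 - ρ ^ 2) = 2 * C / (1 - ρ ^ 2) * ρ ^ (2 * i) := by ring
        _ ≤ _ := this)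
    (by
      intro i
      obtain ⟨h1, h2⟩ := Trunc_sum (f := fun j => g (i + j - 1) - g (i + j))
        (A := 2 * C / ρ ^ 2 * ρ ^ (2 * i)) hρ0 hρ1 (by
        intro j
        have a4 : 2 * C / ρ ^ 2 * ρ ^ (2 * i) * ρ ^ (2 * j) =
            2 * (C / ρ ^ 2 * ρ ^ (2 * (i + j))) := by
          rw [mul_add, pow_add]; ring
        rw [a4]
        have a1 := hg1 (i + j)
        have b1 := hg0 (i + j)
        have a3 : C * ρ ^ (2 * (i + j)) ≤ C / ρ ^ 2 * ρ ^ (2 * (i + j)) := by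
          apply mul_le_mul_of_nonneg_right _ (by positivity)
          rw [le_div_iff₀ hρ2]
          nlinarith
        rcases Nat.eq_zero_or_pos (i + j) with h0 | h0
        · rw [h0]
          simp only [Nat.zero_sub, sub_self, abs_zero]
          positivity
        · obtain ⟨k, hk⟩ : ∃ k, i + j = k + 1 := ⟨i + j - 1, by omega⟩
          rw [hk] at a1 b1 a3 ⊢
          rw [Nat.add_sub_cancel]
          have c1 := hg1 k
          have c2 := hg0 k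
          have c3 : C * ρ ^ (2 * k) = C / ρ ^ 2 * ρ ^ (2 * (k + 1)) := by
            rw [mul_add, pow_add, mul_one]
            field_simp
          rw [abs_le]
          constructor <;> linarith)
      refine ⟨h1, h2.trans ?_⟩
      have := mul_le_mul_of_nonneg_right k2 (show 0 ≤ ρ ^ (2 * i) by positivity)
      calc 2 * C / ρ ^ 2 * ρ ^ (2 * i) / (1 - ρ ^ 2) =
          2 * C / ρ ^ 2 / (1 - ρ ^ 2) * ρ ^ (2 * i) := by ring
        _ ≤ _ := this)
  refine ⟨n, le_max_left _ _, Φ₁ - Φ₂, hN1.sub hN2, (hB1.sub hB2).mono (by linarith), ?_⟩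
  have hM := IsMult.sub cs hM1 hM2
  have e : (fun w => (((ρ ^ 4) ^ NN cs b w : ℝ) : ℂ) - (g (NN cs b w) : ℂ)) =
      fun w => if NN cs b w ≤ n then ((ρ ^ (4 * NN cs b w) : ℝ) : ℂ) else 0 := by
    funext w
    simp only [hg]
    rw [← pow_mul]
    by_cases h : NN cs b w ≤ n
    · rw [if_pos h, if_neg (by omega)]
      simp
    · rw [if_neg h, if_pos (by omega)]
      simp
  rw [← e]
  exact hM

end Pool.Agent.H73.HVN
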