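import Pool.Agent.H73.HVN.StarB

/-!
# Module Growth: for type FC the sum of the `N_b` is proper on `W_A`, `A` finite

PLAN. `NN_mono`: if `t` is not a right descent of `y` then `N_b(y) ≤ N_b(y s_t)`: for `t ≠ b` `NN_mul_ne`; for
`t = b`: `y ∈ Y`: `NN_mul_b`; `y ∉ Y`, `y s_b ∉ Y`: `NN_mul_b'`; `y ∉ Y` and `y' = y s_b ∈ Y` is impossible: `b`
is not a right descent of `y'` (`not_desc_of_mem_YY`), so `ℓ(y) = ℓ(y' s_b) > ℓ(y')`, but `b` is not a right
descent of `y`. `NN_mono_word`: along a word `η` such that `ℓ(y * π η) = ℓ(y) + |η|`.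
`window`: let `y : W`, `η` a word with `ℓ(y * π η) = ℓ(y) + |η|` (so `η` is reduced and all prefixes too) all
of whose letters are in the finite set `A`, and suppose that `b, s ∈ η` with `M b s = 0`. Then
`Σ_{c ∈ A} N_c(y * π η) ≥ Σ_{c ∈ A} N_c(y) + 1`. Proof: by symmetry (`M s b = 0`) assume that there is an
occurrence of `s` which precedes some occurrence of `b`. Write `η = η₁ ++ [s] ++ η₂ ++ [b] ++ η₃` with
`b ∉ η₂`. `y₁ = y π(η₁) s` has `s ∈ op M b` as a right descent, so `y₁ ∈ Y_b` (`no_desc_of_notMem_YY`). Going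
through `η₂` the element stays in `Y_b`: for a letter `t ∈ lk M b` by `YY_mul`, for a letter `t ∈ op M b` since
`t` is a right descent of the new element (`no_desc_of_notMem_YY`). Then `NN_mul_b` raises `N_b` by one, and
all other steps do not lower any `N_c`.
`finite_level`: for each `K ⊆ A` with `M i j ≠ 0` for all `i, j ∈ K` the group `W_K` is finite (`IsFC`, note
`WP cs K = Subgroup.closure (cs.simple '' K)`); let `c` be an upper bound for the lengths of the elements
of all these finitely many finite groups. Let `w ∈ W_A`, `ω` a reduced word of `w`, its letters are in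
`A` (`mem_of_isReduced`). Any window (block of consecutive letters) of `ω` of length `c + 1` has two
letters `b, s` with `M b s = 0`: otherwise its set of letters `K` gives an element of `W_K` of length
`c + 1`. So if `ℓ(w) ≥ (n + 1) (c + 1)` then `Σ_{b ∈ A} N_b(w) ≥ n + 1` (induction on the number of windows,
`ω.take ((k+1) * (c+1))`). So the set in question consists of products of words of length
`< (n + 1) (c + 1)` in letters from the finite set `A`: finite.
-/

set_option autoImplicit false

namespace Pool.Agent.H73.HVN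

universe u v

variable {B : Type v} {W : Type u} [Group W] {M : CoxeterMatrix B} (cs : CoxeterSystem M W)

theorem NN_mono {b t : B} {y : W} (h : ¬ cs.IsRightDescent y t) :
    NN cs b y ≤ NN cs b (y * cs.simple t) := by
  by_cases htb : t = b
  · subst htb
    by_cases hy : y ∈ YY cs t
    · rw [NN_mul_b cs hy]
      exact Nat.le_succ _
    · by_cases hy' : y * cs.simple t ∈ YY cs t
      · exfalso
        have h1 := not_desc_of_mem_YY cs hy'
        exact h ((cs.isRightDescent_iff_not_isRightDescent_mul).2 h1)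
      · rw [NN_mul_b' cs hy hy']
  · rw [NN_mul_ne cs htb]

/-- additivity of the length along a word -/
private def AddW (y : W) (η : List B) : Prop :=
  cs.length (y * cs.wordProd η) = cs.length y + η.length

private theorem addW_append {y : W} {η₁ η₂ : List B} (h : AddW cs y (η₁ ++ η₂)) :
    AddW cs y η₁ ∧ AddW cs (y * cs.wordProd η₁) η₂ := by
  unfold AddW at *
  rw [cs.wordProd_append, ← mul_assoc, List.length_append] at h
  have h1 := cs.length_mul_le (y * cs.wordProd η₁) (cs.wordProd η₂)
  have h2 := cs.length_wordProd_le η₂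
  have h3 := cs.length_mul_le y (cs.wordProd η₁)
  have h4 := cs.length_wordProd_le η₁
  constructor <;> omega

private theorem addW_cons {y : W} {i : B} {η : List B} (h : AddW cs y (i :: η)) :
    ¬ cs.IsRightDescent y i ∧ AddW cs (y * cs.simple i) η := by
  have h' : AddW cs y ([i] ++ η) := h
  obtain ⟨h1, h2⟩ := addW_append cs h'
  unfold AddW at h1
  rw [cs.wordProd_singleton] at h1 h2
  refine ⟨?_, h2⟩
  unfold CoxeterSystem.IsRightDescent
  simp at h1
  omega

private theorem NN_mono_word (b : B) {y : W} {η : List B} (h : AddW cs y η) :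
    NN cs b y ≤ NN cs b (y * cs.wordProd η) := by
  induction η generalizing y with
  | nil => simp
  | cons t η ih =>
    obtain ⟨h1, h2⟩ := addW_cons cs h
    rw [cs.wordProd_cons, ← mul_assoc]
    exact (NN_mono cs h1).trans (ih h2)

private theorem gain_of_mem {b : B} {y : W} {η : List B} (hy : y ∈ YY cs b) (h : AddW cs y η)
    (hb : b ∈ η) : NN cs b y + 1 ≤ NN cs b (y * cs.wordProd η) := by
  induction η generalizing y with
  | nil => simp at hb
  | cons t η ih =>
    obtain ⟨h1, h2⟩ := addW_cons cs h
    rw [cs.wordProd_cons, ← mul_assoc]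
    by_cases htb : t = b
    · subst htb
      rw [← NN_mul_b cs hy]
      exact NN_mono_word cs t h2
    · have hb' : b ∈ η := by
        rcases List.mem_cons.1 hb with h | h
        · exact absurd h.symm htb
        · exact h
      rw [← NN_mul_ne cs htb y]
      refine ih ?_ h2 hb'
      by_cases hM : M b t = 0
      · by_contra hc
        refine no_desc_of_notMem_YY cs hc (o := t) hM ?_
        by_contra hd
        exact h1 ((cs.isRightDescent_iff_not_isRightDescent_mul).2 hd)
      · exact (YY_mul cs ⟨htb, hM⟩ y).2 hy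

private theorem gain_of_split {b s : B} (hM : M b s = 0) {y : W} {η₁ η₂ : List B}
    (h : AddW cs y (η₁ ++ s :: η₂)) (hb : b ∈ η₂) :
    NN cs b y + 1 ≤ NN cs b (y * cs.wordProd (η₁ ++ s :: η₂)) := by
  obtain ⟨h1, h2⟩ := addW_append cs h
  obtain ⟨h3, h4⟩ := addW_cons cs h2
  have hY : y * cs.wordProd η₁ * cs.simple s ∈ YY cs b := by
    by_contra hc
    refine no_desc_of_notMem_YY cs hc (o := s) hM ?_
    by_contra hd
    exact h3 ((cs.isRightDescent_iff_not_isRightDescent_mul).2 hd)
  have h5 := gain_of_mem cs hY h4 hb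
  have h6 := NN_mono_word cs b h1
  have h7 := NN_mono cs (b := b) h3
  rw [cs.wordProd_append, cs.wordProd_cons, ← mul_assoc, ← mul_assoc]
  omega

private theorem gain_window {A : Finset B} {b s : B} (hbA : b ∈ A) (hsA : s ∈ A)
    (hM : M b s = 0) {y : W} {η : List B} (h : AddW cs y η) (hb : b ∈ η) (hs : s ∈ η) :
    ∑ c ∈ A, NN cs c y + 1 ≤ ∑ c ∈ A, NN cs c (y * cs.wordProd η) := by
  have key : ∃ c ∈ A, NN cs c y < NN cs c (y * cs.wordProd η) := by
    obtain ⟨η₁, η₂, rfl⟩ := List.append_of_mem hs
    by_cases hb2 : b ∈ η₂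
    · exact ⟨b, hbA, gain_of_split cs hM h hb2⟩
    · have hne : b ≠ s := by
        rintro rfl
        rw [M.diagonal] at hM
        exact one_ne_zero hM
      have hb1 : b ∈ η₁ := by
        rcases List.mem_append.1 hb with h' | h'
        · exact h'
        · rcases List.mem_cons.1 h' with h'' | h''
          · exact absurd h'' hne
          · exact absurd h'' hb2
      obtain ⟨α, β, rfl⟩ := List.append_of_mem hb1
      have hMs : M s b = 0 := by rw [M.symmetric]; exact hM
      have he : α ++ b :: β ++ s :: η₂ = α ++ b :: (β ++ s :: η₂) := by simp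
      rw [he] at h ⊢
      exact ⟨s, hsA, gain_of_split cs hMs h (by simp)⟩
  obtain ⟨c, hc, hlt⟩ := key
  exact Finset.sum_lt_sum (fun c _ => NN_mono_word cs c h) ⟨c, hc, hlt⟩

private theorem wordProd_mem_WP {L : Set B} {ω : List B} (h : ∀ i ∈ ω, i ∈ L) :
    cs.wordProd ω ∈ WP cs L := by
  induction ω with
  | nil => simp
  | cons i ω ih =>
    rw [cs.wordProd_cons]
    refine (WP cs L).mul_mem ?_ (ih fun j hj => h j (List.mem_cons_of_mem _ hj))
    exact Subgroup.subset_closure ⟨i, h i List.mem_cons_self, rfl⟩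

private theorem exists_bound (hFC : IsFC cs) (A : Finset B) :
    ∃ c : ℕ, ∀ K ⊆ A, (∀ i ∈ K, ∀ j ∈ K, M i j ≠ 0) → ∀ w ∈ WP cs (K : Set B),
      cs.length w ≤ c := by
  classical
  have h1 : ∀ K : Finset B, ∃ c : ℕ, (∀ i ∈ K, ∀ j ∈ K, M i j ≠ 0) →
      ∀ w ∈ WP cs (K : Set B), cs.length w ≤ c := by
    intro K
    by_cases hK : ∀ i ∈ K, ∀ j ∈ K, M i j ≠ 0
    · have hfin : Finite (WP cs (K : Set B)) := hFC K hK
      have hset : ((WP cs (K : Set B) : Subgroup W) : Set W).Finite := Set.toFinite _
      obtain ⟨c, hc⟩ := (hset.image cs.length).bddAbove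
      exact ⟨c, fun _ w hw => hc ⟨w, hw, rfl⟩⟩
    · exact ⟨0, fun h => absurd h hK⟩
  choose f hf using h1
  refine ⟨A.powerset.sup f, fun K hKA hK w hw => (hf K hK w hw).trans ?_⟩
  exact Finset.le_sup (f := f) (Finset.mem_powerset.2 hKA)

private theorem sum_growth {A : Finset B} {c : ℕ}
    (hc : ∀ K ⊆ A, (∀ i ∈ K, ∀ j ∈ K, M i j ≠ 0) → ∀ w ∈ WP cs (K : Set B), cs.length w ≤ c)
    (k : ℕ) : ∀ (y : W) (η : List B), (∀ i ∈ η, i ∈ A) → AddW cs y η → k * (c + 1) ≤ η.length →
      ∑ b ∈ A, NN cs b y + k ≤ ∑ b ∈ A, NN cs b (y * cs.wordProd η) := by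
  classical
  induction k with
  | zero =>
    intro y η _ h _
    exact Finset.sum_le_sum fun b _ => NN_mono_word cs b h
  | succ k ih =>
    intro y η hA h hlen
    have hsplit : η = η.take (c + 1) ++ η.drop (c + 1) := (List.take_append_drop _ _).symm
    have hlen' : c + 1 ≤ η.length := by
      have : (k + 1) * (c + 1) = k * (c + 1) + (c + 1) := by ring
      omega
    have htl : (η.take (c + 1)).length = c + 1 := by
      rw [List.length_take]; omega
    rw [hsplit] at h
    obtain ⟨h1, h2⟩ := addW_append cs h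
    -- the window
    have hwin : ∃ b ∈ η.take (c + 1), ∃ s ∈ η.take (c + 1), M b s = 0 := by
      by_contra hcon
      push Not at hcon
      have hK := hc (η.take (c + 1)).toFinset
        (fun i hi => hA i (List.mem_of_mem_take (List.mem_toFinset.1 hi)))
        (fun i hi j hj => hcon i (List.mem_toFinset.1 hi) j (List.mem_toFinset.1 hj))
        (cs.wordProd (η.take (c + 1)))
        (wordProd_mem_WP cs fun i hi => by simpa using hi)
      unfold AddW at h1
      have h3 := cs.length_mul_le y (cs.wordProd (η.take (c + 1)))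
      omega
    obtain ⟨b, hb, s, hs, hM⟩ := hwin
    have h3 := gain_window cs (hA b (List.mem_of_mem_take hb)) (hA s (List.mem_of_mem_take hs))
      hM h1 hb hs
    have h4 := ih (y * cs.wordProd (η.take (c + 1))) (η.drop (c + 1))
      (fun i hi => hA i (List.mem_of_mem_drop hi)) h2 (by
        rw [List.length_drop]
        have : (k + 1) * (c + 1) = k * (c + 1) + (c + 1) := by ring
        omega)
    have h5 : y * cs.wordProd η =
        y * cs.wordProd (η.take (c + 1)) * cs.wordProd (η.drop (c + 1)) := by
      conv_lhs => rw [hsplit]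
      rw [cs.wordProd_append, ← mul_assoc]
    rw [h5]
    omega

theorem finite_level (hFC : IsFC cs) (A : Finset B) (n : ℕ) :
    {w | w ∈ WP cs (A : Set B) ∧ ∑ b ∈ A, NN cs b w ≤ n}.Finite := by
  obtain ⟨c, hc⟩ := exists_bound cs hFC A
  have hfin : ((fun ω : List A => cs.wordProd (ω.map Subtype.val)) ''
      {ω : List A | ω.length ≤ (n + 1) * (c + 1)}).Finite :=
    (List.finite_length_le A _).image _
  refine hfin.subset ?_
  rintro w ⟨hw, hn⟩
  obtain ⟨ω, hred, rfl, hA⟩ := exists_reduced_word_mem cs hw
  have hAdd : AddW cs 1 ω := by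
    unfold AddW
    rw [one_mul, cs.length_one, zero_add]
    exact hred
  have hlt : ω.length < (n + 1) * (c + 1) := by
    by_contra hcon
    push Not at hcon
    have h := sum_growth cs hc (n + 1) 1 ω (fun i hi => hA i hi) hAdd hcon
    rw [one_mul] at h
    omega
  lift ω to List A using hA
  exact ⟨ω, by simpa using hlt.le, rfl⟩

/-- `N_b(w) = 0` for `w ∈ W_A`, `b ∉ A` (induction over a word in the letters of `A`, `NN_one`,
`NN_mul_ne`) -/
theorem NN_eq_zero_of_notMem {A : Set B} {b : B} (hb : b ∉ A) {w : W} (hw : w ∈ WP cs A) :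
    NN cs b w = 0 := by
  obtain ⟨ω, -, rfl, hA⟩ := exists_reduced_word_mem cs hw
  clear hw
  induction ω using List.reverseRecOn with
  | nil => simpa using NN_one cs b
  | append_singleton ω t ih =>
    have ht : t ≠ b := by
      rintro rfl
      exact hb (hA t (by simp))
    rw [cs.wordProd_append, cs.wordProd_singleton, NN_mul_ne cs ht]
    exact ih fun i hi => hA i (List.mem_append_left _ hi)

/-- every element is in `W_A` for some finite `A` -/
theorem exists_finset_mem_WP (w : W) : ∃ A : Finset B, w ∈ WP cs (A : Set B) := by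
  classical
  obtain ⟨ω, rfl⟩ := cs.wordProd_surjective w
  exact ⟨ω.toFinset, wordProd_mem_WP cs fun i hi => by simpa using hi⟩

theorem WP_mono {A A' : Set B} (h : A ⊆ A') : WP cs A ≤ WP cs A' :=
  Subgroup.closure_mono (Set.image_mono h)

end Pool.Agent.H73.HVN
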