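import Pool.Agent.H73.HVN.Mult
import Pool.Agent.H73.HVN.Kern

/-!
# Module MapPhi: the completely positive multipliers `r^{N_b}`

PLAN. `exists_map_of_kernel` with `ι = Fin 3 × W`, `K = 1`, and, with `N = NN cs b`,
* `a (0, x) = 1`, `k (0, x) w = if x = 1 then r ^ N w else 0` (root),
* `a (1, v) = v`, `k (1, v) w = if v ∈ V ∧ w ∈ Y then √(1 - r) * r ^ N w else 0`,
* `a (2, f) = f`, `k (2, f) w = if f ∈ F ∧ w ∉ Y then √((1 - r) / r) * r ^ N w else 0`,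
and `k' = k`, `c w = r ^ N w`.
`∑_i k_i(y a_i⁻¹)² = r^{2N(y)} + (1-r) ∑_v … + (1-r)/r ∑_f … = 1` (`kappa` with `ρ = r`); summable because only
finitely many terms are `≠ 0` (`finite_V`, `finite_F`). Split the sum over `Fin 3 × W` (finite support, so
everything is a finite sum; e.g. `Summable.tsum_prod'`/`tsum_fintype`, `Fin.sum_univ_three`).
`kmap k k a X z y = Theta cs b (fun k => r ^ k) X z y`: root term `r^{N z} r^{N y} X(z,y)`; for `v`:
`(1-r) r^{N(z v⁻¹)} r^{N(y v⁻¹)} X(z v⁻¹, y v⁻¹) = (r^m - r^{m+1}) X(…)`, `m = N(z v⁻¹) + N(y v⁻¹)`; for `f`: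
`((1-r)/r) r^m X = (r^{m-1} - r^m) X` with `m ≥ 1` (`NN_pos`). Then `Theta_CC`, `Theta_one` are `hC`, `h1`.
-/

set_option autoImplicit false

open scoped ComplexOrder InnerProductSpace
open Filter Topology

namespace Pool.Agent.H73.HVN

universe u v

variable {B : Type v} {W : Type u} [Group W] {M : CoxeterMatrix B} (cs : CoxeterSystem M W)

open Classical in
private noncomputable def mapPhiK (b : B) (r : ℝ) : PUnit.{u + 1} ⊕ (W ⊕ W) → W → ℝ :=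
  Sum.elim (fun _ w => r ^ NN cs b w)
    (Sum.elim
      (fun v w => if v ∈ VV cs b ∧ w ∈ YY cs b then √(1 - r) * r ^ NN cs b w else 0)
      (fun f w => if f ∈ FF cs b ∧ w ∉ YY cs b then √((1 - r) / r) * r ^ NN cs b w else 0))

private def mapPhiA : PUnit.{u + 1} ⊕ (W ⊕ W) → W :=
  Sum.elim (fun _ => 1) (Sum.elim (fun v => v) (fun f => f))

private theorem mapPhi_sum (b : B) {r : ℝ} (h0 : 0 < r) (h1 : r < 1) (y : W) :
    HasSum (fun i => (mapPhiK cs b r i (y * (mapPhiA i)⁻¹)) ^ 2) 1 := by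
  classical
  have hk := kappa cs b h0.ne' y
  have s1 : HasSum (fun v : W => (1 - r) *
      (if v ∈ VV cs b ∧ y * v⁻¹ ∈ YY cs b then r ^ (2 * NN cs b (y * v⁻¹)) else 0))
      ((1 - r) * (∑' v : W, if v ∈ VV cs b ∧ y * v⁻¹ ∈ YY cs b
        then r ^ (2 * NN cs b (y * v⁻¹)) else 0)) := by
    refine HasSum.mul_left _ (Summable.hasSum ?_)
    refine summable_of_hasFiniteSupport ((finite_V cs b y).subset ?_)
    intro v hv
    by_contra hn
    exact hv (if_neg hn)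
  have s2 : HasSum (fun f : W => (1 - r) / r *
      (if f ∈ FF cs b ∧ y * f⁻¹ ∉ YY cs b then r ^ (2 * NN cs b (y * f⁻¹)) else 0))
      ((1 - r) / r * (∑' f : W, if f ∈ FF cs b ∧ y * f⁻¹ ∉ YY cs b
        then r ^ (2 * NN cs b (y * f⁻¹)) else 0)) := by
    refine HasSum.mul_left _ (Summable.hasSum ?_)
    refine summable_of_hasFiniteSupport ((finite_F cs b y).subset ?_)
    intro v hv
    by_contra hn
    exact hv (if_neg hn)
  have s0 : HasSum (fun _ : PUnit.{u + 1} => r ^ (2 * NN cs b y)) (r ^ (2 * NN cs b y)) :=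
    hasSum_unique _
  have s3 := HasSum.sum (f := fun i => (mapPhiK cs b r i (y * (mapPhiA i)⁻¹)) ^ 2)
    (a := r ^ (2 * NN cs b y))
    (b := (1 - r) * (∑' v : W, if v ∈ VV cs b ∧ y * v⁻¹ ∈ YY cs b
        then r ^ (2 * NN cs b (y * v⁻¹)) else 0) +
      (1 - r) / r * (∑' f : W, if f ∈ FF cs b ∧ y * f⁻¹ ∉ YY cs b
        then r ^ (2 * NN cs b (y * f⁻¹)) else 0)) ?_ (HasSum.sum ?_ ?_)
  · rw [← add_assoc, hk] at s3
    exact s3
  · convert s0 using 1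
    funext _
    simp only [mapPhiK, mapPhiA, Function.comp_apply, Sum.elim_inl, inv_one, mul_one]
    rw [← pow_mul, mul_comm]
  · convert s1 using 1
    funext v
    simp only [mapPhiK, mapPhiA, Function.comp_apply, Sum.elim_inl, Sum.elim_inr]
    split_ifs with h
    · rw [mul_pow, Real.sq_sqrt (by linarith), ← pow_mul, mul_comm 2]
    · simp
  · convert s2 using 1
    funext v
    simp only [mapPhiK, mapPhiA, Function.comp_apply, Sum.elim_inr]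
    split_ifs with h
    · rw [mul_pow, Real.sq_sqrt (div_nonneg (by linarith) h0.le), ← pow_mul, mul_comm 2]
    · simp

open Classical in
private theorem mapPhi_ker {𝒜 𝒴 : Set W} {ω X : W → W → ℂ} {z y : W}
    (h : {a | a ∈ 𝒜 ∧ y * a⁻¹ ∈ 𝒴}.Finite) :
    HasSum (fun a : W => if a ∈ 𝒜 ∧ z * a⁻¹ ∈ 𝒴 ∧ y * a⁻¹ ∈ 𝒴 then
      ω (z * a⁻¹) (y * a⁻¹) * X (z * a⁻¹) (y * a⁻¹) else 0) (Ker 𝒜 𝒴 ω X z y) := by
  unfold Ker
  refine (summable_of_hasFiniteSupport (h.subset ?_)).hasSum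
  intro v hv
  by_contra hn
  exact hv (if_neg fun h => hn ⟨h.1, h.2.2⟩)

private theorem mapPhi_kmap (b : B) {r : ℝ} (h0 : 0 < r) (h1 : r < 1) (X : W → W → ℂ) (z y : W) :
    kmap (mapPhiK cs b r) (mapPhiK cs b r) mapPhiA X z y =
      Theta cs b (fun k => r ^ k) X z y := by
  classical
  have hfin1 := finite_V cs b y
  have hfin2 := finite_F cs b y
  have s0 : HasSum (fun _ : PUnit.{u + 1} => ((r ^ (NN cs b z + NN cs b y) : ℝ) : ℂ) * X z y)
      (((r ^ (NN cs b z + NN cs b y) : ℝ) : ℂ) * X z y) := hasSum_unique _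
  have s1 := mapPhi_ker (𝒜 := VV cs b) (𝒴 := YY cs b)
    (ω := fun z y => ((r ^ (NN cs b z + NN cs b y) - r ^ (NN cs b z + NN cs b y + 1) : ℝ) : ℂ))
    (X := X) (z := z) hfin1
  have s2 := mapPhi_ker (𝒜 := FF cs b) (𝒴 := (YY cs b)ᶜ)
    (ω := fun z y => ((r ^ (NN cs b z + NN cs b y - 1) - r ^ (NN cs b z + NN cs b y) : ℝ) : ℂ))
    (X := X) (z := z) hfin2
  have s3 := HasSum.sum (f := fun i => ((mapPhiK cs b r i (z * (mapPhiA i)⁻¹) *
      mapPhiK cs b r i (y * (mapPhiA i)⁻¹) : ℝ) : ℂ) * X (z * (mapPhiA i)⁻¹) (y * (mapPhiA i)⁻¹))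
    (a := ((r ^ (NN cs b z + NN cs b y) : ℝ) : ℂ) * X z y)
    (b := Ker (VV cs b) (YY cs b)
        (fun z y => ((r ^ (NN cs b z + NN cs b y) - r ^ (NN cs b z + NN cs b y + 1) : ℝ) : ℂ))
        X z y + Ker (FF cs b) (YY cs b)ᶜ
        (fun z y => ((r ^ (NN cs b z + NN cs b y - 1) - r ^ (NN cs b z + NN cs b y) : ℝ) : ℂ))
        X z y) ?_ (HasSum.sum ?_ ?_)
  · unfold kmap Theta
    rw [s3.tsum_eq, add_assoc]
  · convert s0 using 1
    funext _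
    simp only [mapPhiK, mapPhiA, Function.comp_apply, Sum.elim_inl, inv_one, mul_one]
    rw [pow_add]
  · convert s1 using 1
    funext v
    simp only [mapPhiK, mapPhiA, Function.comp_apply, Sum.elim_inl, Sum.elim_inr]
    by_cases hv : v ∈ VV cs b
    · by_cases hz : z * v⁻¹ ∈ YY cs b
      · by_cases hy : y * v⁻¹ ∈ YY cs b
        · rw [if_pos ⟨hv, hz⟩, if_pos ⟨hv, hy⟩, if_pos ⟨hv, hz, hy⟩]
          congr 2
          have h2 : √(1 - r) * √(1 - r) = 1 - r := Real.mul_self_sqrt (by linarith)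
          rw [mul_mul_mul_comm, h2, ← pow_add, pow_succ]
          ring
        · rw [if_neg (fun h : v ∈ VV cs b ∧ y * v⁻¹ ∈ YY cs b => hy h.2),
            if_neg (fun h : v ∈ VV cs b ∧ z * v⁻¹ ∈ YY cs b ∧ y * v⁻¹ ∈ YY cs b => hy h.2.2)]
          simp
      · rw [if_neg (fun h : v ∈ VV cs b ∧ z * v⁻¹ ∈ YY cs b => hz h.2),
            if_neg (fun h : v ∈ VV cs b ∧ z * v⁻¹ ∈ YY cs b ∧ y * v⁻¹ ∈ YY cs b => hz h.2.1)]
        simp
    · rw [if_neg (fun h : v ∈ VV cs b ∧ z * v⁻¹ ∈ YY cs b => hv h.1),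
            if_neg (fun h : v ∈ VV cs b ∧ z * v⁻¹ ∈ YY cs b ∧ y * v⁻¹ ∈ YY cs b => hv h.1)]
      simp
  · convert s2 using 1
    funext v
    simp only [mapPhiK, mapPhiA, Function.comp_apply, Sum.elim_inr]
    by_cases hv : v ∈ FF cs b
    · by_cases hz : z * v⁻¹ ∈ YY cs b
      · rw [if_neg (fun h : v ∈ FF cs b ∧ z * v⁻¹ ∉ YY cs b => h.2 hz),
            if_neg (fun h : v ∈ FF cs b ∧ z * v⁻¹ ∈ (YY cs b)ᶜ ∧ y * v⁻¹ ∈ (YY cs b)ᶜ =>
              h.2.1 hz)]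
        simp
      · by_cases hy : y * v⁻¹ ∈ YY cs b
        · rw [if_neg (fun h : v ∈ FF cs b ∧ y * v⁻¹ ∉ YY cs b => h.2 hy),
            if_neg (fun h : v ∈ FF cs b ∧ z * v⁻¹ ∈ (YY cs b)ᶜ ∧ y * v⁻¹ ∈ (YY cs b)ᶜ =>
              h.2.2 hy)]
          simp
        · rw [if_pos ⟨hv, hz⟩, if_pos ⟨hv, hy⟩, if_pos ⟨hv, hz, hy⟩]
          congr 2
          have h2 : √((1 - r) / r) * √((1 - r) / r) = (1 - r) / r :=
            Real.mul_self_sqrt (div_nonneg (by linarith) h0.le)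
          have h3 := NN_pos cs hz
          obtain ⟨m, hm⟩ : ∃ m, NN cs b (z * v⁻¹) + NN cs b (y * v⁻¹) = m + 1 :=
            ⟨NN cs b (z * v⁻¹) + NN cs b (y * v⁻¹) - 1, by omega⟩
          rw [mul_mul_mul_comm, h2, ← pow_add, hm, Nat.add_sub_cancel, pow_succ]
          field_simp
    · rw [if_neg (fun h : v ∈ FF cs b ∧ z * v⁻¹ ∉ YY cs b => hv h.1),
            if_neg (fun h : v ∈ FF cs b ∧ z * v⁻¹ ∈ (YY cs b)ᶜ ∧ y * v⁻¹ ∈ (YY cs b)ᶜ =>
              hv h.1)]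
      simp

theorem exists_phi {q : B → ℝ} (hq : Admissible cs q) (b : B) {r : ℝ} (h0 : 0 < r) (h1 : r < 1) :
    ∃ Φ : HA cs q →ₗ[ℂ] HA cs q, IsNormalMap (HA cs q) Φ ∧ CBNormLE (HA cs q) Φ 1 ∧
      IsMult cs q Φ (fun w => ((r ^ NN cs b w : ℝ) : ℂ)) ∧ IsCP (HA cs q) Φ := by
  have hk : ∀ X : W → W → ℂ, kmap (mapPhiK cs b r) (mapPhiK cs b r) mapPhiA X =
      Theta cs b (fun k => r ^ k) X := fun X => by
    funext z y
    exact mapPhi_kmap cs b h0 h1 X z y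
  have hs : ∀ y, Summable (fun i => (mapPhiK cs b r i (y * (mapPhiA i)⁻¹)) ^ 2) ∧
      ∑' i, (mapPhiK cs b r i (y * (mapPhiA i)⁻¹)) ^ 2 ≤ 1 := fun y =>
    ⟨(mapPhi_sum cs b h0 h1 y).summable, (mapPhi_sum cs b h0 h1 y).tsum_eq.le⟩
  obtain ⟨Φ, a1, a2, a3, a4⟩ := exists_map_of_kernel cs hq (mapPhiK cs b r) (mapPhiK cs b r)
    mapPhiA zero_le_one hs hs (fun w => ((r ^ NN cs b w : ℝ) : ℂ))
    (fun X hX i => by rw [hk]; exact Theta_CC cs hq b _ hX i)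
    (fun X _ z => by rw [hk]; exact Theta_one cs b _ X z)
  exact ⟨Φ, a1, a2, a3, a4 rfl⟩

end Pool.Agent.H73.HVN
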