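import Pool.Agent.H73.HVN.Hecke

/-!
# Module Comm: the commutation theorem

`HA cs q = {T_i}''` is the commutant of the right Hecke operators `R_i`.

PLAN. `vN S = Subalgebra.centralizer ℂ (Set.centralizer S)`.
(→) `x ∈ {T}''`: `R_i ∈ Set.centralizer (range T)` by `TT_RR_comm`, so `x` commutes with `R_i`.
(←) Let `x` commute with all `R_i` and `y` with all `T_i`; to show `x y = y x`.
Define by a reduced word (or: for each `w` there exist) operators `T_w`, `R_w` in the algebras generated by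
the `T_i`, resp. `R_i`, with `T_w δ_1 = δ_w`, `R_w δ_1 = δ_w`, and adjoints `T_w* δ_1 = δ_{w⁻¹}`,
`R_w* δ_1 = δ_{w⁻¹}`: for a reduced word `i_1 … i_n` of `w`, `T_w = T_{i_1} ⋯ T_{i_n}`, `T_w* = T_{i_n} ⋯ T_{i_1}`;
`R_w = R_{i_n} ⋯ R_{i_1}` (`RR_δ`: since `i_{k+1}` is not a right descent of `s_{i_1} ⋯ s_{i_k}`).
Claim (*): if `y` commutes with all `T_i` then `(y* δ_1)(w) = conj ((y δ_1)(w⁻¹))`, `y* = adjoint y`. Indeed
`(y* δ_1)(w) = ⟪δ_w, y* δ_1⟫ = ⟪y δ_w, δ_1⟫ = ⟪y T_w δ_1, δ_1⟫ = ⟪T_w y δ_1, δ_1⟫ = ⟪y δ_1, T_w* δ_1⟫ =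
⟪y δ_1, δ_{w⁻¹}⟫ = conj ((y δ_1)(w⁻¹))`. In the same way (**): the same formula holds for `x` commuting with
all `R_i`. Consequence (***): for such `x, y`: `⟪x* δ_1, y δ_1⟫ = ⟪y* δ_1, x δ_1⟫`, because
`⟪x* δ_1, y δ_1⟫ = ∑_w conj((x* δ_1)(w)) (y δ_1)(w) = ∑_w (x δ_1)(w⁻¹) (y δ_1)(w)` and
`⟪y* δ_1, x δ_1⟫ = ∑_w (y δ_1)(w⁻¹) (x δ_1)(w)`; substitute `w → w⁻¹`.
Now the adjoints of `T_i`, `R_i` are themselves (`TT_adj`, `RR_adj`), so `x*` commutes with all `R_i`, etc.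
For `w, v ∈ W`: `⟪δ_v, x y δ_w⟫ = ⟪x* R_v δ_1, y T_w δ_1⟫ = ⟪R_v x* δ_1, T_w y δ_1⟫
= ⟪T_w* x* δ_1, R_v* y δ_1⟫` (as `T_w*` and `R_v*` commute: `⟪R_v a, T_w c⟫ = ⟪T_w* R_v a, c⟫
= ⟪R_v T_w* a, c⟫ = ⟪T_w* a, R_v* c⟫`). Put `x' = x T_w` (commutes with all `R_i`), `x'* = T_w* x*`;
`y' = R_v* y` (commutes with all `T_i`). By (***): `⟪x'* δ_1, y' δ_1⟫ = ⟪y'* δ_1, x' δ_1⟫
= ⟪δ_1, y' x' δ_1⟫ = ⟪δ_1, R_v* y x T_w δ_1⟫ = ⟪R_v δ_1, y x δ_w⟫ = ⟪δ_v, y x δ_w⟫`. So `x y = y x`.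

`HA_cyclic`: `T_w ∈ HA`. `HA_trace`: `⟪δ_1, x y δ_1⟫ = ⟪x* δ_1, y δ_1⟫ = ∑_w (x δ_1)(w⁻¹) (y δ_1)(w)` by (**) (which
holds for elements of `HA`, they commute with the `R_i`), which is symmetric in `x, y`.
-/

set_option autoImplicit false

open scoped ComplexOrder InnerProductSpace
open Filter Topology

namespace Pool.Agent.H73.HVN

universe u v

variable {B : Type v} {W : Type u} [Group W] {M : CoxeterMatrix B} (cs : CoxeterSystem M W)

/-- the Hecke–von Neumann algebra `N_q(W)` -/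
noncomputable def HA (q : B → ℝ) : Subalgebra ℂ (L2 W →L[ℂ] L2 W) := vN (Set.range (TT cs q))

section CommAux

open ContinuousLinearMap

private theorem not_left_of_red {ω : List B} {i : B} (h : cs.IsReduced (i :: ω)) :
    cs.IsReduced ω ∧ ¬ cs.IsLeftDescent (cs.wordProd ω) i := by
  have h1 : cs.IsReduced ω := by
    have := CoxeterSystem.IsReduced.drop h 1
    simpa using this
  refine ⟨h1, ?_⟩
  intro h2
  have h3 : cs.length (cs.wordProd (i :: ω)) = (i :: ω).length := h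
  have h4 : cs.length (cs.wordProd ω) = ω.length := h1
  have h5 : cs.length (cs.simple i * cs.wordProd ω) < cs.length (cs.wordProd ω) := h2
  rw [CoxeterSystem.wordProd_cons] at h3
  rw [h3, h4] at h5
  simp at h5

private theorem TTw_δ (q : B → ℝ) : ∀ ω : List B, cs.IsReduced ω →
    (ω.map (TT cs q)).prod (δ 1) = (δ (cs.wordProd ω) : L2 W)
  | [], _ => by simp
  | i :: ω, h => by
    obtain ⟨h1, h2⟩ := not_left_of_red cs h
    rw [List.map_cons, List.prod_cons, mul_apply_eq_comp, TTw_δ q ω h1, TT_δ,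
      CoxeterSystem.wordProd_cons]
    have : pl cs q i (cs.wordProd ω) = 0 := by
      unfold pl
      rw [if_neg h2]
    rw [this, zero_smul, add_zero]

private theorem RRw_δ (q : B → ℝ) : ∀ ω : List B, cs.IsReduced ω →
    (ω.map (RR cs q)).prod (δ 1) = (δ (cs.wordProd ω)⁻¹ : L2 W)
  | [], _ => by simp
  | i :: ω, h => by
    obtain ⟨h1, h2⟩ := not_left_of_red cs h
    rw [List.map_cons, List.prod_cons, mul_apply_eq_comp, RRw_δ q ω h1, RR_δ,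
      CoxeterSystem.wordProd_cons]
    have : pr cs q i (cs.wordProd ω)⁻¹ = 0 := by
      unfold pr
      rw [if_neg]
      intro h3
      exact h2 (by rwa [← CoxeterSystem.isRightDescent_inv_iff])
    rw [this, zero_smul, add_zero, mul_inv_rev, CoxeterSystem.inv_simple]

omit [Group W] in
private theorem prod_adj {A : B → L2 W →L[ℂ] L2 W}
    (hA : ∀ i (f g : L2 W), ⟪A i f, g⟫_ℂ = ⟪f, A i g⟫_ℂ) : ∀ (ω : List B) (f g : L2 W),
    ⟪(ω.map A).prod f, g⟫_ℂ = ⟪f, (ω.reverse.map A).prod g⟫_ℂ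
  | [], f, g => by simp
  | i :: ω, f, g => by
    rw [List.map_cons, List.prod_cons, mul_apply_eq_comp, hA, prod_adj hA ω,
      List.reverse_cons, List.map_append, List.prod_append, mul_apply_eq_comp]
    simp

omit [Group W] in
private theorem prod_comm {A : B → L2 W →L[ℂ] L2 W} {y : L2 W →L[ℂ] L2 W}
    (hy : ∀ i, y * A i = A i * y) : ∀ (ω : List B), y * (ω.map A).prod = (ω.map A).prod * y
  | [] => by simp
  | i :: ω => by
    rw [List.map_cons, List.prod_cons, ← mul_assoc, hy i, mul_assoc, prod_comm hy ω, mul_assoc]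

private theorem exT (q : B → ℝ) (w : W) : ∃ T Ts : L2 W →L[ℂ] L2 W, T (δ 1) = δ w ∧
    Ts (δ 1) = δ w⁻¹ ∧ (∀ f g, ⟪T f, g⟫_ℂ = ⟪f, Ts g⟫_ℂ) ∧
    ∀ y : L2 W →L[ℂ] L2 W, (∀ i, y * TT cs q i = TT cs q i * y) → y * T = T * y ∧ y * Ts = Ts * y := by
  obtain ⟨ω, h1, h2⟩ := cs.exists_isReduced w
  refine ⟨(ω.map (TT cs q)).prod, (ω.reverse.map (TT cs q)).prod, ?_, ?_, ?_, ?_⟩
  · rw [TTw_δ cs q ω h1, h2]
  · rw [TTw_δ cs q _ h1.reverse, CoxeterSystem.wordProd_reverse, h2]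
  · exact prod_adj (TT_adj cs q) ω
  · intro y hy
    exact ⟨prod_comm hy _, prod_comm hy _⟩

private theorem exR (q : B → ℝ) (w : W) : ∃ T Ts : L2 W →L[ℂ] L2 W, T (δ 1) = δ w ∧
    Ts (δ 1) = δ w⁻¹ ∧ (∀ f g, ⟪T f, g⟫_ℂ = ⟪f, Ts g⟫_ℂ) ∧
    ∀ y : L2 W →L[ℂ] L2 W, (∀ i, y * RR cs q i = RR cs q i * y) → y * T = T * y ∧ y * Ts = Ts * y := by
  obtain ⟨ω, h1, h2⟩ := cs.exists_isReduced w
  refine ⟨(ω.reverse.map (RR cs q)).prod, (ω.reverse.reverse.map (RR cs q)).prod, ?_, ?_, ?_, ?_⟩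
  · rw [RRw_δ cs q _ h1.reverse, CoxeterSystem.wordProd_reverse, inv_inv, h2]
  · rw [List.reverse_reverse, RRw_δ cs q _ h1, h2]
  · exact prod_adj (RR_adj cs q) _
  · intro y hy
    exact ⟨prod_comm hy _, prod_comm hy _⟩

/-- formula (*) from any of the two families -/
private theorem star_formula {A : B → L2 W →L[ℂ] L2 W}
    (hex : ∀ w : W, ∃ T Ts : L2 W →L[ℂ] L2 W, T (δ 1) = δ w ∧
      Ts (δ 1) = δ w⁻¹ ∧ (∀ f g, ⟪T f, g⟫_ℂ = ⟪f, Ts g⟫_ℂ) ∧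
      ∀ y : L2 W →L[ℂ] L2 W, (∀ i, y * A i = A i * y) → y * T = T * y ∧ y * Ts = Ts * y)
    {y : L2 W →L[ℂ] L2 W} (hy : ∀ i, y * A i = A i * y) (w : W) :
    (adjoint y (δ 1) : L2 W) w = star ((y (δ 1) : L2 W) w⁻¹) := by
  obtain ⟨T, Ts, h1, h2, h3, h4⟩ := hex w
  obtain ⟨h5, -⟩ := h4 y hy
  have e1 : (adjoint y (δ 1) : L2 W) w = ⟪(δ w : L2 W), adjoint y (δ 1)⟫_ℂ := (inner_δ w _).symm
  rw [e1, adjoint_inner_right, ← h1, ← mul_apply_eq_comp, h5,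
    mul_apply_eq_comp, h3, h2, ← inner_conj_symm, inner_δ]
  rfl

/-- consequence (***) -/
private theorem inner_swap {x y : L2 W →L[ℂ] L2 W}
    (hx : ∀ w : W, (adjoint x (δ 1) : L2 W) w = star ((x (δ 1) : L2 W) w⁻¹))
    (hy : ∀ w : W, (adjoint y (δ 1) : L2 W) w = star ((y (δ 1) : L2 W) w⁻¹)) :
    ⟪(adjoint x (δ 1) : L2 W), y (δ 1)⟫_ℂ = ⟪(adjoint y (δ 1) : L2 W), x (δ 1)⟫_ℂ := by
  rw [lp.inner_eq_tsum, lp.inner_eq_tsum]
  rw [← (Equiv.inv W).tsum_eq]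
  refine tsum_congr fun w => ?_
  simp only [Equiv.inv_apply, RCLike.inner_apply, hx, hy, inv_inv]
  simp only [RCLike.star_def, Complex.conj_conj]
  ring

private theorem comm_main {q : B → ℝ} (hq : Admissible cs q) {x y : L2 W →L[ℂ] L2 W}
    (hx : ∀ i, x * RR cs q i = RR cs q i * x) (hy : ∀ i, y * TT cs q i = TT cs q i * y) :
    x * y = y * x := by
  refine ext_δ fun w => ?_
  refine lp.ext (funext fun v => ?_)
  obtain ⟨T, Ts, t1, t2, t3, t4⟩ := exT cs q w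
  obtain ⟨R, Rs, r1, r2, r3, r4⟩ := exR cs q v
  -- `T`, `Ts` commute with all `R_j`; `R`, `Rs` commute with all `T_i`
  have hTR : ∀ j, T * RR cs q j = RR cs q j * T ∧ Ts * RR cs q j = RR cs q j * Ts := by
    intro j
    have := t4 (RR cs q j) (fun i => (TT_RR_comm cs hq i j).symm)
    exact ⟨this.1.symm, this.2.symm⟩
  have hRT : ∀ i, Rs * TT cs q i = TT cs q i * Rs := by
    intro i
    exact (r4 (TT cs q i) (fun j => TT_RR_comm cs hq i j)).2.symm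
  have hRsT : Rs * T = T * Rs := (t4 Rs hRT).1
  set x' : L2 W →L[ℂ] L2 W := x * T with hx'
  set y' : L2 W →L[ℂ] L2 W := Rs * y with hy'
  have hx'c : ∀ i, x' * RR cs q i = RR cs q i * x' := by
    intro i
    rw [hx', mul_assoc, (hTR i).1, ← mul_assoc, hx i, mul_assoc]
  have hy'c : ∀ i, y' * TT cs q i = TT cs q i * y' := by
    intro i
    rw [hy', mul_assoc, hy i, ← mul_assoc, hRT i, mul_assoc]
  have key := inner_swap (star_formula (exR cs q) hx'c) (star_formula (exT cs q) hy'c)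
  rw [adjoint_inner_left, adjoint_inner_left] at key
  -- `⟪δ 1, x' y' δ 1⟫ = ⟪δ 1, y' x' δ 1⟫`
  have e1 : ⟪(δ 1 : L2 W), x' (y' (δ 1))⟫_ℂ = ⟪(δ v : L2 W), (x * y) (δ w)⟫_ℂ := by
    have c1 : x' * y' = Rs * ((x * y) * T) := by
      have a1 : x * Rs = Rs * x := (r4 x hx).2
      have a2 : y * T = T * y := (t4 y hy).1
      calc x' * y' = x * (T * Rs) * y := by rw [hx', hy']; simp only [mul_assoc]
        _ = (x * Rs) * (T * y) := by rw [← hRsT]; simp only [mul_assoc]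
        _ = Rs * ((x * y) * T) := by rw [a1, ← a2]; simp only [mul_assoc]
    have c2 : x' (y' (δ 1)) = Rs ((x * y) (δ w)) := by
      rw [← mul_apply_eq_comp, c1, mul_apply_eq_comp,
        mul_apply_eq_comp, t1]
    rw [c2, ← r3, r1]
  have e2 : ⟪(δ 1 : L2 W), y' (x' (δ 1))⟫_ℂ = ⟪(δ v : L2 W), (y * x) (δ w)⟫_ℂ := by
    have c2 : y' (x' (δ 1)) = Rs ((y * x) (δ w)) := by
      rw [hx', hy', mul_apply_eq_comp, mul_apply_eq_comp,
        mul_apply_eq_comp, t1]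
    rw [c2, ← r3, r1]
  rw [e1, e2, inner_δ, inner_δ] at key
  exact key

end CommAux

theorem mem_HA_iff {q : B → ℝ} (hq : Admissible cs q) (x : L2 W →L[ℂ] L2 W) :
    x ∈ HA cs q ↔ ∀ i, x * RR cs q i = RR cs q i * x := by
  constructor
  · intro hx i
    have h1 := (Subalgebra.mem_centralizer_iff ℂ).1 hx
    refine (h1 (RR cs q i) ?_).symm
    rw [Set.mem_centralizer_iff]
    rintro _ ⟨j, rfl⟩
    exact TT_RR_comm cs hq j i
  · intro hx
    refine (Subalgebra.mem_centralizer_iff ℂ).2 fun y hy => ?_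
    rw [Set.mem_centralizer_iff] at hy
    exact (comm_main cs hq hx (fun i => (hy _ ⟨i, rfl⟩).symm)).symm

theorem HA_cyclic (q : B → ℝ) (w : W) : ∃ x : L2 W →L[ℂ] L2 W, x ∈ HA cs q ∧ x (δ 1) = δ w := by
  obtain ⟨T, Ts, t1, t2, t3, t4⟩ := exT cs q w
  refine ⟨T, (Subalgebra.mem_centralizer_iff ℂ).2 fun y hy => ?_, t1⟩
  rw [Set.mem_centralizer_iff] at hy
  exact (t4 y (fun i => (hy _ ⟨i, rfl⟩).symm)).1

theorem HA_trace {q : B → ℝ} (hq : Admissible cs q) {x y : L2 W →L[ℂ] L2 W} (hx : x ∈ HA cs q)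
    (hy : y ∈ HA cs q) : ⟪(δ 1 : L2 W), x (y (δ 1))⟫_ℂ = ⟪(δ 1 : L2 W), y (x (δ 1))⟫_ℂ := by
  have key := inner_swap (star_formula (exR cs q) ((mem_HA_iff cs hq x).1 hx))
    (star_formula (exR cs q) ((mem_HA_iff cs hq y).1 hy))
  rwa [ContinuousLinearMap.adjoint_inner_left, ContinuousLinearMap.adjoint_inner_left] at key

/-- for every `w` there is an operator `R` with `R δ_1 = δ_w` which commutes with every `x` that commutes
with all the `R_i` -/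
theorem exists_RR_word (q : B → ℝ) (w : W) : ∃ R : L2 W →L[ℂ] L2 W, R (δ 1) = δ w ∧
    ∀ x : L2 W →L[ℂ] L2 W, (∀ i, x * RR cs q i = RR cs q i * x) → x * R = R * x := by
  obtain ⟨R, Rs, r1, r2, r3, r4⟩ := exR cs q w
  exact ⟨R, r1, fun x hx => (r4 x hx).1⟩

end Pool.Agent.H73.HVN
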