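import Pool.Agent.H73.HVN.Defs

/-!
# Coxeter-combinatorial definitions
-/

set_option autoImplicit false

namespace Pool.Agent.H73.HVN

universe u v

variable {B : Type v} {W : Type u} [Group W] {M : CoxeterMatrix B} (cs : CoxeterSystem M W)

/-- the standard parabolic subgroup `W_L` -/
def WP (L : Set B) : Subgroup W := Subgroup.closure (cs.simple '' L)

/-- `lk M b` : all `t ≠ b` with `m_{bt} < ∞` -/
def lk (M : CoxeterMatrix B) (b : B) : Set B := {t | t ≠ b ∧ M b t ≠ 0}

/-- `op M b` : all `t` with `m_{bt} = ∞` -/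
def op (M : CoxeterMatrix B) (b : B) : Set B := {t | M b t = 0}

/-- `Y`: all `y` such that `b` is not a right descent of any `y l`, `l ∈ W_{lk b}` -/
def YY (b : B) : Set W := {y | ∀ l ∈ WP cs (lk M b), ¬ cs.IsRightDescent (y * l) b}

/-- `V`: all `v ≠ 1` whose only left descent is `b` -/
def VV (b : B) : Set W := {v | v ≠ 1 ∧ ∀ i, cs.IsLeftDescent v i → i = b}

/-- `F`: all `f` all of whose left descents `o` satisfy `m_{bo} = ∞` (so `1 ∈ F`) -/
def FF (b : B) : Set W := {f | ∀ i, cs.IsLeftDescent f i → i ∈ op M b}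

/-- `N(y) = #{f ∈ F : y f⁻¹ ∉ Y}` -/
noncomputable def NN (b : B) (y : W) : ℕ := Set.ncard {f | f ∈ FF cs b ∧ y * f⁻¹ ∉ YY cs b}

end Pool.Agent.H73.HVN
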