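import Mathlib

/-!
# Hecke von Neumann algebras: definitions

`H` is a complex Hilbert space, `𝓜` a von Neumann algebra on `H` (given as a subalgebra of the
bounded operators; below it is always a double commutant), `Ω` a vector of `H`.
-/

set_option autoImplicit false

open scoped ComplexOrder InnerProductSpace
open Filter Topology

namespace Pool.Agent.H73.HVN

universe u v

/-- the Hilbert space `ℓ²(X)` -/
abbrev L2 (X : Type u) : Type u := lp (fun _ : X => ℂ) 2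

open Classical in
/-- the basis vector `δ_x` of `ℓ²(X)` -/
noncomputable def δ {X : Type u} (x : X) : L2 X := lp.single 2 x (1 : ℂ)

section General

variable {H : Type u} [NormedAddCommGroup H] [InnerProductSpace ℂ H]

/-- The double commutant of a set of operators: for a self-adjoint set `S` this is the von Neumann
algebra generated by `S`. -/
def vN (S : Set (H →L[ℂ] H)) : Subalgebra ℂ (H →L[ℂ] H) :=
  Subalgebra.centralizer ℂ (Set.centralizer S)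

/-- Normal (that is, σ-weakly continuous) functionals on `𝓜`: the functionals
`x ↦ ∑ i, ⟨x ξ_i, η_i⟩` with `∑ ‖ξ_i‖² < ∞` and `∑ ‖η_i‖² < ∞`. -/
def IsNormalFunctional (𝓜 : Subalgebra ℂ (H →L[ℂ] H)) (φ : 𝓜 → ℂ) : Prop :=
  ∃ (ι : Type u) (ξ η : ι → H), (Summable fun i => ‖ξ i‖ ^ 2) ∧ (Summable fun i => ‖η i‖ ^ 2) ∧
    ∀ x : 𝓜, φ x = ∑' i, ⟪η i, (x : H →L[ℂ] H) (ξ i)⟫_ℂ

/-- Normal (σ-weakly continuous) linear maps `𝓜 → 𝓜`. -/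
def IsNormalMap (𝓜 : Subalgebra ℂ (H →L[ℂ] H)) (Φ : 𝓜 →ₗ[ℂ] 𝓜) : Prop :=
  ∀ φ : 𝓜 → ℂ, IsNormalFunctional 𝓜 φ → IsNormalFunctional 𝓜 (fun x => φ (Φ x))

/-- Completely positive maps `𝓜 → 𝓜`: for every `n` the map `M_n(𝓜) → M_n(𝓜)` obtained by applying
`Φ` to every entry sends positive operators on `H^n` to positive operators on `H^n`. -/
def IsCP (𝓜 : Subalgebra ℂ (H →L[ℂ] H)) (Φ : 𝓜 →ₗ[ℂ] 𝓜) : Prop :=
  ∀ (n : ℕ) (X : Fin n → Fin n → 𝓜),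
    (∀ ξ : Fin n → H, 0 ≤ ∑ i, ∑ j, ⟪ξ i, (X i j : H →L[ℂ] H) (ξ j)⟫_ℂ) →
    ∀ ξ : Fin n → H, 0 ≤ ∑ i, ∑ j, ⟪ξ i, (Φ (X i j) : H →L[ℂ] H) (ξ j)⟫_ℂ

/-- `‖Φ‖_cb ≤ C`: for every `n` and every matrix `X ∈ M_n(𝓜)`, if `‖X‖ ≤ K` as an operator on `H^n`
then the matrix obtained by applying `Φ` to every entry of `X` has norm at most `C * K`. -/
def CBNormLE (𝓜 : Subalgebra ℂ (H →L[ℂ] H)) (Φ : 𝓜 →ₗ[ℂ] 𝓜) (C : ℝ) : Prop :=
  ∀ (n : ℕ) (X : Fin n → Fin n → 𝓜) (K : ℝ),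
    (∀ ξ η : Fin n → H, ‖∑ i, ∑ j, ⟪η i, (X i j : H →L[ℂ] H) (ξ j)⟫_ℂ‖ ≤
      K * (√(∑ j, ‖ξ j‖ ^ 2) * √(∑ i, ‖η i‖ ^ 2))) →
    ∀ ξ η : Fin n → H, ‖∑ i, ∑ j, ⟪η i, (Φ (X i j) : H →L[ℂ] H) (ξ j)⟫_ℂ‖ ≤
      C * K * (√(∑ j, ‖ξ j‖ ^ 2) * √(∑ i, ‖η i‖ ^ 2))

/-- The Haagerup property of `(𝓜, τ)` for the state `τ(x) = ⟨x Ω, Ω⟩`, where `Ω` is a cyclic vector
(so that `x ↦ x Ω` identifies `L²(𝓜, τ)` with `H`): there is a net of normal completely positive maps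
`Φ_i : 𝓜 → 𝓜` with `τ ∘ Φ_i ≤ τ`, each of them extending to a compact operator on `L²(𝓜, τ) = H`, such
that `‖Φ_i(x) - x‖₂ → 0` for all `x ∈ 𝓜`. -/
def HasHaagerupProperty (𝓜 : Subalgebra ℂ (H →L[ℂ] H)) (Ω : H) : Prop :=
  ∃ (ι : Type u) (_ : Preorder ι) (_ : IsDirectedOrder ι) (_ : Nonempty ι)
    (Φ : ι → (𝓜 →ₗ[ℂ] 𝓜)),
    (∀ i, IsNormalMap 𝓜 (Φ i) ∧ IsCP 𝓜 (Φ i) ∧
      (∀ x : 𝓜, (∀ ξ : H, 0 ≤ ⟪ξ, (x : H →L[ℂ] H) ξ⟫_ℂ) →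
        ⟪Ω, (Φ i x : H →L[ℂ] H) Ω⟫_ℂ ≤ ⟪Ω, (x : H →L[ℂ] H) Ω⟫_ℂ) ∧
      ∃ K : H →L[ℂ] H, IsCompactOperator K ∧
        ∀ x : 𝓜, (Φ i x : H →L[ℂ] H) Ω = K ((x : H →L[ℂ] H) Ω)) ∧
    ∀ x : 𝓜, Tendsto (fun i => ‖(Φ i x : H →L[ℂ] H) Ω - (x : H →L[ℂ] H) Ω‖) atTop (𝓝 0)

/-- The weak-* completely bounded approximation property with constant `C`: there is a net of normal
finite-rank maps `Φ_i : 𝓜 → 𝓜` with `‖Φ_i‖_cb ≤ C` and `Φ_i(x) → x` in the weak-* topology (that is,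
`φ(Φ_i(x)) → φ(x)` for all normal functionals `φ`) for all `x ∈ 𝓜`. -/
def HasWeakStarCBAP (𝓜 : Subalgebra ℂ (H →L[ℂ] H)) (C : ℝ) : Prop :=
  ∃ (ι : Type u) (_ : Preorder ι) (_ : IsDirectedOrder ι) (_ : Nonempty ι)
    (Φ : ι → (𝓜 →ₗ[ℂ] 𝓜)),
    (∀ i, IsNormalMap 𝓜 (Φ i) ∧ FiniteDimensional ℂ (LinearMap.range (Φ i)) ∧
      CBNormLE 𝓜 (Φ i) C) ∧
    ∀ (x : 𝓜) (φ : 𝓜 → ℂ), IsNormalFunctional 𝓜 φ → Tendsto (fun i => φ (Φ i x)) atTop (𝓝 (φ x))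

end General

section Coxeter

variable {B : Type v} {W : Type u} [Group W] {M : CoxeterMatrix B} (cs : CoxeterSystem M W)

/-- `p_s = q_s^{1/2} - q_s^{-1/2}` -/
noncomputable def pp (q : B → ℝ) (i : B) : ℝ := √(q i) - (√(q i))⁻¹

open Classical in
/-- `T` is the family of Hecke operators: `T_s δ_w = δ_{sw}` if `|sw| > |w|` and
`T_s δ_w = δ_{sw} + p_s δ_w` if `|sw| < |w|`. (A bounded operator is determined by its values on the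
`δ_w`, so there is at most one such family `T`.) -/
def IsHeckeFamily (q : B → ℝ) (T : B → (L2 W →L[ℂ] L2 W)) : Prop :=
  ∀ (i : B) (w : W), T i (δ w) =
    if cs.length w < cs.length (cs.simple i * w) then δ (cs.simple i * w)
    else δ (cs.simple i * w) + ((pp q i : ℝ) : ℂ) • δ w

/-- The parameter `q` is admissible: `q_s > 0`, and `q_s = q_t` whenever `s, t` are conjugate. -/
def Admissible (q : B → ℝ) : Prop :=
  (∀ i, 0 < q i) ∧ ∀ i j, IsConj (cs.simple i) (cs.simple j) → q i = q j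

/-- `(W, S)` is of type FC: every finite set `K` of generators such that `m_{st} < ∞` for all
`s, t ∈ K` generates a finite subgroup of `W` (in Mathlib `M i j = 0` encodes `m_{ij} = ∞`). -/
def IsFC : Prop :=
  ∀ K : Finset B, (∀ i ∈ K, ∀ j ∈ K, M i j ≠ 0) →
    Finite (Subgroup.closure (cs.simple '' (K : Set B)))

end Coxeter

end Pool.Agent.H73.HVN
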