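import Pool.Agent.H73.HVN.Growth
import Pool.Agent.H73.HVN.EA
import Pool.Agent.H73.HVN.Trunc
import Pool.Agent.H73.HVN.Conv

/-!
# Module Final: the Haagerup property and the weak-* CBAP for type FC

PLAN. Index type `ι = Finset W × ℕ` with the product order (directed: `∪`, `max`); for `i = (F, k)` let
`A = A(F) : Finset B` be the set of all `b` with `cs.simple b ∈ F` (finite since `simple` is injective:
`simple_injective`, e.g. `F.preimage cs.simple _`), `ρ_k = 1 - 1/(k+2) ∈ (0,1)`.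
* Haagerup: `Φ_i = E_A ∘ ∏_{b ∈ A} Φ_b`, `Φ_b` from `exists_phi` with `r = ρ_k` (`exists_prod` with `P = True`,
  `exists_EA`, `IsMult.comp`): multiplier `c_i(w) = [w ∈ W_A] ∏_{b ∈ A} ρ_k^{N_b(w)} = [w ∈ W_A] ρ_k^{∑ N_b(w)}`.
  Normal, completely positive. `⟪δ_1, Φ x δ_1⟫ = (Φ x δ_1)(1) = c_i(1) (x δ_1)(1) = ⟪δ_1, x δ_1⟫` as `N_b(1) = 0`
  (`inner_δ`, `NN_one`). Compact extension: `K = wop (refl) c_i`, and `{w | ε ≤ |c_i(w)|}` is finite for
  `ε > 0`: `ρ_k^{∑ N_b(w)} ≥ ε` bounds `∑_{b ∈ A} N_b(w) ≤ n`, `finite_level`.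
* Convergence: `|c_i(w)| ≤ 1`; for fixed `w`, `w ∈ W_{A₀}` with `A₀` finite (`exists_finset_mem_WP`). For
  `F ⊇ simple '' A₀`: `w ∈ W_A` (`WP_mono`) and `∏_{b ∈ A} ρ_k^{N_b(w)} = ∏_{b ∈ A₀} ρ_k^{N_b(w)}`
  (`NN_eq_zero_of_notMem`), which tends to `1` as `k → ∞`. `tendsto_mult`.
* CBAP, constant `C > 1`: given `i = (F, k)` choose `ε > 0` with `(1+ε)^{|A|} ≤ C`, and for each `b ∈ A` a number
  `n_b ≥ k` and `Φ_b` from `exists_trunc` (`ρ = ρ_k`). `Φ_i = E_A ∘ ∏_{b ∈ A} Φ_b` (`exists_prod` with `P = False`) has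
  cb-norm `≤ 1 * (1+ε)^{|A|} ≤ C`, multiplier
  `c_i(w) = [w ∈ W_A] ∏_{b ∈ A} (if N_b(w) ≤ n_b then ρ_k^{4 N_b(w)} else 0)`, which is supported in
  `{w ∈ W_A : ∑_{b ∈ A} N_b(w) ≤ ∑ n_b}`: finite (`finite_level`), so finite rank
  (`finiteDimensional_range`). `c_i(w) → 1` as before (since `n_b ≥ k ≥ N_b(w)` for `k` large),
  `|c_i(w)| ≤ 1`. `tendsto_mult` and `tendsto_weak`.
-/

set_option autoImplicit false

open scoped ComplexOrder InnerProductSpace
open Filter Topology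

namespace Pool.Agent.H73.HVN

universe u v

variable {B : Type v} {W : Type u} [Group W] {M : CoxeterMatrix B} (cs : CoxeterSystem M W)

/-- the finite set of all generators in `F` -/
private noncomputable def fA (F : Finset W) : Finset B :=
  F.preimage cs.simple (simple_injective cs).injOn

private theorem mem_fA {F : Finset W} {b : B} : b ∈ fA cs F ↔ cs.simple b ∈ F := by
  unfold fA
  exact Finset.mem_preimage

/-- `ρ_k` -/
private noncomputable def fr (k : ℕ) : ℝ := 1 - 1 / ((k : ℝ) + 2)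

private theorem fr_pos (k : ℕ) : 0 < fr k := by
  unfold fr
  have hk : (0 : ℝ) ≤ k := Nat.cast_nonneg k
  have h2 : 1 / ((k : ℝ) + 2) < 1 := by
    rw [div_lt_one (by linarith)]
    linarith
  linarith

private theorem fr_lt (k : ℕ) : fr k < 1 := by
  unfold fr
  have hk : (0 : ℝ) ≤ k := Nat.cast_nonneg k
  have h2 : 0 < 1 / ((k : ℝ) + 2) := by positivity
  linarith

private theorem fr_tendsto : Tendsto fr atTop (𝓝 1) := by
  have h1 : Tendsto (fun k : ℕ => ((k : ℝ) + 2)) atTop atTop :=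
    tendsto_atTop_add_const_right _ _ tendsto_natCast_atTop_atTop
  have h2 : Tendsto (fun k : ℕ => 1 / ((k : ℝ) + 2)) atTop (𝓝 0) := by
    simp only [one_div]
    exact tendsto_inv_atTop_zero.comp h1
  have h3 := (tendsto_const_nhds (x := (1 : ℝ)) (f := (atTop : Filter ℕ))).sub h2
  rw [sub_zero] at h3
  exact h3

omit [Group W] in
private theorem snd_tendsto : Tendsto (fun i : Finset W × ℕ => i.2) atTop atTop := by
  classical
  rw [← Filter.prod_atTop_atTop_eq]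
  exact Filter.tendsto_snd

open Classical in
private theorem lim_aux (m : ℕ) (w : W) :
    Tendsto (fun i : Finset W × ℕ => (if w ∈ WP cs (fA cs i.1 : Set B) then (1 : ℂ) else 0) *
      ∏ b ∈ fA cs i.1, ((fr i.2 ^ (m * NN cs b w) : ℝ) : ℂ)) atTop (𝓝 1) := by
  obtain ⟨A₀, hA₀⟩ := exists_finset_mem_WP cs w
  have h1 : Tendsto (fun i : Finset W × ℕ => ∏ b ∈ A₀, ((fr i.2 ^ (m * NN cs b w) : ℝ) : ℂ)) atTop
      (𝓝 1) := by
    have h2 : ∀ b ∈ A₀, Tendsto (fun i : Finset W × ℕ => ((fr i.2 ^ (m * NN cs b w) : ℝ) : ℂ)) atTop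
        (𝓝 1) := by
      intro b _
      have h3 : Tendsto (fun i : Finset W × ℕ => fr i.2 ^ (m * NN cs b w)) atTop (𝓝 1) := by
        have h4 := (fr_tendsto.comp (snd_tendsto (W := W))).pow (m * NN cs b w)
        simpa using h4
      have h5 := (Complex.continuous_ofReal.tendsto (1 : ℝ)).comp h3
      simpa [Function.comp_def] using h5
    have h6 := tendsto_finsetProd A₀ h2
    simpa using h6
  refine h1.congr' ?_
  filter_upwards [eventually_ge_atTop ((A₀.image cs.simple, 0) : Finset W × ℕ)] with i hi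
  have hsub : A₀ ⊆ fA cs i.1 := by
    intro b hb
    rw [mem_fA]
    exact hi.1 (Finset.mem_image_of_mem _ hb)
  have hw : w ∈ WP cs (fA cs i.1 : Set B) :=
    WP_mono cs (by exact_mod_cast hsub) hA₀
  rw [if_pos hw, one_mul]
  refine Finset.prod_subset hsub ?_
  intro b _ hb
  have h0 : NN cs b w = 0 := NN_eq_zero_of_notMem cs (A := (A₀ : Set B)) (by exact_mod_cast hb) hA₀
  rw [h0]
  simp

/-- the multiplier of the Haagerup maps -/
private noncomputable def cH (i : Finset W × ℕ) (w : W) : ℂ :=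
  (open Classical in if w ∈ WP cs (fA cs i.1 : Set B) then (1 : ℂ) else 0) *
    ∏ b ∈ fA cs i.1, ((fr i.2 ^ (NN cs b w) : ℝ) : ℂ)

private theorem cH_eq (i : Finset W × ℕ) {w : W} (hw : w ∈ WP cs (fA cs i.1 : Set B)) :
    cH cs i w = ((fr i.2 ^ (∑ b ∈ fA cs i.1, NN cs b w) : ℝ) : ℂ) := by
  unfold cH
  rw [if_pos hw, one_mul, ← Complex.ofReal_prod, Finset.prod_pow_eq_pow_sum]

private theorem norm_cH (i : Finset W × ℕ) (w : W) : ‖cH cs i w‖ ≤ 1 := by
  by_cases hw : w ∈ WP cs (fA cs i.1 : Set B)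
  · rw [cH_eq cs i hw, Complex.norm_real, Real.norm_of_nonneg (pow_nonneg (fr_pos _).le _)]
    exact pow_le_one₀ (fr_pos _).le (fr_lt _).le
  · unfold cH
    rw [if_neg hw, zero_mul, norm_zero]
    exact zero_le_one

private theorem cH_one (i : Finset W × ℕ) : cH cs i 1 = 1 := by
  rw [cH_eq cs i (one_mem _)]
  simp [NN_one]

private theorem finite_cH (hFC : IsFC cs) (i : Finset W × ℕ) {ε : ℝ} (hε : 0 < ε) :
    {w | ε ≤ ‖cH cs i w‖}.Finite := by
  obtain ⟨n, hn⟩ := exists_pow_lt_of_lt_one hε (fr_lt i.2)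
  refine (finite_level cs hFC (fA cs i.1) n).subset ?_
  intro w hw
  have hw' : ε ≤ ‖cH cs i w‖ := hw
  by_cases hWP : w ∈ WP cs (fA cs i.1 : Set B)
  · refine ⟨hWP, ?_⟩
    by_contra hlt
    rw [not_le] at hlt
    rw [cH_eq cs i hWP, Complex.norm_real, Real.norm_of_nonneg (pow_nonneg (fr_pos _).le _)] at hw'
    have h1 : fr i.2 ^ (∑ b ∈ fA cs i.1, NN cs b w) ≤ fr i.2 ^ n :=
      pow_le_pow_of_le_one (fr_pos _).le (fr_lt _).le hlt.le
    linarith
  · exfalso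
    unfold cH at hw'
    rw [if_neg hWP, zero_mul, norm_zero] at hw'
    linarith

private theorem exists_H {q : B → ℝ} (hq : Admissible cs q) (i : Finset W × ℕ) :
    ∃ Φ : HA cs q →ₗ[ℂ] HA cs q, IsNormalMap (HA cs q) Φ ∧ IsCP (HA cs q) Φ ∧
      IsMult cs q Φ (cH cs i) := by
  obtain ⟨Φ₁, h1n, -, h1m, h1p⟩ := exists_prod cs (q := q) True (fA cs i.1) (fun _ => 1)
    (fun b w => ((fr i.2 ^ NN cs b w : ℝ) : ℂ)) (fun b _ => by
      obtain ⟨Φ, hn, hc, hm, hp⟩ := exists_phi cs hq b (fr_pos i.2) (fr_lt i.2)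
      exact ⟨Φ, hn, hc, hm, fun _ => hp⟩)
  obtain ⟨Φ₂, h2n, -, h2m, h2p⟩ := exists_EA cs hq (fA cs i.1 : Set B)
  refine ⟨Φ₂ ∘ₗ Φ₁, h2n.comp h1n, h2p.comp (h1p trivial), ?_⟩
  exact IsMult.comp cs h2m h1m

theorem haagerup_HA (hFC : IsFC cs) {q : B → ℝ} (hq : Admissible cs q) :
    HasHaagerupProperty (HA cs q) (δ 1) := by
  classical
  choose Φ hn hp hm using exists_H cs hq
  refine ⟨Finset W × ℕ, inferInstance, inferInstance, inferInstance, Φ, ?_, ?_⟩
  · intro i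
    refine ⟨hn i, hp i, ?_, ?_⟩
    · intro x _
      rw [inner_δ, inner_δ, hm i x 1, cH_one, one_mul]
    · refine ⟨wop (Equiv.refl W) (cH cs i), isCompactOperator_wop (fun ε hε => finite_cH cs hFC i hε), ?_⟩
      intro x
      ext w
      rw [wop_apply (Equiv.refl W) (cH cs i) (norm_cH cs i), hm i x w, Equiv.refl_apply]
  · intro x
    refine tendsto_mult cs hm (norm_cH cs) ?_ x
    intro w
    have h := lim_aux cs 1 w
    simp only [one_mul] at h
    exact h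

/-- the multiplier of the truncated maps -/
private noncomputable def cT (n : B → ℕ) (i : Finset W × ℕ) (w : W) : ℂ :=
  (open Classical in if w ∈ WP cs (fA cs i.1 : Set B) then (1 : ℂ) else 0) *
    ∏ b ∈ fA cs i.1, (if NN cs b w ≤ n b then ((fr i.2 ^ (4 * NN cs b w) : ℝ) : ℂ) else 0)

private theorem norm_cT (n : B → ℕ) (i : Finset W × ℕ) (w : W) : ‖cT cs n i w‖ ≤ 1 := by
  unfold cT
  rw [norm_mul, norm_prod]
  refine mul_le_one₀ ?_ (Finset.prod_nonneg fun b _ => norm_nonneg _) (Finset.prod_le_one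
    (fun b _ => norm_nonneg _) ?_)
  · split_ifs <;> simp
  · intro b _
    split_ifs
    · rw [Complex.norm_real, Real.norm_of_nonneg (pow_nonneg (fr_pos _).le _)]
      exact pow_le_one₀ (fr_pos _).le (fr_lt _).le
    · simp

private theorem finite_cT (hFC : IsFC cs) (n : B → ℕ) (i : Finset W × ℕ) :
    {w | cT cs n i w ≠ 0}.Finite := by
  refine (finite_level cs hFC (fA cs i.1) (∑ b ∈ fA cs i.1, n b)).subset ?_
  intro w hw
  have hw' : cT cs n i w ≠ 0 := hw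
  unfold cT at hw'
  have h1 := left_ne_zero_of_mul hw'
  have h2 := right_ne_zero_of_mul hw'
  refine ⟨?_, Finset.sum_le_sum ?_⟩
  · by_contra hWP
    rw [if_neg hWP] at h1
    exact h1 rfl
  · intro b hb
    by_contra hlt
    apply h2
    refine Finset.prod_eq_zero hb ?_
    rw [if_neg hlt]

/-- choice of `ε` -/
private theorem exists_eps {C : ℝ} (hC : 1 < C) (n : ℕ) : ∃ ε : ℝ, 0 < ε ∧ (1 + ε) ^ n ≤ C := by
  have hC0 : (0 : ℝ) ≤ C := by linarith
  have hx : (1 : ℝ) < C ^ (((n + 1 : ℕ) : ℝ)⁻¹) := by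
    refine Real.one_lt_rpow hC ?_
    positivity
  refine ⟨C ^ (((n + 1 : ℕ) : ℝ)⁻¹) - 1, by linarith, ?_⟩
  have h1 : (1 + (C ^ (((n + 1 : ℕ) : ℝ)⁻¹) - 1)) = C ^ (((n + 1 : ℕ) : ℝ)⁻¹) := by ring
  rw [h1]
  calc (C ^ (((n + 1 : ℕ) : ℝ)⁻¹)) ^ n ≤ (C ^ (((n + 1 : ℕ) : ℝ)⁻¹)) ^ (n + 1) :=
        pow_le_pow_right₀ hx.le (Nat.le_succ n)
    _ = C := Real.rpow_inv_natCast_pow hC0 (Nat.succ_ne_zero n)

private theorem exists_T {q : B → ℝ} (hq : Admissible cs q) {C : ℝ} (hC : 1 < C)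
    (i : Finset W × ℕ) :
    ∃ n : B → ℕ, (∀ b, i.2 ≤ n b) ∧ ∃ Φ : HA cs q →ₗ[ℂ] HA cs q, IsNormalMap (HA cs q) Φ ∧
      CBNormLE (HA cs q) Φ C ∧ IsMult cs q Φ (cT cs n i) := by
  obtain ⟨ε, hε, hεC⟩ := exists_eps hC (fA cs i.1).card
  choose n hn Φ hΦn hΦc hΦm using fun b => exists_trunc cs hq b (fr_pos i.2) (fr_lt i.2) hε i.2
  refine ⟨n, hn, ?_⟩
  obtain ⟨Φ₁, h1n, h1c, h1m, -⟩ := exists_prod cs (q := q) False (fA cs i.1) (fun _ => 1 + ε)
    (fun b w => if NN cs b w ≤ n b then ((fr i.2 ^ (4 * NN cs b w) : ℝ) : ℂ) else 0)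
    (fun b _ => ⟨Φ b, hΦn b, hΦc b, hΦm b, fun h => h.elim⟩)
  obtain ⟨Φ₂, h2n, h2c, h2m, -⟩ := exists_EA cs hq (fA cs i.1 : Set B)
  refine ⟨Φ₂ ∘ₗ Φ₁, h2n.comp h1n, (h2c.comp h1c).mono ?_, IsMult.comp cs h2m h1m⟩
  rw [one_mul, Finset.prod_const]
  exact hεC

theorem cbap_HA (hFC : IsFC cs) {q : B → ℝ} (hq : Admissible cs q) {C : ℝ} (hC : 1 < C) :
    HasWeakStarCBAP (HA cs q) C := by
  classical
  choose n hn Φ hΦn hΦc hΦm using exists_T cs hq hC
  refine ⟨Finset W × ℕ, inferInstance, inferInstance, inferInstance, Φ, ?_, ?_⟩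
  · intro i
    exact ⟨hΦn i, finiteDimensional_range cs hq (hΦm i) (finite_cT cs hFC (n i) i), hΦc i⟩
  · intro x φ hφ
    refine tendsto_weak cs hq hΦc x ?_ φ hφ
    refine tendsto_mult cs hΦm (fun i => norm_cT cs (n i) i) ?_ x
    intro w
    obtain ⟨A₀, hA₀⟩ := exists_finset_mem_WP cs w
    refine (lim_aux cs 4 w).congr' ?_
    filter_upwards [(snd_tendsto (W := W)).eventually (eventually_ge_atTop (∑ b ∈ A₀, NN cs b w))]
      with i hi
    unfold cT
    congr 1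
    refine Finset.prod_congr rfl ?_
    intro b _
    rw [if_pos]
    by_cases hb : b ∈ A₀
    · exact (Finset.single_le_sum (f := fun b => NN cs b w) (fun _ _ => Nat.zero_le _) hb).trans
        (hi.trans (hn i b))
    · rw [NN_eq_zero_of_notMem cs (A := (A₀ : Set B)) (by exact_mod_cast hb) hA₀]
      exact Nat.zero_le _

end Pool.Agent.H73.HVN
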