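import Pool.Agent.H73.HVN.Coef

/-!
# Module Gen: the cancellation lemma

`Ker 𝒜 𝒴 ω X (z, y) = ∑_{a ∈ 𝒜, y a⁻¹ ∈ 𝒴, z a⁻¹ ∈ 𝒴} ω(z a⁻¹, y a⁻¹) X(z a⁻¹, y a⁻¹)`.

PLAN. Fix `t`, write `s = s_t`, `h(z', y') = ω(z', y') X(z', y')` if `z', y' ∈ 𝒴`, else `0`, and
`τ_a(z, y) = h(z a⁻¹, y a⁻¹)`. To show `D(z,y) := K(z, y s) + p[t ∈ D_R(y)] K(z, y) - K(z s, y)
- p[t ∈ D_R(z)] K(z, y) = 0`, where `K = Ker 𝒜 𝒴 ω X = ∑'_{a ∈ 𝒜} τ_a`; all sums are finite by `hfin`.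
Let `φ : 𝒜 → 𝒜`, `φ(a) = a s` if `a s ∈ 𝒜`, `φ(a) = a` otherwise: an involution. It suffices to show for the
terms `d_a = τ_a(z, y s) + p[y] τ_a(z, y) - τ_a(z s, y) - p[z] τ_a(z, y)` that `d_a + d_{φ(a)} = 0` for all
`a ∈ 𝒜` (then `2 ∑ d_a = ∑ (d_a + d_{φ a}) = 0`; e.g. `tsum` over the finite set, `Finset.sum_involution` or
`Equiv.sum_comp`/`Equiv.tsum_eq` with the permutation `φ` extended by the identity to `W`).
Put `z₀ = z a⁻¹`, `y₀ = y a⁻¹`, `z₁ = z s a⁻¹`, `y₁ = y s a⁻¹`.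
Case `a s ∈ 𝒜` (`a s ≠ a`): `(a s)⁻¹ = s a⁻¹`, so `τ_a(z, y s) = h(z₀, y₁)`, `τ_a(z s, y) = h(z₁, y₀)`,
`τ_a(z,y) = h(z₀, y₀)`, `τ_{as}(z, y s) = h(z₁, y₀)`, `τ_{as}(z s, y) = h(z₀, y₁)`, `τ_{as}(z, y) = h(z₁, y₁)`. So
`d_a + d_{as} = (p[y] - p[z]) (h(z₀, y₀) + h(z₁, y₁))`. If `z₀, y₀ ∈ 𝒴` then by `hsep`
`ℓ(y) = ℓ(y₀) + ℓ(a)`, `ℓ(y s) = ℓ(y₀ (a s)) = ℓ(y₀) + ℓ(a s)`, so `t` is a right descent of `y` iff
`ℓ(a s) < ℓ(a)`, and the same for `z`: `p[y] = p[z]`. If `z₁, y₁ ∈ 𝒴`: `y = y₁ (a s)`, `y s = y₁ a`, again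
`p[y] = p[z]`. If neither, both `h` vanish.
Case `a s ∉ 𝒜`, `a s = s_i a`, `i ∈ L`: `s a⁻¹ = a⁻¹ s_i`, so `z₁ = z₀ s_i`, `y₁ = y₀ s_i` and
`d_a = h(z₀, y₀ s_i) + p[y] h(z₀, y₀) - h(z₀ s_i, y₀) - p[z] h(z₀, y₀)`. By `hY`, `y₀ s_i ∈ 𝒴 ↔ y₀ ∈ 𝒴`. If
`z₀, y₀ ∈ 𝒴`, by `hω` this is `ω(z₀, y₀)` times
`X(z₀, y₀ s_i) + p[y] X(z₀,y₀) - X(z₀ s_i, y₀) - p[z] X(z₀,y₀)`; `y s = y₀ s_i a`, `y₀ s_i ∈ 𝒴`, so
`ℓ(y s) = ℓ(y₀ s_i) + ℓ(a)`: `t ∈ D_R(y) ↔ i ∈ D_R(y₀)`, and `p_t = p_i` since `s_i = a s_t a⁻¹` (`Admissible`,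
`q t = q i`). So it vanishes by `CC cs q X i` at `(z₀, y₀)`. If not both in `𝒴` all terms vanish.
-/

set_option autoImplicit false

open scoped ComplexOrder InnerProductSpace
open Filter Topology

namespace Pool.Agent.H73.HVN

universe u v

variable {B : Type v} {W : Type u} [Group W] {M : CoxeterMatrix B} (cs : CoxeterSystem M W)

open Classical in
/-- the kernel sum over `a ∈ 𝒜` -/
noncomputable def Ker (𝒜 𝒴 : Set W) (ω X : W → W → ℂ) (z y : W) : ℂ :=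
  ∑' a : W, if a ∈ 𝒜 ∧ z * a⁻¹ ∈ 𝒴 ∧ y * a⁻¹ ∈ 𝒴 then
    ω (z * a⁻¹) (y * a⁻¹) * X (z * a⁻¹) (y * a⁻¹) else 0

/-- one term of the kernel sum -/
private noncomputable def gt (𝒴 : Set W) (ω X : W → W → ℂ) (z y : W) : ℂ :=
  open Classical in if z ∈ 𝒴 ∧ y ∈ 𝒴 then ω z y * X z y else 0

private theorem Ker_eq (𝒜 𝒴 : Set W) (ω X : W → W → ℂ) (z y : W) :
    Ker 𝒜 𝒴 ω X z y =
      ∑' a : W, (open Classical in if a ∈ 𝒜 then gt 𝒴 ω X (z * a⁻¹) (y * a⁻¹) else 0) := by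
  unfold Ker
  refine tsum_congr fun a => ?_
  unfold gt
  by_cases h1 : a ∈ 𝒜
  · by_cases h2 : z * a⁻¹ ∈ 𝒴 ∧ y * a⁻¹ ∈ 𝒴
    · rw [if_pos ⟨h1, h2⟩, if_pos h1, if_pos h2]
    · rw [if_neg (fun h3 => h2 h3.2), if_pos h1, if_neg h2]
  · rw [if_neg (fun h3 => h1 h3.1), if_neg h1]

private theorem gen_summ {𝒜 𝒴 : Set W} (ω X : W → W → ℂ)
    (hfin : ∀ y, {a | a ∈ 𝒜 ∧ y * a⁻¹ ∈ 𝒴}.Finite) (z y : W) :
    Summable (fun a : W =>
      (open Classical in if a ∈ 𝒜 then gt 𝒴 ω X (z * a⁻¹) (y * a⁻¹) else 0)) := by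
  classical
  refine summable_of_hasFiniteSupport ((hfin y).subset fun a ha => ?_)
  by_contra h
  apply ha
  by_cases h1 : a ∈ 𝒜
  · have h2 : y * a⁻¹ ∉ 𝒴 := fun h2 => h ⟨h1, h2⟩
    change (if a ∈ 𝒜 then gt 𝒴 ω X (z * a⁻¹) (y * a⁻¹) else 0) = 0
    rw [if_pos h1]
    unfold gt
    rw [if_neg (fun h3 => h2 h3.2)]
  · change (if a ∈ 𝒜 then gt 𝒴 ω X (z * a⁻¹) (y * a⁻¹) else 0) = 0
    rw [if_neg h1]

theorem Ker_CC {q : B → ℝ} (hq : Admissible cs q) {𝒜 𝒴 : Set W} {L : Set B} {ω X : W → W → ℂ} {t : B}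
    (hX : ∀ i ∈ L, CC cs q X i)
    (hfin : ∀ y, {a | a ∈ 𝒜 ∧ y * a⁻¹ ∈ 𝒴}.Finite)
    (hY : ∀ i ∈ L, ∀ y, y * cs.simple i ∈ 𝒴 ↔ y ∈ 𝒴)
    (hω : ∀ i ∈ L, ∀ z y, ω (z * cs.simple i) y = ω z y ∧ ω z (y * cs.simple i) = ω z y)
    (hA : ∀ a ∈ 𝒜, a * cs.simple t ∈ 𝒜 ∨ ∃ i ∈ L, a * cs.simple t = cs.simple i * a)
    (hsep : ∀ y ∈ 𝒴, ∀ a ∈ 𝒜, cs.length (y * a) = cs.length y + cs.length a) :
    CC cs q (Ker 𝒜 𝒴 ω X) t := by
  classical
  intro z y
  set s := cs.simple t with hs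
  have hss : s * s = 1 := cs.simple_mul_simple_self t
  have hsi : s⁻¹ = s := cs.inv_simple t
  set h := gt 𝒴 ω X with hh
  set d : W → ℂ := fun a =>
    (if a ∈ 𝒜 then h (z * a⁻¹) (y * s * a⁻¹) else 0) +
      pr cs q t y * (if a ∈ 𝒜 then h (z * a⁻¹) (y * a⁻¹) else 0) -
      ((if a ∈ 𝒜 then h (z * s * a⁻¹) (y * a⁻¹) else 0) +
      pr cs q t z * (if a ∈ 𝒜 then h (z * a⁻¹) (y * a⁻¹) else 0)) with hd
  have hsum : ∑' a, d a = (Ker 𝒜 𝒴 ω X z (y * s) + pr cs q t y * Ker 𝒜 𝒴 ω X z y) -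
      (Ker 𝒜 𝒴 ω X (z * s) y + pr cs q t z * Ker 𝒜 𝒴 ω X z y) := by
    have e1 := gen_summ ω X hfin z (y * s)
    have e2 := gen_summ ω X hfin z y
    have e3 := gen_summ ω X hfin (z * s) y
    rw [Ker_eq, Ker_eq, Ker_eq, ← tsum_mul_left, ← tsum_mul_left,
      ← e1.tsum_add (e2.mul_left _), ← e3.tsum_add (e2.mul_left _),
      ← (e1.add (e2.mul_left _)).tsum_sub (e3.add (e2.mul_left _))]
  have hdsum : Summable d := by
    have e1 := gen_summ ω X hfin z (y * s)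
    have e2 := gen_summ ω X hfin z y
    have e3 := gen_summ ω X hfin (z * s) y
    exact (e1.add (e2.mul_left _)).sub (e3.add (e2.mul_left _))
  -- the involution
  let φ : W → W := fun a => if a ∈ 𝒜 ∧ a * s ∈ 𝒜 then a * s else a
  have hφ : Function.Involutive φ := by
    intro a
    by_cases h1 : a ∈ 𝒜 ∧ a * s ∈ 𝒜
    · have h2 : φ a = a * s := if_pos h1
      rw [h2]
      have h3 : a * s ∈ 𝒜 ∧ a * s * s ∈ 𝒜 := ⟨h1.2, by rw [mul_assoc, hss, mul_one]; exact h1.1⟩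
      have h4 : φ (a * s) = a * s * s := if_pos h3
      rw [h4, mul_assoc, hss, mul_one]
    · have h2 : φ a = a := if_neg h1
      rw [h2, h2]
  have hdesc : ∀ y₀ a : W, y₀ ∈ 𝒴 → a ∈ 𝒜 → a * s ∈ 𝒜 →
      (cs.IsRightDescent (y₀ * a) t ↔ cs.IsRightDescent a t) := by
    intro y₀ a hy₀ ha has
    change cs.length (y₀ * a * s) < cs.length (y₀ * a) ↔ cs.length (a * s) < cs.length a
    rw [mul_assoc, hsep y₀ hy₀ _ has, hsep y₀ hy₀ _ ha]
    omega
  have hzero : ∀ z' y', ¬ (z' ∈ 𝒴 ∧ y' ∈ 𝒴) → h z' y' = 0 := fun z' y' h1 => if_neg h1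
  have hpos : ∀ z' y', z' ∈ 𝒴 → y' ∈ 𝒴 → h z' y' = ω z' y' * X z' y' :=
    fun z' y' h1 h2 => if_pos ⟨h1, h2⟩
  have hkey : ∀ a, d a + d (φ a) = 0 := by
    intro a
    by_cases ha : a ∈ 𝒜
    · by_cases has : a * s ∈ 𝒜
      · have h2 : φ a = a * s := if_pos ⟨ha, has⟩
        have hinv : (a * s)⁻¹ = s * a⁻¹ := by rw [mul_inv_rev, hsi]
        have hys : y * s * (s * a⁻¹) = y * a⁻¹ := by
          rw [mul_assoc, ← mul_assoc s, hss, one_mul]
        have hzs : z * s * (s * a⁻¹) = z * a⁻¹ := by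
          rw [mul_assoc, ← mul_assoc s, hss, one_mul]
        have hp : (pr cs q t y - pr cs q t z) * h (z * a⁻¹) (y * a⁻¹) = 0 := by
          by_cases h3 : z * a⁻¹ ∈ 𝒴 ∧ y * a⁻¹ ∈ 𝒴
          · have e1 := hdesc _ a h3.1 ha has
            have e2 := hdesc _ a h3.2 ha has
            rw [inv_mul_cancel_right] at e1 e2
            have e3 : pr cs q t y = pr cs q t z := by
              unfold pr
              simp only [e1, e2]
            rw [e3, sub_self, zero_mul]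
          · rw [hzero _ _ h3, mul_zero]
        have hp' : (pr cs q t y - pr cs q t z) * h (z * (s * a⁻¹)) (y * (s * a⁻¹)) = 0 := by
          by_cases h3 : z * (s * a⁻¹) ∈ 𝒴 ∧ y * (s * a⁻¹) ∈ 𝒴
          · have has' : a * s * s ∈ 𝒜 := by rw [mul_assoc, hss, mul_one]; exact ha
            have e1 := hdesc _ (a * s) h3.1 has has'
            have e2 := hdesc _ (a * s) h3.2 has has'
            have e4 : ∀ x : W, x * (s * a⁻¹) * (a * s) = x := by
              intro x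
              rw [← hinv, inv_mul_cancel_right]
            rw [e4] at e1 e2
            have e3 : pr cs q t y = pr cs q t z := by
              unfold pr
              simp only [e1, e2]
            rw [e3, sub_self, zero_mul]
          · rw [hzero _ _ h3, mul_zero]
        rw [h2]
        simp only [hd, if_pos ha, if_pos has, hinv, hys, hzs]
        have hy1 : y * s * a⁻¹ = y * (s * a⁻¹) := mul_assoc _ _ _
        have hz1 : z * s * a⁻¹ = z * (s * a⁻¹) := mul_assoc _ _ _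
        rw [hy1, hz1]
        linear_combination hp + hp'
      · have h2 : φ a = a := if_neg (fun h3 => has h3.2)
        rw [h2]
        have hda : d a = 0 := by
          obtain h3 | ⟨i, hi, h3⟩ := hA a ha
          · exact absurd h3 has
          · have hsa : s * a⁻¹ = a⁻¹ * cs.simple i := by
              have h4 := congrArg (fun g : W => g⁻¹) h3
              simpa only [mul_inv_rev, hsi, cs.inv_simple] using h4
            have hy1 : y * s * a⁻¹ = y * a⁻¹ * cs.simple i := by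
              rw [mul_assoc, hsa, ← mul_assoc]
            have hz1 : z * s * a⁻¹ = z * a⁻¹ * cs.simple i := by
              rw [mul_assoc, hsa, ← mul_assoc]
            simp only [hd, if_pos ha, hy1, hz1]
            by_cases h4 : z * a⁻¹ ∈ 𝒴 ∧ y * a⁻¹ ∈ 𝒴
            · obtain ⟨hz0, hy0⟩ := h4
              have hy0' := (hY i hi _).2 hy0
              have hz0' := (hY i hi _).2 hz0
              rw [hpos _ _ hz0 hy0', hpos _ _ hz0' hy0, hpos _ _ hz0 hy0,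
                (hω i hi _ _).1, (hω i hi _ _).2]
              have hqi : q t = q i := by
                refine hq.2 t i ?_
                rw [isConj_iff]
                exact ⟨a, by rw [h3, mul_inv_cancel_right]⟩
              have hpr : ∀ x : W, x * a⁻¹ ∈ 𝒴 → pr cs q t x = pr cs q i (x * a⁻¹) := by
                intro x hx
                have e1 : cs.IsRightDescent x t ↔ cs.IsRightDescent (x * a⁻¹) i := by
                  change cs.length (x * s) < cs.length x ↔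
                    cs.length (x * a⁻¹ * cs.simple i) < cs.length (x * a⁻¹)
                  have e2 : x * s = x * a⁻¹ * cs.simple i * a := by
                    rw [mul_assoc (x * a⁻¹), ← h3, ← mul_assoc, inv_mul_cancel_right]
                  have e3 : cs.length x = cs.length (x * a⁻¹) + cs.length a := by
                    rw [← hsep _ hx a ha, inv_mul_cancel_right]
                  rw [e2, hsep _ ((hY i hi _).2 hx) a ha, e3]
                  omega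
                unfold pr pp
                simp only [e1, hqi]
              rw [hpr y hy0, hpr z hz0]
              have hc := hX i hi (z * a⁻¹) (y * a⁻¹)
              linear_combination (ω (z * a⁻¹) (y * a⁻¹)) * hc
            · have h5 : ¬ (z * a⁻¹ ∈ 𝒴 ∧ y * a⁻¹ * cs.simple i ∈ 𝒴) := by
                rw [hY i hi]; exact h4
              have h6 : ¬ (z * a⁻¹ * cs.simple i ∈ 𝒴 ∧ y * a⁻¹ ∈ 𝒴) := by
                rw [hY i hi]; exact h4
              rw [hzero _ _ h4, hzero _ _ h5, hzero _ _ h6]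
              ring
        rw [hda, add_zero]
    · have h2 : φ a = a := if_neg (fun h3 => ha h3.1)
      rw [h2]
      simp only [hd, if_neg ha]
      ring
  have h2sum : ∑' a, d (φ a) = ∑' a, d a := (hφ.toPerm φ).tsum_eq d
  have h2summ : Summable (fun a => d (φ a)) := ((hφ.toPerm φ).summable_iff (f := d)).2 hdsum
  have hfinal : ∑' a, d a + ∑' a, d a = 0 := by
    nth_rewrite 2 [← h2sum]
    rw [← hdsum.tsum_add h2summ]
    simp only [hkey, tsum_zero]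
  have h0 : ∑' a, d a = 0 := by
    have : (2 : ℂ) * ∑' a, d a = 0 := by rw [two_mul]; exact hfinal
    simpa using this
  rw [hsum] at h0
  exact sub_eq_zero.1 h0

end Pool.Agent.H73.HVN
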