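import Pool.Agent.H73.HVN.OpBasic
import Pool.Agent.H73.HVN.Exch

/-!
# Module Hecke: the left and right Hecke operators

`(T_i f)(w) = f(s_i w) + p_i [i left descent of w] f(w)`,
`(R_i f)(w) = f(w s_i) + p_i [i right descent of w] f(w)`.

PLAN. `TT_apply`, `RR_apply`: `wop_apply` (weights bounded by `1`, resp. `|p_i|`). `RR_δ`, `TT_δ`: `wop_δ` or
coefficientwise; note that if `w' = s_i w` then `w = s_i w'`, and `[i left descent of s_i w]`
does not enter since the second summand is diagonal. `isHeckeFamily_TT`: `TT_δ` and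
`cs.length w < cs.length (s_i * w)` iff not a left descent (`length_simple_mul_ne`).
`TT_adj`, `RR_adj`: both summands are self-adjoint (check on `δ`'s or by `tsum` and `Equiv.tsum_eq`; the
weights are real).
`TT_RR_comm`: check at `δ_w` (`ext_δ`). With `s = s_i`, `t = s_j`:
`T R δ_w = δ_{swt} + p_i [i ∈ D_L(wt)] δ_{wt} + p_j [j ∈ D_R(w)] (δ_{sw} + p_i [i ∈ D_L(w)] δ_w)`,
`R T δ_w = δ_{swt} + p_j [j ∈ D_R(sw)] δ_{sw} + p_i [i ∈ D_L(w)] (δ_{wt} + p_j [j ∈ D_R(w)] δ_w)`.
If `s w = w t` then `s, t` are conjugate, `q i = q j` (`Admissible`), `p_i = p_j`, and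
`[i ∈ D_L(wt)] = [ℓ(swt) < ℓ(wt)] = [ℓ(w) < ℓ(sw)] = [j ∈ D_R(sw)]`, `[i ∈ D_L(w)] = [j ∈ D_R(w)]`.
If `s w ≠ w t`: `[i ∈ D_L(wt)] = [i ∈ D_L(w)]` and `[j ∈ D_R(sw)] = [j ∈ D_R(w)]` by length considerations and
`simple_mul_eq_mul_simple` (applied to `w` if `i ∉ D_L(w)`, `j ∉ D_R(w)`, to `s w` if `i ∈ D_L(w)`, … ; in the
mixed cases the lengths alone suffice).
-/

set_option autoImplicit false

open scoped ComplexOrder InnerProductSpace
open Filter Topology

namespace Pool.Agent.H73.HVN

universe u v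

variable {B : Type v} {W : Type u} [Group W] {M : CoxeterMatrix B} (cs : CoxeterSystem M W)

open Classical in
/-- `p_i` if `i` is a left descent of `w`, else `0` -/
noncomputable def pl (q : B → ℝ) (i : B) (w : W) : ℂ :=
  if cs.IsLeftDescent w i then ((pp q i : ℝ) : ℂ) else 0

open Classical in
/-- `p_i` if `i` is a right descent of `w`, else `0` -/
noncomputable def pr (q : B → ℝ) (i : B) (w : W) : ℂ :=
  if cs.IsRightDescent w i then ((pp q i : ℝ) : ℂ) else 0

/-- the Hecke operator `T_i` -/
noncomputable def TT (q : B → ℝ) (i : B) : L2 W →L[ℂ] L2 W :=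
  wop (Equiv.mulLeft (cs.simple i)) (fun _ => 1) + wop (Equiv.refl W) (pl cs q i)

/-- the right Hecke operator `R_i` -/
noncomputable def RR (q : B → ℝ) (i : B) : L2 W →L[ℂ] L2 W :=
  wop (Equiv.mulRight (cs.simple i)) (fun _ => 1) + wop (Equiv.refl W) (pr cs q i)

private theorem hecke_pl_bound (q : B → ℝ) (i : B) (w : W) :
    ‖pl cs q i w‖ ≤ |pp q i| := by
  unfold pl
  split_ifs
  · rw [Complex.norm_real, Real.norm_eq_abs]
  · rw [norm_zero]
    exact abs_nonneg _

private theorem hecke_pr_bound (q : B → ℝ) (i : B) (w : W) :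
    ‖pr cs q i w‖ ≤ |pp q i| := by
  unfold pr
  split_ifs
  · rw [Complex.norm_real, Real.norm_eq_abs]
  · rw [norm_zero]
    exact abs_nonneg _

omit [Group W] in
private theorem hecke_one_bound (w : W) : ‖(fun _ : W => (1 : ℂ)) w‖ ≤ 1 := by
  show ‖(1 : ℂ)‖ ≤ 1
  rw [norm_one]

theorem TT_apply (q : B → ℝ) (i : B) (f : L2 W) (w : W) :
    TT cs q i f w = f (cs.simple i * w) + pl cs q i w * f w := by
  have h1 := wop_apply (Equiv.mulLeft (cs.simple i)) (fun _ : W => (1 : ℂ)) hecke_one_bound f w
  have h2 := wop_apply (Equiv.refl W) (pl cs q i) (hecke_pl_bound cs q i) f w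
  have h3 : TT cs q i f w = wop (Equiv.mulLeft (cs.simple i)) (fun _ : W => (1 : ℂ)) f w +
      wop (Equiv.refl W) (pl cs q i) f w := rfl
  rw [h3, h1, h2, one_mul]
  rfl

theorem RR_apply (q : B → ℝ) (i : B) (f : L2 W) (w : W) :
    RR cs q i f w = f (w * cs.simple i) + pr cs q i w * f w := by
  have h1 := wop_apply (Equiv.mulRight (cs.simple i)) (fun _ : W => (1 : ℂ)) hecke_one_bound f w
  have h2 := wop_apply (Equiv.refl W) (pr cs q i) (hecke_pr_bound cs q i) f w
  have h3 : RR cs q i f w = wop (Equiv.mulRight (cs.simple i)) (fun _ : W => (1 : ℂ)) f w +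
      wop (Equiv.refl W) (pr cs q i) f w := rfl
  rw [h3, h1, h2, one_mul]
  rfl

theorem TT_δ (q : B → ℝ) (i : B) (w : W) :
    TT cs q i (δ w) = δ (cs.simple i * w) + pl cs q i w • (δ w : L2 W) := by
  have h1 := wop_δ (Equiv.mulLeft (cs.simple i)) (fun _ : W => (1 : ℂ)) hecke_one_bound w
  have h2 := wop_δ (Equiv.refl W) (pl cs q i) (hecke_pl_bound cs q i) w
  have h3 : TT cs q i (δ w) = wop (Equiv.mulLeft (cs.simple i)) (fun _ : W => (1 : ℂ)) (δ w) +
      wop (Equiv.refl W) (pl cs q i) (δ w) := rfl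
  have h4 : (Equiv.mulLeft (cs.simple i)).symm w = cs.simple i * w := by
    rw [Equiv.mulLeft_symm_apply, cs.inv_simple]
  rw [h3, h1, h2, h4, one_smul]
  rfl

theorem RR_δ (q : B → ℝ) (i : B) (w : W) :
    RR cs q i (δ w) = δ (w * cs.simple i) + pr cs q i w • (δ w : L2 W) := by
  have h1 := wop_δ (Equiv.mulRight (cs.simple i)) (fun _ : W => (1 : ℂ)) hecke_one_bound w
  have h2 := wop_δ (Equiv.refl W) (pr cs q i) (hecke_pr_bound cs q i) w
  have h3 : RR cs q i (δ w) = wop (Equiv.mulRight (cs.simple i)) (fun _ : W => (1 : ℂ)) (δ w) +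
      wop (Equiv.refl W) (pr cs q i) (δ w) := rfl
  have h4 : (Equiv.mulRight (cs.simple i)).symm w = w * cs.simple i := by
    rw [Equiv.mulRight_symm_apply, cs.inv_simple]
  rw [h3, h1, h2, h4, one_smul]
  rfl

theorem isHeckeFamily_TT (q : B → ℝ) : IsHeckeFamily cs q (TT cs q) := by
  intro i w
  rw [TT_δ]
  by_cases h : cs.length w < cs.length (cs.simple i * w)
  · rw [if_pos h]
    have h1 : ¬ cs.IsLeftDescent w i := fun h2 => absurd (show _ < _ from h2) (not_lt.mpr h.le)
    rw [pl, if_neg h1, zero_smul, add_zero]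
  · rw [if_neg h]
    have h1 : cs.IsLeftDescent w i := by
      have h2 := cs.length_simple_mul_ne w i
      show cs.length (cs.simple i * w) < cs.length w
      omega
    rw [pl, if_pos h1]

private theorem hecke_adj_shift (σ : Equiv.Perm W) (hσ : ∀ x, σ (σ x) = x) (f g : L2 W) :
    ⟪wop σ (fun _ : W => (1 : ℂ)) f, g⟫_ℂ = ⟪f, wop σ (fun _ : W => (1 : ℂ)) g⟫_ℂ := by
  rw [lp.inner_eq_tsum, lp.inner_eq_tsum, ← Equiv.tsum_eq σ]
  refine tsum_congr fun x => ?_
  rw [wop_apply σ _ hecke_one_bound, wop_apply σ _ hecke_one_bound, hσ, one_mul, one_mul]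

omit [Group W] in
private theorem hecke_adj_diag (k : W → ℂ) {C : ℝ} (hk : ∀ x, ‖k x‖ ≤ C)
    (hr : ∀ x, (starRingEnd ℂ) (k x) = k x) (f g : L2 W) :
    ⟪wop (Equiv.refl W) k f, g⟫_ℂ = ⟪f, wop (Equiv.refl W) k g⟫_ℂ := by
  rw [lp.inner_eq_tsum, lp.inner_eq_tsum]
  refine tsum_congr fun x => ?_
  rw [wop_apply _ _ hk, wop_apply _ _ hk, Equiv.refl_apply]
  simp only [RCLike.inner_apply, map_mul, hr]
  ring

private theorem hecke_pl_real (q : B → ℝ) (i : B) (w : W) :
    (starRingEnd ℂ) (pl cs q i w) = pl cs q i w := by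
  unfold pl
  split_ifs
  · exact Complex.conj_ofReal _
  · exact map_zero _

private theorem hecke_pr_real (q : B → ℝ) (i : B) (w : W) :
    (starRingEnd ℂ) (pr cs q i w) = pr cs q i w := by
  unfold pr
  split_ifs
  · exact Complex.conj_ofReal _
  · exact map_zero _

theorem TT_adj (q : B → ℝ) (i : B) (f g : L2 W) : ⟪TT cs q i f, g⟫_ℂ = ⟪f, TT cs q i g⟫_ℂ := by
  have h3 : ∀ f : L2 W, TT cs q i f =
      wop (Equiv.mulLeft (cs.simple i)) (fun _ : W => (1 : ℂ)) f +
      wop (Equiv.refl W) (pl cs q i) f := fun _ => rfl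
  rw [h3, h3, inner_add_left, inner_add_right, hecke_adj_shift _ ?_ f g,
    hecke_adj_diag _ (hecke_pl_bound cs q i) (hecke_pl_real cs q i) f g]
  intro x
  show cs.simple i * (cs.simple i * x) = x
  rw [← mul_assoc, cs.simple_mul_simple_self, one_mul]

theorem RR_adj (q : B → ℝ) (i : B) (f g : L2 W) : ⟪RR cs q i f, g⟫_ℂ = ⟪f, RR cs q i g⟫_ℂ := by
  have h3 : ∀ f : L2 W, RR cs q i f =
      wop (Equiv.mulRight (cs.simple i)) (fun _ : W => (1 : ℂ)) f +
      wop (Equiv.refl W) (pr cs q i) f := fun _ => rfl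
  rw [h3, h3, inner_add_left, inner_add_right, hecke_adj_shift _ ?_ f g,
    hecke_adj_diag _ (hecke_pr_bound cs q i) (hecke_pr_real cs q i) f g]
  intro x
  show x * cs.simple i * cs.simple i = x
  rw [mul_assoc, cs.simple_mul_simple_self, mul_one]

private theorem hecke_desc {w : W} {i j : B} (h : cs.simple i * w ≠ w * cs.simple j) :
    (cs.IsLeftDescent (w * cs.simple j) i ↔ cs.IsLeftDescent w i) ∧
      (cs.IsRightDescent (cs.simple i * w) j ↔ cs.IsRightDescent w j) := by
  have e1 : cs.length (cs.simple i * w) = cs.length w + 1 ∨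
      cs.length (cs.simple i * w) + 1 = cs.length w := cs.length_simple_mul w i
  have e2 : cs.length (w * cs.simple j) = cs.length w + 1 ∨
      cs.length (w * cs.simple j) + 1 = cs.length w := cs.length_mul_simple w j
  have e3 : cs.length (cs.simple i * (w * cs.simple j)) = cs.length (w * cs.simple j) + 1 ∨
      cs.length (cs.simple i * (w * cs.simple j)) + 1 = cs.length (w * cs.simple j) :=
    cs.length_simple_mul _ i
  have e4 : cs.length (cs.simple i * w * cs.simple j) = cs.length (cs.simple i * w) + 1 ∨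
      cs.length (cs.simple i * w * cs.simple j) + 1 = cs.length (cs.simple i * w) :=
    cs.length_mul_simple _ j
  rw [mul_assoc] at e4
  have d1 : cs.IsLeftDescent (w * cs.simple j) i ↔
      cs.length (cs.simple i * (w * cs.simple j)) < cs.length (w * cs.simple j) := Iff.rfl
  have d2 : cs.IsLeftDescent w i ↔ cs.length (cs.simple i * w) < cs.length w := Iff.rfl
  have d3 : cs.IsRightDescent (cs.simple i * w) j ↔
      cs.length (cs.simple i * w * cs.simple j) < cs.length (cs.simple i * w) := Iff.rfl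
  have d4 : cs.IsRightDescent w j ↔ cs.length (w * cs.simple j) < cs.length w := Iff.rfl
  rw [mul_assoc] at d3
  -- both up
  have up : cs.length (cs.simple i * w) = cs.length w + 1 →
      cs.length (w * cs.simple j) = cs.length w + 1 →
      cs.length (cs.simple i * (w * cs.simple j)) = cs.length w + 2 := by
    intro a1 a2
    by_contra hne
    apply h
    apply simple_mul_eq_mul_simple cs
    · rw [d2]; omega
    · rw [d4]; omega
    · rw [mul_assoc]; omega
  have down : cs.length (cs.simple i * w) + 1 = cs.length w →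
      cs.length (w * cs.simple j) + 1 = cs.length w →
      cs.length (cs.simple i * (w * cs.simple j)) + 2 = cs.length w := by
    intro a1 a2
    by_contra hne
    have hl : cs.length (cs.simple i * (w * cs.simple j)) = cs.length w := by omega
    apply h
    have hss : cs.simple i * (cs.simple i * w) = w := by
      rw [← mul_assoc, cs.simple_mul_simple_self, one_mul]
    have key : cs.simple i * (cs.simple i * w) = cs.simple i * w * cs.simple j := by
      apply simple_mul_eq_mul_simple cs
      · show ¬ (cs.length (cs.simple i * (cs.simple i * w)) < cs.length (cs.simple i * w))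
        rw [hss]; omega
      · show ¬ (cs.length (cs.simple i * w * cs.simple j) < cs.length (cs.simple i * w))
        rw [mul_assoc, hl]; omega
      · rw [hss]; omega
    rw [hss] at key
    have k2 : cs.simple i * w = cs.simple i * (cs.simple i * w * cs.simple j) := by
      rw [← key]
    rw [← mul_assoc, ← mul_assoc, cs.simple_mul_simple_self, one_mul] at k2
    exact k2
  rw [d1, d2, d3, d4]
  rcases e1 with a1 | a1 <;> rcases e2 with a2 | a2
  · have := up a1 a2
    omega
  · omega
  · omega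
  · have := down a1 a2
    omega

theorem TT_RR_comm {q : B → ℝ} (hq : Admissible cs q) (i j : B) :
    TT cs q i * RR cs q j = RR cs q j * TT cs q i := by
  apply ext_δ
  intro w
  show TT cs q i (RR cs q j (δ w)) = RR cs q j (TT cs q i (δ w))
  rw [RR_δ, TT_δ, map_add, map_add, map_smul, map_smul, TT_δ, TT_δ, RR_δ, RR_δ, ← mul_assoc]
  by_cases h : cs.simple i * w = w * cs.simple j
  · have hp : pp q i = pp q j := by
      unfold pp
      have hc : IsConj (cs.simple i) (cs.simple j) := by
        rw [isConj_iff]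
        refine ⟨w⁻¹, ?_⟩
        rw [inv_inv, mul_assoc, h, inv_mul_cancel_left]
      rw [hq.2 i j hc]
    have h1 : pl cs q i (w * cs.simple j) = pr cs q j (cs.simple i * w) := by
      unfold pl pr
      have d : cs.IsLeftDescent (w * cs.simple j) i ↔
          cs.IsRightDescent (cs.simple i * w) j := by
        show cs.length (cs.simple i * (w * cs.simple j)) < cs.length (w * cs.simple j) ↔
          cs.length (cs.simple i * w * cs.simple j) < cs.length (cs.simple i * w)
        rw [mul_assoc, h]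
      by_cases hd : cs.IsLeftDescent (w * cs.simple j) i
      · rw [if_pos hd, if_pos (d.mp hd), hp]
      · rw [if_neg hd, if_neg (fun h' => hd (d.mpr h'))]
    have h2 : pl cs q i w = pr cs q j w := by
      unfold pl pr
      have d : cs.IsLeftDescent w i ↔ cs.IsRightDescent w j := by
        show cs.length (cs.simple i * w) < cs.length w ↔ cs.length (w * cs.simple j) < cs.length w
        rw [h]
      by_cases hd : cs.IsLeftDescent w i
      · rw [if_pos hd, if_pos (d.mp hd), hp]
      · rw [if_neg hd, if_neg (fun h' => hd (d.mpr h'))]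
    rw [h1, h2, h]
  · obtain ⟨g1, g2⟩ := hecke_desc cs h
    have h1 : pl cs q i (w * cs.simple j) = pl cs q i w := by
      unfold pl
      by_cases hd : cs.IsLeftDescent w i
      · rw [if_pos hd, if_pos (g1.mpr hd)]
      · rw [if_neg hd, if_neg (fun h' => hd (g1.mp h'))]
    have h2 : pr cs q j (cs.simple i * w) = pr cs q j w := by
      unfold pr
      by_cases hd : cs.IsRightDescent w j
      · rw [if_pos hd, if_pos (g2.mpr hd)]
      · rw [if_neg hd, if_neg (fun h' => hd (g2.mp h'))]
    rw [h1, h2, smul_add, smul_add, smul_smul, smul_smul, mul_comm (pr cs q j w)]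
    abel

end Pool.Agent.H73.HVN
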