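import Pool.Agent.H73.HVN.StarA

/-!
# Module StarB: the function `N`

PLAN.
* `φ_t`: for `𝒜 = V` (or `F`), the map `a ↦ a s_t` if `a s_t ∈ 𝒜`, `a ↦ a` otherwise, is an involution of
  `𝒜` (of `V \ {s_b}`, resp. `F \ {1}`, if `t = b`; note `s_b s_b = 1 ∉ V` and `1 * s_b ∉ F`), and
  `y s_t (φ_t a)⁻¹ = y a⁻¹` or `= y a⁻¹ s_i`, `i ∈ L`, resp. So for `t ≠ b` it maps
  `{a ∈ 𝒜 : y a⁻¹ ∈ Y}` bijectively onto `{a ∈ 𝒜 : y s_t a⁻¹ ∈ Y}`, and for `t = b` this holds after removing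
  the element `s_b` (resp. `1`). Finiteness of these sets for all `y` follows by induction
  (`simple_induction_right`): at `y = 1` they are empty by `VV_inv_notMem`, `FF_inv_mem`.
* `NN_one`, `NN_mul_ne` (C1), `NN_mul_b` (C3), `NN_mul_b'` (C4): from the bijections, and for `t = b` the
  element `f = 1`, which is counted in `N(y)` iff `y ∉ Y`.
* `NN_pos`: `y ∉ Y` implies `N(y) ≥ 1` (`f = 1`).
-/

set_option autoImplicit false

namespace Pool.Agent.H73.HVN

universe u v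

variable {B : Type v} {W : Type u} [Group W] {M : CoxeterMatrix B} (cs : CoxeterSystem M W)

open Classical in
/-- the involution `a ↦ a s` of `𝒜` (identity where this leaves `𝒜`) -/
private noncomputable def sbφ (A : Set W) (s : W) (a : W) : W := if a * s ∈ A then a * s else a

private theorem sbφ_mem {A : Set W} {s a : W} (ha : a ∈ A) : sbφ A s a ∈ A := by
  unfold sbφ
  split_ifs with h
  · exact h
  · exact ha

private theorem sbφ_sbφ {A : Set W} {s a : W} (hs : s * s = 1) (ha : a ∈ A) :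
    sbφ A s (sbφ A s a) = a := by
  by_cases h : a * s ∈ A
  · have h1 : sbφ A s a = a * s := if_pos h
    rw [h1]
    unfold sbφ
    rw [mul_assoc, hs, mul_one, if_pos ha]
  · have h1 : sbφ A s a = a := if_neg h
    rw [h1, h1]

private theorem sb_maps {A : Set W} {L : Set B} {P : W → Prop} {t : B}
    (hA : ∀ a ∈ A, a * cs.simple t ∈ A ∨ ∃ i ∈ L, a * cs.simple t = cs.simple i * a)
    (hP : ∀ i ∈ L, ∀ y, P (y * cs.simple i) ↔ P y) {y a : W} (ha : a ∈ A) (h : P (y * a⁻¹)) :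
    P (y * cs.simple t * (sbφ A (cs.simple t) a)⁻¹) := by
  by_cases h1 : a * cs.simple t ∈ A
  · have h2 : sbφ A (cs.simple t) a = a * cs.simple t := if_pos h1
    rw [h2, mul_inv_rev, cs.inv_simple, mul_assoc, cs.simple_mul_simple_cancel_left]
    exact h
  · have h2 : sbφ A (cs.simple t) a = a := if_neg h1
    rw [h2]
    obtain h3 | ⟨i, hi, h3⟩ := hA a ha
    · exact absurd h3 h1
    · have h4 : cs.simple t * a⁻¹ = a⁻¹ * cs.simple i := by
        have h5 := congrArg (fun g : W => g⁻¹) h3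
        simpa only [mul_inv_rev, cs.inv_simple] using h5
      rw [mul_assoc, h4, ← mul_assoc, hP i hi]
      exact h

private theorem sb_bij {A : Set W} {L : Set B} {P : W → Prop} {t : B}
    (hA : ∀ a ∈ A, a * cs.simple t ∈ A ∨ ∃ i ∈ L, a * cs.simple t = cs.simple i * a)
    (hP : ∀ i ∈ L, ∀ y, P (y * cs.simple i) ↔ P y) (y : W) :
    Set.BijOn (sbφ A (cs.simple t)) {a | a ∈ A ∧ P (y * a⁻¹)}
      {a | a ∈ A ∧ P (y * cs.simple t * a⁻¹)} := by
  have hs : cs.simple t * cs.simple t = 1 := cs.simple_mul_simple_self t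
  refine ⟨fun a ha => ⟨sbφ_mem ha.1, sb_maps cs hA hP ha.1 ha.2⟩, fun a ha a' ha' h => ?_,
    fun a ha => ⟨sbφ A (cs.simple t) a, ⟨sbφ_mem ha.1, ?_⟩, sbφ_sbφ hs ha.1⟩⟩
  · rw [← sbφ_sbφ hs ha.1, ← sbφ_sbφ hs ha'.1, h]
  · have h1 := sb_maps cs hA hP ha.1 ha.2
    rwa [mul_assoc y, hs, mul_one] at h1

private theorem sb_hV {b t : B} (ht : t ≠ b) : ∀ a ∈ VV cs b,
    a * cs.simple t ∈ VV cs b ∨ ∃ i ∈ lk M b, a * cs.simple t = cs.simple i * a :=
  fun _ ha => VV_step cs ha fun h => ht h.2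

private theorem sb_hF {b t : B} (ht : t ≠ b) : ∀ a ∈ FF cs b,
    a * cs.simple t ∈ FF cs b ∨ ∃ i ∈ lk M b, a * cs.simple t = cs.simple i * a :=
  fun _ ha => FF_step cs ha fun h => ht h.2

private theorem sb_hVb {b : B} : ∀ a ∈ VV cs b \ {cs.simple b},
    a * cs.simple b ∈ VV cs b \ {cs.simple b} ∨
      ∃ i ∈ lk M b, a * cs.simple b = cs.simple i * a := by
  rintro a ⟨ha, hab⟩
  rcases VV_step cs ha (t := b) fun h => hab h.1 with h | h
  · refine Or.inl ⟨h, fun h1 => ha.1 ?_⟩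
    exact mul_eq_right.1 h1
  · exact Or.inr h

private theorem sb_hFb {b : B} : ∀ a ∈ FF cs b \ {1},
    a * cs.simple b ∈ FF cs b \ {1} ∨ ∃ i ∈ lk M b, a * cs.simple b = cs.simple i * a := by
  rintro a ⟨ha, hab⟩
  rcases FF_step cs ha (t := b) fun h => hab h.1 with h | h
  · refine Or.inl ⟨h, fun h1 => ?_⟩
    have h2 : a = cs.simple b := by
      rw [eq_inv_of_mul_eq_one_left h1, cs.inv_simple]
    exact simple_notMem_FF cs b (h2 ▸ ha)
  · exact Or.inr h

private theorem bijV {b t : B} (ht : t ≠ b) (y : W) :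
    Set.BijOn (sbφ (VV cs b) (cs.simple t)) {v | v ∈ VV cs b ∧ y * v⁻¹ ∈ YY cs b}
      {v | v ∈ VV cs b ∧ y * cs.simple t * v⁻¹ ∈ YY cs b} :=
  sb_bij cs (P := fun y => y ∈ YY cs b) (sb_hV cs ht) (fun _ hi y => YY_mul cs hi y) y

private theorem bijF {b t : B} (ht : t ≠ b) (y : W) :
    Set.BijOn (sbφ (FF cs b) (cs.simple t)) {v | v ∈ FF cs b ∧ y * v⁻¹ ∉ YY cs b}
      {v | v ∈ FF cs b ∧ y * cs.simple t * v⁻¹ ∉ YY cs b} :=
  sb_bij cs (P := fun y => y ∉ YY cs b) (sb_hF cs ht)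
    (fun _ hi y => not_congr (YY_mul cs hi y)) y

private theorem bijVb {b : B} (y : W) :
    Set.BijOn (sbφ (VV cs b \ {cs.simple b}) (cs.simple b))
      {v | v ∈ VV cs b \ {cs.simple b} ∧ y * v⁻¹ ∈ YY cs b}
      {v | v ∈ VV cs b \ {cs.simple b} ∧ y * cs.simple b * v⁻¹ ∈ YY cs b} :=
  sb_bij cs (P := fun y => y ∈ YY cs b) (sb_hVb cs) (fun _ hi y => YY_mul cs hi y) y

private theorem bijFb {b : B} (y : W) :
    Set.BijOn (sbφ (FF cs b \ {1}) (cs.simple b))
      {v | v ∈ FF cs b \ {1} ∧ y * v⁻¹ ∉ YY cs b}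
      {v | v ∈ FF cs b \ {1} ∧ y * cs.simple b * v⁻¹ ∉ YY cs b} :=
  sb_bij cs (P := fun y => y ∉ YY cs b) (sb_hFb cs)
    (fun _ hi y => not_congr (YY_mul cs hi y)) y

theorem finite_V (b : B) (y : W) : {v | v ∈ VV cs b ∧ y * v⁻¹ ∈ YY cs b}.Finite := by
  induction y using cs.simple_induction_right with
  | one =>
    refine Set.finite_empty.subset fun v hv => ?_
    have h : v⁻¹ ∈ YY cs b := by simpa only [one_mul] using hv.2
    exact VV_inv_notMem cs hv.1 h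
  | mul_simple_right w i ih =>
    by_cases hi : i = b
    · subst hi
      have h1 := (bijVb cs w).finite_iff_finite.1
        (ih.subset fun a ha => ⟨ha.1.1, ha.2⟩)
      refine (h1.union (Set.finite_singleton (cs.simple i))).subset fun a ha => ?_
      by_cases h2 : a = cs.simple i
      · exact Or.inr h2
      · exact Or.inl ⟨⟨ha.1, h2⟩, ha.2⟩
    · exact (bijV cs hi w).finite_iff_finite.1 ih

theorem finite_F (b : B) (y : W) : {f | f ∈ FF cs b ∧ y * f⁻¹ ∉ YY cs b}.Finite := by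
  induction y using cs.simple_induction_right with
  | one =>
    refine Set.finite_empty.subset fun v hv => ?_
    have h : v⁻¹ ∉ YY cs b := by simpa only [one_mul] using hv.2
    exact h (FF_inv_mem cs hv.1)
  | mul_simple_right w i ih =>
    by_cases hi : i = b
    · subst hi
      have h1 := (bijFb cs w).finite_iff_finite.1
        (ih.subset fun a ha => ⟨ha.1.1, ha.2⟩)
      refine (h1.union (Set.finite_singleton 1)).subset fun a ha => ?_
      by_cases h2 : a = 1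
      · exact Or.inr h2
      · exact Or.inl ⟨⟨ha.1, h2⟩, ha.2⟩
    · exact (bijF cs hi w).finite_iff_finite.1 ih

theorem NN_one (b : B) : NN cs b 1 = 0 := by
  unfold NN
  have h : {f | f ∈ FF cs b ∧ 1 * f⁻¹ ∉ YY cs b} = ∅ := by
    refine Set.eq_empty_of_forall_notMem fun v hv => ?_
    have h : v⁻¹ ∉ YY cs b := by simpa only [one_mul] using hv.2
    exact h (FF_inv_mem cs hv.1)
  rw [h, Set.ncard_empty]

theorem NN_mul_ne {b t : B} (ht : t ≠ b) (y : W) : NN cs b (y * cs.simple t) = NN cs b y :=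
  (Set.BijOn.ncard_eq (bijF cs ht y)).symm

private theorem sb_in {b : B} {y : W} (hy : y ∈ YY cs b) :
    {f | f ∈ FF cs b ∧ y * f⁻¹ ∉ YY cs b} = {f | f ∈ FF cs b \ {1} ∧ y * f⁻¹ ∉ YY cs b} := by
  ext f
  constructor
  · rintro ⟨h1, h2⟩
    refine ⟨⟨h1, fun h3 => h2 ?_⟩, h2⟩
    rw [Set.mem_singleton_iff.1 h3, inv_one, mul_one]
    exact hy
  · rintro ⟨h1, h2⟩
    exact ⟨h1.1, h2⟩

private theorem sb_out {b : B} {y : W} (hy : y ∉ YY cs b) :
    {f | f ∈ FF cs b ∧ y * f⁻¹ ∉ YY cs b} =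
      insert 1 {f | f ∈ FF cs b \ {1} ∧ y * f⁻¹ ∉ YY cs b} := by
  ext f
  constructor
  · rintro ⟨h1, h2⟩
    by_cases h3 : f = 1
    · exact Or.inl h3
    · exact Or.inr ⟨⟨h1, h3⟩, h2⟩
  · rintro (h | ⟨h1, h2⟩)
    · rw [h]
      refine ⟨one_mem_FF cs b, ?_⟩
      rw [inv_one, mul_one]
      exact hy
    · exact ⟨h1.1, h2⟩

private theorem sb_out_card {b : B} {y : W} (hy : y ∉ YY cs b) :
    NN cs b y = {f | f ∈ FF cs b \ {1} ∧ y * f⁻¹ ∉ YY cs b}.ncard + 1 := by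
  unfold NN
  rw [sb_out cs hy, Set.ncard_insert_of_notMem (fun h => h.1.2 rfl)
    ((finite_F cs b y).subset fun f hf => ⟨hf.1.1, hf.2⟩)]

theorem NN_mul_b {b : B} {y : W} (hy : y ∈ YY cs b) :
    NN cs b (y * cs.simple b) = NN cs b y + 1 := by
  rw [sb_out_card cs (mul_b_notMem_YY cs hy), NN, sb_in cs hy,
    Set.BijOn.ncard_eq (bijFb cs y)]

theorem NN_mul_b' {b : B} {y : W} (hy : y ∉ YY cs b) (hy' : y * cs.simple b ∉ YY cs b) :
    NN cs b (y * cs.simple b) = NN cs b y := by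
  rw [sb_out_card cs hy', sb_out_card cs hy,
    Set.BijOn.ncard_eq (bijFb cs y)]

theorem NN_pos {b : B} {y : W} (hy : y ∉ YY cs b) : 1 ≤ NN cs b y := by
  rw [sb_out_card cs hy]
  exact Nat.le_add_left 1 _

end Pool.Agent.H73.HVN
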