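import Pool.Agent.H73.HVN.Gen
import Pool.Agent.H73.HVN.StarB

/-!
# Module Mult: the multiplier kernels `Θ_g`

`Θ_g(X)(z,y) = g(N z + N y) X(z,y) + ∑_{v ∈ V, z v⁻¹, y v⁻¹ ∈ Y} (g(m) - g(m+1)) X(z v⁻¹, y v⁻¹)
+ ∑_{f ∈ F, z f⁻¹, y f⁻¹ ∉ Y} (g(m-1) - g(m)) X(z f⁻¹, y f⁻¹)`, `m = N + N` of the two arguments of `X`.

PLAN.
* `Theta_CC`, `t ≠ b`. The root term `g(N z + N y) X(z,y)` satisfies `CC _ _ t` since `N(y s_t) = N(y)`
  (`NN_mul_ne`). The two `Ker` terms satisfy it by `Ker_CC` with `L = lk M b`, `𝒜 = V`, `𝒴 = Y`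
  (`finite_V`, `YY_mul`, `NN_mul_ne` for the invariance of `ω`; `VV_step`; `sep_V`), resp. `𝒜 = F`,
  `𝒴 = Yᶜ` (`finite_F`, `FF_step`, `sep_F`). `CC` is additive in `X`.
* `t = b`: split off the term `v = s_b` from the `V`-sum and the term `f = 1` from the `F`-sum:
  `Ker V Y ω X = τ_b + Ker (V \ {s_b}) Y ω X`, `τ_b(z,y) = [z s_b ∈ Y][y s_b ∈ Y] (ω X)(z s_b, y s_b)`,
  `Ker F Yᶜ ω' X = τ_1 + Ker (F \ {1}) Yᶜ ω' X`, `τ_1(z,y) = [z ∉ Y][y ∉ Y] (ω' X)(z,y)`. The remaining `Ker`s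
  satisfy `CC _ _ b` by `Ker_CC` with `𝒜 = V \ {s_b}` (if `v ∈ V`, `v ≠ s_b` then `v s_b ∈ V` implies
  `v s_b ≠ s_b` as `v ≠ 1`) and `𝒜 = F \ {1}` (`f s_b ≠ 1` since `s_b ∉ F`).
  It remains that `S = root + τ_b + τ_1` satisfies
  `S(z, y s) + p[y] S(z,y) = S(z s, y) + p[z] S(z,y)`, `s = s_b`, for all `z, y`. Call `y` of type
  α: `y ∈ Y` (then `y s ∉ Y`, `N(y s) = N(y) + 1`, `b ∉ D_R(y)`);
  β: `y ∉ Y`, `y s ∈ Y` (then `N(y) = N(y s) + 1`, `b ∈ D_R(y)`);
  γ: `y ∉ Y`, `y s ∉ Y` (then `N(y s) = N(y)`).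
  Right multiplication by `s` exchanges α and β and preserves γ. With `n = N(z) + N(y)`:
  `S(z,y) = g(n) X(z,y)` if at least one of `z, y` is of type α;
  `S(z,y) = g(n) X(z,y) + (g(n-2) - g(n-1)) X(z s, y s) + (g(n-1) - g(n)) X(z,y)
   = g(n-1) X(z,y) + (g(n-2) - g(n-1)) X(z s, y s)` if both are β;
  `S(z,y) = g(n) X + (g(n-1) - g(n)) X = g(n-1) X(z,y)` if none is α and not both are β.
  (`N ≥ 1` for `y ∉ Y`.) The nine cases (αα, αβ, …, γγ) then follow by linear arithmetic from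
  `CC cs q X b` at `(z, y)` (and in the mixed cases ββ also at `(z s, y s)`); e.g. αα: `S(z, y s) = g(n+1) X(z, y s)`
  — here `y s` is β and `z` is α — `S(z s, y) = g(n+1) X(z s, y)`, `p[y] = p[z] = 0` and
  `X(z, y s) = X(z s, y)`. ββ: `S(z, y s) = g(n-1) X(z, y s)`, `S(z s, y) = g(n-1) X(z s, y)`,
  `p[y] = p[z] = p`, and `X(z, y s) = X(z s, y)`. αβ (`z` α, `y` β): `S(z, y s) = g(n-1) X(z, y s)`,
  `S(z,y) = g(n) X(z,y)`, `p[y] = p`, `p[z] = 0`; `z s, y` both β with `N(z s) + N(y) = n + 1`: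
  `S(z s, y) = g(n) X(z s, y) + (g(n-1) - g(n)) X(z, y s)`; the identity becomes
  `g(n) (X(z, y s) + p X(z,y) - X(z s, y)) = 0`. αγ: `S(z, y s) = g(n) X(z, y s)`, `S(z,y) = g(n) X(z,y)`;
  `z s` is β, `y` is γ, `N = n + 1`: `S(z s, y) = g(n) X(z s, y)`. βγ: `S(z, y s) = g(n-1) X(z, y s)`,
  `S(z,y) = g(n-1) X(z,y)`, `z s` is α: `S(z s, y) = g(n-1) X(z s, y)`. γγ: all factors `g(n-1)`.
* `Theta_one`: at `y = 1`: `N(1) = 0`; `v⁻¹ ∉ Y` for `v ∈ V`, `f⁻¹ ∈ Y` for `f ∈ F`.
* `kappa`: apply this to `X = 1` (`CC_one`), `g(k) = ρ^k`: `Θ_g(1)` and `1` satisfy all `CC`, and agree in the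
  column `y = 1` (`N(1) = 0`), so they are equal (`CC_ext`); take `z = y`. (The sums are over finite sets;
  `HasSum`/`tsum` of a function with finite support; transfer from `ℂ` to `ℝ`.) Result, for all `ρ ≠ 0`:
  `ρ^{2N(y)} + (1-ρ) ∑_{v ∈ V, y v⁻¹ ∈ Y} ρ^{2 N(y v⁻¹)} + ((1-ρ)/ρ) ∑_{f ∈ F, y f⁻¹ ∉ Y} ρ^{2 N(y f⁻¹)} = 1`
  (`ρ^{2N-1} - ρ^{2N} = ((1-ρ)/ρ) ρ^{2N}` as `N ≥ 1`).
-/

set_option autoImplicit false

open scoped ComplexOrder InnerProductSpace
open Filter Topology

namespace Pool.Agent.H73.HVN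

universe u v

variable {B : Type v} {W : Type u} [Group W] {M : CoxeterMatrix B} (cs : CoxeterSystem M W)

private theorem mult_CC_add {q : B → ℝ} {X X' : W → W → ℂ} {i : B} (h : CC cs q X i)
    (h' : CC cs q X' i) : CC cs q (fun z y => X z y + X' z y) i := by
  intro z y
  have h1 := h z y
  have h2 := h' z y
  dsimp only
  linear_combination h1 + h2

open Classical in
private noncomputable def mult_tau (𝒴 : Set W) (c : ℂ) (z y : W) : ℂ :=
  if z ∈ 𝒴 ∧ y ∈ 𝒴 then c else 0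

open Classical in
private theorem mult_Ker_split {𝒜 𝒴 : Set W} (ω X : W → W → ℂ)
    (hfin : ∀ y, {a | a ∈ 𝒜 ∧ y * a⁻¹ ∈ 𝒴}.Finite) {a₀ : W} (ha₀ : a₀ ∈ 𝒜) (z y : W) :
    Ker 𝒜 𝒴 ω X z y = mult_tau 𝒴 (ω (z * a₀⁻¹) (y * a₀⁻¹) * X (z * a₀⁻¹) (y * a₀⁻¹))
      (z * a₀⁻¹) (y * a₀⁻¹) + Ker (𝒜 \ {a₀}) 𝒴 ω X z y := by
  have hsum : Summable (fun a : W => if a ∈ 𝒜 ∧ z * a⁻¹ ∈ 𝒴 ∧ y * a⁻¹ ∈ 𝒴 then
      ω (z * a⁻¹) (y * a⁻¹) * X (z * a⁻¹) (y * a⁻¹) else 0) := by
    refine summable_of_hasFiniteSupport ((hfin y).subset ?_)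
    intro a ha
    rw [Function.mem_support] at ha
    by_contra hc
    apply ha
    rw [if_neg]
    rintro ⟨h1, -, h3⟩
    exact hc ⟨h1, h3⟩
  unfold Ker mult_tau
  rw [hsum.tsum_eq_add_tsum_ite a₀]
  congr 1
  · by_cases h : z * a₀⁻¹ ∈ 𝒴 ∧ y * a₀⁻¹ ∈ 𝒴
    · rw [if_pos h, if_pos ⟨ha₀, h⟩]
    · rw [if_neg h, if_neg fun hh => h hh.2]
  · refine tsum_congr fun a => ?_
    by_cases h : a = a₀
    · rw [if_pos h, if_neg]
      rintro ⟨⟨-, h2⟩, -⟩
      exact h2 h
    · rw [if_neg h]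
      by_cases h' : a ∈ 𝒜 ∧ z * a⁻¹ ∈ 𝒴 ∧ y * a⁻¹ ∈ 𝒴
      · rw [if_pos h', if_pos ⟨⟨h'.1, h⟩, h'.2⟩]
      · rw [if_neg h', if_neg fun hh => h' ⟨hh.1.1, hh.2⟩]

/-- the multiplier kernel `Θ_g(X)` -/
noncomputable def Theta (b : B) (g : ℕ → ℝ) (X : W → W → ℂ) (z y : W) : ℂ :=
  (g (NN cs b z + NN cs b y) : ℂ) * X z y +
  Ker (VV cs b) (YY cs b)
    (fun z y => ((g (NN cs b z + NN cs b y) - g (NN cs b z + NN cs b y + 1) : ℝ) : ℂ)) X z y +
  Ker (FF cs b) (YY cs b)ᶜ
    (fun z y => ((g (NN cs b z + NN cs b y - 1) - g (NN cs b z + NN cs b y) : ℝ) : ℂ)) X z y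

private theorem mult_lk_ne {b i : B} (hi : i ∈ lk M b) : i ≠ b := hi.1

private theorem mult_pr_zero (q : B → ℝ) {b : B} {y : W} (hy : y ∈ YY cs b) :
    pr cs q b y = 0 := by
  unfold pr
  exact if_neg (not_desc_of_mem_YY cs hy)

private theorem mult_pr_eq (q : B → ℝ) {b : B} {y : W} (hy : y * cs.simple b ∈ YY cs b) :
    pr cs q b y = ((pp q b : ℝ) : ℂ) := by
  unfold pr
  refine if_pos ?_
  rw [cs.isRightDescent_iff_not_isRightDescent_mul]
  exact not_desc_of_mem_YY cs hy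

/-- the part of `Θ_g` that is left after splitting off two terms, for `t = b` -/
private noncomputable def mult_S (b : B) (g : ℕ → ℝ) (X : W → W → ℂ) (z y : W) : ℂ :=
  (g (NN cs b z + NN cs b y) : ℂ) * X z y +
  mult_tau (YY cs b)
    (((g (NN cs b (z * cs.simple b) + NN cs b (y * cs.simple b)) -
      g (NN cs b (z * cs.simple b) + NN cs b (y * cs.simple b) + 1) : ℝ) : ℂ) *
      X (z * cs.simple b) (y * cs.simple b)) (z * cs.simple b) (y * cs.simple b) +
  mult_tau (YY cs b)ᶜ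
    (((g (NN cs b z + NN cs b y - 1) - g (NN cs b z + NN cs b y) : ℝ) : ℂ) * X z y) z y

private theorem mult_S_CC {q : B → ℝ} (b : B) (g : ℕ → ℝ) {X : W → W → ℂ}
    (hX : CC cs q X b) : CC cs q (mult_S cs b g X) b := by
  intro z y
  have hz2 : z * cs.simple b * cs.simple b = z := cs.simple_mul_simple_cancel_right b
  have hy2 : y * cs.simple b * cs.simple b = y := cs.simple_mul_simple_cancel_right b
  have hC := hX z y
  have hC' := hX (z * cs.simple b) (y * cs.simple b)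
  rw [hz2, hy2] at hC'
  unfold mult_S mult_tau
  rw [hz2, hy2]
  by_cases hz : z ∈ YY cs b
  · -- `z` of type α
    have hz' : z * cs.simple b ∉ YY cs b := mul_b_notMem_YY cs hz
    have hNz := NN_mul_b cs hz
    have hpz := mult_pr_zero cs q hz
    by_cases hy : y ∈ YY cs b
    · have hy' : y * cs.simple b ∉ YY cs b := mul_b_notMem_YY cs hy
      have hNy := NN_mul_b cs hy
      have hpy := mult_pr_zero cs q hy
      rw [if_neg (fun h => hz' h.1), if_neg (fun h => h.1 hz), if_neg (fun h => hz' h.1),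
        if_neg (fun h => h.1 hz), if_neg (fun h => hy' h.2), if_neg (fun h => h.2 hy)]
      rw [hNz, hNy, hpz, hpy,
        show NN cs b z + (NN cs b y + 1) = NN cs b z + NN cs b y + 1 by omega,
        show NN cs b z + 1 + NN cs b y = NN cs b z + NN cs b y + 1 by omega]
      rw [hpz, hpy] at hC
      linear_combination ((g (NN cs b z + NN cs b y + 1) : ℝ) : ℂ) * hC
    · by_cases hy' : y * cs.simple b ∈ YY cs b
      · have hNy := NN_mul_b cs hy'
        rw [hy2] at hNy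
        have hpy := mult_pr_eq cs q hy'
        rw [if_neg (fun h => hz' h.1), if_neg (fun h => h.1 hz), if_neg (fun h => hz' h.1),
          if_neg (fun h => h.1 hz), if_pos ⟨hz, hy'⟩, if_pos ⟨hz', hy⟩]
        rw [hNz, hNy, hpz,
          show NN cs b z + (NN cs b (y * cs.simple b) + 1) =
            NN cs b z + NN cs b (y * cs.simple b) + 1 by omega,
          show NN cs b z + 1 + (NN cs b (y * cs.simple b) + 1) =
            NN cs b z + NN cs b (y * cs.simple b) + 1 + 1 by omega, Nat.add_sub_cancel]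
        rw [hpz] at hC
        push_cast
        linear_combination
          ((g (NN cs b z + NN cs b (y * cs.simple b) + 1) : ℝ) : ℂ) * hC
      · have hNy := NN_mul_b' cs hy hy'
        rw [if_neg (fun h => hz' h.1), if_neg (fun h => h.1 hz), if_neg (fun h => hz' h.1),
          if_neg (fun h => h.1 hz), if_neg (fun h => hy' h.2), if_pos ⟨hz', hy⟩]
        rw [hNz, hNy, hpz,
          show NN cs b z + 1 + NN cs b y = NN cs b z + NN cs b y + 1 by omega,
          Nat.add_sub_cancel]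
        rw [hpz] at hC
        push_cast
        linear_combination ((g (NN cs b z + NN cs b y) : ℝ) : ℂ) * hC
  · by_cases hz' : z * cs.simple b ∈ YY cs b
    · -- `z` of type β
      have hNz := NN_mul_b cs hz'
      rw [hz2] at hNz
      have hpz := mult_pr_eq cs q hz'
      have hpz' := mult_pr_zero cs q hz'
      by_cases hy : y ∈ YY cs b
      · have hy' : y * cs.simple b ∉ YY cs b := mul_b_notMem_YY cs hy
        have hNy := NN_mul_b cs hy
        have hpy := mult_pr_zero cs q hy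
        rw [if_pos ⟨hz', hy⟩, if_pos ⟨hz, hy'⟩, if_neg (fun h => hy' h.2),
          if_neg (fun h => h.2 hy), if_neg (fun h => hz h.1), if_neg (fun h => h.2 hy)]
        rw [hNz, hNy, hpy,
          show NN cs b (z * cs.simple b) + 1 + (NN cs b y + 1) =
            NN cs b (z * cs.simple b) + NN cs b y + 1 + 1 by omega,
          show NN cs b (z * cs.simple b) + 1 + NN cs b y =
            NN cs b (z * cs.simple b) + NN cs b y + 1 by omega, Nat.add_sub_cancel]
        rw [hpy] at hC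
        push_cast
        linear_combination
          ((g (NN cs b (z * cs.simple b) + NN cs b y + 1) : ℝ) : ℂ) * hC
      · by_cases hy' : y * cs.simple b ∈ YY cs b
        · have hNy := NN_mul_b cs hy'
          rw [hy2] at hNy
          have hpy := mult_pr_eq cs q hy'
          have hpy' := mult_pr_zero cs q hy'
          rw [if_neg (fun h => hy h.2), if_neg (fun h => h.2 hy'), if_pos ⟨hz', hy'⟩,
            if_pos ⟨hz, hy⟩, if_neg (fun h => hz h.1), if_neg (fun h => h.1 hz')]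
          rw [hNz, hNy, hpz, hpy,
            show NN cs b (z * cs.simple b) + 1 + NN cs b (y * cs.simple b) =
              NN cs b (z * cs.simple b) + NN cs b (y * cs.simple b) + 1 by omega,
            show NN cs b (z * cs.simple b) + (NN cs b (y * cs.simple b) + 1) =
              NN cs b (z * cs.simple b) + NN cs b (y * cs.simple b) + 1 by omega]
          rw [hpz, hpy] at hC
          linear_combination
            ((g (NN cs b (z * cs.simple b) + NN cs b (y * cs.simple b) + 1) : ℝ) : ℂ) * hC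
        · have hNy := NN_mul_b' cs hy hy'
          have hy1 := NN_pos cs hy
          obtain ⟨n, hn⟩ : ∃ n, NN cs b (z * cs.simple b) + NN cs b y = n + 1 :=
            ⟨NN cs b (z * cs.simple b) + NN cs b y - 1, by omega⟩
          rw [if_neg (fun h => hy h.2), if_pos ⟨hz, hy'⟩, if_neg (fun h => hy' h.2),
            if_pos ⟨hz, hy⟩, if_neg (fun h => hz h.1), if_neg (fun h => h.1 hz')]
          rw [hNz, hNy, hpz, hn,
            show NN cs b (z * cs.simple b) + 1 + NN cs b y = n + 1 + 1 by omega,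
            Nat.add_sub_cancel]
          rw [hpz] at hC
          push_cast
          linear_combination ((g (n + 1) : ℝ) : ℂ) * hC
    · -- `z` of type γ
      have hNz := NN_mul_b' cs hz hz'
      have hz1 := NN_pos cs hz
      by_cases hy : y ∈ YY cs b
      · have hy' : y * cs.simple b ∉ YY cs b := mul_b_notMem_YY cs hy
        have hNy := NN_mul_b cs hy
        have hpy := mult_pr_zero cs q hy
        rw [if_neg (fun h => hz' h.1), if_pos ⟨hz, hy'⟩, if_neg (fun h => hz' h.1),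
          if_neg (fun h => h.2 hy), if_neg (fun h => hz h.1), if_neg (fun h => h.2 hy)]
        rw [hNz, hNy, hpy,
          show NN cs b z + (NN cs b y + 1) = NN cs b z + NN cs b y + 1 by omega,
          Nat.add_sub_cancel]
        rw [hpy] at hC
        push_cast
        linear_combination ((g (NN cs b z + NN cs b y) : ℝ) : ℂ) * hC
      · by_cases hy' : y * cs.simple b ∈ YY cs b
        · have hNy := NN_mul_b cs hy'
          rw [hy2] at hNy
          have hpy := mult_pr_eq cs q hy'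
          obtain ⟨n, hn⟩ : ∃ n, NN cs b z + NN cs b (y * cs.simple b) = n + 1 :=
            ⟨NN cs b z + NN cs b (y * cs.simple b) - 1, by omega⟩
          rw [if_neg (fun h => hz' h.1), if_neg (fun h => h.2 hy'), if_neg (fun h => hz' h.1),
            if_pos ⟨hz, hy⟩, if_neg (fun h => hz h.1), if_pos ⟨hz', hy⟩]
          rw [hNz, hNy, hpy, hn,
            show NN cs b z + (NN cs b (y * cs.simple b) + 1) = n + 1 + 1 by omega,
            Nat.add_sub_cancel]
          rw [hpy] at hC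
          push_cast
          linear_combination ((g (n + 1) : ℝ) : ℂ) * hC
        · have hNy := NN_mul_b' cs hy hy'
          rw [if_neg (fun h => hz' h.1), if_pos ⟨hz, hy'⟩, if_neg (fun h => hz' h.1),
            if_pos ⟨hz, hy⟩, if_neg (fun h => hz h.1), if_pos ⟨hz', hy⟩]
          rw [hNz, hNy]
          push_cast
          linear_combination ((g (NN cs b z + NN cs b y - 1) : ℝ) : ℂ) * hC

theorem Theta_CC {q : B → ℝ} (hq : Admissible cs q) (b : B) (g : ℕ → ℝ) {X : W → W → ℂ}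
    (hX : ∀ i, CC cs q X i) (t : B) : CC cs q (Theta cs b g X) t := by
  have hω1 : ∀ i ∈ lk M b, ∀ z y : W,
      ((g (NN cs b (z * cs.simple i) + NN cs b y) -
        g (NN cs b (z * cs.simple i) + NN cs b y + 1) : ℝ) : ℂ) =
      ((g (NN cs b z + NN cs b y) - g (NN cs b z + NN cs b y + 1) : ℝ) : ℂ) ∧
      ((g (NN cs b z + NN cs b (y * cs.simple i)) -
        g (NN cs b z + NN cs b (y * cs.simple i) + 1) : ℝ) : ℂ) =
      ((g (NN cs b z + NN cs b y) - g (NN cs b z + NN cs b y + 1) : ℝ) : ℂ) := by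
    intro i hi z y
    rw [NN_mul_ne cs (mult_lk_ne hi), NN_mul_ne cs (mult_lk_ne hi)]
    exact ⟨rfl, rfl⟩
  have hω2 : ∀ i ∈ lk M b, ∀ z y : W,
      ((g (NN cs b (z * cs.simple i) + NN cs b y - 1) -
        g (NN cs b (z * cs.simple i) + NN cs b y) : ℝ) : ℂ) =
      ((g (NN cs b z + NN cs b y - 1) - g (NN cs b z + NN cs b y) : ℝ) : ℂ) ∧
      ((g (NN cs b z + NN cs b (y * cs.simple i) - 1) -
        g (NN cs b z + NN cs b (y * cs.simple i)) : ℝ) : ℂ) =
      ((g (NN cs b z + NN cs b y - 1) - g (NN cs b z + NN cs b y) : ℝ) : ℂ) := by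
    intro i hi z y
    rw [NN_mul_ne cs (mult_lk_ne hi), NN_mul_ne cs (mult_lk_ne hi)]
    exact ⟨rfl, rfl⟩
  by_cases ht : t = b
  · subst ht
    have hK1 : CC cs q (Ker (VV cs t \ {cs.simple t}) (YY cs t)
        (fun z y => ((g (NN cs t z + NN cs t y) - g (NN cs t z + NN cs t y + 1) : ℝ) : ℂ)) X)
        t := by
      refine Ker_CC cs hq (L := lk M t) (fun i _ => hX i) ?_ (fun i hi y => YY_mul cs hi y)
        hω1 ?_ (fun y hy a ha => sep_V cs hy ha.1)
      · intro y
        refine (finite_V cs t y).subset ?_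
        rintro a ⟨h1, h2⟩
        exact ⟨h1.1, h2⟩
      · rintro a ⟨h1, h2⟩
        rcases VV_step cs h1 (t := t) (fun h => h2 h.1) with h | h
        · left
          refine ⟨h, fun h3 => h1.1 ?_⟩
          have h4 : a * cs.simple t = cs.simple t := h3
          exact mul_eq_right.1 h4
        · exact Or.inr h
    have hK2 : CC cs q (Ker (FF cs t \ {1}) (YY cs t)ᶜ
        (fun z y => ((g (NN cs t z + NN cs t y - 1) - g (NN cs t z + NN cs t y) : ℝ) : ℂ)) X)
        t := by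
      refine Ker_CC cs hq (L := lk M t) (fun i _ => hX i) ?_
        (fun i hi y => not_congr (YY_mul cs hi y)) hω2 ?_ (fun y hy a ha => sep_F cs hy ha.1)
      · intro y
        refine (finite_F cs t y).subset ?_
        rintro a ⟨h1, h2⟩
        exact ⟨h1.1, h2⟩
      · rintro a ⟨h1, h2⟩
        rcases FF_step cs h1 (t := t) (fun h => h2 h.1) with h | h
        · left
          refine ⟨h, fun h3 => simple_notMem_FF cs t ?_⟩
          have h4 : a * cs.simple t = 1 := h3
          have h5 : a = cs.simple t := by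
            rw [← cs.inv_simple t]
            exact eq_inv_of_mul_eq_one_left h4
          rw [← h5]
          exact h1
        · exact Or.inr h
    have hsum := mult_CC_add cs (mult_CC_add cs (mult_S_CC cs t g (hX t)) hK1) hK2
    have heq : Theta cs t g X = fun z y => (mult_S cs t g X z y +
        Ker (VV cs t \ {cs.simple t}) (YY cs t)
        (fun z y => ((g (NN cs t z + NN cs t y) - g (NN cs t z + NN cs t y + 1) : ℝ) : ℂ)) X z y) +
        Ker (FF cs t \ {1}) (YY cs t)ᶜ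
        (fun z y => ((g (NN cs t z + NN cs t y - 1) - g (NN cs t z + NN cs t y) : ℝ) : ℂ))
          X z y := by
      funext z y
      unfold Theta mult_S
      rw [mult_Ker_split _ X (finite_V cs t) (simple_mem_VV cs t) z y,
        mult_Ker_split (𝒴 := (YY cs t)ᶜ) _ X (finite_F cs t) (one_mem_FF cs t) z y]
      rw [cs.inv_simple t, inv_one, mul_one, mul_one]
      ring
    rw [heq]
    exact hsum
  · have hroot : CC cs q (fun z y => (g (NN cs b z + NN cs b y) : ℂ) * X z y) t := by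
      intro z y
      have h := hX t z y
      dsimp only
      rw [NN_mul_ne cs ht, NN_mul_ne cs ht]
      linear_combination ((g (NN cs b z + NN cs b y) : ℝ) : ℂ) * h
    have hK1 : CC cs q (Ker (VV cs b) (YY cs b)
        (fun z y => ((g (NN cs b z + NN cs b y) - g (NN cs b z + NN cs b y + 1) : ℝ) : ℂ)) X)
        t :=
      Ker_CC cs hq (L := lk M b) (fun i _ => hX i) (finite_V cs b)
        (fun i hi y => YY_mul cs hi y) hω1
        (fun a ha => VV_step cs ha (fun h => ht h.2)) (fun y hy a ha => sep_V cs hy ha)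
    have hK2 : CC cs q (Ker (FF cs b) (YY cs b)ᶜ
        (fun z y => ((g (NN cs b z + NN cs b y - 1) - g (NN cs b z + NN cs b y) : ℝ) : ℂ)) X)
        t :=
      Ker_CC cs hq (L := lk M b) (fun i _ => hX i) (finite_F cs b)
        (fun i hi y => not_congr (YY_mul cs hi y)) hω2
        (fun a ha => FF_step cs ha (fun h => ht h.2)) (fun y hy a ha => sep_F cs hy ha)
    exact mult_CC_add cs (mult_CC_add cs hroot hK1) hK2

theorem Theta_one (b : B) (g : ℕ → ℝ) (X : W → W → ℂ) (z : W) :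
    Theta cs b g X z 1 = (g (NN cs b z) : ℂ) * X z 1 := by
  classical
  have h1 : ∀ ω : W → W → ℂ, Ker (VV cs b) (YY cs b) ω X z 1 = 0 := by
    intro ω
    unfold Ker
    refine (tsum_congr fun a => if_neg ?_).trans tsum_zero
    rintro ⟨h1, -, h3⟩
    rw [one_mul] at h3
    exact VV_inv_notMem cs h1 h3
  have h2 : ∀ ω : W → W → ℂ, Ker (FF cs b) (YY cs b)ᶜ ω X z 1 = 0 := by
    intro ω
    unfold Ker
    refine (tsum_congr fun a => if_neg ?_).trans tsum_zero
    rintro ⟨h1, -, h3⟩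
    rw [one_mul] at h3
    exact h3 (FF_inv_mem cs h1)
  unfold Theta
  rw [h1, h2, NN_one, add_zero, add_zero, add_zero]

open Classical in
theorem kappa (b : B) {ρ : ℝ} (hρ : ρ ≠ 0) (y : W) :
    ρ ^ (2 * NN cs b y) +
      (1 - ρ) * (∑' v : W, if v ∈ VV cs b ∧ y * v⁻¹ ∈ YY cs b then ρ ^ (2 * NN cs b (y * v⁻¹)) else 0) +
      (1 - ρ) / ρ * (∑' f : W, if f ∈ FF cs b ∧ y * f⁻¹ ∉ YY cs b then ρ ^ (2 * NN cs b (y * f⁻¹))
        else 0) = 1 := by
  have hq : Admissible cs (fun _ : B => (1 : ℝ)) := ⟨fun _ => one_pos, fun _ _ _ => rfl⟩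
  have hC1 := fun i => CC_one cs (fun _ : B => (1 : ℝ)) i
  have hmain : Theta cs b (fun k => ρ ^ k) (fun z y => if z = y then (1 : ℂ) else 0) y y =
      (if y = y then (1 : ℂ) else 0) := by
    refine CC_ext cs (Theta_CC cs hq b (fun k => ρ ^ k) hC1) hC1 ?_ y y
    intro z
    rw [Theta_one]
    by_cases hz : z = 1
    · subst hz
      rw [NN_one]
      simp
    · simp only [if_neg hz, mul_zero]
  rw [if_pos rfl] at hmain
  unfold Theta at hmain
  have hK1 : Ker (VV cs b) (YY cs b)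
      (fun z y => (((fun k => ρ ^ k) (NN cs b z + NN cs b y) -
        (fun k => ρ ^ k) (NN cs b z + NN cs b y + 1) : ℝ) : ℂ))
      (fun z y => if z = y then (1 : ℂ) else 0) y y =
      (((1 - ρ) * (∑' v : W, if v ∈ VV cs b ∧ y * v⁻¹ ∈ YY cs b then
        ρ ^ (2 * NN cs b (y * v⁻¹)) else 0) : ℝ) : ℂ) := by
    unfold Ker
    rw [← tsum_mul_left, Complex.ofReal_tsum]
    refine tsum_congr fun a => ?_
    by_cases h : a ∈ VV cs b ∧ y * a⁻¹ ∈ YY cs b
    · rw [if_pos ⟨h.1, h.2, h.2⟩, if_pos h]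
      dsimp only
      rw [if_pos rfl, mul_one]
      congr 1
      rw [two_mul]
      ring
    · rw [if_neg fun hh => h ⟨hh.1, hh.2.1⟩, if_neg h, mul_zero, Complex.ofReal_zero]
  have hK2 : Ker (FF cs b) (YY cs b)ᶜ
      (fun z y => (((fun k => ρ ^ k) (NN cs b z + NN cs b y - 1) -
        (fun k => ρ ^ k) (NN cs b z + NN cs b y) : ℝ) : ℂ))
      (fun z y => if z = y then (1 : ℂ) else 0) y y =
      (((1 - ρ) / ρ * (∑' f : W, if f ∈ FF cs b ∧ y * f⁻¹ ∉ YY cs b then
        ρ ^ (2 * NN cs b (y * f⁻¹)) else 0) : ℝ) : ℂ) := by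
    unfold Ker
    rw [← tsum_mul_left, Complex.ofReal_tsum]
    refine tsum_congr fun a => ?_
    by_cases h : a ∈ FF cs b ∧ y * a⁻¹ ∉ YY cs b
    · rw [if_pos ⟨h.1, h.2, h.2⟩, if_pos h]
      dsimp only
      rw [if_pos rfl, mul_one]
      congr 1
      obtain ⟨n, hn⟩ : ∃ n, NN cs b (y * a⁻¹) = n + 1 :=
        ⟨NN cs b (y * a⁻¹) - 1, by have := NN_pos cs h.2; omega⟩
      rw [hn, show n + 1 + (n + 1) - 1 = n + 1 + n by omega]
      field_simp
      ring
    · rw [if_neg fun hh => h ⟨hh.1, hh.2.1⟩, if_neg h, mul_zero, Complex.ofReal_zero]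
  rw [hK1, hK2] at hmain
  dsimp only at hmain
  rw [if_pos rfl, mul_one] at hmain
  have hmain' : (((ρ ^ (2 * NN cs b y) +
      (1 - ρ) * (∑' v : W, if v ∈ VV cs b ∧ y * v⁻¹ ∈ YY cs b then
        ρ ^ (2 * NN cs b (y * v⁻¹)) else 0) +
      (1 - ρ) / ρ * (∑' f : W, if f ∈ FF cs b ∧ y * f⁻¹ ∉ YY cs b then
        ρ ^ (2 * NN cs b (y * f⁻¹)) else 0) : ℝ)) : ℂ) = ((1 : ℝ) : ℂ) := by
    rw [Complex.ofReal_add, Complex.ofReal_add, Complex.ofReal_one, ← hmain, two_mul]
  exact Complex.ofReal_injective hmain'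

end Pool.Agent.H73.HVN
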