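import Pool.Agent.H73.HVN.Defs

/-!
# Module OpBasic: `ℓ²(X)`, the vectors `δ_x`, weighted composition operators

PLAN. `L2 X = lp (fun _ : X => ℂ) 2`; `δ x = lp.single 2 x 1`. Use `lp.single_apply`,
`lp.norm_single`, `lp.hasSum_single`/`lp.hasSum_norm`, `lp.norm_rpow_eq_tsum`, `lp.inner_single_left`, …
(`open scoped InnerProductSpace`; the inner product is conjugate linear in the first argument.)
`exists_wop`: the function `x ↦ k x * f (σ x)` is square summable with
`∑ |k x|² |f (σ x)|² ≤ C² ∑ |f x|²` (`Equiv.tsum_eq`, `Memℓp`), linear in `f`, bound `C` (take `|C|`):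
`LinearMap.mkContinuous`.
`ext_δ`: the span of the `δ_x` is dense (`lp.hasSum_single`: `f = ∑ f x • δ x`).
`bounded_coeff_eq`: `∑' x` of norms.
-/

set_option autoImplicit false

open scoped ComplexOrder InnerProductSpace
open Filter Topology

namespace Pool.Agent.H73.HVN

universe u

variable {X : Type u}

theorem δ_apply (x y : X) : (δ x : L2 X) y = (open Classical in if y = x then (1 : ℂ) else 0) := by
  classical
  unfold δ
  rw [lp.single_apply, Pi.single_apply]

theorem δ_self (x : X) : (δ x : L2 X) x = 1 := by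
  rw [δ_apply, if_pos rfl]

theorem δ_ne {x y : X} (h : y ≠ x) : (δ x : L2 X) y = 0 := by
  rw [δ_apply, if_neg h]

theorem norm_δ (x : X) : ‖(δ x : L2 X)‖ = 1 := by
  classical
  unfold δ
  rw [lp.norm_single (by norm_num), norm_one]

theorem inner_δ (x : X) (f : L2 X) : ⟪(δ x : L2 X), f⟫_ℂ = f x := by
  classical
  unfold δ
  rw [lp.inner_single_left]
  simp

theorem hasSum_normsq (f : L2 X) : HasSum (fun x => ‖f x‖ ^ 2) (‖f‖ ^ 2) := by
  have h := lp.hasSum_norm (p := 2) (by norm_num) f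
  simpa only [ENNReal.toReal_ofNat, Real.rpow_ofNat] using h

theorem hasSum_δ (f : L2 X) : HasSum (fun x => f x • (δ x : L2 X)) f := by
  classical
  have h := lp.hasSum_single (p := 2) ENNReal.ofNat_ne_top f
  have h2 : (fun x => f x • (δ x : L2 X)) = fun i => lp.single 2 i (f i) := by
    funext x
    unfold δ
    rw [← lp.single_smul, smul_eq_mul, mul_one]
  rw [h2]
  exact h

theorem ext_δ {A A' : L2 X →L[ℂ] L2 X} (h : ∀ x, A (δ x) = A' (δ x)) : A = A' := by
  refine ContinuousLinearMap.ext fun f => ?_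
  have h1 := (hasSum_δ f).mapL A
  have h2 := (hasSum_δ f).mapL A'
  have h3 : (fun x => A (f x • (δ x : L2 X))) = fun x => A' (f x • (δ x : L2 X)) := by
    funext x
    rw [map_smul, map_smul, h x]
  rw [h3] at h1
  exact h1.unique h2

private theorem opb_normsq (f : L2 X) : ‖f‖ ^ (2 : ENNReal).toReal = ‖f‖ ^ 2 := by
  rw [ENNReal.toReal_ofNat, Real.rpow_ofNat]

private theorem opb_summable (σ : Equiv.Perm X) (k : X → ℂ) {C : ℝ} (hk : ∀ x, ‖k x‖ ≤ C)
    (f : L2 X) : Summable (fun x => ‖k x * f (σ x)‖ ^ 2) ∧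
      ∑' x, ‖k x * f (σ x)‖ ^ 2 ≤ C ^ 2 * ‖f‖ ^ 2 := by
  have h1 : HasSum (fun x => C ^ 2 * ‖f (σ x)‖ ^ 2) (C ^ 2 * ‖f‖ ^ 2) := by
    have h2 : HasSum ((fun x => ‖f x‖ ^ 2) ∘ σ) (‖f‖ ^ 2) :=
      (Equiv.hasSum_iff σ).2 (hasSum_normsq f)
    exact h2.mul_left (C ^ 2)
  have h3 : ∀ x, ‖k x * f (σ x)‖ ^ 2 ≤ C ^ 2 * ‖f (σ x)‖ ^ 2 := by
    intro x
    rw [norm_mul, mul_pow]
    exact mul_le_mul_of_nonneg_right (pow_le_pow_left₀ (norm_nonneg _) (hk x) 2)
      (sq_nonneg _)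
  have h4 : Summable (fun x => ‖k x * f (σ x)‖ ^ 2) :=
    Summable.of_nonneg_of_le (fun x => sq_nonneg _) h3 h1.summable
  exact ⟨h4, (h4.tsum_le_tsum h3 h1.summable).trans h1.tsum_eq.le⟩

theorem exists_wop (σ : Equiv.Perm X) (k : X → ℂ) {C : ℝ} (hk : ∀ x, ‖k x‖ ≤ C) :
    ∃ A : L2 X →L[ℂ] L2 X, ∀ (f : L2 X) (x : X), A f x = k x * f (σ x) := by
  have hmem : ∀ f : L2 X, Memℓp (fun x => k x * f (σ x)) 2 := by
    intro f
    refine memℓp_gen ?_
    have h := (opb_summable σ k hk f).1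
    simpa only [ENNReal.toReal_ofNat, Real.rpow_ofNat] using h
  let L : L2 X →ₗ[ℂ] L2 X :=
    { toFun := fun f => ⟨fun x => k x * f (σ x), hmem f⟩
      map_add' := by
        intro f g
        apply lp.ext
        funext x
        change k x * (f + g) (σ x) = k x * f (σ x) + k x * g (σ x)
        rw [lp.coeFn_add, Pi.add_apply, mul_add]
      map_smul' := by
        intro c f
        apply lp.ext
        funext x
        change k x * (c • f) (σ x) = c * (k x * f (σ x))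
        rw [lp.coeFn_smul, Pi.smul_apply, smul_eq_mul]
        ring }
  refine ⟨L.mkContinuous |C| ?_, fun f x => rfl⟩
  intro f
  refine lp.norm_le_of_tsum_le (p := 2) (by norm_num) (by positivity) ?_
  have h := (opb_summable σ k hk f).2
  have h2 : ∑' x, ‖(L f : X → ℂ) x‖ ^ (2 : ENNReal).toReal = ∑' x, ‖k x * f (σ x)‖ ^ 2 := by
    refine tsum_congr fun x => ?_
    rw [ENNReal.toReal_ofNat, Real.rpow_ofNat]
    rfl
  rw [h2]
  refine h.trans (le_of_eq ?_)
  rw [ENNReal.toReal_ofNat, Real.rpow_ofNat, mul_pow, sq_abs]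

open Classical in
/-- the weighted composition operator `(A f)(x) = k(x) f(σ x)` (for bounded `k`) -/
noncomputable def wop (σ : Equiv.Perm X) (k : X → ℂ) : L2 X →L[ℂ] L2 X :=
  if hk : ∃ A : L2 X →L[ℂ] L2 X, ∀ (f : L2 X) (x : X), A f x = k x * f (σ x) then hk.choose else 0

theorem wop_apply (σ : Equiv.Perm X) (k : X → ℂ) {C : ℝ} (hk : ∀ x, ‖k x‖ ≤ C) (f : L2 X) (x : X) :
    wop σ k f x = k x * f (σ x) := by
  have h := exists_wop σ k hk
  unfold wop
  rw [dif_pos h]
  exact h.choose_spec f x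

theorem wop_δ (σ : Equiv.Perm X) (k : X → ℂ) {C : ℝ} (hk : ∀ x, ‖k x‖ ≤ C) (y : X) :
    wop σ k (δ y) = k (σ.symm y) • (δ (σ.symm y) : L2 X) := by
  apply lp.ext
  funext x
  rw [wop_apply σ k hk, lp.coeFn_smul, Pi.smul_apply, smul_eq_mul]
  by_cases h : σ x = y
  · have hx : σ.symm y = x := by rw [← h, Equiv.symm_apply_apply]
    rw [hx, h, δ_self, δ_self]
  · have hx : x ≠ σ.symm y := by
      intro h2
      apply h
      rw [h2, Equiv.apply_symm_apply]
    rw [δ_ne h, δ_ne hx, mul_zero, mul_zero]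

end Pool.Agent.H73.HVN
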