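import Pool.Agent.H73.HVN.Two

/-!
# Module Sep: the separation lemma

Hypotheses: `L`, `E` disjoint sets of generators, `M β τ = 0` for all `β ∈ E`, `τ ∉ L ∪ E`.
`u` has no right descent in `L ∪ E`, `g ∈ W_L`, all left descents of `v` are in `E`.
Claim: `ℓ(u g v) = ℓ(u) + ℓ(g) + ℓ(v)`.

PLAN. Call `x ∈ W` *good* if `x = g v` with `g ∈ W_L` and all left descents of `v` in `E` (then `v` has no
left descent in `L`, `ℓ(gv) = ℓ(g) + ℓ(v)`, and `g, v` are unique: `length_mul_of_min_left`,
`min_unique_left`). To show: `ℓ(u x) = ℓ(u) + ℓ(x)` for all good `x`.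

Step lemma. `x` good, `c : B`: then `x s_c` is good or (`x ∈ W_L` and `c ∉ L` and `c ∉ E`).
Proof. `x = g v`. If `v = 1`: if `c ∈ L` take `g s_c`; if `c ∈ E`, `v' = s_c` (its only left descent is
`c`: a left descent of `s_c` is `c`, by `simple_injective` or `left_descent_mem` with `L = {c}`).
If `v ≠ 1`: by `deodhar_left` either `v s_c = s_i v`, `i ∈ L`: `x s_c = (g s_i) v` is good. Or `v s_c` has no
left descent in `L`: then `x s_c = g (v s_c)`, and we show that every left descent `τ` of `v s_c` is in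
`E`. Let `β` be a left descent of `v` (`v ≠ 1`), `β ∈ E`. If `ℓ(v s_c) > ℓ(v)`: `β` is a left descent of
`v s_c`; if `τ ∉ E`, then `τ ≠ β`, `τ ∉ L`, so `M β τ ≠ 0` by `two_left_descents`, contradiction with the
hypothesis on `M`. If `ℓ(v s_c) < ℓ(v)`: `τ` is a left descent of `v`
(`ℓ(s_τ v) ≤ ℓ(s_τ v s_c) + 1 < ℓ(v s_c) + 1 = ℓ(v)`), so `τ ∈ E`.
Consequence: if `c` is a right descent of the good `x` then `x s_c` is good (the exceptional case is
impossible by `right_descent_mem`). So if `x = x₀ d` with `ℓ(x) = ℓ(x₀) + ℓ(d)` is good then `x₀` is good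
(induction on `ℓ(d)`).

Main proof: strong induction on `ℓ(x)`; suppose `x` good and `ℓ(u x) < ℓ(u) + ℓ(x)` (always `≤`). If `x = 1`
trivial. Let `s` be a right descent of `x`, `x' = x s`: good and shorter, so `ℓ(u x') = ℓ(u) + ℓ(x')`, so
`ℓ(u x) < ℓ(u x')`: `s` is a right descent of `u x'` (`u x = u x' s`), and not of `x'`.
- If `x' = 1`: `x = s`, and `s` is a right descent of `u`, so `s ∉ L ∪ E`; but `s = g v` good: `ℓ(g) + ℓ(v) = 1`;
  `g = 1`, `v = s`: `s` is a left descent of `v`, so `s ∈ E`; or `v = 1`, `g = s ∈ W_L`: `s ∈ L`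
  (`simple_mem_WP_iff`). Contradiction.
- If `x' ≠ 1`: let `k` be a right descent of `x'`, `k ≠ s`; `k` is a right descent of `u x'` (as
  `ℓ(u x' k) ≤ ℓ(u) + ℓ(x' k) < ℓ(u x')`). `M k s ≠ 0` by `two_descents`. Write `x' = x₀ d`, `d ∈ W_{k,s}`, `x₀`
  without right descents in `{k, s}`; `d ≠ 1` (as `k` is a right descent of `x'`), so
  `ℓ(x₀) < ℓ(x')`; `x₀` is good, so `ℓ(u x₀) = ℓ(u) + ℓ(x₀)`. `u x₀` has a right descent `c ∈ {k, s}`: if not,
  `ℓ(u x₀ d') = ℓ(u x₀) + ℓ(d')` for all `d' ∈ W_{k,s}`; with `d' = d` and `d' = d s`: `s` right descent of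
  `u x' = u x₀ d` gives `ℓ(d s) < ℓ(d)`, so `ℓ(x' s) = ℓ(x₀) + ℓ(d s) < ℓ(x')`, contradiction.
  `ℓ(x₀ s_c) = ℓ(x₀) + 1 ≤ ℓ(x') < ℓ(x)`. If `x₀ s_c` is good, then `ℓ(u x₀ s_c) = ℓ(u) + ℓ(x₀) + 1 > ℓ(u x₀)`:
  contradiction. Otherwise, by the step lemma, `x₀ ∈ W_L`, `c ∉ L ∪ E`. Since `M k s ≠ 0`, the other element
  `c'` of `{k, s}` is not in `E` (hypothesis on `M` with `β = c'`, `τ = c`; `M` is symmetric). So
  `{k, s} ∩ E = ∅`. Now `x = x₀ e`, `e = d s ∈ W_{k,s}`. Write `e = l h`, `l ∈ W_{{k,s} ∩ L}`,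
  `h` without left descents in `{k, s} ∩ L` (`exists_min_left`); `h ∈ W_{k,s}` (as `WP` is monotone), so all
  left descents of `h` are in `{k, s}`, hence none is in `L`. `x = (x₀ l) h`, `x₀ l ∈ W_L`; with the
  decomposition `x = g v` uniqueness gives `v = h`. Left descents of `v` are in `E`, those of `h` are in
  `{k, s}`, so `h = v = 1` and `x ∈ W_L`; then `ℓ(u x) = ℓ(u) + ℓ(x)` by `length_mul_of_min`:
  contradiction.
-/

set_option autoImplicit false

namespace Pool.Agent.H73.HVN

universe u v

variable {B : Type v} {W : Type u} [Group W] {M : CoxeterMatrix B} (cs : CoxeterSystem M W)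

/-- good elements -/
private def Sep_Good (L E : Set B) (x : W) : Prop :=
  ∃ g v : W, x = g * v ∧ g ∈ WP cs L ∧ ∀ i, cs.IsLeftDescent v i → i ∈ E

private theorem Sep_one_left (i : B) : ¬ cs.IsLeftDescent 1 i := by
  unfold CoxeterSystem.IsLeftDescent
  rw [cs.length_one]
  exact Nat.not_lt_zero _

private theorem Sep_step {L E : Set B} (hLE : Disjoint L E)
    (hM : ∀ β ∈ E, ∀ τ, τ ∉ L → τ ∉ E → M β τ = 0) {x : W} (hx : Sep_Good cs L E x) (c : B) :
    Sep_Good cs L E (x * cs.simple c) ∨ (x ∈ WP cs L ∧ c ∉ L ∧ c ∉ E) := by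
  obtain ⟨g, v, rfl, hg, hv⟩ := hx
  have hvL : ∀ i ∈ L, ¬ cs.IsLeftDescent v i := fun i hi h =>
    Set.disjoint_left.mp hLE hi (hv i h)
  by_cases hv1 : v = 1
  · subst hv1
    by_cases hcL : c ∈ L
    · left
      refine ⟨g * cs.simple c, 1, by rw [mul_one, mul_one],
        (WP cs L).mul_mem hg ((simple_mem_WP_iff cs).mpr hcL), fun i hi => ?_⟩
      exact absurd hi (Sep_one_left cs i)
    · by_cases hcE : c ∈ E
      · left
        refine ⟨g, cs.simple c, by rw [mul_one], hg, fun i hi => ?_⟩
        have h1 : cs.simple c ∈ WP cs ({c} : Set B) := (simple_mem_WP_iff cs).mpr rfl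
        have h2 := left_descent_mem cs h1 hi
        rw [Set.mem_singleton_iff] at h2
        rw [h2]
        exact hcE
      · right
        exact ⟨by rwa [mul_one], hcL, hcE⟩
  · left
    rcases deodhar_left cs hvL c with h | ⟨i, hi, h⟩
    · refine ⟨g, v * cs.simple c, by rw [mul_assoc], hg, fun τ hτ => ?_⟩
      by_contra hτE
      have hτL : τ ∉ L := fun hL => h τ hL hτ
      by_cases hc : cs.IsRightDescent v c
      · apply hτE
        apply hv
        unfold CoxeterSystem.IsLeftDescent at hτ ⊢
        unfold CoxeterSystem.IsRightDescent at hc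
        have h1 : cs.simple τ * v = cs.simple τ * (v * cs.simple c) * cs.simple c := by
          rw [← mul_assoc, cs.simple_mul_simple_cancel_right]
        have h2 := cs.length_mul_le (cs.simple τ * (v * cs.simple c)) (cs.simple c)
        rw [← h1, cs.length_simple] at h2
        omega
      · obtain ⟨β, hβ⟩ := cs.exists_leftDescent_of_ne_one hv1
        have hβE := hv β hβ
        have hβ' : cs.IsLeftDescent (v * cs.simple c) β := by
          unfold CoxeterSystem.IsLeftDescent at hβ ⊢
          rw [cs.not_isRightDescent_iff] at hc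
          have h2 := cs.length_mul_le (cs.simple β * v) (cs.simple c)
          rw [cs.length_simple, mul_assoc] at h2
          omega
        have hne : β ≠ τ := fun e => hτE (e ▸ hβE)
        exact (two_left_descents cs hne hβ' hτ).1 (hM β hβE τ hτL hτE)
    · refine ⟨g * cs.simple i, v, ?_, (WP cs L).mul_mem hg ((simple_mem_WP_iff cs).mpr hi), hv⟩
      rw [mul_assoc, h, mul_assoc]

private theorem Sep_desc {L E : Set B} (hLE : Disjoint L E)
    (hM : ∀ β ∈ E, ∀ τ, τ ∉ L → τ ∉ E → M β τ = 0) {x : W} (hx : Sep_Good cs L E x) {c : B}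
    (hc : cs.IsRightDescent x c) : Sep_Good cs L E (x * cs.simple c) := by
  rcases Sep_step cs hLE hM hx c with h | ⟨h1, h2, -⟩
  · exact h
  · exact absurd (right_descent_mem cs h1 hc) h2

private theorem Sep_left {L E : Set B} (hLE : Disjoint L E)
    (hM : ∀ β ∈ E, ∀ τ, τ ∉ L → τ ∉ E → M β τ = 0) (x₀ : W) :
    ∀ (n : ℕ) (d : W), cs.length d = n → cs.length (x₀ * d) = cs.length x₀ + cs.length d →
      Sep_Good cs L E (x₀ * d) → Sep_Good cs L E x₀ := by
  intro n
  induction n with
  | zero =>
    intro d hd _ h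
    have : d = 1 := cs.length_eq_zero_iff.mp hd
    rwa [this, mul_one] at h
  | succ n ih =>
    intro d hd hl h
    have hd1 : d ≠ 1 := by
      rintro rfl
      rw [cs.length_one] at hd
      omega
    obtain ⟨c, hc⟩ := cs.exists_rightDescent_of_ne_one hd1
    rw [cs.isRightDescent_iff] at hc
    have h1 : x₀ * d * cs.simple c = x₀ * (d * cs.simple c) := mul_assoc _ _ _
    have h2 := cs.length_mul_le x₀ (d * cs.simple c)
    have hxc : cs.IsRightDescent (x₀ * d) c := by
      unfold CoxeterSystem.IsRightDescent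
      rw [h1]
      omega
    have hg := Sep_desc cs hLE hM h hxc
    rw [cs.isRightDescent_iff, h1] at hxc
    rw [h1] at hg
    exact ih (d * cs.simple c) (by omega) (by omega) hg

private theorem Sep_main {L E : Set B} (hLE : Disjoint L E)
    (hM : ∀ β ∈ E, ∀ τ, τ ∉ L → τ ∉ E → M β τ = 0) {u : W}
    (hu : ∀ i, i ∈ L ∨ i ∈ E → ¬ cs.IsRightDescent u i) :
    ∀ (n : ℕ) (x : W), cs.length x = n → Sep_Good cs L E x →
      cs.length (u * x) = cs.length u + cs.length x := by
  intro n
  induction n using Nat.strong_induction_on with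
  | _ n ih =>
    intro x hxn hx
    by_contra hne
    have hlt : cs.length (u * x) < cs.length u + cs.length x :=
      lt_of_le_of_ne (cs.length_mul_le u x) hne
    have hx1 : x ≠ 1 := by
      rintro rfl
      rw [mul_one, cs.length_one] at hlt
      omega
    obtain ⟨s, hs⟩ := cs.exists_rightDescent_of_ne_one hx1
    obtain ⟨x', hx'⟩ : ∃ x', x' = x * cs.simple s := ⟨_, rfl⟩
    have hxx' : x = x' * cs.simple s := by
      rw [hx', cs.simple_mul_simple_cancel_right]
    have hx'g : Sep_Good cs L E x' := by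
      rw [hx']; exact Sep_desc cs hLE hM hx hs
    have hlx' : cs.length x' + 1 = cs.length x := by
      rw [hx']; exact cs.isRightDescent_iff.mp hs
    have ihx' := ih (cs.length x') (by omega) x' rfl hx'g
    have hsu : cs.IsRightDescent (u * x') s := by
      unfold CoxeterSystem.IsRightDescent
      rw [mul_assoc, ← hxx']
      have h1 := cs.length_mul_simple (u * x') s
      rw [mul_assoc, ← hxx'] at h1
      omega
    have hsx' : ¬ cs.IsRightDescent x' s := by
      rw [cs.not_isRightDescent_iff, ← hxx']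
      omega
    by_cases hx'1 : x' = 1
    · rw [hx'1, mul_one] at hsu
      have hsL : s ∉ L := fun h => hu s (Or.inl h) hsu
      have hsE : s ∉ E := fun h => hu s (Or.inr h) hsu
      obtain ⟨g, v, hgv, hg, hv⟩ := hx
      have hvL : ∀ i ∈ L, ¬ cs.IsLeftDescent v i := fun i hi h =>
        Set.disjoint_left.mp hLE hi (hv i h)
      have hxs : x = cs.simple s := by rw [hxx', hx'1, one_mul]
      have hl := length_mul_of_min_left cs hvL hg
      rw [← hgv, hxs, cs.length_simple] at hl
      by_cases hv1 : v = 1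
      · rw [hv1, mul_one] at hgv
        apply hsL
        rw [← simple_mem_WP_iff cs, ← hxs, hgv]
        exact hg
      · have hv0 : cs.length v ≠ 0 := fun h => hv1 (cs.length_eq_zero_iff.mp h)
        have hg0 : cs.length g = 0 := by omega
        have hg1 : g = 1 := cs.length_eq_zero_iff.mp hg0
        rw [hg1, one_mul] at hgv
        apply hsE
        apply hv
        rw [← hgv, hxs]
        unfold CoxeterSystem.IsLeftDescent
        rw [cs.simple_mul_simple_self, cs.length_one, cs.length_simple]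
        exact Nat.zero_lt_one
    · obtain ⟨k, hk⟩ := cs.exists_rightDescent_of_ne_one hx'1
      have hks : k ≠ s := fun e => hsx' (e ▸ hk)
      have hku : cs.IsRightDescent (u * x') k := by
        rw [cs.isRightDescent_iff] at hk
        unfold CoxeterSystem.IsRightDescent
        have h1 := cs.length_mul_le u (x' * cs.simple k)
        rw [← mul_assoc] at h1
        omega
      have hMks : M k s ≠ 0 := (two_descents cs hks hku hsu).1
      obtain ⟨x₀, d, hx₀, hd, hxd⟩ := exists_min cs ({k, s} : Set B) x'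
      have hkm : k ∈ ({k, s} : Set B) := Set.mem_insert _ _
      have hsm : s ∈ ({k, s} : Set B) := Set.mem_insert_of_mem _ rfl
      have hlxd := length_mul_of_min cs hx₀ hd
      have hd1 : d ≠ 1 := by
        rintro rfl
        rw [mul_one] at hxd
        exact hx₀ k hkm (hxd ▸ hk)
      have hd0 : cs.length d ≠ 0 := fun h => hd1 (cs.length_eq_zero_iff.mp h)
      have hx₀g : Sep_Good cs L E x₀ :=
        Sep_left cs hLE hM x₀ (cs.length d) d rfl hlxd (hxd ▸ hx'g)
      rw [← hxd] at hlxd
      have ihx₀ := ih (cs.length x₀) (by omega) x₀ rfl hx₀g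
      have hds : d * cs.simple s ∈ WP cs ({k, s} : Set B) :=
        (WP cs _).mul_mem hd ((simple_mem_WP_iff cs).mpr hsm)
      have hxe : x = x₀ * (d * cs.simple s) := by rw [hxx', hxd, mul_assoc]
      obtain ⟨c, hcm, hcu⟩ : ∃ c ∈ ({k, s} : Set B), cs.IsRightDescent (u * x₀) c := by
        by_contra hcon
        push Not at hcon
        have e1 := length_mul_of_min cs hcon hd
        have e2 := length_mul_of_min cs hcon hds
        rw [mul_assoc, ← hxd] at e1
        rw [mul_assoc, ← hxe] at e2
        have e3 := length_mul_of_min cs hx₀ hds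
        rw [← hxe] at e3
        unfold CoxeterSystem.IsRightDescent at hsu
        rw [mul_assoc, ← hxx'] at hsu
        omega
      have hcx₀ : cs.length (x₀ * cs.simple c) = cs.length x₀ + 1 :=
        cs.not_isRightDescent_iff.mp (hx₀ c hcm)
      rcases Sep_step cs hLE hM hx₀g c with hgood | ⟨hx₀L, hcL, hcE⟩
      · have e1 := ih (cs.length (x₀ * cs.simple c)) (by omega) _ rfl hgood
        unfold CoxeterSystem.IsRightDescent at hcu
        rw [mul_assoc] at hcu
        omega
      · have hdisj : k ∉ E ∧ s ∉ E := by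
          rcases hcm with rfl | hcs
          · refine ⟨hcE, fun h => hMks ?_⟩
            rw [M.symmetric]
            exact hM s h c hcL hcE
          · rw [Set.mem_singleton_iff] at hcs
            subst hcs
            exact ⟨fun h => hMks (hM k h c hcL hcE), hcE⟩
        obtain ⟨l, h, hh, hl, hlh⟩ := exists_min_left cs (({k, s} : Set B) ∩ L)
          (d * cs.simple s)
        have hmono : ∀ {A C : Set B}, A ⊆ C → WP cs A ≤ WP cs C := fun hAC =>
          Subgroup.closure_mono (Set.image_mono hAC)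
        have hlks : l ∈ WP cs ({k, s} : Set B) := hmono Set.inter_subset_left hl
        have hlL : l ∈ WP cs L := hmono Set.inter_subset_right hl
        have hhks : h ∈ WP cs ({k, s} : Set B) := by
          have e1 : h = l⁻¹ * (d * cs.simple s) := by rw [hlh]; group
          rw [e1]
          exact (WP cs _).mul_mem ((WP cs _).inv_mem hlks) hds
        have hhd : ∀ i, cs.IsLeftDescent h i → i ∈ ({k, s} : Set B) := fun i hi =>
          left_descent_mem cs hhks hi
        have hhL : ∀ i ∈ L, ¬ cs.IsLeftDescent h i := fun i hi hi' =>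
          hh i ⟨hhd i hi', hi⟩ hi'
        obtain ⟨g, v, hgv, hg, hv⟩ := hx
        have hvL : ∀ i ∈ L, ¬ cs.IsLeftDescent v i := fun i hi h =>
          Set.disjoint_left.mp hLE hi (hv i h)
        have hx₀l : x₀ * l ∈ WP cs L := (WP cs L).mul_mem hx₀L hlL
        have heq : g * v = (x₀ * l) * h := by rw [← hgv, hxe, hlh, mul_assoc]
        have huq := min_unique_left cs hvL hhL hg hx₀l heq
        have hv1 : v = 1 := by
          by_contra hv1
          obtain ⟨β, hβ⟩ := cs.exists_leftDescent_of_ne_one hv1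
          have h1 := hv β hβ
          rw [huq.1] at hβ
          rcases hhd β hβ with h2 | h2
          · exact hdisj.1 (h2 ▸ h1)
          · rw [Set.mem_singleton_iff] at h2
            exact hdisj.2 (h2 ▸ h1)
        rw [hv1, mul_one] at hgv
        apply hne
        rw [hgv]
        exact length_mul_of_min cs (fun i hi => hu i (Or.inl hi)) hg

theorem sep {L E : Set B} (hLE : Disjoint L E)
    (hM : ∀ β ∈ E, ∀ τ, τ ∉ L → τ ∉ E → M β τ = 0) {u g v : W}
    (hu : ∀ i, i ∈ L ∨ i ∈ E → ¬ cs.IsRightDescent u i) (hg : g ∈ WP cs L)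
    (hv : ∀ i, cs.IsLeftDescent v i → i ∈ E) :
    cs.length (u * g * v) = cs.length u + cs.length g + cs.length v := by
  have hvL : ∀ i ∈ L, ¬ cs.IsLeftDescent v i := fun i hi h =>
    Set.disjoint_left.mp hLE hi (hv i h)
  have h1 := Sep_main cs hLE hM hu (cs.length (g * v)) (g * v) rfl ⟨g, v, rfl, hg, hv⟩
  rw [mul_assoc, h1, length_mul_of_min_left cs hvL hg, add_assoc]

end Pool.Agent.H73.HVN
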