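import Pool.Agent.H73.HVN.Sep

/-!
# Module StarA: the sets `Y, V, F`

`b` fixed, `L = lk M b`, `O = op M b` (so `B = {b} ⊔ L ⊔ O`; note `b ∉ O` as `M b b = 1`).

PLAN.
* `YY_mul`: `y s_i ∈ Y ↔ y ∈ Y` for `i ∈ L`: the coset `y W_L` is the same.
* `one_mem_YY`: a right descent of `l ∈ W_L` is in `L`, `b ∉ L`.
* `lt_of_mem_YY`: `l = 1` in the definition. `mul_b_notMem`: `b` is a right descent of `(y s_b) * 1`.
* `VV_step`: `v ∈ V` iff `v ≠ 1` and `v` has no left descent in `{i | i ≠ b}`. `deodhar_left` with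
  `{i | i ≠ b}`: either `v s_t` has no left descent `≠ b`, and `v s_t ≠ 1` since otherwise `v = s_t`, whose
  left descent is `t`, so `t = b`, excluded; or `v s_t = s_i v` with `i ≠ b`. In the latter case `i` is not a
  left descent of `v`, so `ℓ(v s_t) = ℓ(s_i v) > ℓ(v)`; `b` is a left descent of `v` (`v ≠ 1`), hence of
  `v s_t` (`ℓ(s_b v s_t) ≤ ℓ(s_b v) + 1 < ℓ(v s_t)`), and `i` is a left descent of `v s_t = s_i v`. So
  `M b i ≠ 0` by `two_left_descents`, `i ∈ L`.
* `FF_step`: `f ∈ F` iff `f` has no left descent in `{i | i ∉ O}`. `deodhar_left` with this set: either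
  `f s_t ∈ F` or `f s_t = s_i f` with `i ∉ O`. If `i ≠ b` then `i ∈ L`: done. If `i = b`: if `f = 1` then
  `s_t = s_b`, `t = b` (`simple_injective`), excluded. If `f ≠ 1` it has a left descent `o ∈ O`; as before
  `ℓ(f s_t) > ℓ(f)` and `o`, `b` are both left descents of `f s_t`, so `M b o ≠ 0`: contradiction.
* `VV_inv_notMem`: `b` is a left descent of `v` (`v ≠ 1` has some left descent, it must be `b`), so a
  right descent of `v⁻¹ * 1`.
* `FF_inv_mem`: `f ∈ F`, `l ∈ W_L`: to show `b` is not a left descent of `l⁻¹ f`. `f` has no left descent in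
  `{b} ∪ L = {i | i ∉ O}`, so `ℓ(g f) = ℓ(g) + ℓ(f)` for all `g ∈ W_{b ∪ L}` (`length_mul_of_min_left`); and
  `ℓ(s_b l⁻¹) = 1 + ℓ(l⁻¹)` because `b` is not a left descent of `l⁻¹ ∈ W_L` (`left_descent_mem`).
* `no_desc_of_notMem_YY` (C9): `y ∉ Y`: there is `l ∈ W_L` such that `b` is a right descent of `y l`. Write
  `y = u l₁` with `u` minimal (`exists_min`). Then `y l = u (l₁ l)`, so `b` is a right descent of `u`
  (`desc_of_mul`, `b ∉ L`). If `o ∈ O` were a right descent of `y = u l₁` it would be a right descent of `u`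
  (`desc_of_mul`, `o ∉ L`), and `two_descents` gives `M b o ≠ 0`: contradiction.
* `sep_V` (C8): `y ∈ Y`, `v ∈ V`: `y = u l₁`; `b` is not a right descent of `u = y l₁⁻¹`; `sep` with `E = {b}`.
* `sep_F` (C8): `y ∉ Y`, `f ∈ F`: `y = u l₁`; `u = y l₁⁻¹ ∉ Y` so `u` has no right descent in `O` (C9); `sep`
  with `E = O` (`M o τ = 0` for `τ ∉ L ∪ O`, i.e. `τ = b`, by symmetry of `M`).
-/

set_option autoImplicit false

namespace Pool.Agent.H73.HVN

universe u v

variable {B : Type v} {W : Type u} [Group W] {M : CoxeterMatrix B} (cs : CoxeterSystem M W)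

private theorem starA_cases (M : CoxeterMatrix B) (b i : B) :
    i = b ∨ i ∈ lk M b ∨ i ∈ op M b := by
  by_cases h1 : i = b
  · exact Or.inl h1
  · by_cases h2 : M b i = 0
    · exact Or.inr (Or.inr h2)
    · exact Or.inr (Or.inl ⟨h1, h2⟩)

private theorem starA_b_op (M : CoxeterMatrix B) (b : B) : b ∉ op M b := fun h => by
  have h1 : M b b = 0 := h
  rw [M.diagonal] at h1
  exact one_ne_zero h1

private theorem starA_b_lk (M : CoxeterMatrix B) (b : B) : b ∉ lk M b := fun h => h.1 rfl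

private theorem starA_simple_mem {L : Set B} {i : B} (hi : i ∈ L) : cs.simple i ∈ WP cs L :=
  Subgroup.subset_closure ⟨i, hi, rfl⟩

private theorem starA_self (t : B) : cs.IsLeftDescent (cs.simple t) t := by
  unfold CoxeterSystem.IsLeftDescent
  rw [cs.simple_mul_simple_self, cs.length_one, cs.length_simple]
  exact zero_lt_one

private theorem starA_up {w : W} {t i k : B} (h : w * cs.simple t = cs.simple i * w)
    (hi : ¬ cs.IsLeftDescent w i) (hk : cs.IsLeftDescent w k) :
    cs.IsLeftDescent (w * cs.simple t) k ∧ cs.IsLeftDescent (w * cs.simple t) i := by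
  have h1 := (cs.not_isLeftDescent_iff).1 hi
  have h2 := (cs.isLeftDescent_iff).1 hk
  constructor
  · unfold CoxeterSystem.IsLeftDescent
    have h3 := cs.length_mul_le (cs.simple k * w) (cs.simple t)
    rw [cs.length_simple, mul_assoc] at h3
    rw [h] at h3 ⊢
    rw [h1]
    omega
  · unfold CoxeterSystem.IsLeftDescent
    rw [h, cs.simple_mul_simple_cancel_left, h1]
    omega

theorem YY_mul {b : B} {i : B} (hi : i ∈ lk M b) (y : W) :
    y * cs.simple i ∈ YY cs b ↔ y ∈ YY cs b := by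
  have hs := starA_simple_mem cs hi
  constructor
  · intro h l hl
    have h1 := h (cs.simple i * l) (mul_mem hs hl)
    rwa [mul_assoc, cs.simple_mul_simple_cancel_left] at h1
  · intro h l hl
    have h1 := h (cs.simple i * l) (mul_mem hs hl)
    rwa [← mul_assoc] at h1

theorem one_mem_YY (b : B) : (1 : W) ∈ YY cs b := by
  intro l hl h
  rw [one_mul] at h
  exact starA_b_lk M b (right_descent_mem cs hl h)

theorem not_desc_of_mem_YY {b : B} {y : W} (hy : y ∈ YY cs b) : ¬ cs.IsRightDescent y b := by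
  have h := hy 1 (one_mem _)
  rwa [mul_one] at h

theorem mul_b_notMem_YY {b : B} {y : W} (hy : y ∈ YY cs b) : y * cs.simple b ∉ YY cs b := by
  intro h
  refine not_desc_of_mem_YY cs h ?_
  rw [cs.isRightDescent_iff_not_isRightDescent_mul, cs.simple_mul_simple_cancel_right]
  exact not_desc_of_mem_YY cs hy

theorem simple_mem_VV (b : B) : cs.simple b ∈ VV cs b := by
  refine ⟨fun h => ?_, fun i hi => ?_⟩
  · have h1 := cs.length_simple b
    rw [h, cs.length_one] at h1
    exact zero_ne_one h1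
  · have h1 : i ∈ ({b} : Set B) :=
      left_descent_mem cs (starA_simple_mem cs (Set.mem_singleton b)) hi
    exact h1

theorem VV_step {b : B} {v : W} (hv : v ∈ VV cs b) {t : B} (h : ¬ (v = cs.simple b ∧ t = b)) :
    v * cs.simple t ∈ VV cs b ∨ ∃ i ∈ lk M b, v * cs.simple t = cs.simple i * v := by
  obtain ⟨hv1, hv2⟩ := hv
  rcases deodhar_left cs (L := {i | i ≠ b}) (v := v) (fun i hi h1 => hi (hv2 i h1)) t with h1 | h1
  · left
    refine ⟨fun h2 => h ?_, fun i hi => ?_⟩
    · have h3 : v = cs.simple t := by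
        rw [← cs.simple_mul_simple_cancel_right (w := v) t, h2, one_mul]
      have h4 : t = b := hv2 t (by rw [h3]; exact starA_self cs t)
      exact ⟨by rw [h3, h4], h4⟩
    · by_contra h2
      exact h1 i h2 hi
  · right
    obtain ⟨i, hi, h1⟩ := h1
    obtain ⟨k, hk⟩ := cs.exists_leftDescent_of_ne_one hv1
    have hkb := hv2 k hk
    subst hkb
    have h2 : ¬ cs.IsLeftDescent v i := fun h3 => hi (hv2 i h3)
    obtain ⟨h3, h4⟩ := starA_up cs h1 h2 hk
    exact ⟨i, ⟨hi, (two_left_descents cs (Ne.symm hi) h3 h4).1⟩, h1⟩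

theorem FF_step {b : B} {f : W} (hf : f ∈ FF cs b) {t : B} (h : ¬ (f = 1 ∧ t = b)) :
    f * cs.simple t ∈ FF cs b ∨ ∃ i ∈ lk M b, f * cs.simple t = cs.simple i * f := by
  rcases deodhar_left cs (L := {i | i ∉ op M b}) (v := f) (fun i hi h1 => hi (hf i h1)) t with
    h1 | h1
  · left
    intro i hi
    by_contra h2
    exact h1 i h2 hi
  · right
    obtain ⟨i, hi, h1⟩ := h1
    rcases starA_cases M b i with h2 | h2 | h2
    · exfalso
      subst h2
      by_cases hf1 : f = 1
      · subst hf1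
        rw [one_mul, mul_one] at h1
        exact h ⟨rfl, simple_injective cs h1⟩
      · obtain ⟨o, ho⟩ := cs.exists_leftDescent_of_ne_one hf1
        have h3 : ¬ cs.IsLeftDescent f i := fun h4 => hi (hf i h4)
        obtain ⟨h4, h5⟩ := starA_up cs h1 h3 ho
        have h6 : i ≠ o := fun h7 => hi (h7 ▸ hf o ho)
        exact (two_left_descents cs h6 h5 h4).1 (hf o ho)
    · exact ⟨i, h2, h1⟩
    · exact absurd h2 hi

theorem one_mem_FF (b : B) : (1 : W) ∈ FF cs b := by
  intro i hi
  exact absurd hi (cs.not_isLeftDescent_one i)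

theorem simple_notMem_FF (b : B) : cs.simple b ∉ FF cs b := by
  intro h
  exact starA_b_op M b (h b (starA_self cs b))

theorem VV_inv_notMem {b : B} {v : W} (hv : v ∈ VV cs b) : v⁻¹ ∉ YY cs b := by
  intro h
  obtain ⟨k, hk⟩ := cs.exists_leftDescent_of_ne_one hv.1
  have hkb := hv.2 k hk
  subst hkb
  exact not_desc_of_mem_YY cs h (cs.isRightDescent_inv_iff.2 hk)

theorem FF_inv_mem {b : B} {f : W} (hf : f ∈ FF cs b) : f⁻¹ ∈ YY cs b := by
  intro l hl h
  have h0 : f⁻¹ * l = (l⁻¹ * f)⁻¹ := by rw [mul_inv_rev, inv_inv]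
  rw [h0, cs.isRightDescent_inv_iff] at h
  have hmin : ∀ i ∈ {i | i ∉ op M b}, ¬ cs.IsLeftDescent f i := fun i hi h1 => hi (hf i h1)
  have hsub : WP cs (lk M b) ≤ WP cs {i | i ∉ op M b} :=
    Subgroup.closure_mono (Set.image_mono fun i hi h1 => hi.2 h1)
  have hl' : l⁻¹ ∈ WP cs {i | i ∉ op M b} := inv_mem (hsub hl)
  have hb : cs.simple b ∈ WP cs {i | i ∉ op M b} := starA_simple_mem cs (starA_b_op M b)
  have h1 := length_mul_of_min_left cs hmin hl'
  have h2 := length_mul_of_min_left cs hmin (mul_mem hb hl')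
  unfold CoxeterSystem.IsLeftDescent at h
  rw [← mul_assoc, h1, h2] at h
  have h3 : cs.IsLeftDescent l⁻¹ b := by
    unfold CoxeterSystem.IsLeftDescent
    omega
  exact starA_b_lk M b (left_descent_mem cs (inv_mem hl) h3)

theorem no_desc_of_notMem_YY {b : B} {y : W} (hy : y ∉ YY cs b) {o : B} (ho : o ∈ op M b) :
    ¬ cs.IsRightDescent y o := by
  intro h
  obtain ⟨u, l₁, hu, hl₁, hyu⟩ := exists_min cs (lk M b) y
  unfold YY at hy
  rw [Set.mem_setOf_eq] at hy
  push Not at hy
  obtain ⟨l, hl, hlb⟩ := hy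
  rw [hyu, mul_assoc] at hlb
  rw [hyu] at h
  have h1 := desc_of_mul cs hu (mul_mem hl₁ hl) (starA_b_lk M b) hlb
  have h2 := desc_of_mul cs hu hl₁ (fun h3 => h3.2 ho) h
  have h3 : b ≠ o := fun h4 => starA_b_op M b (by rw [← h4] at ho; exact ho)
  exact (two_descents cs h3 h1 h2).1 ho

theorem sep_V {b : B} {y v : W} (hy : y ∈ YY cs b) (hv : v ∈ VV cs b) :
    cs.length (y * v) = cs.length y + cs.length v := by
  obtain ⟨u, l₁, hu, hl₁, hyu⟩ := exists_min cs (lk M b) y
  have hub : ¬ cs.IsRightDescent u b := by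
    have h1 := hy l₁⁻¹ (inv_mem hl₁)
    rwa [hyu, mul_inv_cancel_right] at h1
  have h1 := sep cs (L := lk M b) (E := {b}) (u := u) (g := l₁) (v := v)
    (Set.disjoint_singleton_right.2 (starA_b_lk M b)) ?_ ?_ hl₁ hv.2
  · rw [hyu, h1, length_mul_of_min cs hu hl₁]
  · rintro β hβ τ h1 h2
    rw [Set.mem_singleton_iff] at hβ h2
    subst hβ
    by_contra h3
    exact h1 ⟨h2, h3⟩
  · rintro i (hi | hi)
    · exact hu i hi
    · rw [Set.mem_singleton_iff] at hi
      rw [hi]
      exact hub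

theorem sep_F {b : B} {y f : W} (hy : y ∉ YY cs b) (hf : f ∈ FF cs b) :
    cs.length (y * f) = cs.length y + cs.length f := by
  obtain ⟨u, l₁, hu, hl₁, hyu⟩ := exists_min cs (lk M b) y
  have huY : u ∉ YY cs b := by
    intro h1
    refine hy fun l hl => ?_
    rw [hyu, mul_assoc]
    exact h1 _ (mul_mem hl₁ hl)
  have h1 := sep cs (L := lk M b) (E := op M b) (u := u) (g := l₁) (v := f)
    (Set.disjoint_left.2 fun i h2 h3 => h2.2 h3) ?_ ?_ hl₁ hf
  · rw [hyu, h1, length_mul_of_min cs hu hl₁]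
  · rintro β hβ τ h1 h2
    rcases starA_cases M b τ with h3 | h3 | h3
    · rw [h3, M.symmetric]
      exact hβ
    · exact absurd h3 h1
    · exact absurd h3 h2
  · rintro i (hi | hi)
    · exact hu i hi
    · exact no_desc_of_notMem_YY cs huY hi

end Pool.Agent.H73.HVN
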